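import Pool.Agent.W624.StzI

set_option autoImplicit false
set_option linter.unusedSectionVars false

namespace Pool.Agent.W624.Stz

open Finset MvPolynomial

/-- cobar polynomials -/
abbrev QQ (q : ℕ) := MvPolynomial (Fin q × ℕ) (ZMod 2)

/-- into the big ring -/
noncomputable def io (q : ℕ) : QQ q →ₐ[ZMod 2] RR Empty := aeval (fun p => X (.x (p.1 : ℕ) p.2))

/-- out of the big ring -/
noncomputable def ro (q : ℕ) : RR Empty →ₐ[ZMod 2] QQ q :=
  aeval (fun v => match v with
    | .x a n => if h : a < q then X (⟨a, h⟩, n) else 0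
    | .s _ _ => 0
    | .y _ _ => 0)

theorem io_X (q : ℕ) (p : Fin q × ℕ) : io q (X p) = X (.x (p.1 : ℕ) p.2) := aeval_X _ _

theorem ro_x (q a n : ℕ) : ro q (X (.x a n)) = if h : a < q then X (⟨a, h⟩, n) else 0 :=
  aeval_X _ _

theorem ro_io (q : ℕ) (f : QQ q) : ro q (io q f) = f := by
  have : (ro q).comp (io q) = AlgHom.id (ZMod 2) (QQ q) := by
    apply algHom_ext
    rintro ⟨a, n⟩
    rw [AlgHom.comp_apply, io_X, ro_x, dif_pos a.2]
    rfl
  exact DFunLike.congr_fun this f

theorem io_ro {κ : Empty → Kd} {q : ℕ} {t : ℤ} {ν : Empty → ℕ} {f : RR Empty}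
    (hf : TT κ q t ν 0 f) : io q (ro q f) = f := by
  have := hom_congr hf ((io q).comp (ro q)) (AlgHom.id _ _) (by
    intro a n ha
    rw [AlgHom.comp_apply, ro_x, dif_pos ha, io_X]
    rfl) (fun c => c.elim)
  exact this

theorem io_cut (q : ℕ) (f : QQ q) : cut Empty q (io q f) = io q f := by
  have : (cut Empty q).comp (io q) = io q := by
    apply algHom_ext
    rintro ⟨a, n⟩
    rw [AlgHom.comp_apply, io_X]
    have h1 : cut Empty q (X (.x (a : ℕ) n)) = co (cpt q (uni Empty)) (.x (a : ℕ) n) := ev_X _ _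
    rw [h1]
    simp only [co, cpt]
    rw [if_pos a.2]
    rfl
  exact DFunLike.congr_fun this f

theorem io_js (q : ℕ) (f : QQ q) : IW (js Empty) (io q f) 0 := by
  have h0 : IW (fun _ : Fin q × ℕ => (0 : ℕ)) f 0 := by
    intro e _
    rw [Finsupp.weight_apply]
    simp [Finsupp.sum]
  refine IW.aeval' (AddMonoidHom.id _) (io q) (w := fun _ => (0 : ℕ)) (w' := js Empty) ?_ h0
  intro v
  rw [io_X]
  exact isWeightedHomogeneous_X _ (js Empty) _

/-- the cofaces of the frozen statement -/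
noncomputable def cf (s : ℕ) (j : Fin (s + 2)) : QQ s →ₐ[ZMod 2] QQ (s + 1) :=
  MvPolynomial.aeval
    (fun p : Fin s × ℕ =>
      if (p.1 : ℕ) + 1 < (j : ℕ) then
        (MvPolynomial.X (p.1.castSucc, p.2) : MvPolynomial (Fin (s + 1) × ℕ) (ZMod 2))
      else if (j : ℕ) < (p.1 : ℕ) + 1 then
        (MvPolynomial.X (p.1.succ, p.2) : MvPolynomial (Fin (s + 1) × ℕ) (ZMod 2))
      else
        ∑ i ∈ Finset.range (p.2 + 2),
          (if i = p.2 + 1 then (1 : MvPolynomial (Fin (s + 1) × ℕ) (ZMod 2))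
            else MvPolynomial.X (p.1.castSucc, p.2 - i)) ^ (2 ^ i) *
          (if i = 0 then (1 : MvPolynomial (Fin (s + 1) × ℕ) (ZMod 2))
            else MvPolynomial.X (p.1.succ, i - 1)))

theorem op_range {A : Type*} [CommRing A] (a b : ℕ → A) (N : ℕ) :
    op a b N = ∑ k ∈ range (N + 1), a (N - k) ^ (2 ^ k) * b k := by
  rw [op, ← Nat.sum_antidiagonal_swap]
  exact Nat.sum_antidiagonal_eq_sum_range_succ (fun k l => a l ^ (2 ^ k) * b k) N

theorem io_cf (s : ℕ) (j : Fin (s + 2)) (f : QQ s) :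
    io (s + 1) (cf s j f) = ev (fc (act kun) s j (uni Empty)) (io s f) := by
  have : (io (s + 1)).comp (cf s j) = (ev (fc (act kun) s j (uni Empty))).comp (io s) := by
    apply algHom_ext
    rintro ⟨a, n⟩
    rw [AlgHom.comp_apply, AlgHom.comp_apply, io_X, ev_X, cf, aeval_X]
    obtain ⟨j, hj⟩ := j
    obtain ⟨a, ha⟩ := a
    simp only
    rcases Nat.eq_zero_or_pos j with rfl | hj0
    · rw [if_neg (by omega), if_pos (by omega), io_X, fc_zero]
      rfl
    · obtain ⟨j, rfl⟩ : ∃ k, j = k + 1 := ⟨j - 1, by omega⟩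
      rcases Nat.lt_or_ge j s with hjs | hjs
      · rw [fc_mid _ hjs]
        simp only [co]
        rcases lt_trichotomy a j with h | h | h
        · rw [if_pos (by omega), io_X, mrg_lt h]
          rfl
        · subst h
          rw [if_neg (by omega), if_neg (by omega), mrg_eq, mul_g, op_range, map_sum]
          refine sum_congr rfl fun i hi => ?_
          rw [mem_range] at hi
          rw [map_mul, map_pow]
          congr 2
          · by_cases h1 : i = n + 1
            · subst h1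
              rw [if_pos rfl, map_one, Nat.sub_self]
              rfl
            · rw [if_neg h1, io_X, show n + 1 - i = (n - i) + 1 by omega]
              rfl
          · by_cases h1 : i = 0
            · subst h1
              rw [if_pos rfl, map_one]
              rfl
            · obtain ⟨i, rfl⟩ : ∃ k, i = k + 1 := ⟨i - 1, by omega⟩
              rw [if_neg h1, io_X]
              rfl
        · rw [if_neg (by omega), if_pos (by omega), io_X, mrg_gt h]
          rfl
      · have : j = s := by omega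
        subst this
        rw [if_pos (by omega), io_X, fc_last _ (by omega)]
        rfl
  exact DFunLike.congr_fun this f

theorem io_d (s : ℕ) (f : QQ s) :
    io (s + 1) (∑ j : Fin (s + 2), cf s j f) = dd kun s (io s f) := by
  rw [map_sum, dd_apply, Finset.sum_range]
  exact sum_congr rfl fun j _ => io_cf s j f

theorem PHI_sq (f : RR Empty) : PHI Empty f = f ^ 2 := by
  apply sq_of_hom
  intro v
  cases v with
  | x a n => exact PHI_x a n
  | s a n => exact PHI_s a n
  | y c n => exact c.elim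

theorem kk : (ktw : Empty → Kd) = kun := funext fun c => c.elim

/-- iterated weight doubling -/
def dk (k : ℕ) (m : ℤ × ((Empty → ℕ) × ℕ)) : ℤ × ((Empty → ℕ) × ℕ) :=
  (2 ^ k * m.1, (m.2.1, 2 ^ k * m.2.2))

theorem cm_pow (k : ℕ) (f : RR Empty) (m : ℤ × ((Empty → ℕ) × ℕ)) :
    cm (wF kun) (dk k m) (f ^ (2 ^ k)) = (cm (wF kun) m f) ^ (2 ^ k) := by
  induction k with
  | zero =>
    have : dk 0 m = m := by
      refine Prod.ext ?_ (Prod.ext rfl ?_)
      · simp [dk]
      · simp [dk]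
    rw [this, pow_zero, pow_one, pow_one]
  | succ k ih =>
    have h1 : dk (k + 1) m = dbl (Empty → ℕ) (dk k m) := by
      refine Prod.ext ?_ (Prod.ext rfl ?_)
      · simp [dk, dbl, pow_succ']; ring
      · simp [dk, dbl, pow_succ']; ring
    have h2 := cm_comm (w := wF (kun : Empty → Kd)) (w' := wF ktw) (dbl (Empty → ℕ))
      (dbl_inj _) (PHI Empty).toLinearMap (fun _ _ hf => IW_PHI hf) (f ^ (2 ^ k)) (dk k m)
    simp only [AlgHom.toLinearMap_apply] at h2
    rw [kk, PHI_sq, PHI_sq, ih] at h2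
    rw [h1, pow_succ, pow_mul, h2, ← pow_mul]

theorem hom_claim {s r : ℕ} (hQ : ∀ k : ℕ, k ≤ s → QT r (s - k) 0 (1 + k) (1 + k))
    {t : ℤ} {ν : Empty → ℕ} {x : RR Empty} (hx : TT kun (s + 1) t ν 0 x) :
    ∀ i : ℕ, (∃ y, TT kun s (2 ^ (r + i) * t) ν 0 y ∧ dd kun s y = x ^ (2 ^ (r + i))) →
      ∃ y, TT kun s (2 ^ r * t) ν 0 y ∧ dd kun s y = x ^ (2 ^ r) := by
  have hxk : ∀ k : ℕ, TT kun (s + 1) (2 ^ k * t) ν 0 (x ^ (2 ^ k)) := by
    intro k
    refine ⟨by rw [map_pow, hx.cu], ?_⟩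
    have h1 := hx.iw.pow (2 ^ k)
    have h2 : 2 ^ k • (t, (ν, 0)) = (2 ^ k * t, (ν, 0)) := by
      refine Prod.ext ?_ (Prod.ext ?_ ?_)
      · simp
      · exact Subsingleton.elim _ _
      · simp
    rwa [h2] at h1
  intro i
  induction i with
  | zero => intro h; simpa using h
  | succ i ih =>
    rintro ⟨y, hy, hdy⟩
    apply ih
    have h1 : (2 : ℤ) ^ (r + (i + 1)) * t = 2 * (2 ^ (r + i) * t) := by
      rw [← add_assoc, pow_succ]; ring
    rw [h1] at hy
    apply inj_step hQ (Dvd.dvd.mul_right (pow_dvd_pow 2 (by omega)) t) (hxk (r + i)) (y := y)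
    · rw [kk]; exact hy
    · rw [kk, hdy, PHI_sq, ← pow_mul, ← pow_succ, add_assoc]

theorem final (s : ℕ) : ∃ r : ℕ, ∀ x : QQ (s + 1), ∀ i : ℕ,
    (∃ y : QQ s, ∑ j : Fin (s + 2), cf s j y = x ^ (2 ^ (r + i))) →
    ∃ y : QQ s, ∑ j : Fin (s + 2), cf s j y = x ^ (2 ^ r) := by
  classical
  obtain ⟨r, hr⟩ := exists_r s
  refine ⟨r, fun x i => ?_⟩
  rintro ⟨y, hy⟩
  set Xx := io (s + 1) x with hXx
  set Y := io s y with hY
  have hdY : dd kun s Y = Xx ^ (2 ^ (r + i)) := by
    rw [hY, ← io_d, hy, map_pow]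
  have key : ∀ m : ℤ × ((Empty → ℕ) × ℕ), ∃ z : QQ s,
      dd kun s (io s z) = (cm (wF kun) m Xx) ^ (2 ^ r) := by
    intro m
    by_cases hm : m.2.2 = 0
    · have hxm : TT kun (s + 1) m.1 m.2.1 0 (cm (wF kun) m Xx) := by
        refine ⟨by rw [← cm_cut, io_cut], ?_⟩
        have h5 : ((m.1, (m.2.1, 0)) : ℤ × ((Empty → ℕ) × ℕ)) = m :=
          Prod.ext rfl (Prod.ext rfl hm.symm)
        rw [h5]
        exact cm_IW (wF kun) m Xx
      have hdk : dk (r + i) m = (2 ^ (r + i) * m.1, (m.2.1, 0)) := by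
        refine Prod.ext rfl (Prod.ext rfl ?_)
        simp [dk, hm]
      obtain ⟨z, hz, hdz⟩ := hom_claim hr hxm i ⟨cm (wF kun) (dk (r + i) m) Y, ⟨by
          rw [← cm_cut, io_cut], by
          rw [← hdk]; exact cm_IW _ _ _⟩, by
          rw [← cm_dd naf_un, hdY, cm_pow]⟩
      exact ⟨ro s z, by rw [io_ro hz, hdz]⟩
    · refine ⟨0, ?_⟩
      have h0 : cm (wF kun) m Xx = 0 := by
        have h1 := io_js (s + 1) x
        ext e
        rw [coeff_weightedHomogeneousComponent, coeff_zero]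
        split_ifs with he
        · by_contra hne
          have h2 := h1 hne
          apply hm
          let pr : ℤ × ((Empty → ℕ) × ℕ) →+ ℕ :=
            (AddMonoidHom.snd (Empty → ℕ) ℕ).comp (AddMonoidHom.snd ℤ _)
          have h3 : js Empty = fun v => pr (wF kun v) := by
            funext v
            cases v <;> rfl
          rw [h3, wmap, he] at h2
          exact h2
        · rfl
      rw [h0, map_zero, map_zero, zero_pow (by positivity)]
  choose Z hZ using key
  obtain ⟨S, hS⟩ := cm_sum (wF kun) Xx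
  refine ⟨∑ m ∈ S, Z m, ?_⟩
  have h1 : io (s + 1) (∑ j : Fin (s + 2), cf s j (∑ m ∈ S, Z m)) = io (s + 1) (x ^ (2 ^ r)) := by
    rw [io_d, map_sum, map_sum, map_pow, ← hXx]
    conv_rhs => rw [hS]
    rw [sum_pow0]
    exact sum_congr rfl fun m _ => hZ m
  have h2 := congrArg (ro (s + 1)) h1
  rwa [ro_io, ro_io] at h2

end Pool.Agent.W624.Stz
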