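import Mathlib

set_option autoImplicit false

namespace Pool.Agent.W624.Kameko

open MvPolynomial

/-- The polynomial algebra `P_d = F_2[x_1, ..., x_d]`. -/
abbrev P (d : ℕ) : Type := MvPolynomial (Fin d) (ZMod 2)

/-- The total Steenrod square with a bookkeeping variable `T`: the ring homomorphism
`P_d → P_d[T]` with `x_i ↦ x_i + x_i ^ 2 T`, i.e. `f ↦ ∑ k, Sq^k(f) T^k`. -/
noncomputable def sqT (d : ℕ) : P d →ₐ[ZMod 2] Polynomial (P d) :=
  aeval (fun i => Polynomial.C (X i) + Polynomial.C (X i ^ 2) * Polynomial.X)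

/-- The Steenrod square `Sq^k` on `P_d`, the coefficient of `T^k` of the total square. -/
noncomputable def Sq (d k : ℕ) : P d →ₗ[ZMod 2] P d :=
  ((Polynomial.lcoeff (P d) k).restrictScalars (ZMod 2)) ∘ₗ (sqT d).toLinearMap

lemma Sq_apply (d k : ℕ) (f : P d) : Sq d k f = (sqT d f).coeff k := rfl

/-- The linear functionals on `P_d`. -/
abbrev Fun (d : ℕ) : Type := P d →ₗ[ZMod 2] ZMod 2

/-- The property of `φ` to lie in `H_n`, the degree `n` part of the graded dual of `P_d`: it only
depends on the homogeneous component of degree `n`. -/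
def InH (d n : ℕ) (φ : Fun d) : Prop := ∀ f, φ f = φ (homogeneousComponent n f)

/-- The property of `φ` to be annihilated by all dual Steenrod operations `Sq^k_*`, `k > 0`, where
`Sq^k_* φ = φ ∘ Sq^k`. -/
def IsPrim (d : ℕ) (φ : Fun d) : Prop := ∀ k, 0 < k → ∀ f : P d, φ (Sq d k f) = 0

lemma PH_add (d n : ℕ) {a b : Fun d} (ha : InH d n a ∧ IsPrim d a) (hb : InH d n b ∧ IsPrim d b) :
    InH d n (a + b) ∧ IsPrim d (a + b) := by
  refine ⟨fun f => ?_, fun k hk f => ?_⟩
  · simp only [LinearMap.add_apply]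
    rw [ha.1 f, hb.1 f]
  · simp only [LinearMap.add_apply]
    rw [ha.2 k hk f, hb.2 k hk f, add_zero]

lemma PH_zero (d n : ℕ) : InH d n 0 ∧ IsPrim d 0 := ⟨fun _ => rfl, fun _ _ _ => rfl⟩

lemma PH_smul (d n : ℕ) (c : ZMod 2) {a : Fun d} (ha : InH d n a ∧ IsPrim d a) :
    InH d n (c • a) ∧ IsPrim d (c • a) := by
  refine ⟨fun f => ?_, fun k hk f => ?_⟩
  · simp only [LinearMap.smul_apply]
    rw [ha.1 f]
  · simp only [LinearMap.smul_apply]
    rw [ha.2 k hk f, smul_zero]

/-- `PH_n` as a subspace of the space of linear functionals on `P_d`: the elements of `H_n`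
annihilated by all `Sq^k_*` with `k > 0`. -/
def PHsub (d n : ℕ) : Submodule (ZMod 2) (Fun d) where
  carrier := {φ | InH d n φ ∧ IsPrim d φ}
  add_mem' := PH_add d n
  zero_mem' := PH_zero d n
  smul_mem' c _ := PH_smul d n c

/-- The vector space `PH_n`. -/
def PH (d n : ℕ) : Type := PHsub d n

noncomputable instance (d n : ℕ) : AddCommGroup (PH d n) := Submodule.addCommGroup (PHsub d n)

noncomputable instance (d n : ℕ) : Module (ZMod 2) (PH d n) := Submodule.module (PHsub d n)

/-- The action of a matrix on `P_d` by linear substitution, `x_j ↦ ∑ i, w_{ij} x_i`. -/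
noncomputable def actM (d : ℕ) (w : Matrix (Fin d) (Fin d) (ZMod 2)) : P d →ₐ[ZMod 2] P d :=
  aeval (fun j => ∑ i, C (w i j) * X i)

lemma actM_X (d : ℕ) (w : Matrix (Fin d) (Fin d) (ZMod 2)) (j : Fin d) :
    actM d w (X j) = ∑ i, C (w i j) * X i := by
  simp [actM]

lemma actM_mul (d : ℕ) (v w : Matrix (Fin d) (Fin d) (ZMod 2)) (f : P d) :
    actM d (v * w) f = actM d v (actM d w f) := by
  have : actM d (v * w) = (actM d v).comp (actM d w) := by
    apply MvPolynomial.algHom_ext
    intro j
    rw [AlgHom.comp_apply, actM_X, actM_X, map_sum]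
    simp only [map_mul, actM_X, algHom_C, MvPolynomial.algebraMap_eq]
    simp only [Matrix.mul_apply, map_sum, map_mul, Finset.sum_mul, Finset.mul_sum]
    rw [Finset.sum_comm]
    refine Finset.sum_congr rfl fun i _ => Finset.sum_congr rfl fun k _ => ?_
    ring
  rw [this]; rfl

lemma actM_one (d : ℕ) : actM d 1 = AlgHom.id _ _ := by
  apply MvPolynomial.algHom_ext
  intro j
  rw [actM_X]
  simp [Matrix.one_apply]

lemma zmod_two_sq (a : ZMod 2) : a ^ 2 = a := by
  revert a; decide

lemma sqT_X (d : ℕ) (i : Fin d) :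
    sqT d (X i) = Polynomial.C (X i) + Polynomial.C (X i ^ 2) * Polynomial.X := by
  simp [sqT]

lemma sqT_C (d : ℕ) (a : ZMod 2) : sqT d (C a) = Polynomial.C (C a) := by
  rw [algHom_C]; rfl

/-- linear forms `x` satisfy `Sq x = x + x^2 T`. -/
lemma sqT_actM (d : ℕ) (w : Matrix (Fin d) (Fin d) (ZMod 2)) (f : P d) :
    sqT d (actM d w f) = Polynomial.map (actM d w : P d →+* P d) (sqT d f) := by
  have : (sqT d).comp (actM d w) = (Polynomial.mapAlgHom (actM d w)).comp (sqT d) := by
    apply MvPolynomial.algHom_ext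
    intro j
    rw [AlgHom.comp_apply, AlgHom.comp_apply, actM_X, map_sum, sqT_X]
    simp only [map_mul, map_add, sqT_X, sqT_C, Polynomial.coe_mapAlgHom, Polynomial.map_X,
      Polynomial.map_C, AlgHom.coe_toRingHom, map_pow, actM_X]
    have h2 : (Polynomial.C (∑ i, C (w i j) * X i) : Polynomial (P d)) ^ 2 =
        ∑ i, Polynomial.C (C (w i j)) * Polynomial.C (X i) ^ 2 := by
      rw [← map_pow, CharTwo.sum_sq, map_sum]
      refine Finset.sum_congr rfl fun i _ => ?_
      rw [mul_pow, ← C_pow, zmod_two_sq, map_mul, map_pow]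
    rw [h2, map_sum, Finset.sum_mul, ← Finset.sum_add_distrib]
    refine Finset.sum_congr rfl fun i _ => ?_
    rw [map_mul]
    ring
  exact DFunLike.congr_fun this f

lemma Sq_actM (d k : ℕ) (w : Matrix (Fin d) (Fin d) (ZMod 2)) (f : P d) :
    Sq d k (actM d w f) = actM d w (Sq d k f) := by
  rw [Sq_apply, Sq_apply, sqT_actM, Polynomial.coeff_map]; rfl

lemma Sq_zero (d : ℕ) (f : P d) : Sq d 0 f = f := by
  have : ((Polynomial.aeval (0 : P d)).restrictScalars (ZMod 2)).comp (sqT d) =
      AlgHom.id (ZMod 2) (P d) := by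
    apply MvPolynomial.algHom_ext
    intro j
    rw [AlgHom.comp_apply, sqT_X]
    simp
  have h := DFunLike.congr_fun this f
  rw [Sq_apply, Polynomial.coeff_zero_eq_aeval_zero]
  exact h

lemma actM_isHomogeneous (d : ℕ) (w : Matrix (Fin d) (Fin d) (ZMod 2)) (f : P d) (n : ℕ)
    (hf : f.IsHomogeneous n) : (actM d w f).IsHomogeneous n := by
  have := hf.aeval (fun j : Fin d => ∑ i, C (w i j) * (X i : P d)) (n := 1) (by
    intro j
    apply IsHomogeneous.sum
    intro i _
    simpa using (isHomogeneous_C (Fin d) (w i j)).mul (isHomogeneous_X (ZMod 2) i))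
  simpa [actM] using this

lemma hc_actM (d : ℕ) (w : Matrix (Fin d) (Fin d) (ZMod 2)) (f : P d) (n : ℕ) :
    homogeneousComponent n (actM d w f) = actM d w (homogeneousComponent n f) := by
  conv_lhs => rw [← sum_homogeneousComponent f, map_sum, map_sum]
  have h : ∀ i, homogeneousComponent n (actM d w (homogeneousComponent i f)) =
      if i = n then actM d w (homogeneousComponent n f) else 0 := by
    intro i
    split_ifs with h
    · subst h
      exact homogeneousComponent_of_mem
        (by
          rw [mem_homogeneousSubmodule]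
          exact actM_isHomogeneous _ _ _ _ (homogeneousComponent_isHomogeneous _ _)) |>.trans
        (by simp)
    · rw [homogeneousComponent_of_mem (m := n) (n := i)]
      · rw [if_neg (fun h' => h h'.symm)]
      · rw [mem_homogeneousSubmodule]
        exact actM_isHomogeneous _ _ _ _ (homogeneousComponent_isHomogeneous _ _)
  rw [Finset.sum_congr rfl (fun i _ => h i)]
  rw [Finset.sum_ite_eq' (Finset.range (f.totalDegree + 1)) n]
  split_ifs with h1
  · rfl
  · rw [homogeneousComponent_eq_zero, map_zero]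
    rw [Finset.mem_range] at h1
    omega

end Pool.Agent.W624.Kameko
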