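import Pool.Agent.W624.Kameko

set_option autoImplicit false

namespace Pool.Agent.W624.Kameko

open MvPolynomial

/-- The exponent vector `t ↦ (t - 1) / 2`. -/
noncomputable def half {d : ℕ} (t : Fin d →₀ ℕ) : Fin d →₀ ℕ :=
  t.mapRange (fun k => (k - 1) / 2) rfl

/-- The linear map dual to Kameko's map: it sends the monomial `x^t` to `x^{(t-1)/2}` when all
`t_i` are odd, and to `0` otherwise. -/
noncomputable def kap (d : ℕ) : P d →ₗ[ZMod 2] P d :=
  (basisMonomials (Fin d) (ZMod 2)).constr (ZMod 2)
    (fun t => open Classical in if ∀ i, Odd (t i) then monomial (half t) 1 else 0)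

lemma kap_monomial (d : ℕ) (t : Fin d →₀ ℕ) (a : ZMod 2) :
    kap d (monomial t a) = open Classical in if ∀ i, Odd (t i) then monomial (half t) a else 0 := by
  classical
  have h : (monomial t a : P d) = a • basisMonomials (Fin d) (ZMod 2) t := by
    simp [smul_monomial]
  rw [h, map_smul, kap, Module.Basis.constr_basis]
  split_ifs
  · simp [smul_monomial]
  · simp

lemma half_add (d : ℕ) (u t : Fin d →₀ ℕ) (h : ∀ i, Odd (t i)) :
    half (u + u + t) = u + half t := by
  ext i
  obtain ⟨k, hk⟩ := h i
  simp only [half, Finsupp.mapRange_apply, Finsupp.add_apply]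
  omega

lemma kap_sq_mul (d : ℕ) (g h : P d) : kap d (g ^ 2 * h) = g * kap d h := by
  classical
  induction g using MvPolynomial.induction_on' with
  | add p q hp hq =>
    rw [CharTwo.add_sq, add_mul, map_add, hp, hq, add_mul]
  | monomial u a =>
    induction h using MvPolynomial.induction_on' with
    | add p q hp hq =>
      rw [mul_add, map_add, hp, hq, map_add, mul_add]
    | monomial t b =>
      rw [monomial_pow, monomial_mul, kap_monomial, kap_monomial, zmod_two_sq]
      have h1 : (∀ i, Odd ((2 • u + t) i)) ↔ ∀ i, Odd (t i) := by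
        refine forall_congr' fun i => ?_
        have e : (2 • u + t) i = 2 * u i + t i := rfl
        rw [e, Nat.odd_add, Nat.odd_iff, Nat.odd_iff, Nat.even_iff]
        omega
      by_cases h2 : ∀ i, Odd (t i)
      · rw [if_pos (h1.mpr h2), if_pos h2, monomial_mul, two_smul, half_add _ _ _ h2]
      · rw [if_neg (fun h => h2 (h1.mp h)), if_neg h2, mul_zero]

/-- `κ` on squarefree monomials. -/
lemma kap_prod (d : ℕ) (S : Finset (Fin d)) :
    kap d (∏ i ∈ S, X i) = if S = Finset.univ then 1 else 0 := by
  classical
  have h : (∏ i ∈ S, X i : P d) = monomial (∑ i ∈ S, Finsupp.single i 1) 1 :=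
    (monomial_sum_one S (fun i => Finsupp.single i 1)).symm
  rw [h, kap_monomial]
  have h2 : ∀ i, (∑ i ∈ S, Finsupp.single i 1 : Fin d →₀ ℕ) i = if i ∈ S then 1 else 0 := by
    intro i
    rw [Finsupp.finsetSum_apply]
    simp [Finsupp.single_apply]
  have h3 : (∀ i, Odd ((∑ i ∈ S, Finsupp.single i 1 : Fin d →₀ ℕ) i)) ↔ S = Finset.univ := by
    constructor
    · intro h
      ext i
      have := h i
      rw [h2] at this
      by_cases hi : i ∈ S
      · simp [hi]
      · simp [hi] at this
    · rintro rfl i
      rw [h2]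
      simp
  by_cases h4 : S = Finset.univ
  · rw [if_pos (h3.mpr h4), if_pos h4]
    have : half (∑ i ∈ S, Finsupp.single i 1 : Fin d →₀ ℕ) = 0 := by
      ext i
      simp only [half, Finsupp.mapRange_apply, h2]
      split_ifs <;> simp
    rw [this]
    simp
  · rw [if_neg (fun h => h4 (h3.mp h)), if_neg h4]

/-- Every polynomial is a sum of products `g ^ 2 * x^S` with `x^S` squarefree. -/
lemma induction_sq {d : ℕ} {p : P d → Prop} (hadd : ∀ f g, p f → p g → p (f + g))
    (hsq : ∀ (g : P d) (S : Finset (Fin d)), p (g ^ 2 * ∏ i ∈ S, X i)) (f : P d) : p f := by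
  classical
  induction f using MvPolynomial.induction_on' with
  | add f g hf hg => exact hadd f g hf hg
  | monomial t a =>
    have h : (monomial t a : P d) = (monomial (t.mapRange (fun k => k / 2) rfl) a) ^ 2 *
        ∏ i ∈ Finset.univ.filter (fun i => Odd (t i)), X i := by
      have h1 : (∏ i ∈ Finset.univ.filter (fun i => Odd (t i)), X i : P d) =
        monomial (∑ i ∈ Finset.univ.filter (fun i => Odd (t i)), Finsupp.single i 1) 1 :=
        (monomial_sum_one _ (fun i => Finsupp.single i 1)).symm
      rw [h1, monomial_pow, monomial_mul, zmod_two_sq, mul_one]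
      congr 2
      ext i
      rw [Finsupp.add_apply, Finsupp.finsetSum_apply]
      simp only [Finsupp.single_apply, Finsupp.smul_apply, Finsupp.mapRange_apply, smul_eq_mul]
      rw [Finset.sum_ite_eq']
      simp only [Finset.mem_filter, Finset.mem_univ, true_and]
      split_ifs with h2
      · obtain ⟨k, hk⟩ := h2
        omega
      · rw [Nat.not_odd_iff_even] at h2
        obtain ⟨k, hk⟩ := h2
        omega
    rw [h]
    exact hsq _ _

end Pool.Agent.W624.Kameko
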