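import Pool.Agent.W624.Kameko2

set_option autoImplicit false

namespace Pool.Agent.W624.Kameko

open MvPolynomial

lemma coeff_sq {R : Type} [CommRing R] [CharP R 2] (F : Polynomial R) (m : ℕ) :
    (F ^ 2).coeff m = if 2 ∣ m then (F.coeff (m / 2)) ^ 2 else 0 := by
  rw [← Polynomial.map_frobenius_expand, Polynomial.coeff_map, Polynomial.coeff_expand (by norm_num)]
  split_ifs
  · rfl
  · simp

lemma kap_Sq (d m : ℕ) (f : P d) :
    kap d (Sq d m f) = if 2 ∣ m then Sq d (m / 2) (kap d f) else 0 := by
  classical
  induction f using induction_sq with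
  | hadd f g hf hg =>
    rw [map_add, map_add, hf, hg]
    split_ifs
    · rw [map_add, map_add]
    · simp
  | hsq g S =>
    rw [kap_sq_mul, kap_prod, Sq_apply, map_mul, map_pow, map_prod]
    have h1 : ∏ i ∈ S, sqT d (X i) = ∑ U ∈ S.powerset,
        Polynomial.C ((∏ i ∈ S \ U, X i) ^ 2 * ∏ i ∈ U, X i) * Polynomial.X ^ (S \ U).card := by
      simp only [sqT_X]
      rw [Finset.prod_add]
      refine Finset.sum_congr rfl fun U _ => ?_
      rw [Finset.prod_mul_distrib, Finset.prod_const, map_mul, map_prod, map_pow, map_prod]
      simp only [map_pow]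
      rw [Finset.prod_pow]
      ring
    rw [h1, Finset.mul_sum, Polynomial.finsetSum_coeff, map_sum]
    have h2 : ∀ U ∈ S.powerset, kap d (((sqT d g) ^ 2 *
        (Polynomial.C ((∏ i ∈ S \ U, X i) ^ 2 * ∏ i ∈ U, X i) *
          Polynomial.X ^ (S \ U).card)).coeff m) =
        if U = Finset.univ then (if 2 ∣ m then (sqT d g).coeff (m / 2) else 0) else 0 := by
      intro U hU
      rw [Finset.mem_powerset] at hU
      rw [← mul_assoc, Polynomial.coeff_mul_X_pow', mul_comm _ (Polynomial.C _),
        Polynomial.coeff_C_mul, coeff_sq]
      by_cases hU2 : U = Finset.univ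
      · subst hU2
        have hS : S = Finset.univ := by
          rw [Finset.univ_subset_iff] at hU; exact hU
        subst hS
        simp only [Finset.sdiff_self, Finset.card_empty, Nat.zero_le, if_true, Nat.sub_zero,
          Finset.prod_empty, one_pow, one_mul]
        split_ifs
        · rw [mul_comm, kap_sq_mul, kap_prod, if_pos rfl, mul_one]
        · simp
      · rw [if_neg hU2]
        split_ifs with h3 h4
        · have : (∏ i ∈ S \ U, X i : P d) ^ 2 * (∏ i ∈ U, X i) *
            (sqT d g).coeff ((m - (S \ U).card) / 2) ^ 2 =
            ((∏ i ∈ S \ U, X i) * (sqT d g).coeff ((m - (S \ U).card) / 2)) ^ 2 *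
              ∏ i ∈ U, X i := by ring
          rw [this, kap_sq_mul, kap_prod, if_neg hU2, mul_zero]
        · simp
        · simp
    rw [Finset.sum_congr rfl h2, Finset.sum_ite_eq']
    simp only [Finset.mem_powerset, Finset.univ_subset_iff]
    by_cases hS : S = Finset.univ
    · rw [if_pos hS, if_pos hS, mul_one]; rfl
    · rw [if_neg hS, if_neg hS, mul_zero, map_zero]
      split_ifs <;> rfl

/-- Induction principle for invertible matrices over the field with two elements. -/
lemma gl_induction {d : ℕ} {p : Matrix (Fin d) (Fin d) (ZMod 2) → Prop} (h1 : p 1)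
    (ht : ∀ i j, i ≠ j → p (Matrix.transvection i j 1))
    (hmul : ∀ A B, p A → p B → p (A * B)) (w : Matrix (Fin d) (Fin d) (ZMod 2))
    (hw : w.det ≠ 0) : p w := by
  refine Matrix.diagonal_transvection_induction_of_det_ne_zero p w hw ?_ ?_
    (fun A B _ _ => hmul A B)
  · intro D hD
    have hD1 : D = 1 := by
      rw [Matrix.det_diagonal, Finset.prod_ne_zero_iff] at hD
      funext i
      have h3 := hD i (Finset.mem_univ i)
      have h4 : ∀ a : ZMod 2, a ≠ 0 → a = 1 := by decide
      exact h4 _ h3
    rw [hD1]
    have : Matrix.diagonal (1 : Fin d → ZMod 2) = 1 := Matrix.diagonal_one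
    rw [this]
    exact h1
  · rintro ⟨i, j, hij, c⟩
    have hc : c = 0 ∨ c = 1 := by
      revert c; decide
    rcases hc with rfl | rfl
    · simpa [Matrix.TransvectionStruct.toMatrix] using h1
    · exact ht i j hij

lemma actM_transvection (d : ℕ) (i j k : Fin d) :
    actM d (Matrix.transvection i j 1) (X k) = if k = j then X j + X i else X k := by
  classical
  rw [actM_X]
  simp only [Matrix.transvection, Matrix.add_apply, Matrix.one_apply, Matrix.single_apply,
    map_add, add_mul, Finset.sum_add_distrib]
  split_ifs with h
  · subst h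
    simp
  · have : ¬ (j = k) := fun h' => h h'.symm
    simp [this]

lemma kap_actM_transvection (d : ℕ) (i j : Fin d) (hij : i ≠ j) (f : P d) :
    kap d (actM d (Matrix.transvection i j 1) f) =
      actM d (Matrix.transvection i j 1) (kap d f) := by
  classical
  induction f using induction_sq with
  | hadd f g hf hg => rw [map_add, map_add, hf, hg, map_add, map_add]
  | hsq g S =>
    rw [map_mul, map_pow, kap_sq_mul, kap_sq_mul, map_mul, kap_prod, map_prod]
    congr 1
    by_cases hj : j ∈ S
    · have h1 : ∏ k ∈ S, actM d (Matrix.transvection i j 1) (X k) =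
          ∏ k ∈ S, X k + X i * ∏ k ∈ S.erase j, X k := by
        rw [← Finset.mul_prod_erase S _ hj, ← Finset.mul_prod_erase S X hj]
        rw [actM_transvection, if_pos rfl, add_mul]
        have : ∀ k ∈ S.erase j, actM d (Matrix.transvection i j 1) (X k) = X k := by
          intro k hk
          rw [actM_transvection, if_neg (Finset.ne_of_mem_erase hk)]
        rw [Finset.prod_congr rfl this]
      rw [h1, map_add, kap_prod]
      have h2 : kap d (X i * ∏ k ∈ S.erase j, X k) = 0 := by
        by_cases hi : i ∈ S.erase j
        · rw [← Finset.mul_prod_erase _ _ hi, ← mul_assoc, ← pow_two, kap_sq_mul, kap_prod,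
            if_neg, mul_zero]
          intro h
          have := Finset.mem_univ i
          rw [← h] at this
          simp at this
        · rw [← Finset.prod_insert (f := X) hi, kap_prod, if_neg]
          intro h
          have := Finset.mem_univ j
          rw [← h] at this
          simp [hij.symm] at this
      rw [h2, add_zero]
      split_ifs <;> simp
    · have h1 : ∀ k ∈ S, actM d (Matrix.transvection i j 1) (X k) = X k := by
        intro k hk
        rw [actM_transvection, if_neg]
        rintro rfl
        exact hj hk
      rw [Finset.prod_congr rfl h1, kap_prod]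
      split_ifs <;> simp

lemma kap_actM (d : ℕ) (w : Matrix (Fin d) (Fin d) (ZMod 2)) (hw : w.det ≠ 0) (f : P d) :
    kap d (actM d w f) = actM d w (kap d f) := by
  revert f
  refine gl_induction (p := fun w => ∀ f, kap d (actM d w f) = actM d w (kap d f)) ?_ ?_ ?_ w hw
  · intro f
    rw [actM_one]; rfl
  · intro i j hij f
    exact kap_actM_transvection d i j hij f
  · intro A B hA hB f
    rw [actM_mul, hA, hB, actM_mul]

lemma hc_monomial (d n : ℕ) (t : Fin d →₀ ℕ) (a : ZMod 2) :
    homogeneousComponent n (monomial t a : P d) = if t.degree = n then monomial t a else 0 := by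
  classical
  have := homogeneousComponent_of_mem (m := n) (n := t.degree)
    (p := (monomial t a : P d)) (by
      rw [mem_homogeneousSubmodule]
      exact isHomogeneous_monomial _ rfl)
  rw [this]
  by_cases h : t.degree = n
  · simp [h]
  · rw [if_neg h]
    first
    | rw [if_neg h]
    | rw [if_neg (fun h' => h h'.symm)]

lemma kap_hc (d n : ℕ) (f : P d) :
    kap d (homogeneousComponent (d + 2 * n) f) = homogeneousComponent n (kap d f) := by
  classical
  induction f using MvPolynomial.induction_on' with
  | add p q hp hq => rw [map_add, map_add, hp, hq, map_add, map_add]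
  | monomial t a =>
    rw [hc_monomial, kap_monomial]
    by_cases h : ∀ i, Odd (t i)
    · have hd : t.degree = d + 2 * (half t).degree := by
        rw [Finsupp.degree_eq_sum, Finsupp.degree_eq_sum, Finset.mul_sum]
        have h0 : ∑ i : Fin d, 1 = d := by simp
        refine Eq.trans ?_ (congrArg (· + ∑ i, 2 * (half t) i) h0)
        rw [← Finset.sum_add_distrib]
        refine Finset.sum_congr rfl fun i _ => ?_
        obtain ⟨k, hk⟩ := h i
        simp only [half, Finsupp.mapRange_apply]
        omega
      rw [if_pos h, hc_monomial]
      by_cases h2 : (half t).degree = n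
      · rw [if_pos h2, if_pos (by omega), kap_monomial, if_pos h]
      · rw [if_neg h2, if_neg (by omega), map_zero]
    · rw [if_neg h, map_zero]
      split_ifs
      · rw [kap_monomial, if_neg h]
      · simp

end Pool.Agent.W624.Kameko
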