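import Pool.Agent.W624.Kameko3

set_option autoImplicit false

namespace Pool.Agent.W624.Kameko

open MvPolynomial

lemma kameko_mem (d n : ℕ) (φ : PH d n) : φ.1 ∘ₗ kap d ∈ PHsub d (d + 2 * n) := by
  constructor
  · intro f
    simp only [LinearMap.comp_apply]
    rw [kap_hc, ← φ.2.1]
  · intro k hk f
    simp only [LinearMap.comp_apply]
    rw [kap_Sq]
    split_ifs with h
    · exact φ.2.2 _ (Nat.div_pos (Nat.le_of_dvd hk h) (by norm_num)) _
    · simp

/-- Kameko's map `PH_n → PH_{d+2n}`, `φ ↦ φ ∘ κ`. It sends the functional dual to the monomial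
`x^s` to the one dual to `x^{2s+1}`. -/
noncomputable def kameko (d n : ℕ) : PH d n →ₗ[ZMod 2] PH d (d + 2 * n) where
  toFun φ := ⟨φ.1 ∘ₗ kap d, kameko_mem d n φ⟩
  map_add' _ _ := rfl
  map_smul' _ _ := rfl

lemma act_mem (d n : ℕ) (w : GL (Fin d) (ZMod 2)) (φ : PH d n) :
    φ.1 ∘ₗ (actM d w.1).toLinearMap ∈ PHsub d n := by
  constructor
  · intro f
    simp only [LinearMap.comp_apply, AlgHom.toLinearMap_apply]
    rw [← hc_actM, ← φ.2.1]
  · intro k hk f
    simp only [LinearMap.comp_apply, AlgHom.toLinearMap_apply]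
    rw [← Sq_actM]
    exact φ.2.2 k hk _

/-- The right action of `w ∈ GL_d(F_2)` on `PH_n`, `(φ · w)(f) = φ(w f)`. -/
noncomputable def act (d n : ℕ) (w : GL (Fin d) (ZMod 2)) (φ : PH d n) : PH d n :=
  ⟨φ.1 ∘ₗ (actM d w.1).toLinearMap, act_mem d n w φ⟩

/-- The subspace of `PH_n` spanned by all `φ · w - φ`. -/
noncomputable def coinvRel (d n : ℕ) : Submodule (ZMod 2) (PH d n) :=
  Submodule.span (ZMod 2)
    {ψ | ∃ (φ : PH d n) (w : GL (Fin d) (ZMod 2)), ψ = act d n w φ - φ}

/-- The coinvariants `F_2 ⊗_{GL_d} PH_n`. -/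
def Coinv (d n : ℕ) : Type := PH d n ⧸ coinvRel d n

noncomputable instance (d n : ℕ) : AddCommGroup (Coinv d n) :=
  Submodule.Quotient.addCommGroup (coinvRel d n)

noncomputable instance (d n : ℕ) : Module (ZMod 2) (Coinv d n) :=
  Submodule.Quotient.module (coinvRel d n)

lemma kameko_act (d n : ℕ) (w : GL (Fin d) (ZMod 2)) (φ : PH d n) :
    kameko d n (act d n w φ) = act d (d + 2 * n) w (kameko d n φ) := by
  apply Subtype.ext
  apply LinearMap.ext
  intro f
  show φ.1 (actM d w.1 (kap d f)) = φ.1 (kap d (actM d w.1 f))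
  rw [kap_actM]
  have := w.isUnit
  exact ((Matrix.isUnit_iff_isUnit_det _).mp this).ne_zero

lemma coinvRel_le (d n : ℕ) :
    coinvRel d n ≤ (coinvRel d (d + 2 * n)).comap (kameko d n) := by
  rw [coinvRel, Submodule.span_le]
  rintro _ ⟨φ, w, rfl⟩
  show kameko d n (act d n w φ - φ) ∈ coinvRel d (d + 2 * n)
  rw [map_sub, kameko_act]
  exact Submodule.subset_span ⟨_, w, rfl⟩

/-- Kameko's squaring operation on coinvariants, the map induced by `kameko`. -/
noncomputable def kamekoCo (d n : ℕ) : Coinv d n →ₗ[ZMod 2] Coinv d (d + 2 * n) :=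
  Submodule.mapQ (coinvRel d n) (coinvRel d (d + 2 * n)) (kameko d n) (coinvRel_le d n)

/-- The functional dual to the monomial `x^s` with respect to the monomial basis. -/
noncomputable def dualMon {d : ℕ} (s : Fin d →₀ ℕ) : Fun d :=
  lcoeff (ZMod 2) s

lemma dualMon_apply {d : ℕ} (s : Fin d →₀ ℕ) (f : P d) : dualMon s f = coeff s f := rfl

lemma dualMon_kap {d : ℕ} (s : Fin d →₀ ℕ) (e : Fin d →₀ ℕ) (he : ∀ i, e i = 2 * s i + 1) :
    dualMon s ∘ₗ kap d = dualMon e := by
  classical
  apply LinearMap.ext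
  intro f
  induction f using MvPolynomial.induction_on' with
  | add p q hp hq => rw [map_add, map_add, hp, hq]
  | monomial t a =>
    rw [LinearMap.comp_apply, kap_monomial, dualMon_apply, dualMon_apply, coeff_monomial]
    by_cases h : ∀ i, Odd (t i)
    · rw [if_pos h, coeff_monomial]
      have : half t = s ↔ t = e := by
        constructor
        · rintro rfl
          ext i
          obtain ⟨k, hk⟩ := h i
          rw [he i]
          simp only [half, Finsupp.mapRange_apply]
          omega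
        · rintro rfl
          ext i
          simp only [half, Finsupp.mapRange_apply]
          rw [he i]
          omega
      by_cases h2 : t = e
      · rw [if_pos h2, if_pos (this.mpr h2)]
      · rw [if_neg h2, if_neg (fun h3 => h2 (this.mp h3))]
    · rw [if_neg h, if_neg]
      · simp
      · rintro rfl
        exact h fun i => ⟨s i, he i⟩

end Pool.Agent.W624.Kameko
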