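import Pool.Agent.W624.Kameko4

set_option autoImplicit false

namespace Pool.Agent.W624.Kameko

open MvPolynomial

lemma spike_choose (k : ℕ) : ∀ t p : ℕ, t + p = 2 ^ k - 1 → ¬ 2 ∣ t.choose p → p = 0 := by
  induction k with
  | zero => intro t p h _; simp at h; omega
  | succ k ih =>
    intro t p h hodd
    have : Fact (Nat.Prime 2) := ⟨Nat.prime_two⟩
    have hl := Choose.choose_modEq_choose_mod_mul_choose_div_nat (n := t) (k := p) (p := 2)
    have hpos : 0 < 2 ^ k := by positivity
    have h2 : t + p = 2 * 2 ^ k - 1 := by rw [h, pow_succ]; congr 1; ring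
    rcases Nat.mod_two_eq_zero_or_one p with hp | hp
    · have ht : t % 2 = 1 := by omega
      rw [ht, hp] at hl
      simp only [Nat.choose_zero_right, one_mul] at hl
      have h3 : ¬ 2 ∣ (t / 2).choose (p / 2) := by
        intro h4
        apply hodd
        have := (Nat.modEq_zero_iff_dvd.mpr h4)
        exact Nat.modEq_zero_iff_dvd.mp (hl.trans this)
      have := ih (t / 2) (p / 2) (by omega) h3
      omega
    · have ht : t % 2 = 0 := by omega
      rw [ht, hp] at hl
      simp only [Nat.choose_succ_self, zero_mul] at hl
      exact absurd (Nat.modEq_zero_iff_dvd.mp hl) hodd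

/-- A spike exponent vector: all entries are of the form `2^k - 1`. -/
def IsSpike {d : ℕ} (e : Fin d →₀ ℕ) : Prop := ∀ i, ∃ k, e i = 2 ^ k - 1

lemma coeff_Sq_spike (d : ℕ) (e : Fin d →₀ ℕ) (he : IsSpike e) (k : ℕ) (hk : 0 < k) (f : P d) :
    coeff e (Sq d k f) = 0 := by
  classical
  induction f using MvPolynomial.induction_on' with
  | add p q hp hq => rw [map_add, coeff_add, hp, hq, add_zero]
  | monomial t a =>
    rw [monomial_eq, Finsupp.prod_fintype _ _ (by intro i; simp), Sq_apply, map_mul, sqT_C,
      Polynomial.coeff_C_mul, coeff_C_mul, map_prod]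
    have h1 : ∀ i, sqT d (X i ^ t i) = ∑ m ∈ Finset.range (t i + 1),
        Polynomial.C (X i ^ (t i + m)) * Polynomial.X ^ m *
          ((t i).choose m : Polynomial (P d)) := by
      intro i
      rw [map_pow, sqT_X, add_comm, add_pow]
      refine Finset.sum_congr rfl fun m hm => ?_
      rw [Finset.mem_range] at hm
      have : X i ^ (t i + m) = ((X i ^ 2) ^ m * X i ^ (t i - m) : P d) := by
        rw [← pow_mul, ← pow_add]
        congr 1
        omega
      rw [this, mul_pow]
      simp only [map_mul, map_pow]
      ring
    rw [Finset.prod_congr rfl (fun i _ => h1 i), Finset.prod_univ_sum, Polynomial.finsetSum_coeff,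
      coeff_sum]
    rw [Finset.sum_eq_zero, mul_zero]
    intro p hp
    rw [Finset.prod_mul_distrib, Finset.prod_mul_distrib, ← map_prod, Finset.prod_pow_eq_pow_sum]
    by_cases hc : ∀ i, ¬ 2 ∣ (t i).choose (p i)
    · have h2 : (∏ i, ((t i).choose (p i) : Polynomial (P d))) =
          Polynomial.C (C (∏ i, ((t i).choose (p i) : ZMod 2))) := by
        simp [map_prod]
      rw [h2, mul_comm, Polynomial.coeff_C_mul, coeff_C_mul, Polynomial.coeff_C_mul,
        Polynomial.coeff_X_pow]
      split_ifs with h3
      · rw [mul_one]
        have h4 : (∏ i, X i ^ (t i + p i) : P d) =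
            monomial (Finsupp.equivFunOnFinite.symm (fun i => t i + p i)) 1 := by
          rw [monomial_eq, Finsupp.prod_fintype _ _ (by intro i; simp)]
          simp
        rw [h4, coeff_monomial, if_neg, mul_zero]
        intro h5
        have h6 : ∀ i, p i = 0 := by
          intro i
          obtain ⟨k', hk'⟩ := he i
          refine spike_choose k' (t i) (p i) ?_ (hc i)
          rw [← hk', ← h5]
          simp
        simp [h6] at h3
        omega
      · simp
    · push Not at hc
      obtain ⟨i, hi⟩ := hc
      have h2 : (∏ i, ((t i).choose (p i) : Polynomial (P d))) = 0 := by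
        apply Finset.prod_eq_zero (Finset.mem_univ i)
        exact (CharP.cast_eq_zero_iff (Polynomial (P d)) 2 _).mpr hi
      rw [h2, mul_zero]
      simp

lemma dualMon_mem_H {d : ℕ} (e : Fin d →₀ ℕ) : InH d e.degree (dualMon e) := by
  intro f
  rw [dualMon_apply, dualMon_apply, coeff_homogeneousComponent, if_pos rfl]

/-- The class in `PH_n` of the functional dual to a spike. -/
noncomputable def dualPH {d : ℕ} (n : ℕ) (e : Fin d →₀ ℕ) (he : IsSpike e) (hd : e.degree = n) :
    PH d n :=
  ⟨dualMon e, by rw [← hd]; exact dualMon_mem_H e, fun k hk f => coeff_Sq_spike d e he k hk f⟩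

lemma actM_transvection_monomial (d : ℕ) (i j : Fin d) (t : Fin d →₀ ℕ) (a : ZMod 2) :
    actM d (Matrix.transvection i j 1) (monomial t a) =
      ∑ m ∈ Finset.range (t j + 1),
        monomial (t.erase j + Finsupp.single i m + Finsupp.single j (t j - m))
          (a * ((t j).choose m : ZMod 2)) := by
  classical
  have h0 : (monomial t a : P d) = monomial (t.erase j) a * X j ^ (t j) := by
    rw [X_pow_eq_monomial, monomial_mul, mul_one, Finsupp.erase_add_single]
  have h1 : actM d (Matrix.transvection i j 1) (monomial (t.erase j) a) =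
      monomial (t.erase j) a := by
    rw [monomial_eq, Finsupp.prod_fintype _ _ (by intro i; simp), map_mul, algHom_C, map_prod]
    congr 1
    refine Finset.prod_congr rfl fun k _ => ?_
    rw [map_pow, actM_transvection]
    split_ifs with h
    · subst h; simp
    · rfl
  rw [h0, map_mul, h1, map_pow, actM_transvection, if_pos rfl, add_comm (X j), add_pow,
    Finset.mul_sum]
  refine Finset.sum_congr rfl fun m hm => ?_
  have : ((t j).choose m : P d) = C ((t j).choose m : ZMod 2) := by simp
  rw [X_pow_eq_monomial, X_pow_eq_monomial, monomial_mul, this, mul_comm _ (C _), C_mul_monomial,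
    monomial_mul]
  congr 1
  · rw [add_assoc]
  · ring

end Pool.Agent.W624.Kameko
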