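import Pool.Agent.W624.Kameko5

set_option autoImplicit false

namespace Pool.Agent.W624.Kameko

open MvPolynomial

/-- The exponent vector `e` with `m` units moved from `i` to `j`. -/
noncomputable def shift {d : ℕ} (e : Fin d →₀ ℕ) (i j : Fin d) (m : ℕ) : Fin d →₀ ℕ :=
  e - Finsupp.single i m + Finsupp.single j m

lemma coeff_actM_transvection (d : ℕ) (i j : Fin d) (hij : i ≠ j) (e : Fin d →₀ ℕ) (f : P d) :
    coeff e (actM d (Matrix.transvection i j 1) f) =
      ∑ m ∈ Finset.range (e i + 1), ((e j + m).choose m : ZMod 2) * coeff (shift e i j m) f := by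
  classical
  induction f using MvPolynomial.induction_on' with
  | add p q hp hq =>
    rw [map_add, coeff_add, hp, hq, ← Finset.sum_add_distrib]
    refine Finset.sum_congr rfl fun m _ => ?_
    rw [coeff_add]
    ring
  | monomial t a =>
    rw [actM_transvection_monomial, coeff_sum]
    set N := e i + 1 + (t j + 1) with hN
    have key : ∀ m, (t + Finsupp.single i m = e + Finsupp.single j m) →
        m ≤ t j ∧ m ≤ e i ∧ t j = e j + m := by
      intro m h
      have h1 := DFunLike.congr_fun h i
      have h2 := DFunLike.congr_fun h j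
      simp only [Finsupp.add_apply, Finsupp.single_apply, if_pos, if_neg hij,
        if_neg hij.symm] at h1 h2
      omega
    have hL : ∑ m ∈ Finset.range (t j + 1), coeff e (monomial (t.erase j + Finsupp.single i m +
        Finsupp.single j (t j - m)) (a * ((t j).choose m : ZMod 2))) =
        ∑ m ∈ Finset.range N, (if t + Finsupp.single i m = e + Finsupp.single j m then
          a * ((t j).choose m : ZMod 2) else 0) := by
      have : Finset.range (t j + 1) ⊆ Finset.range N := by
        apply Finset.range_subset_range.mpr; omega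
      rw [← Finset.sum_subset this]
      · refine Finset.sum_congr rfl fun m hm => ?_
        rw [Finset.mem_range] at hm
        rw [coeff_monomial]
        have : (t.erase j + Finsupp.single i m + Finsupp.single j (t j - m) = e) ↔
            (t + Finsupp.single i m = e + Finsupp.single j m) := by
          have h3 : t.erase j + Finsupp.single i m + Finsupp.single j (t j - m) +
              Finsupp.single j m = t + Finsupp.single i m := by
            conv_rhs => rw [← Finsupp.erase_add_single j t]
            rw [add_assoc, ← Finsupp.single_add, Nat.sub_add_cancel (by omega)]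
            abel
          rw [← h3]
          exact add_left_inj _ |>.symm
        simp only [this]
      · intro m _ hm
        rw [if_neg]
        intro h
        have := key m h
        simp only [Finset.mem_range, not_lt] at hm
        omega
    have hR : ∑ m ∈ Finset.range (e i + 1), ((e j + m).choose m : ZMod 2) *
        coeff (shift e i j m) (monomial t a) =
        ∑ m ∈ Finset.range N, (if t + Finsupp.single i m = e + Finsupp.single j m then
          a * ((t j).choose m : ZMod 2) else 0) := by
      have : Finset.range (e i + 1) ⊆ Finset.range N := by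
        apply Finset.range_subset_range.mpr; omega
      rw [← Finset.sum_subset this]
      · refine Finset.sum_congr rfl fun m hm => ?_
        rw [Finset.mem_range] at hm
        rw [coeff_monomial]
        have : (t = shift e i j m) ↔
            (t + Finsupp.single i m = e + Finsupp.single j m) := by
          have h3 : shift e i j m + Finsupp.single i m = e + Finsupp.single j m := by
            rw [shift, add_assoc, add_comm (Finsupp.single j m), ← add_assoc,
              tsub_add_cancel_of_le]
            rw [Finsupp.single_le_iff]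
            omega
          rw [← h3]
          exact add_left_inj _ |>.symm
        simp only [this]
        by_cases h4 : t + Finsupp.single i m = e + Finsupp.single j m
        · rw [if_pos h4, if_pos h4, (key m h4).2.2]
          ring
        · rw [if_neg h4, if_neg h4, mul_zero]
      · intro m _ hm
        rw [if_neg]
        intro h
        have := key m h
        simp only [Finset.mem_range, not_lt] at hm
        omega
    rw [hL, hR]

/-- The transvection `x_j ↦ x_j + x_i` as an element of the general linear group. -/
noncomputable def tv (d : ℕ) (i j : Fin d) (hij : i ≠ j) : GL (Fin d) (ZMod 2) :=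
  Matrix.GeneralLinearGroup.mkOfDetNeZero (Matrix.transvection i j 1) (by
    rw [Matrix.det_transvection_of_ne i j hij]; exact one_ne_zero)

lemma act_tv_apply (d n : ℕ) (i j : Fin d) (hij : i ≠ j) (φ : PH d n) (f : P d) :
    (act d n (tv d i j hij) φ).1 f = φ.1 (actM d (Matrix.transvection i j 1) f) := rfl

lemma act_sub_mem (d n : ℕ) (w : GL (Fin d) (ZMod 2)) (φ : PH d n) :
    act d n w φ - φ ∈ coinvRel d n := Submodule.subset_span ⟨φ, w, rfl⟩

section four

variable {d : ℕ} {A B C D : Fin d} (hAB : A ≠ B) (hAC : A ≠ C) (hAD : A ≠ D) (hBC : B ≠ C)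
  (hBD : B ≠ D) (hCD : C ≠ D) (r : Fin d →₀ ℕ) (hA : r A = 0) (hB : r B = 0) (hC : r C = 0)
  (hD : r D = 0)

/-- exponents `p, q, s, t` at four places and `r` elsewhere. -/
noncomputable def E (A B C D : Fin d) (r : Fin d →₀ ℕ) (p q s t : ℕ) : Fin d →₀ ℕ :=
  Finsupp.single A p + Finsupp.single B q + Finsupp.single C s + Finsupp.single D t + r

include hAB hAC hAD hBC hBD hCD hA hB hC hD in
lemma E_vals (p q s t : ℕ) : E A B C D r p q s t A = p ∧ E A B C D r p q s t B = q ∧
    E A B C D r p q s t C = s ∧ E A B C D r p q s t D = t := by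
  simp [E, hA, hB, hC, hD, hAB, hAC, hAD, hBC, hBD, hCD, hAB.symm, hAC.symm,
    hAD.symm, hBC.symm, hBD.symm, hCD.symm]

lemma E_degree (p q s t : ℕ) : (E A B C D r p q s t).degree = p + q + s + t + r.degree := by
  simp [E, map_add, Finsupp.degree_single]

include hAB hAC hAD hBC hBD hCD hA hB hC hD in
lemma E_spike (p q s t : ℕ) (hr : IsSpike r) (hp : ∃ k, p = 2 ^ k - 1) (hq : ∃ k, q = 2 ^ k - 1)
    (hs : ∃ k, s = 2 ^ k - 1) (ht : ∃ k, t = 2 ^ k - 1) : IsSpike (E A B C D r p q s t) := by
  intro i
  obtain ⟨vA, vB, vC, vD⟩ := E_vals hAB hAC hAD hBC hBD hCD r hA hB hC hD p q s t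
  by_cases h1 : i = A
  · subst h1; rw [vA]; exact hp
  by_cases h2 : i = B
  · subst h2; rw [vB]; exact hq
  by_cases h3 : i = C
  · subst h3; rw [vC]; exact hs
  by_cases h4 : i = D
  · subst h4; rw [vD]; exact ht
  have : E A B C D r p q s t i = r i := by
    simp [E, Ne.symm h1, Ne.symm h2, Ne.symm h3, Ne.symm h4]
  rw [this]
  exact hr i

lemma shift_AB (p q s t m : ℕ) (hm : m ≤ p) :
    shift (E A B C D r p q s t) A B m = E A B C D r (p - m) (q + m) s t := by
  have : E A B C D r p q s t = E A B C D r (p - m) q s t + Finsupp.single A m := by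
    have h : Finsupp.single A p = Finsupp.single A (p - m) + Finsupp.single A m := by
      rw [← Finsupp.single_add, Nat.sub_add_cancel hm]
    simp only [E]
    rw [h]
    abel
  rw [shift, this, add_tsub_cancel_right]
  simp only [E, Finsupp.single_add]
  abel

lemma shift_AC (p q s t m : ℕ) (hm : m ≤ p) :
    shift (E A B C D r p q s t) A C m = E A B C D r (p - m) q (s + m) t := by
  have : E A B C D r p q s t = E A B C D r (p - m) q s t + Finsupp.single A m := by
    have h : Finsupp.single A p = Finsupp.single A (p - m) + Finsupp.single A m := by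
      rw [← Finsupp.single_add, Nat.sub_add_cancel hm]
    simp only [E]
    rw [h]
    abel
  rw [shift, this, add_tsub_cancel_right]
  simp only [E, Finsupp.single_add]
  abel

lemma shift_AD (p q s t m : ℕ) (hm : m ≤ p) :
    shift (E A B C D r p q s t) A D m = E A B C D r (p - m) q s (t + m) := by
  have : E A B C D r p q s t = E A B C D r (p - m) q s t + Finsupp.single A m := by
    have h : Finsupp.single A p = Finsupp.single A (p - m) + Finsupp.single A m := by
      rw [← Finsupp.single_add, Nat.sub_add_cancel hm]
    simp only [E]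
    rw [h]
    abel
  rw [shift, this, add_tsub_cancel_right]
  simp only [E, Finsupp.single_add]
  abel

lemma shift_BC (p q s t m : ℕ) (hm : m ≤ q) :
    shift (E A B C D r p q s t) B C m = E A B C D r p (q - m) (s + m) t := by
  have : E A B C D r p q s t = E A B C D r p (q - m) s t + Finsupp.single B m := by
    have h : Finsupp.single B q = Finsupp.single B (q - m) + Finsupp.single B m := by
      rw [← Finsupp.single_add, Nat.sub_add_cancel hm]
    simp only [E]
    rw [h]
    abel
  rw [shift, this, add_tsub_cancel_right]
  simp only [E, Finsupp.single_add]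
  abel

include hAB hAC hAD hBC hBD hCD hA hB hC hD in
/-- A spike with exponent `1` at four places vanishes in the coinvariants. -/
lemma spike_rel (n : ℕ) (hr : IsSpike r) (hn : 4 + r.degree = n) (he : IsSpike (E A B C D r 1 1 1 1))
    (hd : (E A B C D r 1 1 1 1).degree = n) :
    dualPH n (E A B C D r 1 1 1 1) he hd ∈ coinvRel d n := by
  have s0 : ∃ k, 0 = 2 ^ k - 1 := ⟨0, by norm_num⟩
  have s1 : ∃ k, 1 = 2 ^ k - 1 := ⟨1, by norm_num⟩
  have s3 : ∃ k, 3 = 2 ^ k - 1 := ⟨2, by norm_num⟩
  have sp := E_spike hAB hAC hAD hBC hBD hCD r hA hB hC hD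
  have vals := E_vals hAB hAC hAD hBC hBD hCD r hA hB hC hD
  let X1 := dualPH n (E A B C D r 3 0 0 1) (sp 3 0 0 1 hr s3 s0 s0 s1) (by rw [E_degree]; omega)
  let X2 := dualPH n (E A B C D r 0 3 0 1) (sp 0 3 0 1 hr s0 s3 s0 s1) (by rw [E_degree]; omega)
  let X4 := dualPH n (E A B C D r 1 0 3 0) (sp 1 0 3 0 hr s1 s0 s3 s0) (by rw [E_degree]; omega)
  have key : dualPH n (E A B C D r 1 1 1 1) he hd =
      (act d n (tv d A C hAC) (act d n (tv d A B hAB) X1) - act d n (tv d A B hAB) X1) +
      (act d n (tv d A C hAC) X1 - X1) + (act d n (tv d B C hBC) X2 - X2) +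
      (act d n (tv d A D hAD) X4 - X4) := by
    apply Subtype.ext
    apply LinearMap.ext
    intro f
    show coeff (E A B C D r 1 1 1 1) f =
      (coeff (E A B C D r 3 0 0 1) (actM d (Matrix.transvection A B 1)
        (actM d (Matrix.transvection A C 1) f)) -
        coeff (E A B C D r 3 0 0 1) (actM d (Matrix.transvection A B 1) f)) +
      (coeff (E A B C D r 3 0 0 1) (actM d (Matrix.transvection A C 1) f) -
        coeff (E A B C D r 3 0 0 1) f) +
      (coeff (E A B C D r 0 3 0 1) (actM d (Matrix.transvection B C 1) f) -
        coeff (E A B C D r 0 3 0 1) f) +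
      (coeff (E A B C D r 1 0 3 0) (actM d (Matrix.transvection A D 1) f) -
        coeff (E A B C D r 1 0 3 0) f)
    have L1 : ∀ g, coeff (E A B C D r 3 0 0 1) (actM d (Matrix.transvection A B 1) g) =
        ∑ m ∈ Finset.range 4, coeff (E A B C D r (3 - m) m 0 1) g := by
      intro g
      rw [coeff_actM_transvection d A B hAB, (vals 3 0 0 1).1, (vals 3 0 0 1).2.1]
      refine Finset.sum_congr rfl fun m hm => ?_
      rw [Finset.mem_range] at hm
      rw [shift_AB r 3 0 0 1 m (by omega)]
      simp
    have L2 : ∀ (m : ℕ), m ≤ 3 → ∀ g, coeff (E A B C D r (3 - m) m 0 1)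
        (actM d (Matrix.transvection A C 1) g) =
        ∑ k ∈ Finset.range (3 - m + 1), coeff (E A B C D r (3 - m - k) m k 1) g := by
      intro m hm g
      rw [coeff_actM_transvection d A C hAC, (vals (3 - m) m 0 1).1, (vals (3 - m) m 0 1).2.2.1]
      refine Finset.sum_congr rfl fun k hk => ?_
      rw [Finset.mem_range] at hk
      rw [shift_AC r (3 - m) m 0 1 k (by omega)]
      simp
    have L3 : ∀ g, coeff (E A B C D r 0 3 0 1) (actM d (Matrix.transvection B C 1) g) =
        ∑ m ∈ Finset.range 4, coeff (E A B C D r 0 (3 - m) m 1) g := by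
      intro g
      rw [coeff_actM_transvection d B C hBC, (vals 0 3 0 1).2.1, (vals 0 3 0 1).2.2.1]
      refine Finset.sum_congr rfl fun m hm => ?_
      rw [Finset.mem_range] at hm
      rw [shift_BC r 0 3 0 1 m (by omega)]
      simp
    have L4 : ∀ g, coeff (E A B C D r 1 0 3 0) (actM d (Matrix.transvection A D 1) g) =
        ∑ m ∈ Finset.range 2, coeff (E A B C D r (1 - m) 0 3 m) g := by
      intro g
      rw [coeff_actM_transvection d A D hAD, (vals 1 0 3 0).1, (vals 1 0 3 0).2.2.2]
      refine Finset.sum_congr rfl fun m hm => ?_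
      rw [Finset.mem_range] at hm
      rw [shift_AD r 1 0 3 0 m (by omega)]
      simp
    rw [L1, L1, L3, L4]
    have L5 := L2 0 (by norm_num) f
    simp only [Nat.sub_zero] at L5
    rw [L5]
    simp only [Finset.sum_range_succ, Finset.sum_range_zero, zero_add]
    rw [L2 0 (by norm_num), L2 1 (by norm_num), L2 2 (by norm_num), L2 3 (by norm_num)]
    simp only [Finset.sum_range_succ, Finset.sum_range_zero, zero_add, Nat.sub_zero, Nat.reduceSub,
      Nat.reduceAdd, Nat.sub_self]
    generalize coeff (E A B C D r 3 0 0 1) f = a1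
    generalize coeff (E A B C D r 2 0 1 1) f = a2
    generalize coeff (E A B C D r 1 0 2 1) f = a3
    generalize coeff (E A B C D r 0 0 3 1) f = a4
    generalize coeff (E A B C D r 2 1 0 1) f = a5
    generalize coeff (E A B C D r 1 1 1 1) f = a6
    generalize coeff (E A B C D r 0 1 2 1) f = a7
    generalize coeff (E A B C D r 1 2 0 1) f = a8
    generalize coeff (E A B C D r 0 2 1 1) f = a9
    generalize coeff (E A B C D r 0 3 0 1) f = a10
    generalize coeff (E A B C D r 1 0 3 0) f = a11
    have h2 : (2 : ZMod 2) = 0 := by decide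
    linear_combination (-(a2 + a3 + 2 * a4 + a7 + a9)) * h2
  rw [key]
  exact add_mem (add_mem (add_mem (act_sub_mem _ _ _ _) (act_sub_mem _ _ _ _))
    (act_sub_mem _ _ _ _)) (act_sub_mem _ _ _ _)

end four

end Pool.Agent.W624.Kameko
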