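import Pool.Agent.W624.Kameko6

set_option autoImplicit false

namespace Pool.Agent.W624.Kameko

open MvPolynomial

/-- The polynomial `c_q(l)` attached to a list of linear forms. -/
def cls {R : Type} [CommRing R] : ℕ → List R → R
  | _, [] => 0
  | q, x :: l => x ^ (2 ^ q - 1) + cls q l + x ^ (2 ^ (q - 1)) * cls (q - 1) l

lemma cls_nil {R : Type} [CommRing R] (q : ℕ) : cls q ([] : List R) = 0 := by
  cases q <;> rfl

lemma cls_cons {R : Type} [CommRing R] (q : ℕ) (x : R) (l : List R) :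
    cls q (x :: l) = x ^ (2 ^ q - 1) + cls q l + x ^ (2 ^ (q - 1)) * cls (q - 1) l := by
  cases q <;> rfl

lemma map_cls {R S : Type} [CommRing R] [CommRing S] (f : R →+* S) (q : ℕ) (l : List R) :
    f (cls q l) = cls q (l.map f) := by
  induction l generalizing q with
  | nil => rw [cls_nil, map_zero, List.map_nil, cls_nil]
  | cons x l ih =>
    rw [cls_cons, List.map_cons, cls_cons, map_add, map_add, map_mul, map_pow, map_pow, ih, ih]

/-- `x` is a linear form (only the effect of the Steenrod squares matters). -/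
def Lin {d : ℕ} (x : P d) : Prop :=
  sqT d x = Polynomial.C x + Polynomial.C (x ^ 2) * Polynomial.X

lemma lin_X {d : ℕ} (i : Fin d) : Lin (X i : P d) := sqT_X d i

lemma lin_add {d : ℕ} {x y : P d} (hx : Lin x) (hy : Lin y) : Lin (x + y) := by
  unfold Lin at *
  rw [map_add, hx, hy, CharTwo.add_sq, map_add, map_add]
  ring

/-- The span of all `Sq^k h` with `0 < k < 2^q`. -/
noncomputable def HitL (d q : ℕ) : Submodule (ZMod 2) (P d) :=
  Submodule.span (ZMod 2) {f | ∃ k h, 0 < k ∧ k < 2 ^ q ∧ f = Sq d k h}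

lemma hitL_mono {d q q' : ℕ} (h : q ≤ q') : HitL d q ≤ HitL d q' := by
  apply Submodule.span_mono
  rintro f ⟨k, g, h1, h2, h3⟩
  exact ⟨k, g, h1, lt_of_lt_of_le h2 (Nat.pow_le_pow_right (by norm_num) h), h3⟩

lemma Sq_mem_hitL {d q k : ℕ} (h1 : 0 < k) (h2 : k < 2 ^ q) (g : P d) : Sq d k g ∈ HitL d q :=
  Submodule.subset_span ⟨k, g, h1, h2, rfl⟩

lemma sqT_pow_two_pow {d : ℕ} {x : P d} (hx : Lin x) (q : ℕ) :
    sqT d (x ^ (2 ^ q)) = Polynomial.C (x ^ (2 ^ q)) +
      Polynomial.C (x ^ (2 * 2 ^ q)) * Polynomial.X ^ (2 ^ q) := by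
  rw [map_pow, hx, add_pow_char_pow, mul_pow, ← map_pow, ← map_pow, ← pow_mul]

lemma hitL_mul {d q : ℕ} {x : P d} (hx : Lin x) {f : P d} (hf : f ∈ HitL d q) :
    x ^ (2 ^ q) * f ∈ HitL d q := by
  induction hf using Submodule.span_induction with
  | mem f hf =>
    obtain ⟨k, h, h1, h2, rfl⟩ := hf
    have : x ^ (2 ^ q) * Sq d k h = Sq d k (x ^ (2 ^ q) * h) := by
      rw [Sq_apply, Sq_apply, map_mul, sqT_pow_two_pow hx, add_mul, Polynomial.coeff_add,
        Polynomial.coeff_C_mul, mul_assoc, Polynomial.coeff_C_mul, Polynomial.coeff_X_pow_mul',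
        if_neg (by omega), mul_zero, add_zero]
    rw [this]
    exact Sq_mem_hitL h1 h2 _
  | zero => rw [mul_zero]; exact zero_mem _
  | add f g _ _ hf hg => rw [mul_add]; exact add_mem hf hg
  | smul a f _ hf => rw [mul_smul_comm]; exact Submodule.smul_mem _ _ hf

/-- Two lists have the same class modulo hit elements. -/
def Rel {d : ℕ} (l l' : List (P d)) : Prop :=
  l.length = l'.length ∧ ∀ q, l.length ≤ q → cls q l - cls q l' ∈ HitL d q

lemma rel_refl {d : ℕ} (l : List (P d)) : Rel l l :=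
  ⟨rfl, fun q _ => by rw [sub_self]; exact zero_mem _⟩

lemma rel_symm {d : ℕ} {l l' : List (P d)} (h : Rel l l') : Rel l' l :=
  ⟨h.1.symm, fun q hq => by
    rw [← neg_sub]
    exact neg_mem (h.2 q (by rw [h.1]; exact hq))⟩

lemma rel_trans {d : ℕ} {l l' l'' : List (P d)} (h : Rel l l') (h' : Rel l' l'') : Rel l l'' :=
  ⟨h.1.trans h'.1, fun q hq => by
    rw [← sub_add_sub_cancel _ (cls q l') _]
    exact add_mem (h.2 q hq) (h'.2 q (by rw [← h.1]; exact hq))⟩

lemma rel_cons {d : ℕ} {l l' : List (P d)} {x : P d} (hx : Lin x) (h : Rel l l') :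
    Rel (x :: l) (x :: l') := by
  refine ⟨by simp [h.1], fun q hq => ?_⟩
  rw [List.length_cons] at hq
  obtain ⟨q, rfl⟩ : ∃ q', q = q' + 1 := ⟨q - 1, by omega⟩
  rw [cls_cons, cls_cons]
  have : x ^ (2 ^ (q + 1) - 1) + cls (q + 1) l + x ^ (2 ^ (q + 1 - 1)) * cls (q + 1 - 1) l -
      (x ^ (2 ^ (q + 1) - 1) + cls (q + 1) l' + x ^ (2 ^ (q + 1 - 1)) * cls (q + 1 - 1) l') =
      (cls (q + 1) l - cls (q + 1) l') + x ^ (2 ^ q) * (cls q l - cls q l') := by
    simp only [Nat.add_sub_cancel]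
    ring
  rw [this]
  exact add_mem (h.2 _ (by omega)) (hitL_mono (Nat.le_succ q) (hitL_mul hx (h.2 q (by omega))))

lemma Sq_one_sq_mul {d : ℕ} {x y : P d} (hx : Lin x) (hy : Lin y) (g : P d) :
    Sq d 1 (g ^ 2 * (x * y)) = g ^ 2 * (x ^ 2 * y + x * y ^ 2) := by
  rw [Sq_apply, map_mul, map_mul, map_pow, hx, hy, Polynomial.mul_coeff_one, coeff_sq, coeff_sq]
  rw [if_pos (by norm_num), if_neg (by norm_num)]
  have h0 : (sqT d g).coeff 0 = g := Sq_zero d g
  simp only [Nat.zero_div, h0, zero_mul, add_zero, Polynomial.mul_coeff_one,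
    Polynomial.coeff_add, Polynomial.coeff_C_mul, Polynomial.coeff_X_zero, Polynomial.coeff_X_one,
    Polynomial.coeff_C_zero, mul_zero, mul_one]
  rw [Polynomial.coeff_C_of_ne_zero one_ne_zero, Polynomial.coeff_C_of_ne_zero one_ne_zero]
  ring

lemma natDegree_sqT_cls {d : ℕ} (l : List (P d)) (hl : ∀ x ∈ l, Lin x) (q : ℕ)
    (hq : l.length ≤ q) : (sqT d (cls q l)).natDegree ≤ 2 ^ q - 1 := by
  induction l generalizing q with
  | nil => rw [cls_nil, map_zero]; simp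
  | cons x l ih =>
    have hx : Lin x := hl x (by simp)
    have hx1 : (sqT d x).natDegree ≤ 1 := by
      rw [hx]
      exact (Polynomial.natDegree_add_le _ _).trans (by
        rw [Polynomial.natDegree_C]
        exact max_le (by norm_num)
          ((Polynomial.natDegree_C_mul_le _ _).trans Polynomial.natDegree_X_le))
    have hxn : ∀ n, (sqT d (x ^ n)).natDegree ≤ n := by
      intro n
      rw [map_pow]
      exact (Polynomial.natDegree_pow_le).trans (by nlinarith)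
    rw [List.length_cons] at hq
    have hl' : ∀ x ∈ l, Lin x := fun y hy => hl y (by simp [hy])
    have h1 := ih hl' q (by omega)
    have h2 := ih hl' (q - 1) (by omega)
    have h3 : 2 ^ q = 2 ^ (q - 1) + 2 ^ (q - 1) := by
      obtain ⟨q, rfl⟩ : ∃ q', q = q' + 1 := ⟨q - 1, by omega⟩
      rw [Nat.add_sub_cancel, pow_succ]; ring
    have h4 : 0 < 2 ^ (q - 1) := by positivity
    rw [cls_cons, map_add, map_add, map_mul]
    refine (Polynomial.natDegree_add_le _ _).trans (max_le ?_ ?_)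
    · exact (Polynomial.natDegree_add_le _ _).trans (max_le (hxn _) h1)
    · refine (Polynomial.natDegree_mul_le).trans ?_
      have := hxn (2 ^ (q - 1))
      omega

lemma rel_swap {d : ℕ} {x y : P d} (hx : Lin x) (hy : Lin y) (l : List (P d))
    (hl : ∀ z ∈ l, Lin z) : Rel (x :: y :: l) (y :: x :: l) := by
  refine ⟨by simp, fun q hq => ?_⟩
  rw [List.length_cons, List.length_cons] at hq
  obtain ⟨r, rfl⟩ : ∃ r, q = r + 2 := ⟨q - 2, by omega⟩
  have hr : l.length ≤ r := by omega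
  have hR : 0 < 2 ^ r := by positivity
  have h1 : Sq d (2 ^ r) (x ^ (2 ^ r) * (y ^ (2 ^ r) * cls r l)) =
      x ^ (2 * 2 ^ r) * y ^ (2 ^ r) * cls r l + x ^ (2 ^ r) * y ^ (2 * 2 ^ r) * cls r l := by
    have h0 : (sqT d (cls r l)).coeff 0 = cls r l := Sq_zero d _
    have h0' : (sqT d (cls r l)).coeff (2 ^ r) = 0 := by
      apply Polynomial.coeff_eq_zero_of_natDegree_lt
      have := natDegree_sqT_cls l hl r hr
      omega
    rw [Sq_apply, map_mul, map_mul, sqT_pow_two_pow hx, sqT_pow_two_pow hy]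
    have : (Polynomial.C (x ^ 2 ^ r) + Polynomial.C (x ^ (2 * 2 ^ r)) * Polynomial.X ^ 2 ^ r) *
        ((Polynomial.C (y ^ 2 ^ r) + Polynomial.C (y ^ (2 * 2 ^ r)) * Polynomial.X ^ 2 ^ r) *
        sqT d (cls r l)) =
        Polynomial.C (x ^ 2 ^ r * y ^ 2 ^ r) * sqT d (cls r l) +
        Polynomial.C (x ^ 2 ^ r * y ^ (2 * 2 ^ r) + x ^ (2 * 2 ^ r) * y ^ 2 ^ r) *
          (Polynomial.X ^ 2 ^ r * sqT d (cls r l)) +
        Polynomial.C (x ^ (2 * 2 ^ r) * y ^ (2 * 2 ^ r)) *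
          (Polynomial.X ^ (2 ^ r + 2 ^ r) * sqT d (cls r l)) := by
      simp only [map_mul, map_add, pow_add]
      ring
    rw [this, Polynomial.coeff_add, Polynomial.coeff_add, Polynomial.coeff_C_mul,
      Polynomial.coeff_C_mul, Polynomial.coeff_C_mul, Polynomial.coeff_X_pow_mul',
      Polynomial.coeff_X_pow_mul', if_pos le_rfl, if_neg (by omega), Nat.sub_self, h0, h0']
    ring
  have h2 := Sq_one_sq_mul hx hy ((x * y) ^ (2 ^ r - 1))
  have h3 : cls (r + 2) (x :: y :: l) - cls (r + 2) (y :: x :: l) =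
      Sq d 1 (((x * y) ^ (2 ^ r - 1)) ^ 2 * (x * y)) +
        Sq d (2 ^ r) (x ^ (2 ^ r) * (y ^ (2 ^ r) * cls r l)) := by
    rw [h1, h2]
    obtain ⟨R, hR2⟩ : ∃ R, 2 ^ r = R + 1 := ⟨2 ^ r - 1, by omega⟩
    have e1 : 2 ^ (r + 2) - 1 = 4 * R + 3 := by rw [pow_add, hR2]; omega
    have e2 : 2 ^ (r + 1) - 1 = 2 * R + 1 := by rw [pow_add, hR2]; omega
    have e3 : 2 ^ (r + 1) = 2 * R + 2 := by rw [pow_add, hR2]; ring
    simp only [cls_cons]
    have e4 : r + 2 - 1 = r + 1 := rfl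
    have e5 : r + 1 - 1 = r := rfl
    simp only [e4, e5, e1, e2]
    simp only [e3, hR2, Nat.add_sub_cancel]
    have hc : (2 : P d) = 0 := CharTwo.two_eq_zero
    linear_combination (- y ^ (2 * R + 2) * x ^ (2 * R + 1)
      - y ^ (2 * R + 2) * x ^ (R + 1) * cls r l) * hc
  rw [h3]
  refine add_mem (Sq_mem_hitL (by norm_num) ?_ _) (Sq_mem_hitL hR ?_ _)
  · rw [pow_add]; omega
  · rw [pow_add]; omega

lemma rel_base {d : ℕ} {y z : P d} (hy : Lin y) (hz : Lin z) (hyz : y + z ≠ 0) :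
    Rel [y, z] [y + z, z] := by
  refine ⟨rfl, fun q hq => ?_⟩
  simp only [List.length_cons, List.length_nil] at hq
  obtain ⟨r, rfl⟩ : ∃ r, q = r + 2 := ⟨q - 2, by omega⟩
  have hc : (2 : P d) = 0 := CharTwo.two_eq_zero
  have hR : 0 < 2 ^ r := by positivity
  obtain ⟨R, hR2⟩ : ∃ R, 2 ^ r = R + 1 := ⟨2 ^ r - 1, by omega⟩
  have e1 : 2 ^ (r + 2) - 1 = 4 * R + 3 := by rw [pow_add, hR2]; omega
  have e2 : 2 ^ (r + 1) - 1 = 2 * R + 1 := by rw [pow_add, hR2]; omega
  have e3 : 2 ^ (r + 1) = 2 * R + 2 := by rw [pow_add, hR2]; ring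
  have e6 : 2 ^ (r + 2) = 4 * R + 4 := by rw [pow_add, hR2]; ring
  have e4 : r + 2 - 1 = r + 1 := rfl
  have e5 : r + 1 - 1 = r := rfl
  set G : P d := ∑ i ∈ Finset.range (2 * R + 1), y ^ i * z ^ (2 * R + 1 - 1 - i) with hG
  have hG1 : G * (y + z) = y ^ (2 * R + 1) + z ^ (2 * R + 1) := by
    have := (Commute.all y z).geom_sum₂_mul (2 * R + 1)
    rw [← hG] at this
    linear_combination this + (G * z - z ^ (2 * R + 1)) * hc
  have hyz4 : (y + z) ^ (4 * R + 4) = y ^ (4 * R + 4) + z ^ (4 * R + 4) := by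
    rw [← e6]
    exact add_pow_char_pow y z 2 (r + 2)
  have h3 : cls (r + 2) [y, z] - cls (r + 2) [y + z, z] = Sq d 1 (G ^ 2 * (y * z)) := by
    rw [Sq_one_sq_mul hy hz]
    simp only [cls_cons, cls_nil, e4, e5, e1, e2]
    simp only [e3, hR2]
    have hyz2 : (y + z) ^ (2 * R + 2) = y ^ (2 * R + 2) + z ^ (2 * R + 2) := by
      rw [← e3]
      exact add_pow_char_pow y z 2 (r + 1)
    rw [hyz2]
    apply mul_right_cancel₀ hyz
    have hyz4' : (y + z) ^ (4 * R + 3) * (y + z) = y ^ (4 * R + 4) + z ^ (4 * R + 4) := by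
      rw [← pow_succ]; exact hyz4
    have hG2 : G ^ 2 * (y ^ 2 * z + y * z ^ 2) * (y + z) =
        y * z * (y ^ (2 * R + 1) + z ^ (2 * R + 1)) ^ 2 := by
      rw [← hG1]; ring
    rw [hG2]
    linear_combination (-1 : P d) * hyz4' + (-(y * z ^ (4 * R + 3)) -
      y ^ (2 * R + 2) * z ^ (2 * R + 2) - z ^ (4 * R + 4)) * hc
  rw [h3]
  exact Sq_mem_hitL (by norm_num) (by rw [e6]; omega) _

end Pool.Agent.W624.Kameko
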