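import Pool.Agent.W624.Kameko7

set_option autoImplicit false

namespace Pool.Agent.W624.Kameko

open MvPolynomial

lemma rel_perm {d : ℕ} {l l' : List (P d)} (h : l.Perm l') (hl : ∀ z ∈ l, Lin z) : Rel l l' := by
  induction h with
  | nil => exact rel_refl _
  | cons x h ih => exact rel_cons (hl x (by simp)) (ih (fun z hz => hl z (by simp [hz])))
  | swap x y l =>
    exact rel_swap (hl y (by simp)) (hl x (by simp)) l (fun z hz => hl z (by simp [hz]))
  | trans h1 h2 ih1 ih2 =>
    exact rel_trans (ih1 hl) (ih2 (fun z hz => hl z (h1.mem_iff.mpr hz)))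

lemma rel_append {d : ℕ} {l l' : List (P d)} (p : List (P d)) (hp : ∀ z ∈ p, Lin z)
    (h : Rel l l') : Rel (p ++ l) (p ++ l') := by
  induction p with
  | nil => exact h
  | cons x p ih =>
    exact rel_cons (hp x (by simp)) (ih (fun z hz => hp z (by simp [hz])))

/-- The list of all variables. -/
noncomputable def vars (d : ℕ) : List (P d) := (List.finRange d).map X

lemma vars_length (d : ℕ) : (vars d).length = d := by simp [vars]

lemma rel_transvection (d : ℕ) (i j : Fin d) (hij : i ≠ j) :
    Rel (vars d) ((vars d).map (actM d (Matrix.transvection i j 1))) := by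
  classical
  set p : List (Fin d) := ((List.finRange d).erase i).erase j with hp
  have h1 : (List.finRange d).Perm (p ++ [j, i]) := by
    have h2 : (List.finRange d).Perm (i :: (List.finRange d).erase i) :=
      List.perm_cons_erase (List.mem_finRange i)
    have hj : j ∈ (List.finRange d).erase i :=
      (List.mem_erase_of_ne hij.symm).mpr (List.mem_finRange j)
    have h3 : ((List.finRange d).erase i).Perm (j :: p) := List.perm_cons_erase hj
    refine h2.trans ((h3.cons i).trans ?_)
    refine (List.perm_append_comm (l₁ := [i, j]) (l₂ := p)).trans ?_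
    exact List.Perm.append_left p (List.Perm.swap _ _ _)
  have hjp : j ∉ p := by
    rw [hp]
    exact List.Nodup.not_mem_erase ((List.nodup_finRange d).erase i)
  have hlin : ∀ z ∈ vars d, Lin z := by
    intro z hz
    simp only [vars, List.mem_map] at hz
    obtain ⟨k, _, rfl⟩ := hz
    exact lin_X k
  have hpm : p.map (fun k => actM d (Matrix.transvection i j 1) (X k)) = p.map X := by
    apply List.map_congr_left
    intro k hk
    rw [actM_transvection, if_neg]
    rintro rfl
    exact hjp hk
  have h2 : (vars d).Perm (p.map X ++ [X j, X i]) := by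
    have := h1.map (X : Fin d → P d)
    rw [List.map_append] at this
    exact this
  have h3 : ((vars d).map (actM d (Matrix.transvection i j 1))).Perm
      (p.map X ++ [X j + X i, X i]) := by
    have := h1.map (fun k => actM d (Matrix.transvection i j 1) (X k))
    have e : [j, i].map (fun k => actM d (Matrix.transvection i j 1) (X k)) =
        [X j + X i, X i] := by
      simp [actM_transvection, hij]
    rw [List.map_append, hpm, e] at this
    rw [vars, List.map_map]
    exact this
  have hlin3 : ∀ z ∈ p.map X ++ [X j + X i, X i], Lin z := by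
    intro z hz
    simp only [List.mem_append, List.mem_map, List.mem_cons, List.not_mem_nil, or_false] at hz
    rcases hz with ⟨k, _, rfl⟩ | rfl | rfl
    · exact lin_X k
    · exact lin_add (lin_X j) (lin_X i)
    · exact lin_X i
  have hne : (X j + X i : P d) ≠ 0 := by
    intro h
    have := congrArg (coeff (Finsupp.single i 1)) h
    rw [coeff_add, coeff_X, coeff_X, if_neg, if_pos rfl] at this
    · simp at this
    · intro h'
      exact hij ((Finsupp.single_left_inj one_ne_zero).mp h').symm
  refine rel_trans (rel_perm h2 hlin) (rel_trans (rel_append _ ?_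
    (rel_base (lin_X j) (lin_X i) hne)) (rel_symm (rel_perm h3 ?_)))
  · intro z hz
    simp only [List.mem_map] at hz
    obtain ⟨k, _, rfl⟩ := hz
    exact lin_X k
  · intro z hz
    exact hlin3 z (h3.mem_iff.mp hz)

/-- All hit elements. -/
noncomputable def Hit (d : ℕ) : Submodule (ZMod 2) (P d) :=
  Submodule.span (ZMod 2) {f | ∃ k h, 0 < k ∧ f = Sq d k h}

lemma hitL_le (d q : ℕ) : HitL d q ≤ Hit d := by
  apply Submodule.span_mono
  rintro f ⟨k, h, h1, _, h3⟩
  exact ⟨k, h, h1, h3⟩

lemma hit_actM (d : ℕ) (w : Matrix (Fin d) (Fin d) (ZMod 2)) {f : P d} (hf : f ∈ Hit d) :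
    actM d w f ∈ Hit d := by
  induction hf using Submodule.span_induction with
  | mem f hf =>
    obtain ⟨k, h, h1, rfl⟩ := hf
    rw [← Sq_actM]
    exact Submodule.subset_span ⟨k, _, h1, rfl⟩
  | zero => rw [map_zero]; exact zero_mem _
  | add f g _ _ hf hg => rw [map_add]; exact add_mem hf hg
  | smul a f _ hf => rw [map_smul]; exact Submodule.smul_mem _ _ hf

lemma PH_hit {d n : ℕ} (φ : PH d n) {f : P d} (hf : f ∈ Hit d) : φ.1 f = 0 := by
  induction hf using Submodule.span_induction with
  | mem f hf =>
    obtain ⟨k, h, h1, rfl⟩ := hf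
    exact φ.2.2 k h1 h
  | zero => rw [map_zero]
  | add f g _ _ hf hg => rw [map_add, hf, hg, add_zero]
  | smul a f _ hf => rw [map_smul, hf, smul_zero]

/-- A `GL_d`-invariant class modulo hit elements kills all relations of the coinvariants. -/
lemma coinvRel_eval {d n : ℕ} (c : P d) (hc : ∀ i j, i ≠ j →
    actM d (Matrix.transvection i j 1) c - c ∈ Hit d) (ψ : PH d n) (hψ : ψ ∈ coinvRel d n) :
    ψ.1 c = 0 := by
  have hall : ∀ w : Matrix (Fin d) (Fin d) (ZMod 2), w.det ≠ 0 → actM d w c - c ∈ Hit d := by
    intro w hw
    refine gl_induction (p := fun w => actM d w c - c ∈ Hit d) ?_ hc ?_ w hw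
    · rw [actM_one]
      simp
    · intro A B hA hB
      have : actM d (A * B) c - c = actM d A (actM d B c - c) + (actM d A c - c) := by
        rw [actM_mul, map_sub]; ring
      rw [this]
      exact add_mem (hit_actM d A hB) hA
  unfold coinvRel at hψ
  induction hψ using Submodule.span_induction with
  | mem ψ hψ =>
    obtain ⟨φ, w, rfl⟩ := hψ
    have h1 : (act d n w φ - φ).1 c = φ.1 (actM d w.1 c - c) := by
      rw [map_sub]; rfl
    rw [h1]
    apply PH_hit
    apply hall
    exact ((Matrix.isUnit_iff_isUnit_det _).mp w.isUnit).ne_zero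
  | zero => rfl
  | add f g _ _ hf hg =>
    show f.1 c + g.1 c = 0
    rw [hf, hg, add_zero]
  | smul a f _ hf =>
    show a • f.1 c = 0
    rw [hf, smul_zero]

lemma cls_zeros {R : Type} [CommRing R] (l : List R) (hl : ∀ x ∈ l, x = 0) (q : ℕ)
    (hq : l.length ≤ q) : cls q l = 0 := by
  induction l generalizing q with
  | nil => rw [cls_nil]
  | cons x l ih =>
    have hx : x = 0 := hl x (by simp)
    rw [List.length_cons] at hq
    have h2 : 2 ^ 1 ≤ 2 ^ q := Nat.pow_le_pow_right (by norm_num) (by omega)
    rw [cls_cons, hx, ih (fun y hy => hl y (by simp [hy])) q (by omega),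
      zero_pow (by omega), zero_pow (by positivity), zero_mul, add_zero, add_zero]

/-- Restriction to the first coordinate axis computes coefficients of pure powers. -/
lemma coeff_single_eq (m n : ℕ) (f : P (m + 1)) :
    coeff (Finsupp.single 0 n) f =
      (aeval (fun i : Fin (m + 1) => if i = 0 then (Polynomial.X : Polynomial (ZMod 2)) else 0)
        f).coeff n := by
  classical
  induction f using MvPolynomial.induction_on' with
  | add p q hp hq => rw [map_add, coeff_add, Polynomial.coeff_add, hp, hq]
  | monomial t a =>
    rw [aeval_monomial, coeff_monomial, Finsupp.prod_fintype _ _ (by intro i; simp),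
      Fin.prod_univ_succ]
    simp only [if_true, Fin.succ_ne_zero, if_false]
    by_cases h : ∀ i : Fin m, t i.succ = 0
    · have h1 : ∏ i : Fin m, (0 : Polynomial (ZMod 2)) ^ t i.succ = 1 := by
        simp [h]
      rw [h1, mul_one, Polynomial.algebraMap_eq, Polynomial.coeff_C_mul, Polynomial.coeff_X_pow]
      have h2 : t = Finsupp.single 0 n ↔ n = t 0 := by
        constructor
        · intro h3; rw [h3]; simp
        · intro h3
          ext i
          refine Fin.cases ?_ (fun k => ?_) i
          · simp [h3]
          · simp [h k]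
      by_cases h3 : n = t 0
      · rw [if_pos (h2.mpr h3), if_pos h3, mul_one]
      · rw [if_neg (fun h4 => h3 (h2.mp h4)), if_neg h3, mul_zero]
    · push Not at h
      obtain ⟨i, hi⟩ := h
      have h1 : ∏ i : Fin m, (0 : Polynomial (ZMod 2)) ^ t i.succ = 0 :=
        Finset.prod_eq_zero (Finset.mem_univ i) (zero_pow hi)
      rw [h1, mul_zero, mul_zero, Polynomial.coeff_zero, if_neg]
      rintro rfl
      simp at hi

lemma cls_vars_coeff (m q : ℕ) (hq : m + 1 ≤ q) :
    coeff (Finsupp.single 0 (2 ^ q - 1)) (cls q (vars (m + 1))) = 1 := by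
  rw [coeff_single_eq]
  set ev : P (m + 1) →ₐ[ZMod 2] Polynomial (ZMod 2) :=
    aeval (fun i : Fin (m + 1) => if i = 0 then (Polynomial.X : Polynomial (ZMod 2)) else 0)
    with hev
  have h1 : ev (cls q (vars (m + 1))) = cls q ((vars (m + 1)).map ev) :=
    map_cls (ev : P (m + 1) →+* Polynomial (ZMod 2)) q _
  rw [h1]
  have h2 : (vars (m + 1)).map ev =
      Polynomial.X :: ((List.finRange m).map (fun _ => (0 : Polynomial (ZMod 2)))) := by
    rw [vars, List.finRange_succ, List.map_cons, List.map_cons, List.map_map, List.map_map]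
    congr 1
    · simp [hev]
    · apply List.map_congr_left
      intro k _
      simp [hev]
  rw [h2, cls_cons, cls_zeros, cls_zeros, mul_zero, add_zero, add_zero, Polynomial.coeff_X_pow,
    if_pos rfl]
  · intro x hx; simp at hx; exact hx.2
  · simp; omega
  · intro x hx; simp at hx; exact hx.2
  · simp; omega

end Pool.Agent.W624.Kameko
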