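import Pool.Agent.W624.Kameko8

set_option autoImplicit false

namespace Pool.Agent.W624.Kameko

open MvPolynomial

/-- If the spike `s` vanishes at four places, then Kameko's map sends the functional dual to `x^s`
to an element which is zero in the coinvariants. -/
lemma kameko_dual_mem {d n : ℕ} {A B C D : Fin d} (hAB : A ≠ B) (hAC : A ≠ C) (hAD : A ≠ D)
    (hBC : B ≠ C) (hBD : B ≠ D) (hCD : C ≠ D) (s : Fin d →₀ ℕ) (hs : IsSpike s)
    (hsA : s A = 0) (hsB : s B = 0) (hsC : s C = 0) (hsD : s D = 0) (hn : s.degree = n) :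
    kameko d n (dualPH n s hs hn) ∈ coinvRel d (d + 2 * n) := by
  classical
  let r : Fin d →₀ ℕ := Finsupp.equivFunOnFinite.symm (fun i =>
    if i = A ∨ i = B ∨ i = C ∨ i = D then 0 else 2 * s i + 1)
  have rA : r A = 0 := by simp [r]
  have rB : r B = 0 := by simp [r]
  have rC : r C = 0 := by simp [r]
  have rD : r D = 0 := by simp [r]
  have hr : IsSpike r := by
    intro i
    by_cases h : i = A ∨ i = B ∨ i = C ∨ i = D
    · exact ⟨0, by simp [r, h]⟩
    · obtain ⟨k, hk⟩ := hs i
      refine ⟨k + 1, ?_⟩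
      have : r i = 2 * s i + 1 := by
        simp only [r, Finsupp.equivFunOnFinite_symm_apply_apply, if_neg h]
      rw [this, hk, pow_succ]
      have : 0 < 2 ^ k := by positivity
      omega
  obtain ⟨vA, vB, vC, vD⟩ := E_vals hAB hAC hAD hBC hBD hCD r rA rB rC rD 1 1 1 1
  have he : ∀ i, E A B C D r 1 1 1 1 i = 2 * s i + 1 := by
    intro i
    by_cases h1 : i = A
    · subst h1; rw [vA, hsA]
    by_cases h2 : i = B
    · subst h2; rw [vB, hsB]
    by_cases h3 : i = C
    · subst h3; rw [vC, hsC]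
    by_cases h4 : i = D
    · subst h4; rw [vD, hsD]
    simp [E, r, h1, h2, h3, h4]
  have s1 : ∃ k, 1 = 2 ^ k - 1 := ⟨1, by norm_num⟩
  have hsp : IsSpike (E A B C D r 1 1 1 1) :=
    E_spike hAB hAC hAD hBC hBD hCD r rA rB rC rD 1 1 1 1 hr s1 s1 s1 s1
  have hdeg : (E A B C D r 1 1 1 1).degree = d + 2 * n := by
    rw [← hn, Finsupp.degree_eq_sum, Finsupp.degree_eq_sum, Finset.sum_congr rfl (fun i _ => he i),
      Finset.sum_add_distrib, ← Finset.mul_sum]
    simp
    ring
  have key : kameko d n (dualPH n s hs hn) =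
      dualPH (d + 2 * n) (E A B C D r 1 1 1 1) hsp hdeg := by
    apply Subtype.ext
    exact dualMon_kap s (E A B C D r 1 1 1 1) he
  rw [key]
  refine spike_rel hAB hAC hAD hBC hBD hCD r rA rB rC rD (d + 2 * n) hr ?_ hsp hdeg
  rw [← hdeg, E_degree]

/-- A criterion for non-injectivity on coinvariants. -/
lemma not_injective_of {d n : ℕ} (φ : PH d n) (h1 : kameko d n φ ∈ coinvRel d (d + 2 * n))
    (h2 : φ ∉ coinvRel d n) : ¬ Function.Injective (kamekoCo d n) := by
  intro hinj
  apply h2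
  rw [← Submodule.Quotient.mk_eq_zero (coinvRel d n)]
  have h3 : kamekoCo d n (Submodule.Quotient.mk φ : PH d n ⧸ coinvRel d n) = 0 :=
    (Submodule.Quotient.mk_eq_zero (coinvRel d (d + 2 * n))).mpr h1
  have h4 : kamekoCo d n 0 = 0 := LinearMap.map_zero _
  exact hinj (h3.trans h4.symm)

/-- Failure in degree `0` for `d ≥ 4`. -/
theorem fails_zero (d : ℕ) (hd : 4 ≤ d) : ¬ Function.Injective (kamekoCo d 0) := by
  have hs : IsSpike (0 : Fin d →₀ ℕ) := fun i => ⟨0, by simp⟩
  have hn : (0 : Fin d →₀ ℕ).degree = 0 := by simp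
  apply not_injective_of (dualPH 0 (0 : Fin d →₀ ℕ) hs hn)
  · exact kameko_dual_mem (A := ⟨0, by omega⟩) (B := ⟨1, by omega⟩) (C := ⟨2, by omega⟩)
      (D := ⟨3, by omega⟩) (by simp) (by simp) (by simp) (by simp) (by simp) (by simp)
      0 hs rfl rfl rfl rfl hn
  · intro h
    have := coinvRel_eval (1 : P d) (fun i j _ => by rw [map_one, sub_self]; exact zero_mem _) _ h
    change coeff 0 (1 : P d) = 0 at this
    simp at this

/-- Failure in all degrees `2^j - 1`, `j ≥ d`, for `d ≥ 5`. -/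
theorem fails_pos (d : ℕ) (hd : 5 ≤ d) (j : ℕ) (hj : d ≤ j) :
    ¬ Function.Injective (kamekoCo d (2 ^ j - 1)) := by
  obtain ⟨m, rfl⟩ : ∃ m, d = m + 1 := ⟨d - 1, by omega⟩
  have hs : IsSpike (Finsupp.single (0 : Fin (m + 1)) (2 ^ j - 1)) := by
    intro i
    by_cases h : i = 0
    · subst h; exact ⟨j, by simp⟩
    · exact ⟨0, by simp [Ne.symm h]⟩
  have hn : (Finsupp.single (0 : Fin (m + 1)) (2 ^ j - 1)).degree = 2 ^ j - 1 := by
    rw [Finsupp.degree_single]
  apply not_injective_of (dualPH (2 ^ j - 1) _ hs hn)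
  · refine kameko_dual_mem (A := ⟨1, by omega⟩) (B := ⟨2, by omega⟩) (C := ⟨3, by omega⟩)
      (D := ⟨4, by omega⟩) (by simp) (by simp) (by simp) (by simp) (by simp) (by simp)
      _ hs ?_ ?_ ?_ ?_ hn <;>
    · rw [Finsupp.single_apply, if_neg]
      simp [Fin.ext_iff]
  · intro h
    have := coinvRel_eval (cls j (vars (m + 1))) (fun i k hik => by
      have h1 := rel_transvection (m + 1) i k hik
      have h2 := h1.2 j (by rw [vars_length]; exact hj)
      have h3 : actM (m + 1) (Matrix.transvection i k 1) (cls j (vars (m + 1))) =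
          cls j ((vars (m + 1)).map (actM (m + 1) (Matrix.transvection i k 1))) :=
        map_cls (actM (m + 1) (Matrix.transvection i k 1) : P (m + 1) →+* P (m + 1)) j _
      rw [h3, ← neg_sub]
      exact neg_mem (hitL_le _ _ h2)) _ h
    change coeff (Finsupp.single 0 (2 ^ j - 1)) (cls j (vars (m + 1))) = 0 at this
    rw [cls_vars_coeff m j hj] at this
    exact one_ne_zero this

end Pool.Agent.W624.Kameko
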