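import Mathlib

/-!
# The cohomology of the mod 2 Steenrod algebra: definitions

`Cob s` is the `s`-th term of the cobar complex of the dual Steenrod algebra
`𝔽₂[ξ₁, ξ₂, …]`; the variable `X (a, n)` stands for `ξ_{n+1}` in the slot `a < s`.
-/

set_option autoImplicit false

namespace Pool.Agent.W624.ND

open Finset MvPolynomial

/-- The cobar complex in degree `s`. -/
abbrev Cob (s : ℕ) := MvPolynomial (Fin s × ℕ) (ZMod 2)

/-- The internal degree of `ξ_{n+1}` is `2 ^ (n+1) - 1`. -/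
def wt {s : ℕ} (p : Fin s × ℕ) : ℕ := 2 ^ (p.2 + 1) - 1

/-- The `j`-th coface `Cob s → Cob (s+1)`: a unit is inserted at the left (`j = 0`) or at the
right (`j = s+1`), and for `0 < j ≤ s` the coproduct
`ξ_{n+1} ↦ ∑ᵢ ξ_{n+1-i} ^ (2 ^ i) ⊗ ξᵢ` is applied in the slot `j-1`. -/
noncomputable def coface (s : ℕ) (j : Fin (s + 2)) : Cob s →ₐ[ZMod 2] Cob (s + 1) :=
  aeval (fun p : Fin s × ℕ =>
    if (p.1 : ℕ) + 1 < (j : ℕ) then (X (p.1.castSucc, p.2) : Cob (s + 1))
    else if (j : ℕ) < (p.1 : ℕ) + 1 then X (p.1.succ, p.2)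
    else ∑ i ∈ Finset.range (p.2 + 2),
      (if i = p.2 + 1 then (1 : Cob (s + 1)) else X (p.1.castSucc, p.2 - i)) ^ (2 ^ i) *
      (if i = 0 then (1 : Cob (s + 1)) else X (p.1.succ, i - 1)))

/-- The differential of the cobar complex. -/
noncomputable def dC (s : ℕ) : Cob s →ₗ[ZMod 2] Cob (s + 1) :=
  ∑ j : Fin (s + 2), (coface s j).toLinearMap

/-- Cocycles. -/
noncomputable def Z (s : ℕ) : Submodule (ZMod 2) (Cob s) := LinearMap.ker (dC s)

/-- Coboundaries. -/
noncomputable def B : (s : ℕ) → Submodule (ZMod 2) (Cob s)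
  | 0 => ⊥
  | s + 1 => LinearMap.range (dC s)

/-- The Adams `s`-line: `Ext^s = ⨁ₜ Ext^{s,t}`, cocycles modulo coboundaries. -/
def Ext (s : ℕ) : Type := Z s ⧸ (B s).submoduleOf (Z s)

noncomputable instance (s : ℕ) : AddCommGroup (Ext s) :=
  inferInstanceAs (AddCommGroup (Z s ⧸ (B s).submoduleOf (Z s)))

/-- The class of a cocycle. -/
noncomputable def cl {s : ℕ} (x : Z s) : Ext s := ((B s).submoduleOf (Z s)).mkQ x

/-- Squaring, as a linear map of the cobar complex. -/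
noncomputable def sq (s : ℕ) : Cob s →ₗ[ZMod 2] Cob s where
  toFun x := x ^ 2
  map_add' x y := by
    have h : (2 : Cob s) = 0 := CharTwo.two_eq_zero
    rw [add_sq, h]; ring
  map_smul' c x := by
    have h : c ^ 2 = c := by revert c; decide
    rw [smul_pow, h, RingHom.id_apply]

/-- Right multiplication by `h₀ = [ξ₁]`: `x ↦ [x | ξ₁]`. -/
noncomputable def mulH0 (s : ℕ) : Cob s →ₗ[ZMod 2] Cob (s + 1) :=
  (LinearMap.mulRight (ZMod 2) (X (Fin.last s, 0) : Cob (s + 1))).comp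
    (rename (fun p : Fin s × ℕ => (p.1.castSucc, p.2))).toLinearMap

/-- The cup-`(s-1)` square of a cochain of degree `s`, which represents `Sq¹`:
the sum of `(δⁱ x) (δʲ x)` over `i < j` with `i ≡ j` modulo 2. -/
noncomputable def sq1 (s : ℕ) (x : Cob s) : Cob (s + 1) :=
  ∑ p ∈ (univ : Finset (Fin (s + 2) × Fin (s + 2))).filter
      (fun p => p.1 < p.2 ∧ (p.1 : ℕ) % 2 = (p.2 : ℕ) % 2),
    coface s p.1 x * coface s p.2 x

end Pool.Agent.W624.ND
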