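import Pool.Agent.W624.StzH
import Pool.Agent.W624.NDdefs

set_option autoImplicit false
set_option linter.unusedSectionVars false

namespace Pool.Agent.W624.ND

open Finset MvPolynomial

section alg

theorem alt_pair {A : Type*} [AddCommGroup A] (n : ℕ) (a : ℕ → ℕ → A)
    (h : ∀ i j, i ≤ j → j ≤ n → a i j = - a (j + 1) i) :
    ∑ i ∈ range (n + 2), ∑ j ∈ range (n + 1), a i j = 0 := by
  induction n with
  | zero =>
    simp only [zero_add, sum_range_succ, sum_range_zero]
    rw [h 0 0 le_rfl le_rfl]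
    simp
  | succ n ih =>
    have ih' := ih (fun i j hij hj => h i j hij (by omega))
    rw [sum_range_succ]
    have : ∑ i ∈ range (n + 2), ∑ j ∈ range (n + 2), a i j
        = ∑ i ∈ range (n + 2), ∑ j ∈ range (n + 1), a i j + ∑ i ∈ range (n + 2), a i (n + 1) := by
      rw [← sum_add_distrib]
      exact sum_congr rfl fun i _ => sum_range_succ _ _
    rw [this, ih', zero_add, ← sum_add_distrib]
    apply sum_eq_zero
    intro i hi
    rw [mem_range] at hi
    rw [h i (n + 1) (by omega) le_rfl]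
    simp

/-- twice the signed sum over pairs of equal parity -/
theorem two_T {R : Type*} [CommRing R] (b : ℕ → R) (M : ℕ) :
    2 * ∑ j ∈ range M, ∑ i ∈ range j, (if i % 2 = j % 2 then (-1) ^ j * (b i * b j) else 0)
      = (∑ i ∈ range M, (-1) ^ i * b i) * (∑ i ∈ range M, b i)
        - ∑ i ∈ range M, (-1) ^ i * (b i) ^ 2 := by
  induction M with
  | zero => simp
  | succ M ih =>
    rw [sum_range_succ, mul_add, ih, sum_range_succ, sum_range_succ, sum_range_succ]
    have key : 2 * ∑ i ∈ range M, (if i % 2 = M % 2 then (-1 : R) ^ M * (b i * b M) else 0)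
        = b M * (∑ i ∈ range M, (-1) ^ i * b i) + (-1) ^ M * b M * ∑ i ∈ range M, b i := by
      rw [mul_sum, mul_sum, mul_sum, ← sum_add_distrib]
      refine sum_congr rfl fun i _ => ?_
      rcases Nat.even_or_odd i with hi | hi <;> rcases Nat.even_or_odd M with hM | hM
      · rw [if_pos (by rw [Nat.even_iff.mp hi, Nat.even_iff.mp hM]), hi.neg_one_pow,
          hM.neg_one_pow]
        ring
      · rw [if_neg (by rw [Nat.even_iff.mp hi, Nat.odd_iff.mp hM]; omega), hi.neg_one_pow,
          hM.neg_one_pow]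
        ring
      · rw [if_neg (by rw [Nat.odd_iff.mp hi, Nat.even_iff.mp hM]; omega), hi.neg_one_pow,
          hM.neg_one_pow]
        ring
      · rw [if_pos (by rw [Nat.odd_iff.mp hi, Nat.odd_iff.mp hM]), hi.neg_one_pow,
          hM.neg_one_pow]
        ring
    rw [key]
    ring

theorem neg_one_pow_two {R : Type*} [CommRing R] (i : ℕ) : ∃ c : R, (-1 : R) ^ i = 1 + 2 * c := by
  rcases Nat.even_or_odd i with hi | hi
  · exact ⟨0, by rw [hi.neg_one_pow]; ring⟩
  · exact ⟨-1, by rw [hi.neg_one_pow]; ring⟩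

theorem sq1_closed {σ : Type*} (n : ℕ) (b : ℕ → ℕ → MvPolynomial σ (ZMod 2))
    (hb : ∀ i j, i ≤ j → j ≤ n → b i j = b (j + 1) i)
    (hr : ∀ k, k < n + 2 → ∑ i ∈ range (n + 1), b k i = 0) :
    ∑ k ∈ range (n + 2), ∑ j ∈ range (n + 1), ∑ i ∈ range j,
      (if i % 2 = j % 2 then b k i * b k j else 0) = 0 := by
  classical
  let π : MvPolynomial σ ℤ →+* MvPolynomial σ (ZMod 2) := map (Int.castRingHom (ZMod 2))
  have hπ : Function.Surjective π := map_surjective _ (ZMod.ringHom_surjective _)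
  let l := Function.surjInv hπ
  have hl : ∀ x, π (l x) = x := Function.surjInv_eq hπ
  set a : ℕ → ℕ → MvPolynomial σ ℤ := fun k i => l (b k i) with ha
  have hker : ∀ f : MvPolynomial σ ℤ, π f = 0 → ∃ g, f = 2 * g := by
    intro f hf
    have := (C_dvd_iff_zmod 2 f).mpr hf
    obtain ⟨g, hg⟩ := this
    exact ⟨g, by rw [hg]; simp⟩
  have hrow : ∀ k, k < n + 2 → ∃ u, ∑ i ∈ range (n + 1), a k i = 2 * u := by
    intro k hk
    apply hker
    rw [map_sum, ← hr k hk]
    exact sum_congr rfl fun i _ => hl _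
  have hsgn : ∀ k, k < n + 2 → ∃ u, ∑ i ∈ range (n + 1), (-1) ^ i * a k i = 2 * u := by
    intro k hk
    apply hker
    rw [map_sum, ← hr k hk]
    refine sum_congr rfl fun i _ => ?_
    rw [map_mul, hl, map_pow, map_neg, map_one]
    have h1 : (-1 : MvPolynomial σ (ZMod 2)) = 1 := CharTwo.neg_eq 1
    rw [h1, one_pow, one_mul]
  have hz : ∀ k, ∃ w, k < n + 2 → (-1) ^ k * ∑ j ∈ range (n + 1), ∑ i ∈ range j,
      (if i % 2 = j % 2 then (-1) ^ j * (a k i * a k j) else 0) * 2
      = 4 * w - (-1) ^ k * ∑ i ∈ range (n + 1), (-1) ^ i * (a k i) ^ 2 := by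
    intro k
    by_cases hk : k < n + 2
    · obtain ⟨u, hu⟩ := hrow k hk
      obtain ⟨v, hv⟩ := hsgn k hk
      have h1 := two_T (a k) (n + 1)
      rw [hu, hv] at h1
      refine ⟨(-1) ^ k * (v * u), fun _ => ?_⟩
      simp only [← sum_mul]
      rw [mul_comm _ (2 : MvPolynomial σ ℤ), h1]
      ring
    · exact ⟨0, fun h => absurd h hk⟩
  choose w hw using hz
  have hall : 2 * ∑ k ∈ range (n + 2), (-1) ^ k * ∑ j ∈ range (n + 1), ∑ i ∈ range j,
      (if i % 2 = j % 2 then (-1) ^ j * (a k i * a k j) else 0)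
      = 4 * ∑ k ∈ range (n + 2), w k := by
    have h0 := alt_pair n (fun k i => (-1) ^ k * ((-1) ^ i * (a k i) ^ 2)) (by
      intro i j hij hj
      have : a i j = a (j + 1) i := congrArg l (hb i j hij hj)
      simp only [this]
      rw [pow_succ]
      ring)
    rw [mul_sum, mul_sum]
    have h1 : ∀ k ∈ range (n + 2), 2 * ((-1) ^ k * ∑ j ∈ range (n + 1), ∑ i ∈ range j,
      (if i % 2 = j % 2 then (-1) ^ j * (a k i * a k j) else 0))
        = 4 * w k - ∑ i ∈ range (n + 1), (-1) ^ k * ((-1) ^ i * (a k i) ^ 2) := by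
      intro k hk
      rw [mem_range] at hk
      rw [← mul_sum, ← hw k hk]
      simp only [← sum_mul]
      ring
    rw [sum_congr rfl h1, sum_sub_distrib, h0, sub_zero]
  have h2 : ∑ k ∈ range (n + 2), (-1) ^ k * ∑ j ∈ range (n + 1), ∑ i ∈ range j,
      (if i % 2 = j % 2 then (-1) ^ j * (a k i * a k j) else 0)
      = 2 * ∑ k ∈ range (n + 2), w k := by
    have h3 : (2 : MvPolynomial σ ℤ) ≠ 0 := two_ne_zero
    apply mul_left_cancel₀ h3
    rw [hall]; ring
  have h4 := congrArg π h2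
  rw [map_sum, map_mul] at h4
  have h5 : π 2 = 0 := by
    rw [map_ofNat]
    exact CharTwo.two_eq_zero
  rw [h5, zero_mul] at h4
  refine Eq.trans ?_ h4
  have h1 : (-1 : MvPolynomial σ (ZMod 2)) = 1 := CharTwo.neg_eq 1
  refine sum_congr rfl fun k _ => ?_
  rw [map_mul, map_pow, map_neg, map_one, h1, one_pow, one_mul, map_sum]
  refine sum_congr rfl fun j _ => ?_
  rw [map_sum]
  refine sum_congr rfl fun i _ => ?_
  split_ifs
  · rw [map_mul, map_mul, map_pow, map_neg, map_one, h1, one_pow, one_mul, hl, hl]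
  · rw [map_zero]

end alg

end Pool.Agent.W624.ND
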