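import Pool.Agent.W624.NDalg

set_option autoImplicit false
set_option linter.unusedSectionVars false

namespace Pool.Agent.W624.ND

open Finset MvPolynomial
open Pool.Agent.W624.Stz (io ro ro_io io_X RR dd kun ktw ev uni fc act cf io_cf io_d dd_apply P2
  cut dep_of_cut io_cut mp mP mP_fc mP_uni ev_map ev_X co mrg_lt mrg_eq mrg_gt fc_zero fc_mid
  fc_last mul_g op fc_fc Agr Vr mh io_mh final final0)

theorem coface_cf (s : ℕ) (j : Fin (s + 2)) : coface s j = cf s j := rfl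

theorem dC_apply (s : ℕ) (x : Cob s) : dC s x = ∑ j : Fin (s + 2), coface s j x := by
  simp [dC]

theorem io_dC (s : ℕ) (x : Cob s) : io (s + 1) (dC s x) = dd kun s (io s x) := by
  rw [dC_apply]
  exact io_d s x

theorem io_inj {s : ℕ} {x y : Cob s} (h : io s x = io s y) : x = y := by
  have := congrArg (ro s) h
  rwa [ro_io, ro_io] at this

theorem dC_dC (s : ℕ) (x : Cob s) : dC (s + 1) (dC s x) = 0 := by
  apply io_inj
  rw [io_dC, io_dC, map_zero]
  exact Stz.dd_dd kun (io_cut s x)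

theorem sum_sq {σ : Type*} {ι : Type*} (S : Finset ι) (f : ι → MvPolynomial σ (ZMod 2)) :
    (∑ i ∈ S, f i) ^ 2 = ∑ i ∈ S, f i ^ 2 := Stz.sum_sq0 S f

theorem dC_sq (s : ℕ) (x : Cob s) : dC s (x ^ 2) = (dC s x) ^ 2 := by
  rw [dC_apply, dC_apply, sum_sq]
  exact sum_congr rfl fun j _ => map_pow _ _ _

theorem mulH0_mh (s : ℕ) (x : Cob s) : mulH0 s x = mh s x := rfl

/-- face maps on points -/
theorem del_del {q i j : ℕ} (hij : i ≤ j) (hj : j ≤ q + 1) {f : RR Empty}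
    (hf : cut Empty q f = f) :
    ev (fc (act kun) (q + 1) i (uni Empty)) (ev (fc (act kun) q j (uni Empty)) f)
      = ev (fc (act kun) (q + 1) (j + 1) (uni Empty)) (ev (fc (act kun) q i (uni Empty)) f) := by
  rw [ev_map, ev_map, mP_fc, mP_fc, mP_uni, mP_uni]
  exact dep_of_cut hf _ _ (fc_fc (Stz.act_mul kun) q i j hij hj (uni Empty))

theorem agr_last (q : ℕ) (z : Stz.Pt Empty (RR Empty)) (j : ℕ) (hj : q < j) :
    Agr q (fc (act kun) q j z) z := by
  rw [fc_last _ hj]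
  exact ⟨fun a _ => rfl, by funext c; exact c.elim⟩

theorem dd_mulX (s : ℕ) {f : RR Empty} (hf : cut Empty s f = f) :
    dd kun (s + 1) (X (.x s 0) * f) = X (.x (s + 1) 0) * dd kun s f := by
  have hA : ∀ j, j ≤ s → ev (fc (act kun) (s + 1) j (uni Empty)) (X (.x s 0))
      = X (.x (s + 1) 0) := by
    intro j hj
    rw [ev_X]
    cases j with
    | zero => rw [fc_zero]; rfl
    | succ k =>
      rw [fc_mid _ (by omega)]
      simp only [co]
      rw [mrg_gt (by omega)]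
      rfl
  have hB : ∀ j, j ≤ s → ev (fc (act kun) (s + 1) j (uni Empty)) f
      = ev (fc (act kun) s j (uni Empty)) f := by
    intro j hj
    apply dep_of_cut hf
    cases j with
    | zero => rw [fc_zero, fc_zero]; exact ⟨fun _ _ => rfl, rfl⟩
    | succ k => rw [fc_mid _ (by omega), fc_mid _ (by omega)]; exact ⟨fun _ _ => rfl, rfl⟩
  have hC1 : ev (fc (act kun) (s + 1) (s + 1) (uni Empty)) (X (.x s 0))
      = X (.x s 0) + X (.x (s + 1) 0) := by
    rw [ev_X, fc_mid _ (by omega)]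
    simp only [co]
    rw [mrg_eq, mul_g, op]
    simp [Finset.Nat.antidiagonal_succ, uni, Stz.ug, add_comm]
  have hC2 : ev (fc (act kun) (s + 1) (s + 1) (uni Empty)) f = f := by
    have h := dep_of_cut hf (fc (act kun) (s + 1) (s + 1) (uni Empty)) (uni Empty) (by
      rw [fc_mid _ (by omega)]
      exact ⟨fun a ha => mrg_lt ha _, rfl⟩)
    simp only at h
    rw [h, Stz.ev_uni]
  have hD1 : ev (fc (act kun) (s + 1) (s + 2) (uni Empty)) (X (.x s 0)) = X (.x s 0) := by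
    rw [ev_X, fc_last _ (by omega)]
    rfl
  have hD2 : ev (fc (act kun) (s + 1) (s + 2) (uni Empty)) f = f := by
    have h0 := agr_last (s + 1) (uni Empty) (s + 2) (by omega)
    have h := dep_of_cut hf (fc (act kun) (s + 1) (s + 2) (uni Empty)) (uni Empty)
      ⟨fun a ha => h0.1 a (by omega), h0.2⟩
    simp only at h
    rw [h, Stz.ev_uni]
  have hE : ev (fc (act kun) s (s + 1) (uni Empty)) f = f := by
    have h := dep_of_cut hf _ _ (agr_last s (uni Empty) (s + 1) (by omega))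
    simp only at h
    rw [h, Stz.ev_uni]
  rw [dd_apply, dd_apply, sum_range_succ, sum_range_succ, sum_range_succ (n := s + 1)]
  rw [map_mul, map_mul, hC1, hC2, hD1, hD2, hE]
  have hS : ∑ x ∈ range (s + 1), ev (fc (act kun) (s + 1) x (uni Empty)) (X (.x s 0) * f)
      = X (.x (s + 1) 0) * ∑ x ∈ range (s + 1), ev (fc (act kun) s x (uni Empty)) f := by
    rw [mul_sum]
    refine sum_congr rfl fun j hj => ?_
    rw [mem_range] at hj
    rw [map_mul, hA j (by omega), hB j (by omega)]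
  rw [hS]
  have h2 := Stz.p2_add_self (X (.x s 0) * f)
  calc _ = X (.x (s + 1) 0) * (∑ x ∈ range (s + 1), ev (fc (act kun) s x (uni Empty)) f + f)
        + (X (.x s 0) * f + X (.x s 0) * f) := by ring
    _ = _ := by rw [h2, add_zero]

theorem dC_mulH0 (s : ℕ) (x : Cob s) : dC (s + 1) (mulH0 s x) = mulH0 (s + 1) (dC s x) := by
  apply io_inj
  rw [io_dC, mulH0_mh, io_mh, mulH0_mh, io_mh, io_dC]
  exact dd_mulX s (io_cut s x)

theorem pairs {A : Type*} [CommRing A] (N : ℕ) (G : ℕ → A) :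
    ∑ p ∈ (univ : Finset (Fin N × Fin N)).filter
      (fun p => p.1 < p.2 ∧ (p.1 : ℕ) % 2 = (p.2 : ℕ) % 2), G p.1 * G p.2
      = ∑ j ∈ range N, ∑ i ∈ range j, (if i % 2 = j % 2 then G i * G j else 0) := by
  rw [sum_filter, Fintype.sum_prod_type_right, Finset.sum_range]
  refine sum_congr rfl fun j _ => ?_
  have h1 : ∑ i : Fin N, (if i < j ∧ (i : ℕ) % 2 = (j : ℕ) % 2 then G i * G j else 0)
      = ∑ i ∈ range N, (if i < (j : ℕ) ∧ i % 2 = (j : ℕ) % 2 then G i * G j else 0) := by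
    rw [Finset.sum_range]
    rfl
  simp only
  rw [h1]
  have h2 : range (j : ℕ) ⊆ range N := by
    intro i hi
    rw [mem_range] at hi ⊢
    have := j.2
    omega
  rw [← sum_subset h2]
  · refine sum_congr rfl fun i hi => ?_
    rw [mem_range] at hi
    by_cases h : i % 2 = (j : ℕ) % 2
    · rw [if_pos ⟨hi, h⟩, if_pos h]
    · rw [if_neg (fun h' => h h'.2), if_neg h]
  · intro i _ hi
    rw [mem_range] at hi
    rw [if_neg (fun h' => hi h'.1)]

theorem io_sq1 (s : ℕ) (x : Cob s) : io (s + 1) (sq1 s x)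
    = ∑ j ∈ range (s + 2), ∑ i ∈ range j, (if i % 2 = j % 2 then
      ev (fc (act kun) s i (uni Empty)) (io s x) * ev (fc (act kun) s j (uni Empty)) (io s x)
      else 0) := by
  rw [← pairs (s + 2) (fun i => ev (fc (act kun) s i (uni Empty)) (io s x)), sq1, map_sum]
  refine sum_congr rfl fun p _ => ?_
  rw [map_mul, coface_cf, coface_cf, io_cf, io_cf]

theorem dC_sq1 (s : ℕ) {x : Cob s} (hx : dC s x = 0) : dC (s + 1) (sq1 s x) = 0 := by
  apply io_inj
  rw [io_dC, io_sq1, map_zero, dd_apply]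
  set Y := io s x with hY
  have hc : cut Empty s Y = Y := io_cut s x
  have hd : dd kun s Y = 0 := by rw [hY, ← io_dC, hx, map_zero]
  have := sq1_closed (s + 1) (fun k i => ev (fc (act kun) (s + 1) k (uni Empty))
    (ev (fc (act kun) s i (uni Empty)) Y)) (fun i j hij hj => del_del hij hj hc) (by
      intro k _
      rw [← map_sum, ← dd_apply, hd, map_zero])
  refine Eq.trans ?_ this
  refine sum_congr rfl fun k _ => ?_
  rw [map_sum]
  refine sum_congr rfl fun j _ => ?_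
  rw [map_sum]
  refine sum_congr rfl fun i _ => ?_
  split_ifs
  · rw [map_mul]
  · rw [map_zero]

/-! ### Operations on cocycles and classes -/

theorem mem_Z {s : ℕ} {x : Cob s} : x ∈ Z s ↔ dC s x = 0 := LinearMap.mem_ker

theorem mem_B_succ {s : ℕ} {x : Cob (s + 1)} : x ∈ B (s + 1) ↔ ∃ y, dC s y = x :=
  LinearMap.mem_range

theorem sq_mem_B {s : ℕ} {x : Cob s} (h : x ∈ B s) : x ^ 2 ∈ B s := by
  cases s with
  | zero =>
    have h0 : x = 0 := h
    rw [h0]
    simp [B]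
  | succ s =>
    obtain ⟨y, hy⟩ := mem_B_succ.mp h
    exact mem_B_succ.mpr ⟨y ^ 2, by rw [dC_sq, hy]⟩

theorem mulH0_mem_B {s : ℕ} {x : Cob s} (h : x ∈ B s) : mulH0 s x ∈ B (s + 1) := by
  cases s with
  | zero =>
    have h0 : x = 0 := h
    rw [h0, map_zero]
    exact zero_mem _
  | succ s =>
    obtain ⟨y, hy⟩ := mem_B_succ.mp h
    exact mem_B_succ.mpr ⟨mulH0 s y, by rw [dC_mulH0, hy]⟩

/-- Squaring of cocycles. -/
noncomputable def sqZ (s : ℕ) : Z s →ₗ[ZMod 2] Z s :=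
  (sq s).restrict (fun x hx => mem_Z.mpr (by
    change dC s (x ^ 2) = 0
    rw [dC_sq, mem_Z.mp hx]; ring))

/-- The operation `Sq⁰ : Ext^s → Ext^s` induced by squaring. -/
noncomputable def Sq0 (s : ℕ) (y : Ext s) : Ext s :=
  Submodule.mapQ ((B s).submoduleOf (Z s)) ((B s).submoduleOf (Z s)) (sqZ s) (fun x hx => by
    change ((sqZ s x : Z s) : Cob s) ∈ B s
    exact sq_mem_B (show (x : Cob s) ∈ B s from hx)) y

/-- Multiplication by `h₀` on cocycles. -/
noncomputable def h0Z (s : ℕ) : Z s →ₗ[ZMod 2] Z (s + 1) :=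
  (mulH0 s).restrict (fun x hx => mem_Z.mpr (by rw [dC_mulH0, mem_Z.mp hx, map_zero]))

/-- Multiplication by `h₀` on `Ext`. -/
noncomputable def h0 (s : ℕ) (y : Ext s) : Ext (s + 1) :=
  Submodule.mapQ ((B s).submoduleOf (Z s)) ((B (s + 1)).submoduleOf (Z (s + 1))) (h0Z s)
    (fun x hx => by
      change ((h0Z s x : Z (s + 1)) : Cob (s + 1)) ∈ B (s + 1)
      exact mulH0_mem_B (show (x : Cob s) ∈ B s from hx)) y

/-- The cocycle `x ∪_{s-1} x` representing `Sq¹` of the class of a cocycle `x`. -/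
noncomputable def Sq1 (s : ℕ) (x : Z s) : Z (s + 1) :=
  ⟨sq1 s x, mem_Z.mpr (dC_sq1 s (mem_Z.mp x.2))⟩

theorem cl_eq_zero {s : ℕ} {x : Z s} : cl x = 0 ↔ (x : Cob s) ∈ B s := by
  have h : (Submodule.Quotient.mk x : Z s ⧸ (B s).submoduleOf (Z s)) = 0 ↔ _ :=
    Submodule.Quotient.mk_eq_zero _
  exact h

theorem cl_surj {s : ℕ} (y : Ext s) : ∃ x, cl x = y := Submodule.mkQ_surjective _ y

theorem Sq0_zero (s : ℕ) : Sq0 s 0 = 0 :=
  LinearMap.map_zero (Submodule.mapQ ((B s).submoduleOf (Z s)) ((B s).submoduleOf (Z s))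
    (sqZ s) _)

theorem h0_zero (s : ℕ) : h0 s 0 = 0 :=
  LinearMap.map_zero (Submodule.mapQ ((B s).submoduleOf (Z s))
    ((B (s + 1)).submoduleOf (Z (s + 1))) (h0Z s) _)

theorem Sq0_iter_zero (s n : ℕ) : (Sq0 s)^[n] 0 = 0 := by
  induction n with
  | zero => rfl
  | succ n ih => rw [Function.iterate_succ_apply, Sq0_zero, ih]

theorem Sq0_cl {s : ℕ} (x : Z s) : Sq0 s (cl x) = cl (sqZ s x) := rfl

theorem h0_cl {s : ℕ} (x : Z s) : h0 s (cl x) = cl (h0Z s x) := rfl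

theorem sqZ_val {s : ℕ} (x : Z s) : ((sqZ s x : Z s) : Cob s) = (x : Cob s) ^ 2 := rfl

theorem h0Z_val {s : ℕ} (x : Z s) : ((h0Z s x : Z (s + 1)) : Cob (s + 1)) = mh s x := rfl

theorem sqZ_iter {s : ℕ} (x : Z s) (j : ℕ) :
    (((sqZ s)^[j] x : Z s) : Cob s) = (x : Cob s) ^ (2 ^ j) := by
  induction j with
  | zero => simp
  | succ j ih =>
    rw [Function.iterate_succ_apply', sqZ_val, ih, ← pow_mul, ← pow_succ]

theorem Sq0_iter {s : ℕ} (x : Z s) (j : ℕ) : (Sq0 s)^[j] (cl x) = cl ((sqZ s)^[j] x) := by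
  induction j with
  | zero => rfl
  | succ j ih =>
    rw [Function.iterate_succ_apply', Function.iterate_succ_apply', ih, Sq0_cl]

theorem sq1_sq (s : ℕ) (x : Cob s) : sq1 s (x ^ 2) = (sq1 s x) ^ 2 := by
  rw [sq1, sq1, sum_sq]
  refine sum_congr rfl fun p _ => ?_
  rw [map_pow, map_pow, mul_pow]

theorem Sq1_sqZ {s : ℕ} (x : Z s) : Sq1 s (sqZ s x) = sqZ (s + 1) (Sq1 s x) := by
  apply Subtype.ext
  rw [sqZ_val]
  exact sq1_sq s x

theorem Sq1_iter {s : ℕ} (x : Z s) (j : ℕ) :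
    Sq1 s ((sqZ s)^[j] x) = (sqZ (s + 1))^[j] (Sq1 s x) := by
  induction j with
  | zero => rfl
  | succ j ih =>
    rw [Function.iterate_succ_apply', Function.iterate_succ_apply', Sq1_sqZ, ih]

/-- `h₀` times an iterated `Sq⁰` -/
theorem h0_iter (s : ℕ) : ∃ J, ∀ y : Ext (s + 1), ∀ j, J ≤ j →
    h0 (s + 1) ((Sq0 (s + 1))^[j + 1] y) = 0 → (Sq0 (s + 1))^[j] y = 0 := by
  obtain ⟨J, hJ⟩ := final0 s
  refine ⟨J, fun y j hj h => ?_⟩
  obtain ⟨x, rfl⟩ := cl_surj y
  rw [Sq0_iter, h0_cl, cl_eq_zero, mem_B_succ, h0Z_val, sqZ_iter] at h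
  rw [Sq0_iter, cl_eq_zero, mem_B_succ, sqZ_iter]
  obtain ⟨q, hq⟩ := h
  obtain ⟨z, hz⟩ := hJ (x : Cob (s + 1)) j hj ⟨q, by rw [← hq, dC_apply]; rfl⟩
  exact ⟨z, by rw [dC_apply]; exact hz⟩

/-- eventual injectivity of `Sq⁰` -/
theorem nil_iter (s : ℕ) : ∃ r, ∀ y : Ext (s + 1), ∀ i,
    (Sq0 (s + 1))^[i] y = 0 → (Sq0 (s + 1))^[r] y = 0 := by
  obtain ⟨r, hr⟩ := final s
  refine ⟨r, fun y i h => ?_⟩
  have h' : (Sq0 (s + 1))^[r + i] y = 0 := by
    rw [Function.iterate_add_apply, h]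
    clear h
    induction r with
    | zero => rfl
    | succ r ih => rw [Function.iterate_succ_apply, Sq0_zero]; exact Sq0_iter_zero _ _
  obtain ⟨x, rfl⟩ := cl_surj y
  rw [Sq0_iter, cl_eq_zero, mem_B_succ, sqZ_iter] at h' ⊢
  obtain ⟨q, hq⟩ := h'
  obtain ⟨z, hz⟩ := hr (x : Cob (s + 1)) i ⟨q, by rw [← hq, dC_apply]; rfl⟩
  exact ⟨z, by rw [dC_apply]; exact hz⟩

end Pool.Agent.W624.ND
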