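import Mathlib

/-!
# The cohomology of the mod 2 Steenrod algebra: the definitions of the statement

`Cob s` is the `s`-th term of the cobar complex of the dual Steenrod algebra
`𝔽₂[ξ₁, ξ₂, …]`, that is, its `s`-fold tensor power: a polynomial ring in the `ξ_n` of `s` slots.
-/

set_option autoImplicit false

namespace Pool.Agent.W624.NS

/-- The cobar complex in degree `s`: the polynomial ring over `𝔽₂` in the variables `(a, n)`;
the variable `(a, n)` stands for `ξ_{n+1}` in the slot `a`, where `a < s`. -/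
def Cob (s : ℕ) : Type := MvPolynomial (Fin s × ℕ) (ZMod 2)

noncomputable instance instRing (s : ℕ) : CommRing (Cob s) :=
  (inferInstance : CommRing (MvPolynomial (Fin s × ℕ) (ZMod 2)))

/-- `ξ_n` in the slot `a`, where `ξ₀ = 1`. -/
noncomputable def ξ {s : ℕ} (a : Fin s) : ℕ → Cob s
  | 0 => (1 : Cob s)
  | n + 1 => (MvPolynomial.X (a, n) : MvPolynomial (Fin s × ℕ) (ZMod 2))

/-- The ring homomorphism which takes `ξ_n` in the slot `a` to `f a n`, for `n ≥ 1`. -/
noncomputable def hom {s t : ℕ} (f : Fin s → ℕ → Cob t) : Cob s →+* Cob t :=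
  MvPolynomial.eval₂Hom (MvPolynomial.C : ZMod 2 →+* MvPolynomial (Fin t × ℕ) (ZMod 2))
    (fun p : Fin s × ℕ => f p.1 (p.2 + 1))

/-- The coproduct `∑ᵢ ξ_{n-i} ^ (2 ^ i) ⊗ ξᵢ` of `ξ_n`, with values in the slots `a`, `a + 1`. -/
noncomputable def coprod {s : ℕ} (a : Fin s) (n : ℕ) : Cob (s + 1) :=
  ∑ i ∈ Finset.range (n + 1), ξ a.castSucc (n - i) ^ (2 ^ i) * ξ a.succ i

/-- The `j`-th coface: a unit is inserted at the left for `j = 0` and at the right for
`j = s + 1`, and for `0 < j ≤ s` the coproduct is applied in the `j`-th slot. -/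
noncomputable def face (s j : ℕ) : Cob s →+* Cob (s + 1) :=
  hom fun a n => if (a : ℕ) + 1 < j then ξ a.castSucc n else
    if j ≤ (a : ℕ) then ξ a.succ n else coprod a n

/-- The differential of the cobar complex, the sum of the cofaces `0, …, s + 1`. -/
noncomputable def dC (s : ℕ) (x : Cob s) : Cob (s + 1) :=
  ∑ j ∈ Finset.range (s + 2), face s j x

/-- Cocycles. -/
def Z (s : ℕ) : Type := {x : Cob s // dC s x = 0}

/-- Coboundaries. -/
def IsB : (s : ℕ) → Cob s → Prop
  | 0, x => x = 0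
  | s + 1, x => ∃ y, dC s y = x

/-- The Adams `s`-line: `Ext^s = ⨁ₜ Ext^{s,t}`, cocycles modulo coboundaries. -/
def Ext (s : ℕ) : Type := Quot fun x y : Z s => IsB s (x.1 - y.1)

/-- The class of a cocycle. -/
def cl {s : ℕ} (x : Z s) : Ext s := Quot.mk _ x

/-- The cocycle `0`. -/
noncomputable def zeroZ (s : ℕ) : Z s := ⟨0, by simp [dC]⟩

noncomputable instance instZero (s : ℕ) : Zero (Ext s) := ⟨cl (zeroZ s)⟩

/-- Right multiplication by `h₀ = [ξ₁]`: `x ↦ [x | ξ₁]`. -/
noncomputable def mulH0 (s : ℕ) (x : Cob s) : Cob (s + 1) :=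
  hom (fun a n => ξ a.castSucc n) x * ξ (Fin.last s) 1

/-- The cup-`(s-1)` square of a cochain of degree `s`: the sum of `(δⁱ x) (δʲ x)` over
`i < j ≤ s + 1` with `i ≡ j` modulo 2, where `δⁱ` is the `i`-th coface. -/
noncomputable def cupSq (s : ℕ) (x : Cob s) : Cob (s + 1) :=
  ∑ j ∈ Finset.range (s + 2), ∑ i ∈ Finset.range j,
    if i % 2 = j % 2 then face s i x * face s j x else 0

/-- `x` is homogeneous of internal degree `t`, where `ξ_n` has degree `2 ^ n - 1`. -/
def IsHom (s t : ℕ) (x : Cob s) : Prop :=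
  MvPolynomial.IsWeightedHomogeneous (R := ZMod 2) (fun p : Fin s × ℕ => 2 ^ (p.2 + 1) - 1) x t

end Pool.Agent.W624.NS
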