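import Pool.Agent.W624.NDst
import Pool.Agent.W624.NDbasic

set_option autoImplicit false
set_option linter.unusedSectionVars false

namespace Pool.Agent.W624.NS

open Finset

theorem hom_apply {s t : ℕ} (f : Fin s → ℕ → ND.Cob t) (x : ND.Cob s) :
    (hom (s := s) (t := t) f x : ND.Cob t) = MvPolynomial.aeval (R := ZMod 2)
      (fun p : Fin s × ℕ => f p.1 (p.2 + 1)) x := rfl

theorem ξ_zero {s : ℕ} (a : Fin s) : ξ a 0 = 1 := rfl

theorem ξ_succ {s : ℕ} (a : Fin s) (n : ℕ) :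
    (ξ a (n + 1) : ND.Cob s) = MvPolynomial.X (a, n) := rfl

theorem ξ_eq {s : ℕ} (a : Fin s) (n : ℕ) :
    (ξ a n : ND.Cob s) = if n = 0 then 1 else MvPolynomial.X (a, n - 1) := by
  cases n with
  | zero => rfl
  | succ n => rfl

theorem coprod_eq {s : ℕ} (a : Fin s) (n : ℕ) :
    (coprod a (n + 1) : ND.Cob (s + 1)) = ∑ i ∈ Finset.range (n + 2),
      (if i = n + 1 then (1 : ND.Cob (s + 1)) else MvPolynomial.X (a.castSucc, n - i)) ^ (2 ^ i) *
      (if i = 0 then (1 : ND.Cob (s + 1)) else MvPolynomial.X (a.succ, i - 1)) := by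
  refine Finset.sum_congr rfl fun i hi => ?_
  rw [Finset.mem_range] at hi
  have h1 : (ξ a.castSucc (n + 1 - i) : ND.Cob (s + 1))
      = if i = n + 1 then (1 : ND.Cob (s + 1)) else MvPolynomial.X (a.castSucc, n - i) := by
    rw [ξ_eq]
    by_cases h : i = n + 1
    · rw [if_pos h, if_pos (by omega)]
    · rw [if_neg h, if_neg (by omega)]
      congr 2
      omega
  have h2 := ξ_eq a.succ i
  have h3 : ∀ u v u' v' : ND.Cob (s + 1), u = u' → v = v' →
      u ^ (2 ^ i) * v = u' ^ (2 ^ i) * v' := fun u v u' v' h h' => by rw [h, h']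
  exact h3 _ _ _ _ h1 h2

theorem face_eq (s : ℕ) (j : Fin (s + 2)) (x : ND.Cob s) :
    (face s j x : ND.Cob (s + 1)) = ND.coface s j x := by
  refine (hom_apply _ x).trans ?_
  rw [ND.coface]
  refine congrArg (fun g : Fin s × ℕ → ND.Cob (s + 1) => MvPolynomial.aeval (R := ZMod 2) g x) ?_
  funext p
  by_cases h1 : (p.1 : ℕ) + 1 < j
  · rw [if_pos h1, if_pos h1]; rfl
  · rw [if_neg h1, if_neg h1]
    by_cases h2 : (j : ℕ) < (p.1 : ℕ) + 1
    · rw [if_pos (by omega), if_pos h2]; rfl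
    · rw [if_neg (by omega), if_neg h2]
      exact coprod_eq p.1 p.2

theorem dC_eq (s : ℕ) (x : ND.Cob s) : (dC s x : ND.Cob (s + 1)) = ND.dC s x := by
  rw [ND.dC_apply]
  have h : (∑ j ∈ Finset.range (s + 2), (face s j x : ND.Cob (s + 1)))
      = ∑ j : Fin (s + 2), (face s j x : ND.Cob (s + 1)) :=
    Finset.sum_range (n := s + 2) (fun j => (face s j x : ND.Cob (s + 1)))
  refine Eq.trans h (Finset.sum_congr rfl fun j _ => ?_)
  exact face_eq s j x

theorem isB_iff (s : ℕ) (x : ND.Cob s) : IsB s x ↔ x ∈ ND.B s := by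
  cases s with
  | zero => exact Iff.rfl
  | succ s =>
    rw [ND.mem_B_succ]
    constructor
    · rintro ⟨y, hy⟩
      exact ⟨y, (dC_eq s y).symm.trans hy⟩
    · rintro ⟨y, hy⟩
      exact ⟨y, (dC_eq s y).trans hy⟩

theorem mulH0_eq (s : ℕ) (x : ND.Cob s) : (mulH0 s x : ND.Cob (s + 1)) = ND.mulH0 s x := by
  have h := hom_apply (s := s) (t := s + 1) (fun a n => (ξ a.castSucc n : ND.Cob (s + 1))) x
  refine (congrArg (fun y : ND.Cob (s + 1) => y * MvPolynomial.X (Fin.last s, 0)) h).trans ?_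
  have h2 : ND.mulH0 s x = MvPolynomial.rename (fun p : Fin s × ℕ => (p.1.castSucc, p.2)) x
    * MvPolynomial.X (Fin.last s, 0) := rfl
  rw [h2]
  refine congrArg (fun y : ND.Cob (s + 1) => y * MvPolynomial.X (Fin.last s, 0)) ?_
  have h3 : MvPolynomial.aeval (R := ZMod 2)
      (fun p : Fin s × ℕ => (MvPolynomial.X (p.1.castSucc, p.2) : ND.Cob (s + 1)))
      = MvPolynomial.rename (fun p : Fin s × ℕ => (p.1.castSucc, p.2)) := by
    apply MvPolynomial.algHom_ext
    intro p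
    simp
  exact DFunLike.congr_fun h3 x

theorem cupSq_eq (s : ℕ) (x : ND.Cob s) : (cupSq s x : ND.Cob (s + 1)) = ND.sq1 s x := by
  rw [ND.sq1]
  let g : ℕ → ND.Cob (s + 1) := fun j => face s j x
  have h := ND.pairs (s + 2) g
  have h' : (∑ p ∈ (univ : Finset (Fin (s + 2) × Fin (s + 2))).filter
      (fun p => p.1 < p.2 ∧ (p.1 : ℕ) % 2 = (p.2 : ℕ) % 2), g p.1 * g p.2) =
      ∑ p ∈ (univ : Finset (Fin (s + 2) × Fin (s + 2))).filter
      (fun p => p.1 < p.2 ∧ (p.1 : ℕ) % 2 = (p.2 : ℕ) % 2),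
    ND.coface s p.1 x * ND.coface s p.2 x := by
    refine Finset.sum_congr rfl fun p _ => ?_
    have h1 : g p.1 = ND.coface s p.1 x := face_eq s p.1 x
    have h2 : g p.2 = ND.coface s p.2 x := face_eq s p.2 x
    rw [h1, h2]
  exact h.symm.trans h'

end Pool.Agent.W624.NS
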