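import Pool.Agent.W624.NDst2

set_option autoImplicit false
set_option linter.unusedSectionVars false

namespace Pool.Agent.W624.NS

open Finset

theorem dC_sq (s : ℕ) (x : Cob s) : dC s (x ^ 2) = (dC s x) ^ 2 :=
  (dC_eq s (x ^ 2)).trans ((ND.dC_sq s x).trans (congrArg (fun y : ND.Cob (s + 1) => y ^ 2)
    (dC_eq s x).symm))

theorem dC_sub (s : ℕ) (x y : Cob s) : dC s (x - y) = dC s x - dC s y := by
  have h : ∀ z : ND.Cob s, (dC s z : ND.Cob (s + 1)) = ND.dC s z := dC_eq s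
  exact (h (x - y)).trans (((ND.dC s).map_sub x y).trans
    (congrArg₂ (fun u v : ND.Cob (s + 1) => u - v) (h x).symm (h y).symm))

theorem dC_zero (s : ℕ) : dC s 0 = 0 := by
  simp [dC]

theorem dC_mulH0 (s : ℕ) (x : Cob s) : dC (s + 1) (mulH0 s x) = mulH0 (s + 1) (dC s x) := by
  refine (dC_eq (s + 1) (mulH0 s x)).trans ?_
  refine (congrArg (ND.dC (s + 1)) (mulH0_eq s x)).trans ?_
  refine (ND.dC_mulH0 s x).trans ?_
  refine Eq.trans ?_ (mulH0_eq (s + 1) (dC s x)).symm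
  exact congrArg (ND.mulH0 (s + 1)) (dC_eq s x).symm

theorem sub_eq (s : ℕ) (x y : Cob s) : (x - y) ^ 2 = x ^ 2 - y ^ 2 := by
  have h : (2 : Cob s) = 0 := (CharTwo.two_eq_zero : (2 : ND.Cob s) = 0)
  linear_combination (y ^ 2 - x * y) * h

theorem mulH0_sub (s : ℕ) (x y : Cob s) : mulH0 s (x - y) = mulH0 s x - mulH0 s y := by
  simp only [mulH0, map_sub, sub_mul]

theorem mulH0_zero (s : ℕ) : mulH0 s 0 = 0 := by
  simp [mulH0]

theorem isB_sub {s : ℕ} {x y : Cob s} (hx : IsB s x) (hy : IsB s y) : IsB s (x - y) :=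
  (isB_iff s _).mpr (sub_mem ((isB_iff s x).mp hx) ((isB_iff s y).mp hy))

theorem isB_zero (s : ℕ) : IsB s 0 := (isB_iff s 0).mpr (zero_mem _)

theorem isB_sq {s : ℕ} {x : Cob s} (h : IsB s x) : IsB s (x ^ 2) :=
  (isB_iff s _).mpr (ND.sq_mem_B ((isB_iff s x).mp h))

theorem isB_mulH0 {s : ℕ} {x : Cob s} (h : IsB s x) : IsB (s + 1) (mulH0 s x) := by
  refine (isB_iff (s + 1) _).mpr ?_
  have := ND.mulH0_mem_B ((isB_iff s x).mp h)
  rwa [← mulH0_eq s x] at this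

theorem sq_closed {s : ℕ} (x : Z s) : dC s (x.1 ^ 2) = 0 := by
  rw [dC_sq, x.2]; ring

theorem h0_closed {s : ℕ} (x : Z s) : dC (s + 1) (mulH0 s x.1) = 0 := by
  rw [dC_mulH0, x.2, mulH0_zero]

theorem cup_closed {s : ℕ} (x : Z s) : dC (s + 1) (cupSq s x.1) = 0 := by
  refine (dC_eq (s + 1) (cupSq s x.1)).trans ?_
  refine (congrArg (ND.dC (s + 1)) (cupSq_eq s x.1)).trans ?_
  exact ND.dC_sq1 s ((dC_eq s x.1).symm.trans x.2)

/-- Squaring of cocycles. -/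
noncomputable def sqZ (s : ℕ) (x : Z s) : Z s := ⟨x.1 ^ 2, sq_closed x⟩

/-- Multiplication of cocycles by `h₀`. -/
noncomputable def h0Z (s : ℕ) (x : Z s) : Z (s + 1) := ⟨mulH0 s x.1, h0_closed x⟩

theorem sq_rel (s : ℕ) (x y : Z s) (h : IsB s (x.1 - y.1)) :
    IsB s ((sqZ s x).1 - (sqZ s y).1) := by
  have := isB_sq h
  rwa [sub_eq] at this

theorem h0_rel (s : ℕ) (x y : Z s) (h : IsB s (x.1 - y.1)) :
    IsB (s + 1) ((h0Z s x).1 - (h0Z s y).1) := by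
  have := isB_mulH0 h
  rwa [mulH0_sub] at this

/-- The operation `Sq⁰ : Ext^s → Ext^s`, induced by squaring. -/
noncomputable def Sq0 (s : ℕ) : Ext s → Ext s := Quot.map (sqZ s) (sq_rel s)

/-- Multiplication by `h₀`. -/
noncomputable def h0 (s : ℕ) : Ext s → Ext (s + 1) := Quot.map (h0Z s) (h0_rel s)

/-- The cocycle `x ∪_{s-1} x` of degree `s + 1`, which represents `Sq¹` of the class of `x`. -/
noncomputable def Sq1 (s : ℕ) (x : Z s) : Z (s + 1) := ⟨cupSq s x.1, cup_closed x⟩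

theorem equiv_rel (s : ℕ) : Equivalence (fun x y : Z s => IsB s (x.1 - y.1)) where
  refl x := by
    rw [sub_self]; exact isB_zero s
  symm {x y} h := by
    have := isB_sub (isB_zero s) h
    rwa [zero_sub, neg_sub] at this
  trans {x y z} h h' := by
    have := isB_sub h (isB_sub (isB_zero s) h')
    have e : x.1 - y.1 - (0 - (y.1 - z.1)) = x.1 - z.1 := by ring
    rwa [e] at this

theorem cl_eq_zero {s : ℕ} {x : Z s} : cl x = 0 ↔ IsB s x.1 := by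
  constructor
  · intro h
    have h1 := (equiv_rel s).eqvGen_iff.mp (Quot.eqvGen_exact h)
    have e : x.1 - (zeroZ s).1 = x.1 := sub_zero _
    rwa [e] at h1
  · intro h
    refine Quot.sound ?_
    have e : x.1 - (zeroZ s).1 = x.1 := sub_zero _
    change IsB s (x.1 - (zeroZ s).1)
    rwa [e]

theorem cl_surj {s : ℕ} (y : Ext s) : ∃ x, cl x = y := Quot.exists_rep y

theorem Sq0_cl {s : ℕ} (x : Z s) : Sq0 s (cl x) = cl (sqZ s x) := rfl

theorem h0_cl {s : ℕ} (x : Z s) : h0 s (cl x) = cl (h0Z s x) := rfl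

theorem Sq0_zero (s : ℕ) : Sq0 s 0 = 0 := by
  change Sq0 s (cl (zeroZ s)) = 0
  rw [Sq0_cl, cl_eq_zero]
  have e : (sqZ s (zeroZ s)).1 = 0 := by
    change (0 : Cob s) ^ 2 = 0
    ring
  rw [e]; exact isB_zero s

theorem h0_zero (s : ℕ) : h0 s 0 = 0 := by
  change h0 s (cl (zeroZ s)) = 0
  rw [h0_cl, cl_eq_zero]
  have e : (h0Z s (zeroZ s)).1 = 0 := mulH0_zero s
  rw [e]; exact isB_zero _

theorem Sq0_iter_zero (s n : ℕ) : (Sq0 s)^[n] 0 = 0 := by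
  induction n with
  | zero => rfl
  | succ n ih => rw [Function.iterate_succ_apply, Sq0_zero, ih]

theorem sqZ_iter {s : ℕ} (x : Z s) (j : ℕ) : ((sqZ s)^[j] x).1 = x.1 ^ (2 ^ j) := by
  induction j with
  | zero => simp
  | succ j ih =>
    rw [Function.iterate_succ_apply']
    change ((sqZ s)^[j] x).1 ^ 2 = _
    rw [ih, ← pow_mul, ← pow_succ]

theorem Sq0_iter {s : ℕ} (x : Z s) (j : ℕ) : (Sq0 s)^[j] (cl x) = cl ((sqZ s)^[j] x) := by
  induction j with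
  | zero => rfl
  | succ j ih =>
    rw [Function.iterate_succ_apply', Function.iterate_succ_apply', ih, Sq0_cl]

theorem cupSq_sq (s : ℕ) (x : Cob s) : cupSq s (x ^ 2) = (cupSq s x) ^ 2 := by
  refine (cupSq_eq s (x ^ 2)).trans ?_
  refine (ND.sq1_sq s x).trans ?_
  exact congrArg (fun y : ND.Cob (s + 1) => y ^ 2) (cupSq_eq s x).symm

theorem Sq1_sqZ {s : ℕ} (x : Z s) : Sq1 s (sqZ s x) = sqZ (s + 1) (Sq1 s x) :=
  Subtype.ext (cupSq_sq s x.1)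

theorem Sq1_iter {s : ℕ} (x : Z s) (j : ℕ) :
    Sq1 s ((sqZ s)^[j] x) = (sqZ (s + 1))^[j] (Sq1 s x) := by
  induction j with
  | zero => rfl
  | succ j ih =>
    rw [Function.iterate_succ_apply', Function.iterate_succ_apply', Sq1_sqZ, ih]

/-- `h₀` times an iterated `Sq⁰` -/
theorem h0_iter (s : ℕ) : ∃ J, ∀ y : Ext (s + 1), ∀ j, J ≤ j →
    h0 (s + 1) ((Sq0 (s + 1))^[j + 1] y) = 0 → (Sq0 (s + 1))^[j] y = 0 := by
  obtain ⟨J, hJ⟩ := Stz.final0 s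
  refine ⟨J, fun y j hj h => ?_⟩
  obtain ⟨x, rfl⟩ := cl_surj y
  rw [Sq0_iter, h0_cl, cl_eq_zero] at h
  rw [Sq0_iter, cl_eq_zero, sqZ_iter]
  have h1 : (h0Z (s + 1) ((sqZ (s + 1))^[j + 1] x)).1 = mulH0 (s + 1) (x.1 ^ 2 ^ (j + 1)) := by
    change mulH0 (s + 1) ((sqZ (s + 1))^[j + 1] x).1 = _
    rw [sqZ_iter]
  rw [h1] at h
  obtain ⟨q, hq⟩ := h
  obtain ⟨z, hz⟩ := hJ (x.1 : ND.Cob (s + 1)) j hj ⟨q, by
    refine Eq.trans ?_ (hq.trans (mulH0_eq _ _))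
    refine Eq.trans ?_ (dC_eq _ q).symm
    exact (ND.dC_apply _ (q : ND.Cob _)).symm⟩
  refine ⟨z, (dC_eq s z).trans ?_⟩
  rw [ND.dC_apply]
  exact hz

/-- eventual injectivity of `Sq⁰` -/
theorem nil_iter (s : ℕ) : ∃ r, ∀ y : Ext (s + 1), ∀ i,
    (Sq0 (s + 1))^[i] y = 0 → (Sq0 (s + 1))^[r] y = 0 := by
  obtain ⟨r, hr⟩ := Stz.final s
  refine ⟨r, fun y i h => ?_⟩
  have h' : (Sq0 (s + 1))^[r + i] y = 0 := by
    rw [Function.iterate_add_apply, h]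
    exact Sq0_iter_zero _ _
  obtain ⟨x, rfl⟩ := cl_surj y
  rw [Sq0_iter, cl_eq_zero, sqZ_iter] at h' ⊢
  obtain ⟨q, hq⟩ := h'
  obtain ⟨z, hz⟩ := hr (x.1 : ND.Cob (s + 1)) i ⟨q, by
    refine Eq.trans ?_ hq
    refine Eq.trans ?_ (dC_eq _ q).symm
    exact (ND.dC_apply _ (q : ND.Cob _)).symm⟩
  refine ⟨z, (dC_eq s z).trans ?_⟩
  rw [ND.dC_apply]
  exact hz

theorem isHom_iter {s t : ℕ} (x : Z s) (h : IsHom s t x.1) (j : ℕ) :
    IsHom s (2 ^ j * t) ((sqZ s)^[j] x).1 := by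
  rw [sqZ_iter]
  have h1 : MvPolynomial.IsWeightedHomogeneous (R := ZMod 2)
      (fun p : Fin s × ℕ => 2 ^ (p.2 + 1) - 1) x.1 t := h
  have := h1.pow (2 ^ j)
  rwa [smul_eq_mul] at this

end Pool.Agent.W624.NS
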