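import Pool.Agent.W624.StzT

set_option autoImplicit false
set_option linter.unusedSectionVars false

namespace Pool.Agent.W624.Stz

open Finset MvPolynomial

section shifts

variable {A : Type*} [CommRing A] [Algebra (ZMod 2) A] {K : Type}

/-- shift up -/
def sh (y : ℕ → A) : ℕ → A
  | 0 => 0
  | n + 1 => y n

theorem op_sh (g y : ℕ → A) : op g (sh y) = sh (op (fr g) y) := by
  funext n
  cases n with
  | zero => rw [op_zero_coord]; simp [sh]
  | succ n =>
    have h := congrFun (tl_op g (sh y)) n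
    simp only [tl, Pi.add_apply] at h
    rw [h]
    simp only [sh, zero_mul, add_zero]
    rfl

/-- partial shift of coefficient points -/
def hS (S : K → Bool) (y : K → ℕ → A) : K → ℕ → A :=
  fun c => if S c = true then sh (y c) else y c

/-- partial tail of coefficient points -/
def hT (S : K → Bool) (y : K → ℕ → A) : K → ℕ → A :=
  fun c => if S c = true then tl (y c) else y c

/-- κ2 is κ1 with the coordinates in S twisted -/
def Rel (S : K → Bool) (κ1 κ2 : K → Kd) : Prop :=
  ∀ c, (S c = true ∧ κ1 c = .un ∧ κ2 c = .tw) ∨ (S c = false ∧ κ1 c = κ2 c)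

theorem hS_act {S : K → Bool} {κ1 κ2 : K → Kd} (h : Rel S κ1 κ2) (g : Tg A)
    (y : K → ℕ → A) : hS S (act κ2 g y) = act κ1 g (hS S y) := by
  funext c
  rcases h c with ⟨h1, h2, h3⟩ | ⟨h1, h2⟩
  · simp only [hS, act, h1, h2, h3, if_true, act1]
    rw [op_sh]
  · simp only [hS, act, h1, h2, if_false, Bool.false_eq_true]

end shifts

section pi

variable {K : Type}

/-- reduction of coordinates in S -/
noncomputable def PI (S : K → Bool) : RR K →ₐ[ZMod 2] RR K :=
  aeval (fun v => match v with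
    | .x a n => X (.x a n)
    | .s a n => X (.s a n)
    | .y c n => hS S (uni K).2 c n)

/-- section of the reduction -/
noncomputable def SI (S : K → Bool) : RR K →ₐ[ZMod 2] RR K :=
  aeval (fun v => match v with
    | .x a n => X (.x a n)
    | .s a n => X (.s a n)
    | .y c n => hT S (uni K).2 c n)

variable (S : K → Bool)

theorem PI_x (a n : ℕ) : PI S (X (.x a n)) = X (.x a n) := aeval_X _ _
theorem PI_s (a n : ℕ) : PI S (X (.s a n)) = X (.s a n) := aeval_X _ _
theorem PI_y (c : K) (n : ℕ) : PI S (X (.y c n)) = hS S (uni K).2 c n := aeval_X _ _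
theorem SI_x (a n : ℕ) : SI S (X (.x a n)) = X (.x a n) := aeval_X _ _
theorem SI_s (a n : ℕ) : SI S (X (.s a n)) = X (.s a n) := aeval_X _ _
theorem SI_y (c : K) (n : ℕ) : SI S (X (.y c n)) = hT S (uni K).2 c n := aeval_X _ _

theorem uni_y (c : K) (n : ℕ) : (uni K).2 c n = X (.y c n) := rfl

theorem PI_SI (f : RR K) : PI S (SI S f) = f := by
  have : (PI S).comp (SI S) = AlgHom.id (ZMod 2) (RR K) := by
    apply algHom_ext
    intro v
    rw [AlgHom.comp_apply, AlgHom.id_apply]
    cases v with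
    | x a n => rw [SI_x, PI_x]
    | s a n => rw [SI_s, PI_s]
    | y c n =>
      rw [SI_y]
      simp only [hT]
      by_cases h : S c = true
      · rw [if_pos h]
        simp only [tl, uni_y]
        rw [PI_y]
        simp only [hS]
        rw [if_pos h]
        rfl
      · rw [if_neg h, uni_y, PI_y]
        simp only [hS]
        rw [if_neg h]
        rfl
  exact DFunLike.congr_fun this f

theorem PI_co (z : Pt K (RR K)) (v : Vr K) :
    ev z (PI S (X v)) = co (mp id (hS S) z : Pt K (RR K)) v := by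
  cases v with
  | x a n => rw [PI_x, ev_X]; rfl
  | s a n => rw [PI_s, ev_X]; rfl
  | y c n =>
    rw [PI_y]
    simp only [co, mp, hS]
    by_cases h : S c = true
    · rw [if_pos h, if_pos h]
      cases n with
      | zero => simp only [sh, map_zero]
      | succ n => simp only [sh, uni_y, ev_X]; rfl
    · rw [if_neg h, if_neg h, uni_y, ev_X]; rfl

theorem SI_co (z : Pt K (RR K)) (v : Vr K) :
    ev z (SI S (X v)) = co (mp id (hT S) z : Pt K (RR K)) v := by
  cases v with
  | x a n => rw [SI_x, ev_X]; rfl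
  | s a n => rw [SI_s, ev_X]; rfl
  | y c n =>
    rw [SI_y]
    simp only [co, mp, hT]
    by_cases h : S c = true
    · rw [if_pos h, if_pos h]
      simp only [tl, uni_y, ev_X]; rfl
    · rw [if_neg h, if_neg h, uni_y, ev_X]; rfl

variable {S} {κ1 κ2 : K → Kd}

theorem PI_dd (h : Rel S κ1 κ2) (q : ℕ) (f : RR K) : PI S (dd κ1 q f) = dd κ2 q (PI S f) :=
  hom_dd (PI S) κ1 κ2 id (hS S) (fun _ _ => rfl) (hS_act h) (PI_co S) q f

theorem PI_dm (h : Rel S κ1 κ2) (q : ℕ) (f : RR K) : PI S (dm κ1 q f) = dm κ2 q (PI S f) :=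
  hom_dm (PI S) κ1 κ2 id (hS S) (fun _ _ => rfl) (hS_act h) (PI_co S) q f

theorem PI_cut (q : ℕ) (f : RR K) : PI S (cut K q f) = cut K q (PI S f) :=
  hom_cut (PI S) id (hS S) rfl (PI_co S) q f

theorem SI_cut (q : ℕ) (f : RR K) : SI S (cut K q f) = cut K q (SI S f) :=
  hom_cut (SI S) id (hT S) rfl (SI_co S) q f

theorem IW_PI (h : Rel S κ1 κ2) {f : RR K} {m : ℤ × ((K → ℕ) × ℕ)} (hf : IW (wF κ1) f m) :
    IW (wF κ2) (PI S f) m := by
  refine IW.aeval' (AddMonoidHom.id _) (PI S) (w := wF κ1) (w' := wF κ2) ?_ hf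
  intro v
  rw [AddMonoidHom.id_apply]
  cases v with
  | x a n => rw [PI_x]; exact isWeightedHomogeneous_X _ _ _
  | s a n => rw [PI_s]; exact isWeightedHomogeneous_X _ _ _
  | y c n =>
    rw [PI_y]
    simp only [hS]
    rcases h c with ⟨h1, h2, h3⟩ | ⟨h1, h2⟩
    · rw [if_pos h1]
      cases n with
      | zero => exact IW.zero' _ _
      | succ n =>
        simp only [sh, uni_y]
        have := isWeightedHomogeneous_X (ZMod 2) (wF κ2) (Vr.y c n)
        have h4 : wF κ2 (Vr.y c n) = wF κ1 (Vr.y c (n + 1)) := by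
          simp only [wF, wG, h2, h3, tk]
        rwa [h4] at this
    · rw [if_neg (by rw [h1]; simp)]
      have := isWeightedHomogeneous_X (ZMod 2) (wF κ2) (Vr.y c n)
      have h4 : wF κ2 (Vr.y c n) = wF κ1 (Vr.y c n) := by
        simp only [wF, wG, h2]
      rwa [h4] at this

theorem IW_SI (h : Rel S κ1 κ2) {f : RR K} {m : ℤ × ((K → ℕ) × ℕ)} (hf : IW (wF κ2) f m) :
    IW (wF κ1) (SI S f) m := by
  refine IW.aeval' (AddMonoidHom.id _) (SI S) (w := wF κ2) (w' := wF κ1) ?_ hf
  intro v
  rw [AddMonoidHom.id_apply]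
  cases v with
  | x a n => rw [SI_x]; exact isWeightedHomogeneous_X _ _ _
  | s a n => rw [SI_s]; exact isWeightedHomogeneous_X _ _ _
  | y c n =>
    rw [SI_y]
    simp only [hT]
    rcases h c with ⟨h1, h2, h3⟩ | ⟨h1, h2⟩
    · rw [if_pos h1]
      simp only [tl, uni_y]
      have := isWeightedHomogeneous_X (ZMod 2) (wF κ1) (Vr.y c (n + 1))
      have h4 : wF κ1 (Vr.y c (n + 1)) = wF κ2 (Vr.y c n) := by
        simp only [wF, wG, h2, h3, tk]
      rwa [h4] at this
    · rw [if_neg (by rw [h1]; simp)]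
      have := isWeightedHomogeneous_X (ZMod 2) (wF κ1) (Vr.y c n)
      have h4 : wF κ1 (Vr.y c n) = wF κ2 (Vr.y c n) := by
        simp only [wF, wG, h2]
      rwa [h4] at this

variable {q : ℕ} {t : ℤ} {ν : K → ℕ} {j : ℕ} {f : RR K}

theorem TT.PI (h : Rel S κ1 κ2) (hf : TT κ1 q t ν j f) : TT κ2 q t ν j (PI S f) :=
  ⟨by rw [← PI_cut, hf.cu], IW_PI h hf.iw⟩

theorem TT.SI (h : Rel S κ1 κ2) (hf : TT κ2 q t ν j f) : TT κ1 q t ν j (SI S f) :=
  ⟨by rw [← SI_cut, hf.cu], IW_SI h hf.iw⟩

/-- singleton -/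
noncomputable def sg (c : K) : K → Bool := by
  classical exact fun c' => decide (c' = c)

theorem sg_self (c : K) : sg c c = true := by simp [sg]
theorem sg_ne {c c' : K} (h : c' ≠ c) : sg c c' = false := by simp [sg, h]

theorem Y_dvd (c : K) (h : Stz.PI (sg c) f = 0) : X (.y c 0) ∣ f := by
  have h1 : (X (.y c 0) : RR K) ∣ (AlgHom.id (ZMod 2) (RR K)) f
      + ((Stz.SI (sg c)).comp (Stz.PI (sg c))) f := by
    apply hom_dvd
    intro v
    rw [AlgHom.id_apply, AlgHom.comp_apply]
    cases v with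
    | x a n => rw [PI_x, SI_x, p2_add_self]; exact dvd_zero _
    | s a n => rw [PI_s, SI_s, p2_add_self]; exact dvd_zero _
    | y c' n =>
      rw [PI_y]
      simp only [hS]
      by_cases hc : c' = c
      · subst hc
        rw [if_pos (sg_self c')]
        cases n with
        | zero => simp only [sh, map_zero, add_zero]; exact dvd_rfl
        | succ n =>
          simp only [sh, uni_y]
          rw [SI_y]
          simp only [hT]
          rw [if_pos (sg_self c')]
          simp only [tl, uni_y]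
          rw [p2_add_self]; exact dvd_zero _
      · rw [if_neg (by rw [sg_ne hc]; simp), uni_y, SI_y]
        simp only [hT]
        rw [if_neg (by rw [sg_ne hc]; simp), uni_y, p2_add_self]
        exact dvd_zero _
  rw [AlgHom.comp_apply, h, map_zero, add_zero, AlgHom.id_apply] at h1
  exact h1

theorem Y_div {κ : K → Kd} {c : K} (hc : κ c = .un) (hf : TT κ q t ν j f)
    (h : Stz.PI (sg c) f = 0) :
    f = 0 ∨ (1 ≤ ν c ∧ ∃ f', f = X (.y c 0) * f' ∧ TT κ q (t - 1) (ν - ee c) j f') := by
  obtain ⟨f', hf'⟩ := Y_dvd c h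
  by_cases h0 : f' = 0
  · left; rw [hf', h0, mul_zero]
  right
  have h1 := hf.iw
  rw [hf'] at h1
  have h2 := IW.div _ h1
  have h3 : ∀ e, coeff e f' ≠ 0 → 1 ≤ ν c ∧ Finsupp.weight (wF κ) e = (t - 1, (ν - ee c, j)) := by
    intro e he
    have h4 := h2 e he
    have h5 := congrArg Prod.fst h4
    have h6 := congrArg (fun m => m.2.1) h4
    have h7 := congrArg (fun m => m.2.2) h4
    simp only [wF, wG, hc, tk, Prod.fst_add, Prod.snd_add, pow_zero, zero_add] at h5 h6 h7
    refine ⟨?_, Prod.ext ?_ (Prod.ext ?_ ?_)⟩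
    · have h8 := congrFun h6 c
      simp only [Pi.add_apply, ee_self] at h8
      omega
    · simp only [wF]; omega
    · funext c'
      have h8 := congrFun h6 c'
      simp only [Pi.add_apply] at h8
      simp only [Pi.sub_apply, wF]
      omega
    · simp only [wF]; exact h7
  obtain ⟨e, he⟩ := ne_zero_iff.mp h0
  refine ⟨(h3 e he).1, f', hf', ?_, fun e he => (h3 e he).2⟩
  have h4 := hf.cu
  rw [hf', map_mul] at h4
  have h5 : cut K q (X (.y c 0)) = X (.y c 0) := ev_X _ _
  rw [h5] at h4
  exact mul_left_cancel₀ (X_ne_zero _) h4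

theorem dd_Y {κ : K → Kd} {c : K} (hc : κ c = .un) (q : ℕ) (f : RR K) :
    dd κ q (X (.y c 0) * f) = X (.y c 0) * dd κ q f := by
  rw [dd_apply, dd_apply, mul_sum]
  refine sum_congr rfl fun j _ => ?_
  rw [map_mul]
  congr 1
  rw [ev_X]
  have := fc_pres (ac := act (A := RR K) κ) (fun _ => True)
    (fun y => y c 0 = X (.y c 0)) (fun _ _ _ _ => trivial) (by
      intro g y _ hy
      simp only [act, hc, act1]
      rw [op_zero_coord, g.h, one_mul, hy]) q j (uni K) (fun _ => trivial) rfl
  exact this.2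

theorem dm_Y {κ : K → Kd} {c : K} (hc : κ c = .un) (q : ℕ) (f : RR K) :
    dm κ q (X (.y c 0) * f) = X (.y c 0) * dm κ q f := by
  cases q with
  | zero => simp only [dm, LinearMap.zero_apply, mul_zero]
  | succ q => exact dd_Y hc q f

theorem TT.mulY {κ : K → Kd} {c : K} (hc : κ c = .un) (hν : 1 ≤ ν c)
    (hf : TT κ q (t - 1) (ν - ee c) j f) : TT κ q t ν j (X (.y c 0) * f) := by
  refine ⟨?_, ?_⟩
  · rw [map_mul, hf.cu]
    congr 1
    exact ev_X _ _
  · have := (isWeightedHomogeneous_X (ZMod 2) (wF κ) (Vr.y c 0)).mul hf.iw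
    have h2 : wF κ (Vr.y c 0) + (t - 1, (ν - ee c, j)) = (t, (ν, j)) := by
      simp only [wF, wG, hc, tk]
      refine Prod.ext ?_ (Prod.ext ?_ ?_)
      · simp
      · funext c'
        simp only [Prod.snd_add, Prod.fst_add, Pi.add_apply, Pi.sub_apply]
        by_cases h : c' = c
        · subst h; rw [ee_self]; omega
        · rw [ee_ne h]; omega
      · simp
    rwa [h2] at this

end pi

section bb

variable {K : Type}

/-- untwisted set -/
def SU (κ : K → Kd) : K → Bool := fun c => match κ c with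
  | .un => true
  | .tw => false
  | .af => false

theorem SU_un {κ : K → Kd} {c : K} (h : κ c = .un) : SU κ c = true := by simp [SU, h]
theorem SU_tw {κ : K → Kd} {c : K} (h : κ c = .tw) : SU κ c = false := by simp [SU, h]

theorem Rel_SU {κ : K → Kd} (hκ : Naf κ) : Rel (SU κ) κ ktw := by
  intro c
  have h := hκ c
  cases hc : κ c with
  | un => exact Or.inl ⟨SU_un hc, rfl, rfl⟩
  | tw => exact Or.inr ⟨SU_tw hc, rfl⟩
  | af => exact absurd hc h

/-- set c twisted -/
noncomputable def upd (κ : K → Kd) (c : K) : K → Kd := by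
  classical exact fun c' => if c' = c then .tw else κ c'

theorem upd_self (κ : K → Kd) (c : K) : upd κ c c = .tw := by simp [upd]
theorem upd_ne (κ : K → Kd) {c c' : K} (h : c' ≠ c) : upd κ c c' = κ c' := by simp [upd, h]

theorem Rel_upd {κ : K → Kd} {c : K} (hc : κ c = .un) : Rel (sg c) κ (upd κ c) := by
  intro c'
  by_cases h : c' = c
  · subst h; exact Or.inl ⟨sg_self _, hc, upd_self _ _⟩
  · exact Or.inr ⟨sg_ne h, (upd_ne _ h).symm⟩

theorem naf_upd {κ : K → Kd} (hκ : Naf κ) (c : K) : Naf (upd κ c) := by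
  intro c' h
  by_cases hc : c' = c
  · subst hc; rw [upd_self] at h; exact Kd.noConfusion h
  · rw [upd_ne _ hc] at h; exact hκ c' h

theorem PI_PI {κ : K → Kd} {c : K} (hc : κ c = .un) (f : RR K) :
    PI (SU (upd κ c)) (PI (sg c) f) = PI (SU κ) f := by
  have : (PI (SU (upd κ c))).comp (PI (sg c)) = PI (SU κ) := by
    apply algHom_ext
    intro v
    rw [AlgHom.comp_apply]
    cases v with
    | x a n => rw [PI_x, PI_x, PI_x]
    | s a n => rw [PI_s, PI_s, PI_s]
    | y c' n =>
      rw [PI_y, PI_y]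
      simp only [hS]
      by_cases h : c' = c
      · subst h
        rw [if_pos (sg_self _), if_pos (SU_un hc)]
        cases n with
        | zero => simp only [sh, map_zero]
        | succ n =>
          simp only [sh, uni_y]
          rw [PI_y]
          simp only [hS]
          rw [if_neg (by rw [SU_tw (upd_self _ _)]; simp), uni_y]
      · rw [if_neg (by rw [sg_ne h]; simp), uni_y, PI_y]
        simp only [hS]
        have h2 : SU (upd κ c) c' = SU κ c' := by simp only [SU, upd_ne _ h]
        rw [h2]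
  exact DFunLike.congr_fun this f

variable [Fintype K]

/-- number of untwisted coordinates -/
def UU (κ : K → Kd) : ℕ := ∑ c, (if SU κ c = true then 1 else 0)

theorem sum_ee (c : K) : ∑ c', ee c c' = 1 := by
  classical
  rw [Finset.sum_eq_single c]
  · exact ee_self c
  · intro b _ hb; exact ee_ne hb
  · intro h; exact absurd (mem_univ _) h

theorem UU_upd {κ : K → Kd} {c : K} (hc : κ c = .un) : UU κ = UU (upd κ c) + 1 := by
  have h0 : UU (upd κ c) + 1
      = ∑ c', ((if SU (upd κ c) c' = true then 1 else 0) + ee c c') := by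
    rw [sum_add_distrib, sum_ee]; rfl
  rw [h0, UU]
  refine sum_congr rfl fun c' _ => ?_
  by_cases h : c' = c
  · subst h
    rw [if_pos (SU_un hc), if_neg (by rw [SU_tw (upd_self _ _)]; simp), ee_self]
  · have h2 : SU (upd κ c) c' = SU κ c' := by simp only [SU, upd_ne _ h]
    rw [h2, ee_ne h, add_zero]

theorem sum_sub_ee {c : K} {ν : K → ℕ} (h : 1 ≤ ν c) : ∑ c', ν c' = ∑ c', (ν - ee c) c' + 1 := by
  rw [← sum_ee c, ← sum_add_distrib]
  refine sum_congr rfl fun c' _ => ?_
  rw [Pi.sub_apply]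
  by_cases hc : c' = c
  · subst hc; rw [ee_self]; omega
  · rw [ee_ne hc]; omega

theorem BB (p : ℕ) : ∀ (N : ℕ) (κ : K → Kd) (_ : Naf κ) (t : ℤ) (ν : K → ℕ)
    (_ : UU κ + ∑ c, ν c ≤ N)
    (_ : ∀ d : ℕ, 1 ≤ d → d ≤ ∑ c, ν c → ∀ ν' : K → ℕ, ∑ c, ν' c + d = ∑ c, ν c →
      Ex (ktw : K → Kd) p (t - d) ν' 0)
    (f : RR K) (_ : TT κ p t ν 0 f) (_ : dd κ p f = 0)
    (_ : ∃ h, TT ktw (p - 1) t ν 0 h ∧ dm ktw p h = PI (SU κ) f),
    ∃ h, TT κ (p - 1) t ν 0 h ∧ dm κ p h = f := by
  intro N
  induction N with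
  | zero =>
    intro κ hκ t ν hN _ f hf _ hB
    have hS0 : ∀ c, κ c = .tw := by
      intro c
      cases hc : κ c with
      | un =>
        have h1 := UU_upd hc
        omega
      | tw => rfl
      | af => exact absurd hc (hκ c)
    have hk : κ = ktw := funext hS0
    subst hk
    have h2 : PI (SU (ktw : K → Kd)) = AlgHom.id (ZMod 2) (RR K) := by
      apply algHom_ext
      intro v
      rw [AlgHom.id_apply]
      cases v with
      | x a n => rw [PI_x]
      | s a n => rw [PI_s]
      | y c n =>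
        rw [PI_y]
        simp only [hS]
        rw [if_neg (by rw [SU_tw (hS0 c)]; simp), uni_y]
    rw [h2] at hB
    exact hB
  | succ N ih =>
    intro κ hκ t ν hN hP f hf hdf hB
    by_cases hun : ∃ c, κ c = .un
    · obtain ⟨c, hc⟩ := hun
      have hrel := Rel_upd hc
      have hU := UU_upd hc
      obtain ⟨h, hh1, hh2⟩ := ih (upd κ c) (naf_upd hκ c) t ν (by omega) hP (PI (sg c) f)
        (hf.PI hrel) (by rw [← PI_dd hrel, hdf, map_zero]) (by rw [PI_PI hc]; exact hB)
      have hSI := hh1.SI hrel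
      have hf1 : TT κ p t ν 0 (f - dm κ p (SI (sg c) h)) := hf.sub (hSI.dm hκ)
      have hf2 : PI (sg c) (f - dm κ p (SI (sg c) h)) = 0 := by
        rw [map_sub, PI_dm hrel, PI_SI, hh2, sub_self]
      have hf3 : dd κ p (f - dm κ p (SI (sg c) h)) = 0 := by
        rw [map_sub, hdf, dd_dm κ hSI.cu, sub_zero]
      rcases Y_div hc hf1 hf2 with h0 | ⟨hν, f', hf', hTf'⟩
      · exact ⟨SI (sg c) h, hSI, (sub_eq_zero.mp h0).symm⟩
      · rw [hf', dd_Y hc] at hf3
        have hdf' : dd κ p f' = 0 := by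
          rcases mul_eq_zero.mp hf3 with h | h
          · exact absurd h (X_ne_zero _)
          · exact h
        have hsum := sum_sub_ee hν
        have hrelU := Rel_SU hκ
        have hP1 : Ex (ktw : K → Kd) p (t - 1) (ν - ee c) 0 := by
          have := hP 1 le_rfl (by omega) (ν - ee c) (by omega)
          rwa [Nat.cast_one] at this
        have hi1 : UU κ + ∑ x, (ν - ee c) x ≤ N := by omega
        have hi2 : ∀ d : ℕ, 1 ≤ d → d ≤ ∑ x, (ν - ee c) x → ∀ ν' : K → ℕ,
            ∑ x, ν' x + d = ∑ x, (ν - ee c) x → Ex (ktw : K → Kd) p (t - 1 - d) ν' 0 := by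
          intro d hd1 hd2 ν' hν'
          have h6 : ∑ x, ν' x + (d + 1) = ∑ x, ν x := by omega
          have := hP (d + 1) (by omega) (by omega) ν' h6
          have h5 : t - ((d + 1 : ℕ) : ℤ) = t - 1 - d := by push_cast; ring
          rwa [h5] at this
        have hi3 := hP1 (PI (SU κ) f') (hTf'.PI hrelU)
          (by rw [← PI_dd hrelU, hdf', map_zero])
        obtain ⟨h', hh'1, hh'2⟩ := ih κ hκ (t - 1) (ν - ee c) hi1 hi2 f' hTf' hdf' hi3
        have hY : TT κ (p - 1) t ν 0 (X (.y c 0) * h') :=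
          TT.mulY (t := t) (ν := ν) (c := c) hc hν hh'1
        have hZ := TT.add hSI hY
        refine ⟨_, hZ, ?_⟩
        rw [map_add, dm_Y hc, hh'2, ← hf']
        abel
    · push Not at hun
      have hS0 : ∀ c, κ c = .tw := by
        intro c
        cases hc : κ c with
        | un => exact absurd hc (hun c)
        | tw => rfl
        | af => exact absurd hc (hκ c)
      have hk : κ = ktw := funext hS0
      subst hk
      have h2 : PI (SU (ktw : K → Kd)) = AlgHom.id (ZMod 2) (RR K) := by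
        apply algHom_ext
        intro v
        rw [AlgHom.id_apply]
        cases v with
        | x a n => rw [PI_x]
        | s a n => rw [PI_s]
        | y c n =>
          rw [PI_y]
          simp only [hS]
          rw [if_neg (by rw [SU_tw (hS0 c)]; simp), uni_y]
      rw [h2] at hB
      exact hB

end bb

end Pool.Agent.W624.Stz
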