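import Pool.Agent.W624.StzE

set_option autoImplicit false
set_option linter.unusedSectionVars false

namespace Pool.Agent.W624.Stz

open Finset MvPolynomial

section lin1

variable {K L : Type}

/-- the none variables -/
def isn (v : Vr (Option K)) : Prop := ∃ n, v = .y none n

theorem wn_none (n : ℕ) : wn K (.y none n) = 1 := rfl
theorem wn_other {v : Vr (Option K)} (h : ¬ isn v) : wn K v = 0 := by
  cases v with
  | x a n => rfl
  | s a n => rfl
  | y o n =>
    cases o with
    | none => exact absurd ⟨n, rfl⟩ h
    | some c => rfl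

theorem wsingle {σ : Type*} (w : σ → ℕ) (v : σ) :
    Finsupp.weight w (Finsupp.single v 1) = w v := by
  rw [Finsupp.weight_apply, Finsupp.sum_single_index (by simp), one_smul]

theorem mono_ind {σ : Type*} (P : (σ →₀ ℕ) → Prop) (h0 : P 0)
    (hadd : ∀ e e', P e → P e' → P (e + e')) (h1 : ∀ v, P (Finsupp.single v 1)) (e : σ →₀ ℕ) :
    P e := by
  induction e using Finsupp.induction_linear with
  | zero => exact h0
  | add e e' h h' => exact hadd _ _ h h'
  | single v n =>
    induction n with
    | zero => rw [Finsupp.single_zero]; exact h0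
    | succ n ih => rw [Finsupp.single_add]; exact hadd _ _ ih (h1 v)

theorem Lin (θ1 θ2 θ3 : RR (Option K) →ₐ[ZMod 2] RR L) (μ : RR L)
    (h12 : ∀ v, ¬ isn v → θ1 (X v) = θ2 (X v)) (h13 : ∀ v, ¬ isn v → θ1 (X v) = θ3 (X v))
    (hn : ∀ n, θ3 (X (.y none n)) = θ1 (X (.y none n)) + μ * θ2 (X (.y none n)))
    {f : RR (Option K)} (hf : IW (wn K) f 1) : θ3 f = θ1 f + μ * θ2 f := by
  have key : ∀ e : Vr (Option K) →₀ ℕ,
      (Finsupp.weight (wn K) e = 0 → θ1 (monomial e 1) = θ2 (monomial e 1) ∧
        θ1 (monomial e 1) = θ3 (monomial e 1)) ∧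
      (Finsupp.weight (wn K) e = 1 →
        θ3 (monomial e 1) = θ1 (monomial e 1) + μ * θ2 (monomial e 1)) := by
    apply mono_ind
    · have : (monomial (0 : Vr (Option K) →₀ ℕ) (1 : ZMod 2)) = 1 := rfl
      rw [this]
      refine ⟨fun _ => by simp only [map_one, and_self], fun h => ?_⟩
      rw [map_zero] at h
      exact absurd h (by omega)
    · rintro e e' ⟨a0, a1⟩ ⟨b0, b1⟩
      have hm : (monomial (e + e') (1 : ZMod 2)) = monomial e 1 * monomial e' 1 := by
        rw [monomial_mul, one_mul]
      rw [hm, map_add]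
      simp only [map_mul]
      refine ⟨fun h => ?_, fun h => ?_⟩
      · have ha := a0 (by omega)
        have hb := b0 (by omega)
        rw [← ha.1, ← ha.2, ← hb.1, ← hb.2]
        exact ⟨rfl, rfl⟩
      · rcases Nat.eq_zero_or_pos (Finsupp.weight (wn K) e) with hz | hz
        · have ha := a0 hz
          have hb := b1 (by omega)
          rw [hb, ← ha.1, ← ha.2]
          ring
        · have ha := a1 (by omega)
          have hb := b0 (by omega)
          rw [ha, ← hb.1, ← hb.2]
          ring
    · intro v
      rw [wsingle]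
      have hX : (monomial (Finsupp.single v 1) (1 : ZMod 2)) = X v := rfl
      rw [hX]
      refine ⟨fun h => ?_, fun h => ?_⟩
      · have hv : ¬ isn v := by
          rintro ⟨n, rfl⟩
          rw [wn_none] at h
          omega
        exact ⟨h12 v hv, h13 v hv⟩
      · have hv : isn v := by
          by_contra hv
          rw [wn_other hv] at h
          omega
        obtain ⟨n, rfl⟩ := hv
        exact hn n
  rw [f.as_sum, map_sum, map_sum, map_sum, mul_sum, ← sum_add_distrib]
  refine sum_congr rfl fun e he => ?_
  have h0 : monomial e (coeff e f) = coeff e f • (monomial e 1 : RR (Option K)) := by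
    rw [smul_monomial, smul_eq_mul, mul_one]
  rw [h0, map_smul, map_smul, map_smul, (key e).2 (hf (mem_support_iff.mp he)), smul_add,
    mul_smul_comm]

theorem LinD (θ θ' : RR (Option K) →ₐ[ZMod 2] RR L) (D : Derivation (ZMod 2) (RR L) (RR L))
    (h0 : ∀ v, ¬ isn v → D (θ (X v)) = 0) (h1 : ∀ v, ¬ isn v → θ' (X v) = θ (X v))
    (hn : ∀ n, θ' (X (.y none n)) = D (θ (X (.y none n))))
    {f : RR (Option K)} (hf : IW (wn K) f 1) : D (θ f) = θ' f := by
  have key : ∀ e : Vr (Option K) →₀ ℕ,
      (Finsupp.weight (wn K) e = 0 → D (θ (monomial e 1)) = 0 ∧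
        θ' (monomial e 1) = θ (monomial e 1)) ∧
      (Finsupp.weight (wn K) e = 1 → D (θ (monomial e 1)) = θ' (monomial e 1)) := by
    apply mono_ind
    · have : (monomial (0 : Vr (Option K) →₀ ℕ) (1 : ZMod 2)) = 1 := rfl
      rw [this]
      refine ⟨fun _ => ?_, fun h => ?_⟩
      · rw [map_one θ, map_one θ', D.map_one_eq_zero]
        exact ⟨rfl, rfl⟩
      · rw [map_zero] at h
        exact absurd h (by omega)
    · rintro e e' ⟨a0, a1⟩ ⟨b0, b1⟩
      have hm : (monomial (e + e') (1 : ZMod 2)) = monomial e 1 * monomial e' 1 := by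
        rw [monomial_mul, one_mul]
      rw [hm, map_add]
      simp only [map_mul, Derivation.leibniz, smul_eq_mul]
      refine ⟨fun h => ?_, fun h => ?_⟩
      · have ha := a0 (by omega)
        have hb := b0 (by omega)
        rw [ha.1, hb.1, ha.2, hb.2]
        simp
      · rcases Nat.eq_zero_or_pos (Finsupp.weight (wn K) e) with hz | hz
        · have ha := a0 hz
          have hb := b1 (by omega)
          rw [hb, ha.1, ha.2]
          ring
        · have ha := a1 (by omega)
          have hb := b0 (by omega)
          rw [ha, hb.1, hb.2]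
          ring
    · intro v
      rw [wsingle]
      have hX : (monomial (Finsupp.single v 1) (1 : ZMod 2)) = X v := rfl
      rw [hX]
      refine ⟨fun h => ?_, fun h => ?_⟩
      · have hv : ¬ isn v := by
          rintro ⟨n, rfl⟩
          rw [wn_none] at h
          omega
        exact ⟨h0 v hv, h1 v hv⟩
      · have hv : isn v := by
          by_contra hv
          rw [wn_other hv] at h
          omega
        obtain ⟨n, rfl⟩ := hv
        exact (hn n).symm
  rw [f.as_sum, map_sum, map_sum, map_sum]
  refine sum_congr rfl fun e he => ?_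
  have h0 : monomial e (coeff e f) = coeff e f • (monomial e 1 : RR (Option K)) := by
    rw [smul_monomial, smul_eq_mul, mul_one]
  rw [h0, map_smul θ, map_smul θ', D.map_smul, (key e).2 (hf (mem_support_iff.mp he))]

end lin1

section c1

variable {K : Type}

/-- none untwisted, others twisted -/
def k1 : Option K → Kd
  | none => .un
  | some _ => .tw

/-- the some coordinates -/
def S0 : Option K → Bool
  | none => false
  | some _ => true

theorem naf_k1 : Naf (k1 : Option K → Kd) := by
  intro c h
  cases c with
  | none => exact Kd.noConfusion h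
  | some c => exact Kd.noConfusion h

theorem Rel_S0 : Rel S0 (kun : Option K → Kd) k1 := by
  intro c
  cases c with
  | none => exact Or.inr ⟨rfl, rfl⟩
  | some c => exact Or.inl ⟨rfl, rfl, rfl⟩

theorem Rel_n : Rel (sg none) (k1 : Option K → Kd) ktw := by
  intro c
  cases c with
  | none => exact Or.inl ⟨sg_self _, rfl, rfl⟩
  | some c => exact Or.inr ⟨sg_ne (by simp), rfl⟩

theorem PI_n_S0 (f : RR (Option K)) : PI (sg none) (PI S0 f) = PI (SU kun) f := by
  have : (PI (sg none)).comp (PI S0) = PI (SU (kun : Option K → Kd)) := by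
    apply algHom_ext
    intro v
    rw [AlgHom.comp_apply]
    cases v with
    | x a n => rw [PI_x, PI_x, PI_x]
    | s a n => rw [PI_s, PI_s, PI_s]
    | y o n =>
      rw [PI_y, PI_y]
      cases o with
      | none =>
        simp only [hS]
        rw [if_neg (by simp [S0]), if_pos (by simp [SU, kun]), uni_y, PI_y]
        simp only [hS]
        rw [if_pos (sg_self _)]
      | some c =>
        simp only [hS]
        rw [if_pos (by simp [S0]), if_pos (by simp [SU, kun])]
        cases n with
        | zero => simp only [sh, map_zero]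
        | succ n =>
          simp only [sh, uni_y]
          rw [PI_y]
          simp only [hS]
          rw [if_neg (by rw [sg_ne (by simp)]; simp), uni_y]
  exact DFunLike.congr_fun this f

/-- the coefficient part of the point defining υ -/
noncomputable def yU (K : Type) (p : ℕ) : Option K → ℕ → RR K
  | none => tl ((uni K).1 p).g
  | some c => op (fr ((uni K).1 p).g) ((uni K).2 c)

/-- the point defining υ -/
noncomputable def ptU (K : Type) (p : ℕ) : Pt (Option K) (RR K) := ((uni K).1, yU K p)

theorem mT_IN (a : ℕ) : mT (IN K) ((uni K).1 a) = (uni (Option K)).1 a := by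
  apply Tg.ext
  · funext n
    cases n with
    | zero => exact map_one (IN K)
    | succ n => exact IN_x a n
  · funext n
    exact IN_s a n

theorem mP_SI : mP (SI (sg none)) (uni (Option K)) = mp id (hT (sg none)) (uni (Option K)) := by
  refine Prod.ext ?_ ?_
  · funext a
    apply Tg.ext
    · funext n
      cases n with
      | zero => exact map_one (SI (sg none))
      | succ n => exact SI_x _ a n
    · funext n
      exact SI_s _ a n
  · funext c n
    exact SI_y _ c n

theorem F1 {p : ℕ} {g : RR (Option K)} (hg1 : IW (wn K) g 1) (hdg : dd ktw p g = 0) :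
    dd k1 p (SI (sg none) g) = X (.y none 0) * IN K (ev (ptU K p) g) := by
  set U := uni (Option K) with hU
  have e0 : ∀ z : Pt (Option K) (RR (Option K)),
      ev z (SI (sg none) g) = ev (mp id (hT (sg none)) z : Pt (Option K) (RR (Option K))) g :=
    fun z => hom_ev _ _ _ (SI_co (sg none)) z g
  -- the value at j ≤ p
  have e1 : ∀ j, j ≤ p → ev (fc (act k1) p j U) (SI (sg none) g)
      = ev (fc (act ktw) p j (mp id (hT (sg none)) U : Pt (Option K) (RR (Option K)))) g := by
    intro j hj
    rw [e0]
    congr 2
    cases j with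
    | zero => rw [fc_zero, fc_zero]; rfl
    | succ j =>
      rw [fc_mid _ (by omega), fc_mid _ (by omega)]
      rfl
  -- last
  have e2 : ev (fc (act k1) p (p + 1) U) (SI (sg none) g)
      = ev (fc (act ktw) p (p + 1) (mp id (hT (sg none)) U : Pt (Option K) (RR (Option K)))) g
        + X (.y none 0) * IN K (ev (ptU K p) g) := by
    rw [e0, ev_map]
    apply Lin _ _ _ _ _ _ _ hg1
    · intro v hv
      rw [ev_X, ev_X, fc_last _ (by omega)]
      cases v with
      | x a n =>
        simp only [co, mP, mp, ptU, id]
        rw [mT_IN]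
      | s a n =>
        simp only [co, mP, mp, ptU, id]
        rw [mT_IN]
      | y o n =>
        cases o with
        | none => exact absurd ⟨n, rfl⟩ hv
        | some c =>
          simp only [co, mP, mp, ptU, id, act, act1, ktw, hT, mY, yU]
          rw [if_neg (by rw [sg_ne (by simp)]; simp), map_op, map_fr]
          congr 1
          · congr 1
            exact (congrArg Tg.g (mT_IN p)).symm
          · funext n
            exact (IN_y c n).symm
    · intro v hv
      rw [ev_X, ev_X, fc_last _ (by omega), fc_last _ (by omega)]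
      cases v with
      | x a n => rfl
      | s a n => rfl
      | y o n =>
        cases o with
        | none => exact absurd ⟨n, rfl⟩ hv
        | some c =>
          simp only [co, mp, id, act, act1, ktw, hT]
          rw [if_neg (by rw [sg_ne (by simp)]; simp), if_neg (by rw [sg_ne (by simp)]; simp)]
          rfl
    · intro n
      rw [ev_X, ev_X, ev_X, fc_last _ (by omega), fc_last _ (by omega)]
      simp only [co, mp, id, act, act1, ktw, hT, mP, ptU, mY, yU]
      rw [if_pos (sg_self _), if_pos (sg_self _)]
      simp only [k1]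
      rw [tl_op]
      simp only [Pi.add_apply]
      congr 1
      simp only [tl]
      rw [uni_y]
      congr 1
      exact (IN_x p n).symm
  rw [dd_apply, sum_range_succ, e2, ← add_assoc]
  have e3 : ∑ j ∈ range (p + 1), ev (fc (act k1) p j (uni (Option K))) (SI (sg none) g)
      = ∑ j ∈ range (p + 1),
        ev (fc (act ktw) p j (mp id (hT (sg none)) U : Pt (Option K) (RR (Option K)))) g :=
    sum_congr rfl fun j hj => e1 j (by rw [mem_range] at hj; omega)
  rw [e3, ← sum_range_succ (fun j =>
    ev (fc (act ktw) p j (mp id (hT (sg none)) U : Pt (Option K) (RR (Option K)))) g)]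
  have e4 : ∑ j ∈ range (p + 1 + 1),
      ev (fc (act ktw) p j (mp id (hT (sg none)) U : Pt (Option K) (RR (Option K)))) g
      = SI (sg none) (dd ktw p g) := by
    rw [dd_apply, map_sum]
    refine sum_congr rfl fun j _ => ?_
    rw [ev_map, mP_fc, mP_SI]
  rw [e4, hdg, map_zero, zero_add]

/-- the coefficient part of the derived point -/
noncomputable def yV (K : Type) (p : ℕ) : Option K → ℕ → RR K
  | none => fun n => X (.s p n)
  | some c => op (fr ((uni K).1 p).g) ((uni K).2 c)

/-- the derived point -/
noncomputable def ptV (K : Type) (p : ℕ) : Pt (Option K) (RR K) :=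
  (fun a => mFr ((uni K).1 a), yV K p)

theorem F2a {p : ℕ} {z : RR (Option K)} (hz : IW (wn K) z 1) :
    DX K (ev (ptU K p) (PHI _ z)) = ev (ptV K p) z := by
  apply LinD ((ev (ptU K p)).comp (PHI _)) (ev (ptV K p)) (DX K) _ _ _ hz
  · intro v hv
    rw [AlgHom.comp_apply]
    cases v with
    | x a n => rw [PHI_x, map_pow, der_sq]
    | s a n => rw [PHI_s, map_pow, der_sq]
    | y o n =>
      rw [PHI_y, ev_X]
      cases o with
      | none => exact absurd ⟨n, rfl⟩ hv
      | some c =>
        simp only [co, ptU, yU]
        rw [der_op_fr]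
        have : (fun n => DX K ((uni K).2 c n)) = fun _ => 0 := by
          funext n; exact DX_y c n
        rw [this, op_zero_fun]
  · intro v hv
    rw [AlgHom.comp_apply]
    cases v with
    | x a n => rw [PHI_x, map_pow, ev_X, ev_X]; rfl
    | s a n => rw [PHI_s, map_pow, ev_X, ev_X]; rfl
    | y o n =>
      rw [PHI_y, ev_X, ev_X]
      cases o with
      | none => exact absurd ⟨n, rfl⟩ hv
      | some c => rfl
  · intro n
    rw [AlgHom.comp_apply, PHI_y, ev_X, ev_X]
    exact (DX_x p n).symm

theorem ptV_x (p a n : ℕ) : ev (ptV K p) (X (.x a n)) = X (.x a n) ^ 2 := by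
  rw [ev_X]; rfl

theorem ptV_n (p n : ℕ) : ev (ptV K p) (X (.y none n)) = X (.s p n) := by
  rw [ev_X]; rfl

theorem ptV_y (p : ℕ) (c : K) (n : ℕ) :
    ev (ptV K p) (X (.y (some c) n)) = op (fr ((uni K).1 p).g) ((uni K).2 c) n := by
  rw [ev_X]; rfl

theorem pr_x {p a : ℕ} (n : ℕ) (ha : a < p) :
    ev (prm (act kE) lin bs tr p p (uni (Option K))) (X (.x a n)) = X (.x a n) := by
  rw [ev_X]
  simp only [co]
  rw [prm_lt ha]
  rfl

theorem pr_s (p n : ℕ) :
    ev (prm (act kE) lin bs tr p p (uni (Option K))) (X (.s p n)) = X (.y none n) := by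
  rw [ev_X]
  simp only [co]
  rw [prm_eq, Nat.sub_self]
  rfl

theorem pr_y (p : ℕ) (c : K) (n : ℕ) :
    ev (prm (act kE) lin bs tr p p (uni (Option K))) (X (.y (some c) n))
      = X (.y (some c) n) := by
  rw [ev_X]
  rfl

theorem pr_g (p n : ℕ) :
    ev (prm (act kE) lin bs tr p p (uni (Option K))) (((uni (Option K)).1 p).g n) = e1 n := by
  have h4 := mP_uni (prm (act kE) lin bs tr p p (uni (Option K)))
  have h5 := congrFun (congrArg (fun z => (z.1 p).g) h4) n
  have h6 : ((prm (act kE) lin bs tr p p (uni (Option K))).1 p).g n = e1 n := by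
    rw [prm_eq]; rfl
  rw [h6] at h5
  exact h5

theorem IN_g (p n : ℕ) : IN K (((uni K).1 p).g n) = ((uni (Option K)).1 p).g n :=
  congrFun (congrArg Tg.g (mT_IN (K := K) p)) n

theorem F2 {p : ℕ} {t' : ℤ} {ν : Option K → ℕ} {z : RR (Option K)}
    (hz : TT kun p t' ν 0 z) (hz1 : IW (wn K) z 1) :
    sk _ (hh K p (IN K (ev (ptV K p) z))) = PHI _ z := by
  rw [hh_apply, map_sum, sum_range_succ]
  have hs0 : ∑ i ∈ range p, sk (Option K) (ev (prm (act kE) lin bs tr p i (uni (Option K)))
      (IN K (ev (ptV K p) z))) = 0 := by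
    apply sum_eq_zero
    intro i hi
    rw [mem_range] at hi
    let χ : RR (Option K) →ₐ[ZMod 2] RR (Option K) :=
      (sk (Option K)).comp ((ev (prm (act kE) lin bs tr p i (uni (Option K)))).comp
        ((IN K).comp (ev (ptV K p))))
    have hχ : ∀ n, χ (X (.y none n)) = 0 := by
      intro n
      change sk (Option K) (ev (prm (act kE) lin bs tr p i (uni (Option K)))
        (IN K (ev (ptV K p) (X (.y none n))))) = 0
      rw [ev_X]
      change sk (Option K) (ev (prm (act kE) lin bs tr p i (uni (Option K)))
        (IN K (X (.s p n)))) = 0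
      rw [IN_s, ev_X]
      simp only [co]
      rw [prm_gt hi]
      exact map_zero _
    have := Lin χ χ χ 1 (fun _ _ => rfl) (fun _ _ => rfl) (fun n => by rw [hχ]; simp) hz1
    rw [one_mul, p2_add_self] at this
    exact this
  rw [hs0, zero_add]
  have hχ : ((sk (Option K)).comp ((ev (prm (act kE) lin bs tr p p (uni (Option K)))).comp
        ((IN K).comp (ev (ptV K p))))) z = PHI (Option K) z := by
    refine hom_congr hz _ _ ?_ ?_
    · intro a n ha
      rw [AlgHom.comp_apply, AlgHom.comp_apply, AlgHom.comp_apply, ptV_x, map_pow, IN_x,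
        map_pow, pr_x n ha, map_pow, sk_x, PHI_x]
    · intro o n
      rw [AlgHom.comp_apply, AlgHom.comp_apply, AlgHom.comp_apply, PHI_y]
      cases o with
      | none => rw [ptV_n, IN_s, pr_s, sk_y]
      | some c =>
        rw [ptV_y, map_op, map_op, map_op]
        have h0 := map_fr ((sk (Option K)).comp
          ((ev (prm (act kE) lin bs tr p p (uni (Option K)))).comp (IN K))) ((uni K).1 p).g
        simp only [AlgHom.comp_apply] at h0
        rw [h0]
        have h1 : (fun n => sk (Option K) ((ev (prm (act kE) lin bs tr p p (uni (Option K))))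
            (IN K (((uni K).1 p).g n)))) = e1 := by
          funext n
          rw [IN_g, pr_g]
          simp only [e1]
          split_ifs
          · exact map_one _
          · exact map_zero _
        rw [h1, fr_e1, e1_op, uni_y, IN_y, pr_y, sk_y]
  exact hχ

theorem lin_dd_sk (q : ℕ) (f : RR (Option K)) : sk _ (dd kE q f) = dd ktw q (sk _ f) := by
  refine hom_dd (sk (Option K)) kE ktw lin id lin_mul ?_ ?_ q f
  · intro g y
    funext o
    cases o with
    | none => simp only [id, act, act1, kE, ktw, lin, add_zero]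
    | some c => rfl
  · intro z v
    cases v with
    | x a n => rw [sk_x, ev_X]; rfl
    | s a n => rw [sk_s, map_zero]; rfl
    | y c n => rw [sk_y, ev_X]; rfl

theorem lin_dm_sk (q : ℕ) (f : RR (Option K)) : sk _ (dm kE q f) = dm ktw q (sk _ f) := by
  cases q with
  | zero => simp only [dm, LinearMap.zero_apply, map_zero]
  | succ q => exact lin_dd_sk q f

theorem sk_cut (q : ℕ) (f : RR (Option K)) : sk _ (cut _ q f) = cut _ q (sk _ f) := by
  refine hom_cut (sk (Option K)) lin id rfl ?_ q f
  intro z v
  cases v with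
  | x a n => rw [sk_x, ev_X]; rfl
  | s a n => rw [sk_s, map_zero]; rfl
  | y c n => rw [sk_y, ev_X]; rfl

/-- weights after killing s -/
def pS (K : Type) : ℤ × ((K → ℕ) × ℕ) →+ ℤ × ((Option K → ℕ) × ℕ) where
  toFun m := (m.1, (nx m.2.1 m.2.2, 0))
  map_zero' := by
    refine Prod.ext rfl (Prod.ext ?_ rfl)
    funext o
    cases o <;> rfl
  map_add' a b := by
    refine Prod.ext rfl (Prod.ext ?_ rfl)
    funext o
    cases o <;> rfl

theorem nx_ee (c : K) : nx (ee c) 0 = ee (some c) := by
  funext o
  cases o with
  | none => exact (ee_ne (by simp)).symm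
  | some c' =>
    by_cases h : c' = c
    · subst h; simp only [nx, ee_self]
    · simp only [nx, ee_ne h]
      exact (ee_ne (by simpa using h)).symm

theorem nx_zero_one : nx (0 : K → ℕ) 1 = ee none := by
  funext o
  cases o with
  | none => exact (ee_self _).symm
  | some c' => exact (ee_ne (by simp)).symm

theorem IW_sk {f : RR (Option K)} {m : ℤ × ((K → ℕ) × ℕ)} (hf : IW (wE K) f m) :
    IW (wF ktw) (sk _ f) (pS K m) := by
  refine IW.aeval' (pS K) (sk _) (w := wE K) (w' := wF ktw) ?_ hf
  intro v
  cases v with
  | x a n =>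
    rw [sk_x]
    have := isWeightedHomogeneous_X (ZMod 2) (wF (ktw : Option K → Kd)) (Vr.x a n)
    have h2 : wF (ktw : Option K → Kd) (Vr.x a n) = pS K (wE K (Vr.x a n)) := by
      refine Prod.ext rfl (Prod.ext ?_ rfl)
      funext o
      cases o <;> rfl
    rwa [h2] at this
  | s a n => rw [sk_s]; exact IW.zero' _ _
  | y o n =>
    rw [sk_y]
    have := isWeightedHomogeneous_X (ZMod 2) (wF (ktw : Option K → Kd)) (Vr.y o n)
    have h2 : wF (ktw : Option K → Kd) (Vr.y o n) = pS K (wE K (Vr.y o n)) := by
      cases o with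
      | none => exact Prod.ext rfl (Prod.ext nx_zero_one.symm rfl)
      | some c => exact Prod.ext rfl (Prod.ext (nx_ee c).symm rfl)
    rwa [h2] at this

theorem kill_zero {L : Type} (θ : RR K →ₐ[ZMod 2] RR L)
    (hθ : ∀ v, IW (js L) (θ (X v)) 0) (hs : ∀ a n, θ (X (.s a n)) = 0)
    {f : RR K} {j : ℕ} (hf : IW (js K) f j) (hj : 1 ≤ j) : θ f = 0 := by
  have h1 : IW (js L) (θ f) 0 :=
    IW.aeval' (0 : ℕ →+ ℕ) θ (w := js K) (w' := js L) (fun v => hθ v) hf
  have h2 : IW (js L) (θ f) j := by
    refine IW.aeval' (AddMonoidHom.id ℕ) θ (w := js K) (w' := js L) ?_ hf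
    intro v
    rw [AddMonoidHom.id_apply]
    cases v with
    | x a n => exact hθ _
    | s a n => rw [hs]; exact IW.zero' _ _
    | y c n => exact hθ _
  exact IW.uniq h1 h2 (by omega)

end c1

end Pool.Agent.W624.Stz
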