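import Pool.Agent.W624.StzC

set_option autoImplicit false
set_option linter.unusedSectionVars false

namespace Pool.Agent.W624.Stz

open Finset MvPolynomial

section

variable {K : Type}

theorem wn_eq2 (κ : Option K → Kd) : wn K = fun v => pn K (wF κ v) := by
  funext v
  cases v with
  | x a n => rfl
  | s a n => rfl
  | y o n =>
    cases o with
    | none => exact (ee_self _).symm
    | some c => exact (ee_ne (by simp)).symm

theorem TT.wn {κ : Option K → Kd} {q : ℕ} {t : ℤ} {ν : Option K → ℕ} {j : ℕ}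
    {f : RR (Option K)} (hf : TT κ q t ν j f) : IW (wn K) f (ν none) := by
  have := hf.iw.coarse (pn K)
  rw [← wn_eq2] at this
  exact this

/-- restriction of weights -/
def pR (K : Type) : ℤ × ((Option K → ℕ) × ℕ) →+ ℤ × ((K → ℕ) × ℕ) where
  toFun m := (m.1, (fun c => m.2.1 (some c), m.2.2))
  map_zero' := rfl
  map_add' _ _ := rfl

theorem IW_RE' {f : RR (Option K)} {m : ℤ × ((Option K → ℕ) × ℕ)} (hf : IW (wF k1) f m) :
    IW (wF ktw) (RE K f) (pR K m) := by
  refine IW.aeval' (pR K) (RE K) (w := wF k1) (w' := wF ktw) ?_ hf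
  intro v
  cases v with
  | x a n => rw [RE_x]; exact isWeightedHomogeneous_X _ _ _
  | s a n => rw [RE_s]; exact isWeightedHomogeneous_X _ _ _
  | y o n =>
    rw [RE_y]
    cases o with
    | none => exact IW.zero' _ _
    | some c =>
      have := isWeightedHomogeneous_X (ZMod 2) (wF (ktw : K → Kd)) (Vr.y c n)
      have h2 : wF (ktw : K → Kd) (Vr.y c n) = pR K (wF k1 (Vr.y (some c) n)) := by
        refine Prod.ext rfl (Prod.ext ?_ rfl)
        funext c'
        simp only [pR, wF, wG, AddMonoidHom.coe_mk, ZeroHom.coe_mk]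
        by_cases h : c' = c
        · subst h; rw [ee_self, ee_self]
        · rw [ee_ne h, ee_ne (by simpa using h)]
      rwa [h2] at this

theorem C1core {p : ℕ} {t t' : ℤ} {ν : Option K → ℕ} (hν : ν none = 1)
    {g z q' : RR (Option K)} {q'' : RR K} (_ : q' = q') (hz : TT kun p t' ν 0 z)
    (hzg : PHI _ z = g)
    (hq1 : TT (ktw : K → Kd) p (t - 1) (fun c => ν (some c)) 0 q'')
    (hq2 : dd ktw p q'' = ev (ptU K p) g) :
    ∃ h', TT ktw (p - 1) t ν 0 h' ∧ dm ktw p h' = g := by
  have hz1 : IW (wn K) z 1 := by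
    have := hz.wn
    rwa [hν] at this
  have hkE : ∀ c : K, (kE : Option K → Kd) (some c) = ktw c := fun _ => rfl
  set Q := IN K (DX K q'') with hQ
  have hD1 := hq1.DX
  have hQc : cut _ p Q = Q := by rw [hQ, ← IN_cut, hD1.cu]
  have hQw : IW (wE K) Q (t, ((fun c => ν (some c)), 1)) := by
    have := IW_IN hD1.iw
    rw [show t - 1 + 1 = t by ring, zero_add] at this
    exact this
  have hpr := prism_poly p Q hQc
  have hdQ : dd kE p Q = IN K (ev (ptV K p) z) := by
    rw [hQ, ← IN_dd hkE]
    have h1 : dd (ktw : K → Kd) p (DX K q'') = DX K (dd ktw p q'') := (DX_dd p q'').symm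
    rw [h1, hq2, ← hzg, F2a hz1]
  have hsQ : sk _ Q = 0 := by
    have h1 := kill_zero ((sk (Option K)).comp (IN K)) (by
      intro v
      rw [AlgHom.comp_apply]
      cases v with
      | x a n => rw [IN_x, sk_x]; exact isWeightedHomogeneous_X _ (js (Option K)) (Vr.x a n)
      | s a n => rw [IN_s, sk_s]; exact IW.zero' _ _
      | y c n =>
        rw [IN_y, sk_y]; exact isWeightedHomogeneous_X _ (js (Option K)) (Vr.y (some c) n))
      (by intro a n; rw [AlgHom.comp_apply, IN_s, sk_s]) hD1.jsw (by omega)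
    exact h1
  have hLQ : LL K Q = 0 := by
    have h1 := kill_zero ((LL K).comp (IN K)) (by
      intro v
      rw [AlgHom.comp_apply]
      cases v with
      | x a n =>
        rw [IN_x, LL, ev_X]; exact isWeightedHomogeneous_X _ (js (Option K)) (Vr.x a n)
      | s a n => rw [IN_s, LL, ev_X]; exact IW.zero' _ _
      | y c n =>
        rw [IN_y, LL, ev_X]
        exact isWeightedHomogeneous_X _ (js (Option K)) (Vr.y (some c) n))
      (by intro a n; rw [AlgHom.comp_apply, IN_s, LL, ev_X]; rfl) hD1.jsw (by omega)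
    exact h1
  have h2 := congrArg (sk (Option K)) hpr
  rw [map_add, map_add, hsQ, hLQ, map_zero, add_zero, hdQ, F2 hz hz1, lin_dm_sk, hzg] at h2
  have h3 := p2_eq_of_add h2
  refine ⟨sk _ (hm K p Q), ⟨by rw [← sk_cut, cut_hm hQc], ?_⟩, h3.symm⟩
  have h4 := IW_sk (IW_hm (q := p) (ω := oE K) (ss := (0, 1)) rfl hQw)
  have h5 : pS K (t, ((fun c => ν (some c)), 1)) = (t, (ν, 0)) := by
    refine Prod.ext rfl (Prod.ext ?_ rfl)
    funext o
    cases o with
    | none => exact hν.symm
    | some c => rfl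
  rw [h5] at h4
  exact h4

variable [Fintype K]

theorem C1 (p : ℕ) (t : ℤ) (ν : Option K → ℕ) (hν : ν none = 1)
    (hex : ∀ k : ℕ, k ≤ p → Ex (ktw : Option K → Kd) (p - k) (t + 1 + k) ν (1 + k))
    (hpc : ∀ d : ℕ, 1 ≤ d → d ≤ ∑ c, ν c → ∀ ν' : Option K → ℕ, ∑ c, ν' c + d = ∑ c, ν c →
      Ex (ktw : Option K → Kd) p (t - d) ν' 0) :
    Ex (kun : Option K → Kd) p t ν 0 := by
  intro f hf hdf
  have hRU := Rel_SU (naf_un (K := Option K))
  set G := PI (SU kun) f with hGdef
  have hG : TT ktw p t ν 0 G := hf.PI hRU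
  have hdG : dd ktw p G = 0 := by rw [hGdef, ← PI_dd hRU, hdf, map_zero]
  obtain ⟨g, h, hg, hDg, hdg, hh, hGe⟩ := liftT hG (by rw [hdG, map_zero]) hex
  have hdg0 : dd ktw p g = 0 := by rw [hdg, hdG]
  have claim : ∃ h', TT ktw (p - 1) t ν 0 h' ∧ dm ktw p h' = g := by
    rcases PHI_root hg hDg with h0 | ⟨t', _, z, hz, hzg⟩
    · exact ⟨0, TT.zero, by rw [map_zero, h0]⟩
    · have hg1 : IW (wn K) g 1 := by
        have := hg.wn
        rwa [hν] at this
      set y := PI S0 f + dm k1 p (SI (sg none) h) with hydef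
      have hSI := hh.SI Rel_n
      have hdmS := hSI.dm naf_k1
      have hy : TT k1 p t ν 0 y := (hf.PI Rel_S0).add hdmS
      have hdy : dd k1 p y = 0 := by
        rw [hydef, map_add, ← PI_dd Rel_S0, hdf, map_zero, dd_dm k1 hSI.cu, add_zero]
      have hPy : PI (sg none) y = g := by
        rw [hydef, map_add, PI_n_S0, PI_dm Rel_n, PI_SI, ← hGdef, hGe, add_assoc, p2_add_self,
          add_zero]
      have hgS := hg.SI Rel_n
      have hw : TT k1 p t ν 0 (y - SI (sg none) g) := hy.sub hgS
      have hPw : PI (sg none) (y - SI (sg none) g) = 0 := by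
        rw [map_sub, hPy, PI_SI, sub_self]
      have hF1 := F1 hg1 hdg0
      have hq : ∃ q'' : RR K, TT (ktw : K → Kd) p (t - 1) (fun c => ν (some c)) 0 q'' ∧
          dd ktw p q'' = ev (ptU K p) g := by
        rcases Y_div (κ := k1) (c := none) rfl hw hPw with h0 | ⟨_, q, hq, hTq⟩
        · refine ⟨0, TT.zero, ?_⟩
          have h1 : y = SI (sg none) g := sub_eq_zero.mp h0
          rw [← h1, hdy] at hF1
          have h2 : IN K (ev (ptU K p) g) = 0 := by
            rcases mul_eq_zero.mp hF1.symm with h3 | h3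
            · exact absurd h3 (X_ne_zero _)
            · exact h3
          have h3 := congrArg (RE K) h2
          rw [RE_IN, map_zero] at h3
          rw [map_zero, h3]
        · have h1 : dd k1 p q = IN K (ev (ptU K p) g) := by
            have h2 := congrArg (dd k1 p) hq
            rw [map_sub, hdy, hF1, zero_sub, p2_neg, dd_Y (κ := k1) (c := none) rfl] at h2
            exact (mul_left_cancel₀ (X_ne_zero _) h2).symm
          refine ⟨RE K q, ⟨by rw [← RE_cut, hTq.cu], ?_⟩, ?_⟩
          · have h3 := IW_RE' hTq.iw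
            have h4 : pR K (t - 1, (ν - ee none, 0)) = (t - 1, ((fun c => ν (some c)), 0)) := by
              refine Prod.ext rfl (Prod.ext ?_ rfl)
              funext c
              simp only [pR, AddMonoidHom.coe_mk, ZeroHom.coe_mk, Pi.sub_apply]
              rw [ee_ne (by simp)]
              rfl
            rw [h4] at h3
            exact h3
          · rw [← RE_dd (κ1 := ktw) (κ2 := k1) (fun _ => rfl) (fun h => Kd.noConfusion h), h1,
              RE_IN]
      obtain ⟨q'', hq1, hq2⟩ := hq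
      exact C1core (q' := 0) hν rfl hz hzg hq1 hq2
  obtain ⟨h', hh', hdh'⟩ := claim
  have hB : ∃ h'', TT ktw (p - 1) t ν 0 h'' ∧ dm ktw p h'' = PI (SU kun) f := by
    have h5 := hh'.add hh
    refine ⟨_, h5, ?_⟩
    rw [map_add, hdh', ← hGe]
  exact BB p _ kun naf_un t ν le_rfl hpc f hf hdf hB

end

end Pool.Agent.W624.Stz
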