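import Pool.Agent.W624.StzR

set_option autoImplicit false
set_option linter.unusedSectionVars false

namespace Pool.Agent.W624.Stz

open Finset MvPolynomial

section dy

variable {K : Type}

/-- the derivation inl ↦ inr -/
noncomputable def DY (K : Type) : Derivation (ZMod 2) (RR (K ⊕ K)) (RR (K ⊕ K)) :=
  mkDerivation (ZMod 2) (fun v => match v with
    | .x _ _ => 0
    | .s _ _ => 0
    | .y (Sum.inl c) n => X (.y (Sum.inr c) n)
    | .y (Sum.inr _) _ => 0)

theorem DY_x (a n : ℕ) : DY K (X (.x a n)) = 0 := mkDerivation_X _ _ _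
theorem DY_s (a n : ℕ) : DY K (X (.s a n)) = 0 := mkDerivation_X _ _ _
theorem DY_l (c : K) (n : ℕ) : DY K (X (.y (Sum.inl c) n)) = X (.y (Sum.inr c) n) :=
  mkDerivation_X _ _ _
theorem DY_r (c : K) (n : ℕ) : DY K (X (.y (Sum.inr c) n)) = 0 := mkDerivation_X _ _ _

theorem DY_DY (f : RR (K ⊕ K)) : DY K (DY K f) = 0 := by
  apply der_der
  intro v
  cases v with
  | x a n => rw [DY_x, map_zero]
  | s a n => rw [DY_s, map_zero]
  | y c n =>
    cases c with
    | inl c => rw [DY_l, DY_r]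
    | inr c => rw [DY_r, map_zero]

theorem der_pow0 {σ : Type*} (D : Derivation (ZMod 2) (P2 σ) (P2 σ)) {a : P2 σ} (h : D a = 0)
    (k : ℕ) : D (a ^ k) = 0 := by
  rw [Derivation.leibniz_pow, h, smul_zero, smul_zero]

theorem der_op0 {σ : Type*} (D : Derivation (ZMod 2) (P2 σ) (P2 σ)) (a b : ℕ → P2 σ)
    (ha : ∀ p, D (a p) = 0) (n : ℕ) : D (op a b n) = op a (fun n => D (b n)) n := by
  simp only [op, map_sum]
  refine sum_congr rfl fun p _ => ?_
  rw [Derivation.leibniz, der_pow0 D (ha _), smul_zero, add_zero, smul_eq_mul]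

theorem der_fr0 {σ : Type*} (D : Derivation (ZMod 2) (P2 σ) (P2 σ)) (a : ℕ → P2 σ) (p : ℕ) :
    D (fr a p) = 0 := der_sq D _

/-- points compatible with DY -/
def YM (K : Type) (γ : Tg (RR (K ⊕ K))) : Prop :=
  (∀ n, DY K (γ.g n) = 0) ∧ (∀ n, DY K (γ.s n) = 0)

/-- coefficient points compatible with DY -/
def YY (K : Type) (y : K ⊕ K → ℕ → RR (K ⊕ K)) : Prop :=
  (∀ c n, DY K (y (Sum.inl c) n) = y (Sum.inr c) n) ∧ (∀ c n, DY K (y (Sum.inr c) n) = 0)

theorem YM_mul (a b : Tg (RR (K ⊕ K))) (ha : YM K a) (hb : YM K b) : YM K (a * b) := by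
  refine ⟨fun n => ?_, fun n => ?_⟩
  · rw [mul_g, der_op0 _ _ _ ha.1]
    have : (fun n => DY K (b.g n)) = fun _ => 0 := by funext n; exact hb.1 n
    rw [this, op_zero_fun]
  · rw [mul_s, Pi.add_apply, map_add, ha.2, der_op0 _ _ _ (der_fr0 _ _), add_zero]
    have : (fun n => DY K (b.s n)) = fun _ => 0 := by funext n; exact hb.2 n
    rw [this, op_zero_fun]

theorem YY_act (g : Tg (RR (K ⊕ K))) (y : K ⊕ K → ℕ → RR (K ⊕ K)) (hg : YM K g)
    (hy : YY K y) : YY K (act kun g y) := by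
  refine ⟨fun c n => ?_, fun c n => ?_⟩
  · simp only [act, kun, act1]
    rw [der_op0 _ _ _ hg.1]
    congr 1
    funext n
    exact hy.1 c n
  · simp only [act, kun, act1]
    rw [der_op0 _ _ _ hg.1]
    have : (fun n => DY K (y (Sum.inr c) n)) = fun _ => 0 := by funext n; exact hy.2 c n
    rw [this, op_zero_fun]

theorem DY_ev {z : Pt (K ⊕ K) (RR (K ⊕ K))} (h1 : ∀ a, YM K (z.1 a)) (h2 : YY K z.2)
    (f : RR (K ⊕ K)) : DY K (ev z f) = ev z (DY K f) := by
  apply der_hom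
  intro v
  cases v with
  | x a n => rw [DY_x, ev_X, map_zero]; exact (h1 a).1 (n + 1)
  | s a n => rw [DY_s, ev_X, map_zero]; exact (h1 a).2 n
  | y c n =>
    cases c with
    | inl c => rw [DY_l, ev_X, ev_X]; exact h2.1 c n
    | inr c => rw [DY_r, ev_X, map_zero]; exact h2.2 c n

theorem uni_YM (a : ℕ) : YM K ((uni (K ⊕ K)).1 a) := by
  refine ⟨fun n => ?_, fun n => DY_s a n⟩
  cases n with
  | zero => exact Derivation.map_one_eq_zero _
  | succ n => exact DY_x a n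

theorem uni_YY : YY K (uni (K ⊕ K)).2 := ⟨fun c n => DY_l c n, fun c n => DY_r c n⟩

theorem DY_dd (q : ℕ) (f : RR (K ⊕ K)) : DY K (dd kun q f) = dd kun q (DY K f) := by
  rw [dd_apply, dd_apply, map_sum]
  refine sum_congr rfl fun j _ => ?_
  have := fc_pres (ac := act (K := K ⊕ K) (A := RR (K ⊕ K)) kun) (YM K) (YY K)
    YM_mul YY_act q j (uni (K ⊕ K)) uni_YM uni_YY
  exact DY_ev this.1 this.2 f

theorem DY_cut (q : ℕ) (f : RR (K ⊕ K)) : DY K (cut _ q f) = cut _ q (DY K f) := by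
  change DY K (ev (cpt q (uni (K ⊕ K))) f) = ev (cpt q (uni (K ⊕ K))) (DY K f)
  have h2 : YY K (cpt q (uni (K ⊕ K))).2 := uni_YY
  refine DY_ev (z := cpt q (uni (K ⊕ K))) (fun a => ?_) h2 f
  simp only [cpt]
  split_ifs
  · exact uni_YM a
  · refine ⟨fun n => ?_, fun n => ?_⟩
    · simp only [one_g, e1]
      split_ifs
      · exact Derivation.map_one_eq_zero _
      · exact map_zero _
    · simp only [one_s, Pi.zero_apply, map_zero]

/-- include K in K ⊕ K -/
noncomputable def RL (K : Type) : RR (K ⊕ K) →ₐ[ZMod 2] RR K :=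
  aeval (fun v => match v with
    | .x a n => X (.x a n)
    | .s a n => X (.s a n)
    | .y (Sum.inl c) n => X (.y c n)
    | .y (Sum.inr _) _ => 0)

theorem RL_x (a n : ℕ) : RL K (X (.x a n)) = X (.x a n) := aeval_X _ _
theorem RL_s (a n : ℕ) : RL K (X (.s a n)) = X (.s a n) := aeval_X _ _
theorem RL_l (c : K) (n : ℕ) : RL K (X (.y (Sum.inl c) n)) = X (.y c n) := aeval_X _ _
theorem RL_r (c : K) (n : ℕ) : RL K (X (.y (Sum.inr c) n)) = 0 := aeval_X _ _

/-- extension by zero on the right -/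
def ezr {A : Type*} [CommRing A] (y : K → ℕ → A) : K ⊕ K → ℕ → A
  | Sum.inl c => y c
  | Sum.inr _ => 0

theorem RL_co (z : Pt K (RR K)) (v : Vr (K ⊕ K)) :
    ev z (RL K (X v)) = co (mp id ezr z : Pt (K ⊕ K) (RR K)) v := by
  cases v with
  | x a n => rw [RL_x, ev_X]; rfl
  | s a n => rw [RL_s, ev_X]; rfl
  | y c n =>
    cases c with
    | inl c => rw [RL_l, ev_X]; rfl
    | inr c => rw [RL_r, map_zero]; rfl

theorem RL_dm (q : ℕ) (f : RR (K ⊕ K)) : RL K (dm kun q f) = dm kun q (RL K f) :=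
  hom_dm (RL K) kun kun id ezr (fun _ _ => rfl) (by
    intro g y
    funext c
    cases c with
    | inl c => rfl
    | inr c => simp only [ezr, act, kun, act1, op_zero]) RL_co q f

theorem RL_cut (q : ℕ) (f : RR (K ⊕ K)) : RL K (cut _ q f) = cut K q (RL K f) :=
  hom_cut (RL K) id ezr rfl RL_co q f

theorem RL_RN (f : RR K) : RL K (RN Sum.inl f) = f := by
  have : (RL K).comp (RN Sum.inl) = AlgHom.id (ZMod 2) (RR K) := by
    apply algHom_ext
    intro v
    rw [AlgHom.comp_apply, AlgHom.id_apply]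
    cases v with
    | x a n => rw [RN_x, RL_x]
    | s a n => rw [RN_s, RL_s]
    | y c n => rw [RN_y, RL_l]
  exact DFunLike.congr_fun this f

/-- squaring into K ⊕ K -/
noncomputable def SQ (K : Type) : RR K →ₐ[ZMod 2] RR (K ⊕ K) :=
  aeval (fun v => match v with
    | .x a n => X (.x a n)
    | .s _ _ => 0
    | .y c n => X (.y (Sum.inl c) n) ^ 2)

theorem SQ_x (a n : ℕ) : SQ K (X (.x a n)) = X (.x a n) := aeval_X _ _
theorem SQ_s (a n : ℕ) : SQ K (X (.s a n)) = 0 := aeval_X _ _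
theorem SQ_y (c : K) (n : ℕ) : SQ K (X (.y c n)) = X (.y (Sum.inl c) n) ^ 2 := aeval_X _ _

theorem SQ_co (z : Pt (K ⊕ K) (RR (K ⊕ K))) (v : Vr K) :
    ev z (SQ K (X v)) = co (mp lin (fun y c => fr (y (Sum.inl c))) z : Pt K (RR (K ⊕ K))) v := by
  cases v with
  | x a n => rw [SQ_x, ev_X]; rfl
  | s a n => rw [SQ_s, map_zero]; rfl
  | y c n => rw [SQ_y, map_pow, ev_X]; rfl

theorem SQ_dd (q : ℕ) (f : RR K) : SQ K (dd ktw q f) = dd kun q (SQ K f) :=
  hom_dd (SQ K) ktw kun lin (fun y c => fr (y (Sum.inl c))) lin_mul (by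
    intro g y
    funext c
    simp only [act, kun, ktw, act1, fr_op, lin]) SQ_co q f

theorem SQ_dm (q : ℕ) (f : RR K) : SQ K (dm ktw q f) = dm kun q (SQ K f) := by
  cases q with
  | zero => simp only [dm, LinearMap.zero_apply, map_zero]
  | succ q => exact SQ_dd q f

theorem SQ_cut (q : ℕ) (f : RR K) : SQ K (cut K q f) = cut _ q (SQ K f) :=
  hom_cut (SQ K) lin (fun y c => fr (y (Sum.inl c))) rfl SQ_co q f

theorem SQ_inj {κ : K → Kd} {q : ℕ} {t : ℤ} {ν : K → ℕ} {f : RR K} (hf : TT κ q t ν 0 f)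
    (h : SQ K f = 0) : f = 0 := by
  let θ : RR (K ⊕ K) →ₐ[ZMod 2] RR K := aeval (fun v => match v with
    | .x a n => X (.x a n) ^ 2
    | .s a n => X (.s a n)
    | .y (Sum.inl c) n => X (.y c n)
    | .y (Sum.inr _) _ => 0)
  let sq : RR K →ₐ[ZMod 2] RR K := aeval (fun v => X v ^ 2)
  have h1 : sq f = f ^ 2 := sq_of_hom sq (fun v => aeval_X _ _) f
  have h2 : (θ.comp (SQ K)) f = sq f := by
    refine hom_congr hf _ _ ?_ ?_
    · intro a n _
      rw [AlgHom.comp_apply, SQ_x]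
      simp only [θ, sq, aeval_X]
    · intro c n
      rw [AlgHom.comp_apply, SQ_y, map_pow]
      simp only [θ, sq, aeval_X]
  rw [AlgHom.comp_apply, h, map_zero, h1] at h2
  exact pow_eq_zero_iff (two_ne_zero) |>.mp h2.symm

variable [Fintype K]

/-- coarse weights on K ⊕ K -/
def pW (K : Type) [Fintype K] : ℤ × ((K ⊕ K → ℕ) × ℕ) →+ ℤ × ((K → ℕ) × (ℕ × ℕ)) where
  toFun m := (m.1, ((fun c => m.2.1 (Sum.inl c) + m.2.1 (Sum.inr c)),
    (∑ c, m.2.1 (Sum.inr c), m.2.2)))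
  map_zero' := by
    refine Prod.ext rfl (Prod.ext rfl (Prod.ext ?_ rfl))
    simp
  map_add' a b := by
    refine Prod.ext rfl (Prod.ext ?_ (Prod.ext ?_ rfl))
    · funext c
      simp only [Prod.snd_add, Prod.fst_add, Pi.add_apply]
      ring
    · simp only [Prod.snd_add, Prod.fst_add, Pi.add_apply]
      rw [sum_add_distrib]

/-- coarse weight function -/
noncomputable def w2 (K : Type) [Fintype K] : Vr (K ⊕ K) → ℤ × ((K → ℕ) × (ℕ × ℕ)) :=
  fun v => pW K (wF kun v)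

theorem w2_x (a n : ℕ) : w2 K (.x a n) = (2 ^ (n + 1) - 1, (0, (0, 0))) := by
  refine Prod.ext rfl (Prod.ext rfl (Prod.ext ?_ rfl))
  simp [w2, pW, wF, wG]

theorem w2_s (a n : ℕ) : w2 K (.s a n) = (2 ^ (n + 1), (0, (0, 1))) := by
  refine Prod.ext rfl (Prod.ext rfl (Prod.ext ?_ rfl))
  simp [w2, pW, wF, wG]

theorem w2_l (c : K) (n : ℕ) : w2 K (.y (Sum.inl c) n) = (2 ^ n, (ee c, (0, 0))) := by
  refine Prod.ext rfl (Prod.ext ?_ (Prod.ext ?_ rfl))
  · funext c'
    simp only [w2, pW, wF, wG, AddMonoidHom.coe_mk, ZeroHom.coe_mk]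
    rw [ee_ne (c := Sum.inl c) (c' := Sum.inr c') (by simp), add_zero]
    by_cases h : c' = c
    · subst h; rw [ee_self, ee_self]
    · rw [ee_ne h, ee_ne (by simpa using h)]
  · simp only [w2, pW, wF, wG, AddMonoidHom.coe_mk, ZeroHom.coe_mk]
    exact sum_eq_zero fun c' _ => ee_ne (by simp)

theorem w2_r (c : K) (n : ℕ) : w2 K (.y (Sum.inr c) n) = (2 ^ n, (ee c, (1, 0))) := by
  have h0 : ∀ c', ee (Sum.inr c : K ⊕ K) (Sum.inr c') = ee c c' := by
    intro c'
    by_cases h : c' = c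
    · subst h; rw [ee_self, ee_self]
    · rw [ee_ne h, ee_ne (by simpa using h)]
  refine Prod.ext rfl (Prod.ext ?_ (Prod.ext ?_ rfl))
  · funext c'
    simp only [w2, pW, wF, wG, AddMonoidHom.coe_mk, ZeroHom.coe_mk]
    rw [ee_ne (c := Sum.inr c) (c' := Sum.inl c') (by simp), zero_add, h0]
  · simp only [w2, pW, wF, wG, AddMonoidHom.coe_mk, ZeroHom.coe_mk]
    rw [sum_congr rfl fun c' _ => h0 c', sum_ee]

theorem IW_DY {f : RR (K ⊕ K)} {m : ℤ × ((K → ℕ) × (ℕ × ℕ))} (hf : IW (w2 K) f m) :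
    IW (w2 K) (DY K f) (m + (0, (0, (1, 0)))) := by
  apply IW.der' (0, (0, (1, 0))) (DY K) _ hf
  intro v
  cases v with
  | x a n => rw [DY_x]; exact IW.zero' _ _
  | s a n => rw [DY_s]; exact IW.zero' _ _
  | y c n =>
    cases c with
    | inl c =>
      rw [DY_l]
      have := isWeightedHomogeneous_X (ZMod 2) (w2 K) (Vr.y (Sum.inr c) n)
      have h2 : w2 K (Vr.y (Sum.inr c) n) = w2 K (Vr.y (Sum.inl c) n) + (0, (0, (1, 0))) := by
        rw [w2_r, w2_l]
        simp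
      rwa [h2] at this
    | inr c => rw [DY_r]; exact IW.zero' _ _

/-- pieces of the coarse complex -/
structure SS (K : Type) [Fintype K] (t : ℤ) (ν : K → ℕ) (q b : ℕ) (f : RR (K ⊕ K)) : Prop where
  cu : cut _ q f = f
  iw : IW (w2 K) f (t, (ν, (b, 0)))

variable {t : ℤ} {ν : K → ℕ}

theorem IW_cut2 {q : ℕ} {f : RR (K ⊕ K)} {m : ℤ × ((K → ℕ) × (ℕ × ℕ))}
    (hf : IW (w2 K) f m) : IW (w2 K) (cut _ q f) m :=
  IW_cut_c (κ := (kun : K ⊕ K → Kd)) (pW K) hf

theorem IW_dd2 {q : ℕ} {f : RR (K ⊕ K)} {m : ℤ × ((K → ℕ) × (ℕ × ℕ))}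
    (hf : IW (w2 K) f m) : IW (w2 K) (dd kun q f) m :=
  IW_dd_c (κ := (kun : K ⊕ K → Kd)) (fun c h => absurd h (naf_un c)) (pW K) hf

theorem SS_DR (q b : ℕ) (f : RR (K ⊕ K)) (hf : SS K t ν q (b + 1) f) (hD : DY K f = 0) :
    ∃ h, SS K t ν q b h ∧ DY K h = f := by
  let pr : ℤ × ((K → ℕ) × (ℕ × ℕ)) →+ ℕ :=
    (AddMonoidHom.fst ℕ ℕ).comp ((AddMonoidHom.snd (K → ℕ) (ℕ × ℕ)).comp (AddMonoidHom.snd ℤ _))
  have h1 := IW.coarse pr hf.iw
  obtain ⟨h0, hh0⟩ := dr_exact (I := K × ℕ) (a := fun i => (Vr.y (Sum.inl i.1) i.2 : Vr (K ⊕ K)))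
    (b := fun i => (Vr.y (Sum.inr i.1) i.2 : Vr (K ⊕ K))) (fun i j h => by cases h)
    (fun i j h => by
      simp only [Vr.y.injEq, Sum.inr.injEq] at h
      exact Prod.ext h.1 h.2) (DY K) (fun i => DY_l _ _) (by
      intro v hv
      cases v with
      | x a n => exact DY_x a n
      | s a n => exact DY_s a n
      | y c n =>
        cases c with
        | inl c => exact absurd rfl (hv (c, n))
        | inr c => exact DY_r c n) (fun v => pr (w2 K v)) (by
      intro v hv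
      cases v with
      | x a n => rw [w2_x] at hv; exact absurd rfl hv
      | s a n => rw [w2_s] at hv; exact absurd rfl hv
      | y c n =>
        cases c with
        | inl c => rw [w2_l] at hv; exact absurd rfl hv
        | inr c => exact ⟨(c, n), rfl⟩) b f hD h1
  refine ⟨cm (w2 K) (t, (ν, (b, 0))) (cut _ q h0), ⟨?_, cm_IW _ _ _⟩, ?_⟩
  · have := cm_comm (w := w2 K) (w' := w2 K) (fun m => m) (fun _ _ h => h)
      (cut (K ⊕ K) q).toLinearMap (fun _ _ hf => IW_cut2 hf) (cut _ q h0) (t, (ν, (b, 0)))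
    simp only [AlgHom.toLinearMap_apply] at this
    rw [← this, cut_cut]
  · have := cm_comm (w := w2 K) (w' := w2 K) (fun m => m + (0, ((0 : K → ℕ), (1, 0))))
      (add_left_injective _)
      (DY K).toLinearMap (fun _ _ hf => IW_DY hf) (cut _ q h0) (t, (ν, (b, 0)))
    change cm (w2 K) _ (DY K (cut _ q h0)) = DY K (cm (w2 K) _ (cut _ q h0)) at this
    rw [← this, DY_cut, hh0, hf.cu]
    apply cm_same
    have h2 := hf.iw
    simpa using h2

/-- weights under SQ -/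
def pQ2 (K : Type) : ℤ × ((K → ℕ) × ℕ) →+ ℤ × ((K → ℕ) × (ℕ × ℕ)) where
  toFun m := (m.1, ((fun c => 2 * m.2.1 c), (0, m.2.2)))
  map_zero' := rfl
  map_add' a b := by
    refine Prod.ext rfl (Prod.ext ?_ (Prod.ext rfl rfl))
    funext c
    simp only [Prod.snd_add, Prod.fst_add, Pi.add_apply]
    ring

theorem pQ2_inj : Function.Injective (pQ2 K) := by
  intro a b h
  have h1 := congrArg Prod.fst h
  have h2 := congrArg (fun m => m.2.1) h
  have h3 := congrArg (fun m => m.2.2.2) h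
  simp only [pQ2, AddMonoidHom.coe_mk, ZeroHom.coe_mk] at h1 h2 h3
  refine Prod.ext h1 (Prod.ext ?_ h3)
  funext c
  have := congrFun h2 c
  omega

theorem IW_SQ {f : RR K} {m : ℤ × ((K → ℕ) × ℕ)} (hf : IW (wF ktw) f m) :
    IW (w2 K) (SQ K f) (pQ2 K m) := by
  refine IW.aeval' (pQ2 K) (SQ K) (w := wF ktw) (w' := w2 K) ?_ hf
  intro v
  cases v with
  | x a n =>
    rw [SQ_x]
    have := isWeightedHomogeneous_X (ZMod 2) (w2 K) (Vr.x a n)
    have h2 : w2 K (Vr.x a n) = pQ2 K (wF ktw (Vr.x a n)) := by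
      rw [w2_x]; rfl
    rwa [h2] at this
  | s a n => rw [SQ_s]; exact IW.zero' _ _
  | y c n =>
    rw [SQ_y]
    have := (isWeightedHomogeneous_X (ZMod 2) (w2 K) (Vr.y (Sum.inl c) n)).pow 2
    have h2 : 2 • w2 K (Vr.y (Sum.inl c) n) = pQ2 K (wF ktw (Vr.y c n)) := by
      rw [w2_l]
      refine Prod.ext ?_ (Prod.ext ?_ (Prod.ext rfl rfl))
      · simp [pQ2, wF, wG, tk, ktw, pow_succ']
      · funext c'
        simp [pQ2, wF, wG]
    rwa [h2] at this

/-- weights under RL -/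
def pL (K : Type) : ℤ × ((K → ℕ) × (ℕ × ℕ)) →+ ℤ × ((K → ℕ) × ℕ) where
  toFun m := (m.1, (m.2.1, m.2.2.2))
  map_zero' := rfl
  map_add' _ _ := rfl

theorem IW_RL {f : RR (K ⊕ K)} {m : ℤ × ((K → ℕ) × (ℕ × ℕ))} (hf : IW (w2 K) f m) :
    IW (wF kun) (RL K f) (pL K m) := by
  refine IW.aeval' (pL K) (RL K) (w := w2 K) (w' := wF kun) ?_ hf
  intro v
  cases v with
  | x a n =>
    rw [RL_x, w2_x]; exact isWeightedHomogeneous_X _ (wF (kun : K → Kd)) (Vr.x a n)
  | s a n =>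
    rw [RL_s, w2_s]; exact isWeightedHomogeneous_X _ (wF (kun : K → Kd)) (Vr.s a n)
  | y c n =>
    cases c with
    | inl c =>
      rw [RL_l, w2_l]; exact isWeightedHomogeneous_X _ (wF (kun : K → Kd)) (Vr.y c n)
    | inr c => rw [RL_r]; exact IW.zero' _ _

/-- weights under the inclusion -/
def pI (K : Type) : ℤ × ((K → ℕ) × ℕ) →+ ℤ × ((K → ℕ) × (ℕ × ℕ)) where
  toFun m := (m.1, (m.2.1, (0, m.2.2)))
  map_zero' := rfl
  map_add' _ _ := rfl

theorem IW_INL {f : RR K} {m : ℤ × ((K → ℕ) × ℕ)} (hf : IW (wF kun) f m) :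
    IW (w2 K) (RN Sum.inl f) (pI K m) := by
  refine IW.aeval' (pI K) (RN Sum.inl) (w := wF kun) (w' := w2 K) ?_ hf
  intro v
  cases v with
  | x a n =>
    rw [RN_x]
    have := isWeightedHomogeneous_X (ZMod 2) (w2 K) (Vr.x a n)
    rw [w2_x] at this; exact this
  | s a n =>
    rw [RN_s]
    have := isWeightedHomogeneous_X (ZMod 2) (w2 K) (Vr.s a n)
    rw [w2_s] at this; exact this
  | y c n =>
    rw [RN_y]
    have := isWeightedHomogeneous_X (ZMod 2) (w2 K) (Vr.y (Sum.inl c) n)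
    rw [w2_l] at this; exact this

theorem SQ_root {q : ℕ} {f : RR (K ⊕ K)} (hf : SS K t ν q 0 f) (hD : DY K f = 0) :
    f = 0 ∨ ∃ ν', (∀ c, 2 * ν' c = ν c) ∧ ∃ z, TT ktw q t ν' 0 z ∧ SQ K z = f := by
  classical
  let pr : ℤ × ((K → ℕ) × (ℕ × ℕ)) →+ ℕ :=
    (AddMonoidHom.fst ℕ ℕ).comp ((AddMonoidHom.snd (K → ℕ) (ℕ × ℕ)).comp (AddMonoidHom.snd ℤ _))
  let pj : ℤ × ((K → ℕ) × (ℕ × ℕ)) →+ ℕ :=
    (AddMonoidHom.snd ℕ ℕ).comp ((AddMonoidHom.snd (K → ℕ) (ℕ × ℕ)).comp (AddMonoidHom.snd ℤ _))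
  have hb := IW.coarse pr hf.iw
  have hj := IW.coarse pj hf.iw
  have h1 : ∀ c n, pderiv (Vr.y (Sum.inl c) n : Vr (K ⊕ K)) f = 0 := by
    intro c n
    exact dr_zero (I := K × ℕ) (a := fun i => (Vr.y (Sum.inl i.1) i.2 : Vr (K ⊕ K)))
      (b := fun i => (Vr.y (Sum.inr i.1) i.2 : Vr (K ⊕ K))) (fun i j h => by cases h)
      (fun i j h => by
        simp only [Vr.y.injEq, Sum.inr.injEq] at h
        exact Prod.ext h.1 h.2) (DY K) (fun i => DY_l _ _) (by
        intro v hv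
        cases v with
        | x a n => exact DY_x a n
        | s a n => exact DY_s a n
        | y c n =>
          cases c with
          | inl c => exact absurd rfl (hv (c, n))
          | inr c => exact DY_r c n) (fun v => pr (w2 K v)) (by
        intro i
        rw [w2_r]
        exact one_ne_zero) f hD hb (c, n)
  obtain ⟨z0, hz0⟩ := sq_root (fun v : Vr (K ⊕ K) => ∃ c n, v = Vr.y (Sum.inl c) n) f (by
    rintro v ⟨c, n, rfl⟩
    exact h1 c n)
  -- kill s and inr in f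
  have hkill : SQ K ((sk K) (RL K z0)) = f := by
    have e1 : ((RN Sum.inl).comp ((sk K).comp (RL K))) f = f := by
      have h4 : IW (fun v => pr (w2 K v) + pj (w2 K v)) f 0 := by
        have := IW.coarse (pr + pj) hf.iw
        exact this
      have := hom_eq_of_IW ((RN Sum.inl).comp ((sk K).comp (RL K))) (AlgHom.id _ _)
        (fun v => pr (w2 K v) + pj (w2 K v)) h4 (by
        intro v hv
        rw [AlgHom.comp_apply, AlgHom.comp_apply, AlgHom.id_apply]
        cases v with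
        | x a n => rw [RL_x, sk_x, RN_x]
        | s a n =>
          exfalso
          rw [w2_s] at hv
          exact absurd hv (by simp [pr, pj])
        | y c n =>
          cases c with
          | inl c => rw [RL_l, sk_y, RN_y]
          | inr c =>
            exfalso
            rw [w2_r] at hv
            exact absurd hv (by simp [pr, pj]))
      exact this
    have e2 : ((RN Sum.inl).comp ((sk K).comp (RL K))).comp
        (aeval (fun v => if ∃ c n, v = Vr.y (Sum.inl c) n then (X v : RR (K ⊕ K)) ^ 2 else X v))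
        = (SQ K).comp ((sk K).comp (RL K)) := by
      apply algHom_ext
      intro v
      simp only [AlgHom.comp_apply, aeval_X]
      cases v with
      | x a n =>
        rw [if_neg (by rintro ⟨c, n, h⟩; cases h), RL_x, sk_x, RN_x, SQ_x]
      | s a n =>
        rw [if_neg (by rintro ⟨c, n, h⟩; cases h), RL_s, sk_s, map_zero, map_zero]
      | y c n =>
        cases c with
        | inl c =>
          rw [if_pos ⟨c, n, rfl⟩, map_pow, RL_l, map_pow, sk_y, map_pow, RN_y, SQ_y]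
        | inr c =>
          rw [if_neg (by rintro ⟨c, n, h⟩; cases h), RL_r, map_zero, map_zero, map_zero]
    have e3 := DFunLike.congr_fun e2 z0
    rw [AlgHom.comp_apply, hz0, e1] at e3
    exact e3.symm
  have h2 : SQ K (cut K q (sk K (RL K z0))) = f := by
    rw [SQ_cut, hkill, hf.cu]
  set z1 := cut K q (sk K (RL K z0)) with hz1
  have hcz1 : cut K q z1 = z1 := cut_cut _ _
  by_cases hν : ∃ ν' : K → ℕ, ∀ c, 2 * ν' c = ν c
  · obtain ⟨ν', hν'⟩ := hν
    right
    refine ⟨ν', hν', cm (wF ktw) (t, (ν', 0)) z1, ⟨?_, cm_IW _ _ _⟩, ?_⟩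
    · rw [← cm_cut, hcz1]
    · have := cm_comm (w := wF (ktw : K → Kd)) (w' := w2 K) (pQ2 K) pQ2_inj
        (SQ K).toLinearMap (fun _ _ hf => IW_SQ hf) z1 (t, (ν', 0))
      simp only [AlgHom.toLinearMap_apply] at this
      rw [← this, h2]
      apply cm_same
      have h3 := hf.iw
      have h4 : pQ2 K (t, (ν', 0)) = (t, (ν, (0, 0))) := by
        refine Prod.ext rfl (Prod.ext ?_ rfl)
        funext c
        exact hν' c
      rw [h4]
      exact h3
  · left
    have := cm_notin (w := wF (ktw : K → Kd)) (w' := w2 K) (pQ2 K) (t, (ν, (0, 0))) (by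
      intro m hm
      apply hν
      refine ⟨m.2.1, fun c => ?_⟩
      have h3 := congrArg (fun m => m.2.1) hm
      exact congrFun h3 c)
      (SQ K).toLinearMap (fun _ _ hf => IW_SQ hf) z1
    simp only [AlgHom.toLinearMap_apply] at this
    rw [h2, cm_same hf.iw] at this
    exact this

theorem C2 (p : ℕ) (t : ℤ) (ν : K → ℕ)
    (h1 : ∀ ν' : K ⊕ K → ℕ, (∀ c, ν' (Sum.inl c) + ν' (Sum.inr c) = ν c) → ∀ k : ℕ, k ≤ p →
      ∑ c, ν' (Sum.inr c) = 1 + k → Ex (kun : K ⊕ K → Kd) (p - k) t ν' 0)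
    (h3 : ∀ ν'' : K → ℕ, (∀ c, 2 * ν'' c = ν c) → Ex (ktw : K → Kd) p t ν'' 0) :
    Ex (kun : K → Kd) p t ν 0 := by
  intro f hf hdf
  set F := RN Sum.inl f with hF
  have hkk : ∀ c : K, (kun : K ⊕ K → Kd) (Sum.inl c) = kun c := fun _ => rfl
  have hFS : SS K t ν p 0 F := by
    refine ⟨by rw [hF, ← RN_cut, hf.cu], ?_⟩
    have := IW_INL hf.iw
    exact this
  have hFd : dd kun p F = 0 := by
    rw [hF, ← RN_dd (κ1 := kun) (κ2 := kun) Sum.inl hkk, hdf, map_zero]
  have hlift := lift_lemma (R := RR (K ⊕ K)) (fun q b f => SS K t ν q b f)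
    (fun q => (dd kun q).toAddMonoidHom) (fun q => (dm kun q).toAddMonoidHom)
    (DY K).toLinearMap.toAddMonoidHom rfl (fun q => rfl)
    (fun q b f g hf hg => ⟨by rw [map_sub, hf.cu, hg.cu], hf.iw.sub hg.iw⟩)
    (fun q b f hf => ⟨cut_dd _ hf.cu, IW_dd2 hf.iw⟩)
    (fun q b f hf => ⟨by
      change cut _ q (DY K f) = DY K f
      rw [← DY_cut, hf.cu], by
      have := IW_DY hf.iw
      have h4 : (t, (ν, (b, 0))) + ((0 : ℤ), ((0 : K → ℕ), ((1 : ℕ), (0 : ℕ))))
          = (t, (ν, (b + 1, 0))) := by simp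
      rw [h4] at this
      exact this⟩)
    (fun f => DY_DY f) (fun q f => DY_dd q f) (fun q b f hf => dd_dd _ hf.cu)
    (fun q b f hf hD => SS_DR q b f hf hD) p 0 F hFS (by
      change DY K (dd kun p F) = 0
      rw [hFd, map_zero]) (by
      intro k hk f hf hdf
      rw [zero_add] at hf
      obtain ⟨h, a1, a2, a3⟩ := coarse_ex (κ := (kun : K ⊕ K → Kd)) naf_un (p - k) (pW K)
        (t, (ν, (1 + k, 0))) (by
        intro t' ν' j hm
        have b1 := congrArg Prod.fst hm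
        have b2 := congrArg (fun m => m.2.1) hm
        have b3 := congrArg (fun m => m.2.2.1) hm
        have b4 := congrArg (fun m => m.2.2.2) hm
        simp only [pW, AddMonoidHom.coe_mk, ZeroHom.coe_mk] at b1 b2 b3 b4
        subst b1
        subst b4
        exact h1 ν' (fun c => congrFun b2 c) k hk b3) f hf.cu hf.iw hdf
      refine ⟨h, ?_, a3⟩
      rw [zero_add]
      exact ⟨a1, a2⟩)
  obtain ⟨g, h, hg, hDg, hdg, hh, hFe⟩ := hlift
  have hdg0 : dd kun p g = 0 := by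
    have : dd kun p g = dd kun p F := hdg
    rw [this, hFd]
  have hFe' : F = g + dm kun p h := hFe
  have claim : ∃ h', SS K t ν (p - 1) 0 h' ∧ dm kun p h' = g := by
    rcases SQ_root hg hDg with h0 | ⟨ν', hν', z, hz, hzg⟩
    · exact ⟨0, ⟨map_zero _, IW.zero' _ _⟩, by rw [map_zero, h0]⟩
    · have hdz : dd ktw p z = 0 := by
        apply SQ_inj (hz.dd naf_tw)
        rw [SQ_dd, hzg, hdg0]
      obtain ⟨z', hz', hdz'⟩ := h3 ν' hν' z hz hdz
      refine ⟨SQ K z', ⟨by rw [← SQ_cut, hz'.cu], ?_⟩, ?_⟩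
      · have := IW_SQ hz'.iw
        have h4 : pQ2 K (t, (ν', 0)) = (t, (ν, (0, 0))) := by
          refine Prod.ext rfl (Prod.ext ?_ rfl)
          funext c
          exact hν' c
        rwa [h4] at this
      · rw [← SQ_dm, hdz', hzg]
  obtain ⟨h', hh', hdh'⟩ := claim
  refine ⟨RL K (h' + h), ⟨?_, ?_⟩, ?_⟩
  · rw [← RL_cut, map_add, hh'.cu, hh.cu]
  · have := IW_RL (hh'.iw.add hh.iw)
    exact this
  · rw [← RL_dm, map_add, hdh', ← hFe', hF, RL_RN]

end dy

end Pool.Agent.W624.Stz
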