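import Pool.Agent.W624.StzWt

set_option autoImplicit false
set_option linter.unusedSectionVars false

namespace Pool.Agent.W624.Stz

open Finset MvPolynomial

section dr

variable {σ τ : Type*}

/-- polynomials over F2 -/
abbrev P2 (σ : Type*) := MvPolynomial σ (ZMod 2)

theorem p2_add_self (f : P2 σ) : f + f = 0 := by
  rw [← two_mul]
  have : (2 : P2 σ) = 0 := by
    have h := congrArg (C : ZMod 2 →+* P2 σ) (show (2 : ZMod 2) = 0 from rfl)
    rwa [map_ofNat, map_zero] at h
  rw [this, zero_mul]

theorem p2_eq_of_add {f g : P2 σ} (h : f + g = 0) : f = g := by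
  have h1 := p2_add_self g
  have h2 : f + g = g + g := by rw [h, h1]
  exact add_right_cancel h2

theorem p2_neg (f : P2 σ) : -f = f := by
  rw [neg_eq_iff_add_eq_zero]; exact p2_add_self f

theorem der_hom (θ : P2 σ →ₐ[ZMod 2] P2 τ)
    (D1 : Derivation (ZMod 2) (P2 σ) (P2 σ)) (D2 : Derivation (ZMod 2) (P2 τ) (P2 τ))
    (h : ∀ v, D2 (θ (X v)) = θ (D1 (X v))) (f : P2 σ) : D2 (θ f) = θ (D1 f) := by
  induction f using MvPolynomial.induction_on with
  | C a =>
    rw [algHom_C, Derivation.map_algebraMap]
    have : D1 (C a) = 0 := Derivation.map_algebraMap D1 a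
    rw [this, map_zero]
  | add p q hp hq => simp only [map_add, hp, hq]
  | mul_X p v hp =>
    rw [map_mul, Derivation.leibniz, Derivation.leibniz, hp, h, map_add]
    simp only [smul_eq_mul, map_mul]

theorem der_der (D : Derivation (ZMod 2) (P2 σ) (P2 σ)) (h : ∀ v, D (D (X v)) = 0)
    (f : P2 σ) : D (D f) = 0 := by
  induction f using MvPolynomial.induction_on with
  | C a =>
    have : D (C a) = 0 := Derivation.map_algebraMap D a
    rw [this, map_zero]
  | add p q hp hq => simp only [map_add, hp, hq, add_zero]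
  | mul_X p v hp =>
    rw [Derivation.leibniz, map_add]
    simp only [smul_eq_mul, Derivation.leibniz, hp, h, mul_zero]
    rw [zero_add, zero_add, mul_comm]
    exact p2_add_self _

theorem hom_dvd (θ1 θ2 : P2 σ →ₐ[ZMod 2] P2 τ) (Y : P2 τ)
    (h : ∀ v, Y ∣ θ1 (X v) + θ2 (X v)) (f : P2 σ) : Y ∣ θ1 f + θ2 f := by
  induction f using MvPolynomial.induction_on with
  | C a => rw [algHom_C, algHom_C, p2_add_self]; exact dvd_zero _
  | add p q hp hq =>
    have := dvd_add hp hq
    simp only [map_add]
    rwa [show θ1 p + θ1 q + (θ2 p + θ2 q) = θ1 p + θ2 p + (θ1 q + θ2 q) by ring]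
  | mul_X p v hp =>
    have h1 : θ1 (p * X v) + θ2 (p * X v)
        = (θ1 p + θ2 p) * θ1 (X v) + θ2 p * (θ1 (X v) + θ2 (X v))
          - (θ2 p * θ1 (X v) + θ2 p * θ1 (X v)) := by
      simp only [map_mul]; ring
    rw [h1, p2_add_self, sub_zero]
    exact dvd_add (hp.mul_right _) ((h v).mul_left _)

theorem coeff_X_pderiv (i : σ) (f : P2 σ) (e : σ →₀ ℕ) :
    coeff e (X i * pderiv i f) = (e i : ZMod 2) * coeff e f := by
  classical
  induction f using MvPolynomial.induction_on' with
  | monomial u a =>
    rw [X_mul_pderiv_monomial, coeff_smul, coeff_monomial]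
    split_ifs with h
    · subst h; simp [nsmul_eq_mul]
    · simp
  | add p q hp hq => rw [map_add, mul_add, coeff_add, hp, hq, coeff_add, mul_add]

variable {I : Type*} (a b : I → σ)

/-- one reduction step -/
theorem dr_step {a b : I → σ} (hab : ∀ i j, a i ≠ b j)
    (hb : Function.Injective b)
    (D : Derivation (ZMod 2) (P2 σ) (P2 σ)) (hDa : ∀ i, D (X (a i)) = X (b i))
    (hDo : ∀ v, (∀ i, v ≠ a i) → D (X v) = 0) (i : I) (f : P2 σ) (hf : D f = 0) :
    ∃ (g : P2 σ) (κ : P2 σ →ₐ[ZMod 2] P2 σ), (∀ v, v ≠ b i → κ (X v) = X v) ∧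
      κ (X (b i)) = 0 ∧ f = D (X (a i) * g) + (κ f + X (a i) * pderiv (a i) (κ f)) ∧
      pderiv (a i) (κ f) = D g := by
  classical
  let κ : P2 σ →ₐ[ZMod 2] P2 σ := aeval (fun v => if v = b i then 0 else X v)
  have hκ1 : ∀ v, v ≠ b i → κ (X v) = X v := by
    intro v hv
    simp only [κ, aeval_X, if_neg hv]
  have hκ2 : κ (X (b i)) = 0 := by simp only [κ, aeval_X, if_true]
  have hdvd : X (b i) ∣ (AlgHom.id (ZMod 2) (P2 σ)) f + κ f := by
    apply hom_dvd
    intro v
    by_cases hv : v = b i
    · subst hv
      rw [hκ2, add_zero]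
      exact dvd_rfl
    · rw [hκ1 v hv, AlgHom.id_apply, p2_add_self]
      exact dvd_zero _
  obtain ⟨g, hg⟩ := hdvd
  rw [AlgHom.id_apply] at hg
  have hfg : f = X (b i) * g + κ f := by
    rw [← hg, add_assoc, p2_add_self, add_zero]
  let D' : Derivation (ZMod 2) (P2 σ) (P2 σ) := D + (X (b i) : P2 σ) • pderiv (a i)
  have hD'app : ∀ p, D' p = D p + X (b i) * pderiv (a i) p := fun p => rfl
  have hDb : D (X (b i)) = 0 := hDo _ (fun j => (hab j i).symm)
  have h1 : D' (κ f) = 0 := by
    rw [der_hom κ D D' _ f, hf, map_zero]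
    intro v
    by_cases hv : v = b i
    · subst hv
      rw [hκ2, map_zero, hDb, map_zero]
    · rw [hκ1 v hv, hD'app]
      by_cases hva : v = a i
      · subst hva
        rw [hDa, hκ2, pderiv_X_self, mul_one, p2_add_self]
      · rw [pderiv_X_of_ne hva, mul_zero, add_zero]
        by_cases hv' : ∃ j, v = a j
        · obtain ⟨j, rfl⟩ := hv'
          rw [hDa, hκ1]
          intro hh
          exact hva (by rw [hb hh])
        · push Not at hv'
          rw [hDo v hv', map_zero]
  have h2 : D (κ f) = X (b i) * pderiv (a i) (κ f) := by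
    rw [hD'app] at h1
    exact p2_eq_of_add h1
  have h3 : X (b i) * (D g + pderiv (a i) (κ f)) = 0 := by
    have h4 := hf
    rw [hfg, map_add, Derivation.leibniz, hDb, smul_zero, add_zero, smul_eq_mul] at h4
    rw [h2] at h4
    rw [mul_add]
    exact h4
  have h5 : D g = pderiv (a i) (κ f) := by
    rcases mul_eq_zero.mp h3 with h | h
    · exact absurd h (X_ne_zero _)
    · exact p2_eq_of_add h
  refine ⟨g, κ, hκ1, hκ2, ?_, h5.symm⟩
  rw [Derivation.leibniz, hDa, h5, smul_eq_mul, smul_eq_mul]
  have h6 := p2_add_self (X (a i) * pderiv (a i) (κ f))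
  calc f = X (b i) * g + κ f := hfg
    _ = X (b i) * g + κ f + (X (a i) * pderiv (a i) (κ f) + X (a i) * pderiv (a i) (κ f)) := by
        rw [h6, add_zero]
    _ = _ := by ring

theorem dr_exact {a b : I → σ} (hab : ∀ i j, a i ≠ b j)
    (hb : Function.Injective b)
    (D : Derivation (ZMod 2) (P2 σ) (P2 σ)) (hDa : ∀ i, D (X (a i)) = X (b i))
    (hDo : ∀ v, (∀ i, v ≠ a i) → D (X v) = 0)
    (js : σ → ℕ) (hjs : ∀ v, js v ≠ 0 → ∃ i, v = b i)
    (n : ℕ) (f : P2 σ) (hf : D f = 0) (hfw : IW js f (n + 1)) : ∃ h, D h = f := by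
  classical
  let wj : I → σ → ℕ := fun j v => if v = b j then 1 else 0
  have hDD : ∀ p, D (D p) = 0 := by
    apply der_der
    intro v
    by_cases hv : ∃ j, v = a j
    · obtain ⟨j, rfl⟩ := hv
      rw [hDa]
      exact hDo _ (fun i => (hab i j).symm)
    · push Not at hv
      rw [hDo v hv, map_zero]
  have hjsa : ∀ i, js (a i) = 0 := by
    intro i
    by_contra h
    obtain ⟨j, hj⟩ := hjs _ h
    exact hab i j hj
  have key : ∀ (J : Finset I) (f : P2 σ), D f = 0 → IW js f (n + 1) →
      (∀ j, j ∉ J → IW (wj j) f 0) → ∃ h, D h = f := by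
    intro J
    induction J using Finset.induction_on with
    | empty =>
      intro f hf hfw hN
      refine ⟨0, ?_⟩
      rw [map_zero]
      by_contra hne
      obtain ⟨e, he⟩ := ne_zero_iff.mp (Ne.symm hne)
      have h1 := hfw he
      have h2 : Finsupp.weight js e ≠ 0 := by rw [h1]; omega
      rw [Finsupp.weight_apply, Finsupp.sum] at h2
      obtain ⟨v, hv, hv2⟩ := exists_ne_zero_of_sum_ne_zero h2
      have hv3 : js v ≠ 0 := by
        intro h; rw [h, smul_zero] at hv2; exact hv2 rfl
      obtain ⟨j, rfl⟩ := hjs v hv3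
      have h4 := hN j (notMem_empty j) he
      rw [Finsupp.weight_apply, Finsupp.sum, sum_eq_zero_iff] at h4
      have h5 := h4 (b j) hv
      simp only [wj, if_true, smul_eq_mul, mul_one] at h5
      exact (Finsupp.mem_support_iff.mp hv) h5
    | insert i J hi ih =>
      intro f hf hfw hN
      obtain ⟨g, κ, hκ1, hκ2, hfe, _⟩ := dr_step hab hb D hDa hDo i f hf
      have hD' : D (κ f + X (a i) * pderiv (a i) (κ f)) = 0 := by
        have := congrArg D hfe
        rw [hf, map_add, hDD, zero_add] at this
        exact this.symm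
      have hpres : ∀ (w : σ → ℕ) (m : ℕ), w (a i) = 0 → IW w (κ f) m →
          IW w (κ f + X (a i) * pderiv (a i) (κ f)) m := by
        intro w m hw h
        apply IsWeightedHomogeneous.add h
        have h1 : IW w (pderiv (a i) (κ f)) (m + 0) := by
          apply IW.der' 0 (pderiv (a i)) _ h
          intro v
          by_cases hv : v = a i
          · subst hv
            rw [pderiv_X_self, hw]
            exact IW.one' _
          · rw [pderiv_X_of_ne hv]
            exact IW.zero' _ _
        have h2 := IsWeightedHomogeneous.mul (isWeightedHomogeneous_X (ZMod 2) w (a i)) h1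
        rwa [hw, zero_add, add_zero] at h2
      obtain ⟨h', hh'⟩ := ih _ hD' (hpres js _ (hjsa i) (by
          have := IW.aeval' (AddMonoidHom.id ℕ) κ (w' := js) (w := js) (fun v => by
            by_cases hv : v = b i
            · subst hv; rw [hκ2]; exact IW.zero' _ _
            · rw [hκ1 v hv]; exact isWeightedHomogeneous_X _ _ _) hfw
          exact this)) (by
          intro j hj
          by_cases hji : j = i
          · subst hji
            apply hpres
            · simp only [wj]
              rw [if_neg (hab j j)]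
            · have := IW.aeval' (0 : ℕ →+ ℕ) κ (w' := wj j) (w := js) (fun v => by
                by_cases hv : v = b j
                · subst hv; rw [hκ2]; exact IW.zero' _ _
                · rw [hκ1 v hv]
                  have h1 := isWeightedHomogeneous_X (ZMod 2) (wj j) v
                  have h2 : wj j v = 0 := by simp only [wj]; rw [if_neg hv]
                  rw [h2] at h1
                  exact h1) hfw
              exact this
          · apply hpres
            · simp only [wj]
              rw [if_neg (hab i j)]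
            · have hNj := hN j (by
                rw [mem_insert]; push Not; exact ⟨hji, hj⟩)
              have := IW.aeval' (AddMonoidHom.id ℕ) κ (w' := wj j) (w := wj j) (fun v => by
                by_cases hv : v = b i
                · subst hv; rw [hκ2]; exact IW.zero' _ _
                · rw [hκ1 v hv]; exact isWeightedHomogeneous_X _ _ _) hNj
              exact this)
      refine ⟨X (a i) * g + h', ?_⟩
      rw [map_add, hh', ← hfe]
  let J : Finset I := f.vars.preimage b hb.injOn
  apply key J f hf hfw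
  intro j hj e he
  rw [Finsupp.weight_apply, Finsupp.sum, sum_eq_zero_iff]
  intro v hv
  by_cases hvj : v = b j
  · exfalso
    apply hj
    rw [mem_preimage, ← hvj]
    exact mem_vars_iff_mem_support v |>.mpr ⟨e, mem_support_iff.mpr he, hv⟩
  · simp only [wj]
    rw [if_neg hvj, smul_zero]

theorem dr_zero {a b : I → σ} (hab : ∀ i j, a i ≠ b j)
    (hb : Function.Injective b)
    (D : Derivation (ZMod 2) (P2 σ) (P2 σ)) (hDa : ∀ i, D (X (a i)) = X (b i))
    (hDo : ∀ v, (∀ i, v ≠ a i) → D (X v) = 0)
    (js : σ → ℕ) (hjs : ∀ i, js (b i) ≠ 0)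
    (f : P2 σ) (hf : D f = 0) (hfw : IW js f 0) (i : I) : pderiv (a i) f = 0 := by
  obtain ⟨g, κ, hκ1, hκ2, hfe, hd⟩ := dr_step hab hb D hDa hDo i f hf
  have hκf : κ f = f := by
    have : ∀ v ∈ f.vars, (κ : P2 σ →+* P2 σ) (X v) = (RingHom.id (P2 σ)) (X v) := by
      intro v hv
      rw [RingHom.id_apply]
      apply hκ1
      rintro rfl
      obtain ⟨e, he, hev⟩ := mem_vars_iff_mem_support _ |>.mp hv
      have h1 := hfw (mem_support_iff.mp he)
      rw [Finsupp.weight_apply, Finsupp.sum, sum_eq_zero_iff] at h1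
      have h2 := h1 _ hev
      rw [smul_eq_mul, mul_eq_zero] at h2
      rcases h2 with h2 | h2
      · exact Finsupp.mem_support_iff.mp hev h2
      · exact hjs i h2
    have h2 := hom_congr_vars (f₁ := (κ : P2 σ →+* P2 σ)) (f₂ := RingHom.id (P2 σ))
      (p₁ := f) (p₂ := f) (by ext a; simp) (fun v hv _ => this v hv) rfl
    exact h2
  have h0 : X (b i) * g = 0 := by
    have h1 : D (X (a i) * g) = X (b i) * g + X (a i) * D g := by
      rw [Derivation.leibniz, hDa, smul_eq_mul, smul_eq_mul]; ring
    rw [h1, ← hd, hκf] at hfe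
    have h2 := p2_add_self (X (a i) * pderiv (a i) f)
    have h3 : f = X (b i) * g + f + (X (a i) * pderiv (a i) f + X (a i) * pderiv (a i) f) := by
      calc f = _ := hfe
        _ = _ := by ring
    rw [h2, add_zero] at h3
    have h4 : 0 + f = X (b i) * g + f := by rw [zero_add]; exact h3
    exact (add_right_cancel h4).symm
  rcases mul_eq_zero.mp h0 with h | h
  · exact absurd h (X_ne_zero _)
  · rw [h, map_zero, hκf] at hd
    exact hd

theorem sq_root (S : σ → Prop) [DecidablePred S] (f : P2 σ)
    (hf : ∀ v, S v → pderiv v f = 0) :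
    ∃ z : P2 σ, aeval (fun v => if S v then (X v : P2 σ) ^ 2 else X v) z = f := by
  classical
  have hev : ∀ e ∈ f.support, ∀ v, S v → e v % 2 = 0 := by
    intro e he v hv
    have h1 := coeff_X_pderiv v f e
    rw [hf v hv, mul_zero, coeff_zero] at h1
    rcases mul_eq_zero.mp h1.symm with h | h
    · exact Nat.mod_eq_zero_of_dvd ((ZMod.natCast_eq_zero_iff _ _).mp h)
    · exact absurd h (mem_support_iff.mp he)
  let hf' : (σ →₀ ℕ) → (σ →₀ ℕ) := fun e =>
    Finsupp.onFinset e.support (fun v => if S v then e v / 2 else e v) (by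
      intro v hv
      rw [Finsupp.mem_support_iff]
      intro h
      rw [h] at hv
      simp at hv)
  refine ⟨∑ e ∈ f.support, monomial (hf' e) (coeff e f), ?_⟩
  rw [map_sum]
  conv_rhs => rw [f.as_sum]
  apply sum_congr rfl
  intro e he
  rw [aeval_monomial, monomial_eq, algebraMap_eq]
  congr 1
  rw [Finsupp.prod_of_support_subset (hf' e) (s := e.support)]
  · rw [Finsupp.prod]
    apply prod_congr rfl
    intro v hv
    simp only [hf', Finsupp.onFinset_apply]
    by_cases hS : S v
    · rw [if_pos hS, if_pos hS, ← pow_mul]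
      congr 1
      have := hev e he v hS
      omega
    · rw [if_neg hS, if_neg hS]
  · intro v hv
    rw [Finsupp.mem_support_iff] at hv ⊢
    intro h
    apply hv
    simp only [hf', Finsupp.onFinset_apply, h]
    simp
  · intro v _
    exact pow_zero _

end dr

end Pool.Agent.W624.Stz
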