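import Pool.Agent.W624.StzB

set_option autoImplicit false
set_option linter.unusedSectionVars false

namespace Pool.Agent.W624.Stz

open Finset MvPolynomial

section lt

variable {σ τ : Type*}

/-- all monomials have weight below m -/
def Lt (w : σ → ℕ) (m : ℕ) (f : P2 σ) : Prop := ∀ e, coeff e f ≠ 0 → Finsupp.weight w e < m

variable {w : σ → ℕ}

theorem Lt.add {m : ℕ} {f g : P2 σ} (hf : Lt w m f) (hg : Lt w m g) : Lt w m (f + g) := by
  intro e he
  rw [coeff_add] at he
  by_cases h : coeff e f = 0
  · rw [h, zero_add] at he; exact hg e he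
  · exact hf e h

theorem Lt.zero (m : ℕ) : Lt w m (0 : P2 σ) := fun e he => absurd (coeff_zero e) he

theorem Lt.mono {m n : ℕ} (h : m ≤ n) {f : P2 σ} (hf : Lt w m f) : Lt w n f :=
  fun e he => lt_of_lt_of_le (hf e he) h

theorem Lt.mul {a b : ℕ} {f g : P2 σ} (hf : Lt w (a + 1) f) (hg : Lt w b g) :
    Lt w (a + b) (f * g) := by
  classical
  intro e he
  rw [coeff_mul] at he
  obtain ⟨x, hx, hx2⟩ := exists_ne_zero_of_sum_ne_zero he
  rw [HasAntidiagonal.mem_antidiagonal] at hx
  have h1 := hf x.1 (left_ne_zero_of_mul hx2)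
  have h2 := hg x.2 (right_ne_zero_of_mul hx2)
  rw [← hx, map_add]
  omega

theorem Lt.mul' {a b : ℕ} {f g : P2 σ} (hf : Lt w a f) (hg : Lt w (b + 1) g) :
    Lt w (a + b) (f * g) := by
  rw [mul_comm, add_comm]; exact hg.mul hf

theorem Lt.of_IW {m : ℕ} {f : P2 σ} (hf : IW w f m) : Lt w (m + 1) f := by
  intro e he
  rw [hf he]; omega

theorem lt_hom {w' : τ → ℕ} (θ1 θ2 : P2 σ →ₐ[ZMod 2] P2 τ)
    (h1 : ∀ v, Lt w' (w v + 1) (θ1 (X v))) (h2 : ∀ v, Lt w' (w v + 1) (θ2 (X v)))
    (h3 : ∀ v, Lt w' (w v) (θ1 (X v) + θ2 (X v))) {m : ℕ} {f : P2 σ} (hf : Lt w (m + 1) f) :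
    Lt w' m (θ1 f + θ2 f) := by
  classical
  have key : ∀ e : σ →₀ ℕ, Lt w' (Finsupp.weight w e + 1) (θ1 (monomial e 1)) ∧
      Lt w' (Finsupp.weight w e + 1) (θ2 (monomial e 1)) ∧
      Lt w' (Finsupp.weight w e) (θ1 (monomial e 1) + θ2 (monomial e 1)) := by
    have hadd : ∀ e e' : σ →₀ ℕ,
        (Lt w' (Finsupp.weight w e + 1) (θ1 (monomial e 1)) ∧
        Lt w' (Finsupp.weight w e + 1) (θ2 (monomial e 1)) ∧
        Lt w' (Finsupp.weight w e) (θ1 (monomial e 1) + θ2 (monomial e 1))) →
        (Lt w' (Finsupp.weight w e' + 1) (θ1 (monomial e' 1)) ∧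
        Lt w' (Finsupp.weight w e' + 1) (θ2 (monomial e' 1)) ∧
        Lt w' (Finsupp.weight w e') (θ1 (monomial e' 1) + θ2 (monomial e' 1))) →
        (Lt w' (Finsupp.weight w (e + e') + 1) (θ1 (monomial (e + e') 1)) ∧
        Lt w' (Finsupp.weight w (e + e') + 1) (θ2 (monomial (e + e') 1)) ∧
        Lt w' (Finsupp.weight w (e + e'))
          (θ1 (monomial (e + e') 1) + θ2 (monomial (e + e') 1))) := by
      rintro e e' ⟨a1, a2, a3⟩ ⟨b1, b2, b3⟩
      have hm : (monomial (e + e') (1 : ZMod 2)) = monomial e 1 * monomial e' 1 := by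
        rw [monomial_mul, one_mul]
      rw [hm, map_add, map_mul, map_mul]
      refine ⟨?_, ?_, ?_⟩
      · exact a1.mul b1
      · exact a2.mul b2
      · have h4 : θ1 (monomial e 1) * θ1 (monomial e' 1) + θ2 (monomial e 1) * θ2 (monomial e' 1)
            = (θ1 (monomial e 1) + θ2 (monomial e 1)) * θ1 (monomial e' 1)
              + θ2 (monomial e 1) * (θ1 (monomial e' 1) + θ2 (monomial e' 1)) := by
          have h5 := p2_add_self (θ2 (monomial e 1) * θ1 (monomial e' 1))
          calc _ = θ1 (monomial e 1) * θ1 (monomial e' 1) + θ2 (monomial e 1) * θ2 (monomial e' 1)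
              + (θ2 (monomial e 1) * θ1 (monomial e' 1)
                + θ2 (monomial e 1) * θ1 (monomial e' 1)) := by rw [h5, add_zero]
            _ = _ := by ring
        rw [h4]
        exact (a3.mul' b1).add (a2.mul b3)
    intro e
    induction e using Finsupp.induction_linear with
    | zero =>
      have : (monomial (0 : σ →₀ ℕ) (1 : ZMod 2)) = 1 := rfl
      rw [this, map_one, map_one, map_zero, p2_add_self]
      have h0 : Lt w' (0 + 1) (1 : P2 τ) := Lt.of_IW (IW.one' w')
      exact ⟨h0, h0, Lt.zero _⟩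
    | add e e' h h' => exact hadd e e' h h'
    | single v n =>
      induction n with
      | zero =>
        rw [Finsupp.single_zero]
        have : (monomial (0 : σ →₀ ℕ) (1 : ZMod 2)) = 1 := rfl
        rw [this, map_one, map_one, map_zero, p2_add_self]
        have h0 : Lt w' (0 + 1) (1 : P2 τ) := Lt.of_IW (IW.one' w')
        exact ⟨h0, h0, Lt.zero _⟩
      | succ n ih =>
        rw [Finsupp.single_add]
        apply hadd _ _ ih
        have hw : Finsupp.weight w (Finsupp.single v 1) = w v := by
          rw [Finsupp.weight_apply, Finsupp.sum_single_index (by simp), one_smul]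
        rw [hw]
        exact ⟨h1 v, h2 v, h3 v⟩
  rw [f.as_sum, map_sum, map_sum, ← sum_add_distrib]
  have hs : ∀ s : Finset (σ →₀ ℕ), (∀ e ∈ s, coeff e f ≠ 0) →
      Lt w' m (∑ e ∈ s, (θ1 (monomial e (coeff e f)) + θ2 (monomial e (coeff e f)))) := by
    intro s
    induction s using Finset.induction_on with
    | empty => intro _; rw [sum_empty]; exact Lt.zero _
    | insert a s ha ih =>
      intro hs
      rw [sum_insert ha]
      refine Lt.add ?_ (ih fun e he => hs e (mem_insert_of_mem he))
      have h0 : monomial a (coeff a f) = coeff a f • (monomial a 1 : P2 σ) := by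
        rw [smul_monomial, smul_eq_mul, mul_one]
      rw [h0, map_smul, map_smul, ← smul_add]
      intro e he
      rw [coeff_smul, smul_eq_mul] at he
      have h5 := (key a).2.2 e (right_ne_zero_of_mul he)
      have h6 := hf a (hs a (mem_insert_self _ _))
      omega
  exact hs _ fun e he => mem_support_iff.mp he

end lt

section incl

variable {K : Type}

/-- inclusion -/
noncomputable def IN (K : Type) : RR K →ₐ[ZMod 2] RR (Option K) :=
  aeval (fun v => match v with
    | .x a n => X (.x a n)
    | .s a n => X (.s a n)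
    | .y c n => X (.y (some c) n))

theorem IN_x (a n : ℕ) : IN K (X (.x a n)) = X (.x a n) := aeval_X _ _
theorem IN_s (a n : ℕ) : IN K (X (.s a n)) = X (.s a n) := aeval_X _ _
theorem IN_y (c : K) (n : ℕ) : IN K (X (.y c n)) = X (.y (some c) n) := aeval_X _ _

/-- extension by zero -/
def ez {A : Type*} [CommRing A] (y : K → ℕ → A) : Option K → ℕ → A
  | none => 0
  | some c => y c

/-- restriction -/
noncomputable def RE (K : Type) : RR (Option K) →ₐ[ZMod 2] RR K :=
  aeval (fun v => match v with
    | .x a n => X (.x a n)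
    | .s a n => X (.s a n)
    | .y o n => ez (uni K).2 o n)

theorem RE_x (a n : ℕ) : RE K (X (.x a n)) = X (.x a n) := aeval_X _ _
theorem RE_s (a n : ℕ) : RE K (X (.s a n)) = X (.s a n) := aeval_X _ _
theorem RE_y (o : Option K) (n : ℕ) : RE K (X (.y o n)) = ez (uni K).2 o n := aeval_X _ _

theorem IN_co (z : Pt (Option K) (RR (Option K))) (v : Vr K) :
    ev z (IN K (X v)) = co (mp id (fun y c => y (some c)) z : Pt K (RR (Option K))) v := by
  cases v with
  | x a n => rw [IN_x, ev_X]; rfl
  | s a n => rw [IN_s, ev_X]; rfl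
  | y c n => rw [IN_y, ev_X]; rfl

theorem RE_co (z : Pt K (RR K)) (v : Vr (Option K)) :
    ev z (RE K (X v)) = co (mp id ez z : Pt (Option K) (RR K)) v := by
  cases v with
  | x a n => rw [RE_x, ev_X]; rfl
  | s a n => rw [RE_s, ev_X]; rfl
  | y o n =>
    rw [RE_y]
    cases o with
    | none => simp only [ez, Pi.zero_apply, map_zero, co, mp]
    | some c => simp only [ez, uni_y, ev_X]; rfl

theorem IN_dd {κ1 : K → Kd} {κ2 : Option K → Kd} (h : ∀ c, κ2 (some c) = κ1 c) (q : ℕ)
    (f : RR K) : IN K (dd κ1 q f) = dd κ2 q (IN K f) :=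
  hom_dd (IN K) κ1 κ2 id (fun y c => y (some c)) (fun _ _ => rfl) (by
    intro g y
    funext c
    simp only [act, h, id]) IN_co q f

theorem IN_dm {κ1 : K → Kd} {κ2 : Option K → Kd} (h : ∀ c, κ2 (some c) = κ1 c) (q : ℕ)
    (f : RR K) : IN K (dm κ1 q f) = dm κ2 q (IN K f) :=
  hom_dm (IN K) κ1 κ2 id (fun y c => y (some c)) (fun _ _ => rfl) (by
    intro g y
    funext c
    simp only [act, h, id]) IN_co q f

theorem IN_cut (q : ℕ) (f : RR K) : IN K (cut K q f) = cut _ q (IN K f) :=
  hom_cut (IN K) id (fun y c => y (some c)) rfl IN_co q f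

theorem RE_cut (q : ℕ) (f : RR (Option K)) : RE K (cut _ q f) = cut K q (RE K f) :=
  hom_cut (RE K) id ez rfl RE_co q f

theorem ez_act {κ1 : K → Kd} {κ2 : Option K → Kd} (h : ∀ c, κ2 (some c) = κ1 c)
    (hn : κ2 none ≠ .af) (g : Tg (RR K)) (y : K → ℕ → RR K) :
    ez (act κ1 g y) = act κ2 g (ez y) := by
  funext o
  cases o with
  | none =>
    simp only [ez, act]
    cases hk : κ2 none with
    | un => simp only [act1, op_zero]
    | tw => simp only [act1, op_zero]
    | af => exact absurd hk hn
  | some c => simp only [ez, act, h]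

theorem RE_dd {κ1 : K → Kd} {κ2 : Option K → Kd} (h : ∀ c, κ2 (some c) = κ1 c)
    (hn : κ2 none ≠ .af) (q : ℕ) (f : RR (Option K)) :
    RE K (dd κ2 q f) = dd κ1 q (RE K f) :=
  hom_dd (RE K) κ2 κ1 id ez (fun _ _ => rfl) (ez_act h hn) RE_co q f

theorem RE_IN (f : RR K) : RE K (IN K f) = f := by
  have : (RE K).comp (IN K) = AlgHom.id (ZMod 2) (RR K) := by
    apply algHom_ext
    intro v
    rw [AlgHom.comp_apply, AlgHom.id_apply]
    cases v with
    | x a n => rw [IN_x, RE_x]
    | s a n => rw [IN_s, RE_s]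
    | y c n => rw [IN_y, RE_y]; rfl
  exact DFunLike.congr_fun this f

/-- extended multidegree -/
def nx (ν : K → ℕ) (i : ℕ) : Option K → ℕ
  | none => i
  | some c => ν c

/-- coordinate weights of the E complex -/
noncomputable def oE (K : Type) : Option K → (K → ℕ) × ℕ
  | none => (0, 1)
  | some c => (ee c, 0)

/-- weights of the E complex -/
noncomputable def wE (K : Type) : Vr (Option K) → ℤ × ((K → ℕ) × ℕ) := wG kE (oE K) (0, 1)

/-- coordinate weights of the none degree -/
def on (K : Type) : Option K → ℕ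
  | none => 1
  | some _ => 0

/-- none degree -/
def wn (K : Type) : Vr (Option K) → ℕ := fun v => (wG ktw (on K) 0 v).2

theorem IW_IN {f : RR K} {m : ℤ × ((K → ℕ) × ℕ)} (hf : IW (wF ktw) f m) :
    IW (wE K) (IN K f) m := by
  refine IW.aeval' (AddMonoidHom.id _) (IN K) (w := wF ktw) (w' := wE K) ?_ hf
  intro v
  rw [AddMonoidHom.id_apply]
  cases v with
  | x a n => rw [IN_x]; exact isWeightedHomogeneous_X _ _ _
  | s a n => rw [IN_s]; exact isWeightedHomogeneous_X _ _ _
  | y c n => rw [IN_y]; exact isWeightedHomogeneous_X _ _ _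

theorem IW_RE {f : RR (Option K)} {m : ℤ × ((K → ℕ) × ℕ)} (hf : IW (wE K) f m) :
    IW (wF ktw) (RE K f) m := by
  refine IW.aeval' (AddMonoidHom.id _) (RE K) (w := wE K) (w' := wF ktw) ?_ hf
  intro v
  rw [AddMonoidHom.id_apply]
  cases v with
  | x a n => rw [RE_x]; exact isWeightedHomogeneous_X _ _ _
  | s a n => rw [RE_s]; exact isWeightedHomogeneous_X _ _ _
  | y o n =>
    rw [RE_y]
    cases o with
    | none => exact IW.zero' _ _
    | some c => exact isWeightedHomogeneous_X _ _ _

theorem IW_wn_IN (f : RR K) : IW (wn K) (IN K f) 0 := by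
  have h0 : IW (fun _ : Vr K => (0 : ℕ)) f 0 := by
    intro e _
    rw [Finsupp.weight_apply]
    simp [Finsupp.sum]
  refine IW.aeval' (AddMonoidHom.id _) (IN K) (w := fun _ => (0 : ℕ)) (w' := wn K) ?_ h0
  intro v
  rw [AddMonoidHom.id_apply]
  cases v with
  | x a n => rw [IN_x]; exact isWeightedHomogeneous_X _ _ _
  | s a n => rw [IN_s]; exact isWeightedHomogeneous_X _ _ _
  | y c n => rw [IN_y]; exact isWeightedHomogeneous_X _ _ _

theorem IN_RE {f : RR (Option K)} (hf : IW (wn K) f 0) : IN K (RE K f) = f := by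
  have := hom_eq_of_IW ((IN K).comp (RE K)) (AlgHom.id _ _) (wn K) hf (by
    intro v hv
    rw [AlgHom.comp_apply, AlgHom.id_apply]
    cases v with
    | x a n => rw [RE_x, IN_x]
    | s a n => rw [RE_s, IN_s]
    | y o n =>
      cases o with
      | none => exact absurd hv one_ne_zero
      | some c => rw [RE_y]; simp only [ez, uni_y]; rw [IN_y])
  exact this

end incl

section lemT

variable {K : Type} {N M' : Type*} [AddCommMonoid N] [AddCommMonoid M'] {σ : Type*}

theorem IW_ev_c {w : σ → ℤ × N} {ss : N} {κ : K → Kd} {ω : K → N} {z : Pt K (P2 σ)}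
    (h1 : ∀ a, PMw w ss (z.1 a)) (h2 : PYw w κ ω z.2) (pr : ℤ × N →+ M') {f : RR K} {m : M'}
    (hf : IW (fun v => pr (wG κ ω ss v)) f m) : IW (fun v => pr (w v)) (ev z f) m := by
  refine IW.aeval' (AddMonoidHom.id M') (ev z) (w := fun v => pr (wG κ ω ss v))
    (w' := fun v => pr (w v)) ?_ hf
  intro v
  rw [ev_X]
  cases v with
  | x a n => exact ((h1 a).1 (n + 1)).coarse pr
  | s a n => exact ((h1 a).2 n).coarse pr
  | y c n => exact (h2 c n).coarse pr

theorem IW_dd_c {κ : K → Kd} {ω : K → N} {ss : N} (haf : ∀ c, κ c = .af → ω c = ss)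
    (pr : ℤ × N →+ M') {q : ℕ} {f : RR K} {m : M'}
    (hf : IW (fun v => pr (wG κ ω ss v)) f m) :
    IW (fun v => pr (wG κ ω ss v)) (dd κ q f) m := by
  rw [dd_apply]
  apply IsWeightedHomogeneous.sum
  intro j _
  have := fc_pres (ac := act κ) (PMw (wG κ ω ss) ss) (PYw (wG κ ω ss) κ ω)
    (PMw_mul _ _) (PYw_act _ _ _ _ haf) q j (uni K) (uni_PM κ ω ss) (uni_PY κ ω ss)
  exact IW_ev_c this.1 this.2 pr hf

theorem IW_cut_c {κ : K → Kd} {ω : K → N} {ss : N} (pr : ℤ × N →+ M') {q : ℕ} {f : RR K}
    {m : M'} (hf : IW (fun v => pr (wG κ ω ss v)) f m) :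
    IW (fun v => pr (wG κ ω ss v)) (cut K q f) m := by
  change IW _ (ev (cpt q (uni K)) f) m
  have h2 : PYw (wG κ ω ss) κ ω (cpt q (uni K)).2 := uni_PY κ ω ss
  refine IW_ev_c (z := cpt q (uni K)) ?_ h2 pr hf
  intro a
  simp only [cpt]
  split_ifs
  · exact uni_PM κ ω ss a
  · exact PMw_one _ _

theorem wn_eq : wn K = fun v => (AddMonoidHom.snd ℤ ℕ) (wG ktw (on K) 0 v) := rfl

theorem IW_dd_wn {q : ℕ} {f : RR (Option K)} {m : ℕ} (hf : IW (wn K) f m) :
    IW (wn K) (dd ktw q f) m := by
  rw [wn_eq] at hf ⊢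
  exact IW_dd_c (κ := (ktw : Option K → Kd)) (fun c h => absurd h (naf_tw c)) _ hf

/-- the last face -/
noncomputable def lf (κ : Option K → Kd) (q : ℕ) : RR (Option K) →ₐ[ZMod 2] RR (Option K) :=
  ev (fc (act κ) q (q + 1) (uni (Option K)))

theorem dd_split (q : ℕ) (f : RR (Option K)) :
    dd kE q f = dd ktw q f + (lf kE q f + lf ktw q f) := by
  rw [dd_apply, dd_apply, sum_range_succ, sum_range_succ (n := q + 1)]
  have : ∑ j ∈ range (q + 1), ev (fc (act kE) q j (uni (Option K))) f
      = ∑ j ∈ range (q + 1), ev (fc (act ktw) q j (uni (Option K))) f := by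
    refine sum_congr rfl fun j hj => ?_
    rw [mem_range] at hj
    cases j with
    | zero => rw [fc_zero, fc_zero]
    | succ j => rw [fc_mid _ (by omega), fc_mid _ (by omega)]
  rw [this]
  have h2 := p2_add_self (lf ktw q f)
  change _ + lf kE q f = _ + lf ktw q f + (lf kE q f + lf ktw q f)
  calc _ = _ + lf kE q f + (lf ktw q f + lf ktw q f) := by rw [h2, add_zero]
    _ = _ := by ring

theorem lf_lt {q m : ℕ} {f : RR (Option K)} (hf : Lt (wn K) (m + 1) f) :
    Lt (wn K) m (lf kE q f + lf ktw q f) := by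
  have hw : ∀ v, IW (wn K) (lf ktw q (X v)) (wn K v) := by
    intro v
    rw [lf, ev_X]
    have := fc_pres (ac := act (ktw : Option K → Kd)) (PMw (wG ktw (on K) 0) 0)
      (PYw (wG ktw (on K) 0) ktw (on K))
      (PMw_mul _ _) (PYw_act _ _ _ _ (fun c h => absurd h (naf_tw c))) q (q + 1)
      (uni (Option K)) (uni_PM ktw (on K) 0) (uni_PY ktw (on K) 0)
    cases v with
    | x a n => exact (this.1 a).1 (n + 1) |>.coarse (AddMonoidHom.snd ℤ ℕ)
    | s a n => exact (this.1 a).2 n |>.coarse (AddMonoidHom.snd ℤ ℕ)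
    | y c n => exact this.2 c n |>.coarse (AddMonoidHom.snd ℤ ℕ)
  have hlt : ∀ v, Lt (wn K) (wn K v) (lf kE q (X v) + lf ktw q (X v)) := by
    intro v
    rw [lf, lf, ev_X, ev_X, fc_last _ (by omega), fc_last _ (by omega)]
    cases v with
    | x a n =>
      have h3 := p2_add_self (((uni (Option K)).1 a).g (n + 1))
      simp only [co]
      rw [h3]
      exact Lt.zero _
    | s a n =>
      have h3 := p2_add_self (((uni (Option K)).1 a).s n)
      simp only [co]
      rw [h3]
      exact Lt.zero _
    | y o n =>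
      cases o with
      | none =>
        simp only [co, act, act1, kE, ktw, Pi.add_apply]
        have h2 := p2_add_self (op (fr ((uni (Option K)).1 q).g) ((uni (Option K)).2 none) n)
        rw [show ∀ a b : RR (Option K), a + b + a = (a + a) + b by intro a b; ring, h2, zero_add]
        exact Lt.of_IW (isWeightedHomogeneous_X _ (wn K) (Vr.s q n))
      | some c =>
        have h2 := p2_add_self
          (op (fr ((uni (Option K)).1 q).g) ((uni (Option K)).2 (some c)) n)
        simp only [co, act, act1, kE, ktw]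
        rw [h2]
        exact Lt.zero _
  refine lt_hom (lf kE q) (lf ktw q) ?_ (fun v => Lt.of_IW (hw v)) hlt hf
  intro v
  have h1 : lf kE q (X v) = lf ktw q (X v) + (lf kE q (X v) + lf ktw q (X v)) := by
    have h2 := p2_add_self (lf ktw q (X v))
    calc lf kE q (X v) = lf kE q (X v) + (lf ktw q (X v) + lf ktw q (X v)) := by
          rw [h2, add_zero]
      _ = _ := by ring
  rw [h1]
  exact (Lt.of_IW (hw v)).add ((hlt v).mono (Nat.le_succ _))

theorem dm_split_lt {q m : ℕ} {f : RR (Option K)} (hf : Lt (wn K) (m + 1) f) :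
    ∃ r, dm kE q f = dm ktw q f + r ∧ Lt (wn K) m r := by
  cases q with
  | zero => exact ⟨0, by simp [dm], Lt.zero _⟩
  | succ q => exact ⟨_, dd_split q f, lf_lt hf⟩

/-- projection of weights from the fine ones to those of E -/
def pE (K : Type) : ℤ × ((Option K → ℕ) × ℕ) →+ ℤ × ((K → ℕ) × ℕ) where
  toFun m := (m.1, (fun c => m.2.1 (some c), m.2.2 + m.2.1 none))
  map_zero' := rfl
  map_add' a b := by
    refine Prod.ext rfl (Prod.ext rfl ?_)
    simp only [Prod.snd_add, Prod.fst_add, Pi.add_apply]
    omega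

/-- none degree of fine weights -/
def pn (K : Type) : ℤ × ((Option K → ℕ) × ℕ) →+ ℕ where
  toFun m := m.2.1 none
  map_zero' := rfl
  map_add' _ _ := rfl

theorem wE_eq : wE K = fun v => pE K (wF ktw v) := by
  funext v
  cases v with
  | x a n => rfl
  | s a n => rfl
  | y o n =>
    cases o with
    | none =>
      simp only [wE, wF, wG, pE, AddMonoidHom.coe_mk, ZeroHom.coe_mk, oE, ee_self, zero_add]
      refine Prod.ext rfl (Prod.ext ?_ rfl)
      funext c
      exact (ee_ne (by simp)).symm
    | some c =>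
      simp only [wE, wF, wG, pE, AddMonoidHom.coe_mk, ZeroHom.coe_mk, oE, zero_add]
      refine Prod.ext rfl (Prod.ext ?_ ?_)
      · funext c'
        by_cases h : c' = c
        · subst h; simp only [ee_self]
        · simp only [ee_ne h]
          exact (ee_ne (by simpa using h)).symm
      · exact (ee_ne (by simp)).symm

theorem wn_eq' : wn K = fun v => pn K (wF ktw v) := by
  funext v
  cases v with
  | x a n => rfl
  | s a n => rfl
  | y o n =>
    cases o with
    | none => exact (ee_self _).symm
    | some c => exact (ee_ne (by simp)).symm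

theorem LemT0 (t : ℤ) (ν : K → ℕ) (j : ℕ) (hj : 1 ≤ j) : Ex (ktw : K → Kd) 0 t ν j := by
  intro f hf _
  refine ⟨0, TT.zero, ?_⟩
  rw [map_zero]
  have h1 := hf.jsw
  have h2 : IW (js K) (cut K 0 f) 0 := by
    refine IW.aeval' (0 : ℕ →+ ℕ) (cut K 0) (w := js K) (w' := js K) ?_ h1
    intro v
    have : cut K 0 (X v) = co (cpt 0 (uni K)) v := ev_X _ v
    rw [this, AddMonoidHom.zero_apply]
    cases v with
    | x a n =>
      simp only [co, cpt]
      rw [if_neg (by omega), one_g, e1, if_neg (by omega)]
      exact IW.zero' _ _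
    | s a n =>
      simp only [co, cpt]
      rw [if_neg (by omega), one_s]
      exact IW.zero' _ _
    | y c n => exact isWeightedHomogeneous_X _ (js K) (Vr.y c n)
  rw [hf.cu] at h2
  exact (IW.uniq h1 h2 (by omega)).symm

theorem LemT (q : ℕ) (t : ℤ) (ν : K → ℕ) (j : ℕ) (hj : 1 ≤ j)
    (hex : ∀ i, 1 ≤ i → i ≤ j → Ex (ktw : Option K → Kd) q t (nx ν i) (j - i)) :
    Ex (ktw : K → Kd) (q + 1) t ν j := by
  intro f hf hdf
  rw [Nat.add_sub_cancel]
  have hkE : ∀ c : K, (kE : Option K → Kd) (some c) = ktw c := fun _ => rfl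
  set F := IN K f with hF
  have hFc : cut _ (q + 1) F = F := by rw [hF, ← IN_cut, hf.cu]
  have hFw : IW (wE K) F (t, (ν, j)) := IW_IN hf.iw
  have hFd : dd kE (q + 1) F = 0 := by rw [hF, ← IN_dd hkE, hdf, map_zero]
  have hafE : ∀ c : Option K, kE c = .af → oE K c = (0, 1) := by
    intro c hc
    cases c with
    | none => rfl
    | some c => exact absurd hc (by simp [kE])
  -- base
  have hbase : ∃ H, cut _ q H = H ∧ IW (wE K) H (t, (ν, j)) ∧ dd kE q H = F := by
    refine ⟨hh K q F, ?_, IW_hh rfl hFw, ?_⟩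
    · have := cut_hm hFc
      exact this
    · have h1 := prism_poly (q + 1) F hFc
      rw [hFd, map_zero, zero_add] at h1
      have h2 : LL K F = 0 := by
        have h3 : IW (fun v => (wE K v).2.2) F j := by
          have := hFw.coarse ((AddMonoidHom.snd (K → ℕ) ℕ).comp (AddMonoidHom.snd ℤ _))
          exact this
        have h4 : IW (fun v => (wE K v).2.2) (LL K F) 0 := by
          refine IW.aeval' (0 : ℕ →+ ℕ) (LL K) (w := fun v => (wE K v).2.2)
            (w' := fun v => (wE K v).2.2) ?_ h3
          intro v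
          rw [LL, ev_X, AddMonoidHom.zero_apply]
          cases v with
          | x a n => exact isWeightedHomogeneous_X _ (fun v => (wE K v).2.2) (Vr.x a n)
          | s a n => exact IW.zero' _ _
          | y o n =>
            cases o with
            | none => exact IW.zero' _ _
            | some c =>
              exact isWeightedHomogeneous_X _ (fun v => (wE K v).2.2) (Vr.y (some c) n)
        have h5 : IW (fun v => (wE K v).2.2) (LL K F) j := by
          refine IW.aeval' (AddMonoidHom.id ℕ) (LL K) (w := fun v => (wE K v).2.2)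
            (w' := fun v => (wE K v).2.2) ?_ h3
          intro v
          rw [LL, ev_X, AddMonoidHom.id_apply]
          cases v with
          | x a n => exact isWeightedHomogeneous_X _ (fun v => (wE K v).2.2) (Vr.x a n)
          | s a n => exact IW.zero' _ _
          | y o n =>
            cases o with
            | none => exact IW.zero' _ _
            | some c =>
              exact isWeightedHomogeneous_X _ (fun v => (wE K v).2.2) (Vr.y (some c) n)
        exact IW.uniq h4 h5 (by omega)
      rw [h2, zero_add] at h1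
      exact h1
  have hmain : ∀ (i : ℕ) (H : RR (Option K)), cut _ q H = H → IW (wE K) H (t, (ν, j)) →
      dd kE q H = F → Lt (wn K) (i + 1) H →
      ∃ H', cut _ q H' = H' ∧ IW (wE K) H' (t, (ν, j)) ∧ dd kE q H' = F ∧ Lt (wn K) 1 H' := by
    intro i
    induction i with
    | zero => intro H h1 h2 h3 h4; exact ⟨H, h1, h2, h3, h4⟩
    | succ i ih =>
      intro H h1 h2 h3 h4
      set Ht := cm (wn K) (i + 1) H with hHt
      have hLtop : ∀ r : RR (Option K), Lt (wn K) (i + 1) r → cm (wn K) (i + 1) r = 0 := by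
        intro r hr
        ext e
        rw [coeff_weightedHomogeneousComponent, coeff_zero]
        split_ifs with he
        · by_contra hne
          have := hr e hne
          omega
        · rfl
      have hdt : dd ktw q Ht = 0 := by
        have h5 := congrArg (cm (wn K) (i + 1)) h3
        have hFn : IW (wn K) F 0 := IW_wn_IN f
        rw [cm_ne hFn (by omega : i + 1 ≠ 0), dd_split, map_add, hLtop _ (lf_lt h4),
          add_zero] at h5
        have h6 := cm_comm (w := wn K) (w' := wn K) (fun m => m) (fun a b h => h)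
          (dd ktw q) (fun f m hf => IW_dd_wn hf) H (i + 1)
        rw [h6] at h5
        exact h5
      have hTw : IW (wE K) Ht (t, (ν, j)) := cm_other h2
      have hTn : IW (wn K) Ht (i + 1) := cm_IW _ _ _
      have hTc : cut _ q Ht = Ht := by
        have h6 := cm_comm (w := wn K) (w' := wn K) (fun m => m) (fun a b h => h)
          (cut (Option K) q).toLinearMap (fun f m hf => by
            rw [wn_eq] at hf ⊢
            exact IW_cut_c (κ := (ktw : Option K → Kd)) _ hf) H (i + 1)
        simp only [AlgHom.toLinearMap_apply] at h6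
        rw [hHt, ← h6, h1]
      have hH1 : Lt (wn K) (i + 1) (H + Ht) := by
        intro e he
        rw [coeff_add, hHt, coeff_weightedHomogeneousComponent] at he
        by_cases hc : coeff e H = 0
        · rw [hc] at he
          simp at he
        · have h7 := h4 e hc
          by_cases h8 : Finsupp.weight (wn K) e = i + 1
          · rw [if_pos h8] at he
            exfalso
            apply he
            have := p2_add_self H
            have h9 := congrArg (coeff e) this
            rwa [coeff_add, coeff_zero] at h9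
          · omega
      by_cases hz : Ht = 0
      · rw [hz, add_zero] at hH1
        exact ih H h1 h2 h3 hH1
      · -- weights of the top part
        have hfine : i + 1 ≤ j ∧ IW (wF (ktw : Option K → Kd)) Ht
            (t, (nx ν (i + 1), j - (i + 1))) := by
          have hmon : ∀ e, coeff e Ht ≠ 0 → i + 1 ≤ j ∧
              Finsupp.weight (wF (ktw : Option K → Kd)) e
                = (t, (nx ν (i + 1), j - (i + 1))) := by
            intro e he
            have a1 := hTw he
            have a2 := hTn he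
            rw [wE_eq, wmap] at a1
            rw [wn_eq', wmap] at a2
            have b1 := congrArg Prod.fst a1
            have b2 := congrArg (fun m => m.2.1) a1
            have b3 := congrArg (fun m => m.2.2) a1
            simp only [pE, AddMonoidHom.coe_mk, ZeroHom.coe_mk] at b1 b2 b3
            simp only [pn, AddMonoidHom.coe_mk, ZeroHom.coe_mk] at a2
            refine ⟨by omega, Prod.ext b1 (Prod.ext ?_ ?_)⟩
            · funext o
              cases o with
              | none => exact a2
              | some c => exact congrFun b2 c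
            · simp only
              omega
          obtain ⟨e, he⟩ := ne_zero_iff.mp hz
          exact ⟨(hmon e he).1, fun e he => (hmon e he).2⟩
        obtain ⟨hij, hfw⟩ := hfine
        obtain ⟨e, he1, he2⟩ := hex (i + 1) (by omega) hij Ht ⟨hTc, hfw⟩ hdt
        have heE : IW (wE K) e (t, (ν, j)) := by
          have := he1.iw.coarse (pE K)
          rw [← wE_eq] at this
          have h9 : pE K (t, (nx ν (i + 1), j - (i + 1))) = (t, (ν, j)) := by
            refine Prod.ext rfl (Prod.ext rfl ?_)
            simp only [pE, AddMonoidHom.coe_mk, ZeroHom.coe_mk, nx]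
            omega
          rwa [h9] at this
        have hen : IW (wn K) e (i + 1) := by
          have := he1.iw.coarse (pn K)
          rw [← wn_eq'] at this
          exact this
        obtain ⟨r, hr1, hr2⟩ := dm_split_lt (q := q) (Lt.of_IW hen)
        have hH2 : H + dm kE q e = H + Ht + r := by
          rw [hr1, he2, add_assoc]
        apply ih (H + dm kE q e)
        · rw [map_add, h1, cut_dm _ he1.cu]
        · exact h2.add (IW_dm hafE heE)
        · rw [map_add, h3, dd_dm _ he1.cu, add_zero]
        · rw [hH2]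
          exact hH1.add hr2
  obtain ⟨H0, hc0, hw0, hd0⟩ := hbase
  obtain ⟨i, hi⟩ : ∃ i, Lt (wn K) (i + 1) H0 := by
    classical
    refine ⟨H0.support.sup (Finsupp.weight (wn K)), fun e he => ?_⟩
    exact Nat.lt_succ_of_le (Finset.le_sup (f := fun e => Finsupp.weight (wn K) e)
      (mem_support_iff.mpr he))
  obtain ⟨H, hc, hw, hd, hl⟩ := hmain i H0 hc0 hw0 hd0 hi
  have hn : IW (wn K) H 0 := by
    intro e he
    have := hl e he
    omega
  refine ⟨RE K H, ⟨by rw [← RE_cut, hc], IW_RE hw⟩, ?_⟩
  change dd ktw q (RE K H) = f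
  have h1 : IN K (dd ktw q (RE K H)) = IN K f := by
    rw [IN_dd hkE, IN_RE hn, hd]
  have h2 := congrArg (RE K) h1
  rwa [RE_IN, RE_IN] at h2

end lemT

end Pool.Agent.W624.Stz
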