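import Mathlib

set_option autoImplicit false
set_option linter.unusedSectionVars false

namespace Pool.Agent.W624.Stz

open Finset

section sums

variable {B : Type*} [AddCommGroup B]

theorem sum_pair (hB : ∀ b : B, b + b = 0) (n : ℕ) (a : ℕ → ℕ → B)
    (h : ∀ i j, i ≤ j → j ≤ n → a i j = a (j + 1) i) :
    ∑ i ∈ range (n + 2), ∑ j ∈ range (n + 1), a i j = 0 := by
  induction n with
  | zero =>
    simp only [zero_add, sum_range_succ, sum_range_zero]
    rw [h 0 0 le_rfl le_rfl]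
    exact hB _
  | succ n ih =>
    have ih' := ih (fun i j hij hj => h i j hij (by omega))
    rw [sum_range_succ]
    have : ∑ i ∈ range (n + 2), ∑ j ∈ range (n + 2), a i j
        = ∑ i ∈ range (n + 2), ∑ j ∈ range (n + 1), a i j + ∑ i ∈ range (n + 2), a i (n + 1) := by
      rw [← sum_add_distrib]
      exact sum_congr rfl fun i _ => sum_range_succ _ _
    rw [this, ih', zero_add, ← sum_add_distrib]
    apply sum_eq_zero
    intro i hi
    rw [mem_range] at hi
    rw [h i (n + 1) (by omega) le_rfl]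
    exact hB _

theorem prism_sum (hB : ∀ b : B, b + b = 0) (q : ℕ) (a b : ℕ → ℕ → B)
    (h1 : ∀ i j, j < i → i ≤ q + 1 → a i j = b (i - 1) j)
    (h2 : ∀ i j, i + 2 ≤ j → j ≤ q + 2 → a i j = b i (j - 1))
    (h3 : ∀ i, i ≤ q → a (i + 1) (i + 1) = a i (i + 1)) :
    ∑ i ∈ range (q + 2), ∑ j ∈ range (q + 3), a i j
      + ∑ i ∈ range (q + 1), ∑ j ∈ range (q + 2), b i j = a 0 0 + a (q + 1) (q + 2) := by
  have e1 : ∀ i ∈ range (q + 2), ∑ j ∈ range (q + 3), a i j
      = (∑ j ∈ range i, b (i - 1) j + ∑ j ∈ Ico (i + 1) (q + 2), b i j)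
        + (a i i + a i (i + 1)) := by
    intro i hi
    rw [mem_range] at hi
    rw [range_eq_Ico, range_eq_Ico, ← sum_Ico_consecutive _ (Nat.zero_le i) (show i ≤ q + 3 by omega),
      sum_eq_sum_Ico_succ_bot (show i < q + 3 by omega),
      sum_eq_sum_Ico_succ_bot (show i + 1 < q + 3 by omega)]
    have t1 : ∑ j ∈ Ico 0 i, a i j = ∑ j ∈ Ico 0 i, b (i - 1) j := by
      apply sum_congr rfl
      intro j hj
      rw [mem_Ico] at hj
      exact h1 i j hj.2 (by omega)
    have t2 : ∑ j ∈ Ico (i + 1 + 1) (q + 3), a i j = ∑ j ∈ Ico (i + 1) (q + 2), b i j := by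
      rw [show q + 3 = (q + 2) + 1 from rfl, ← sum_Ico_add' (fun j => a i j) (i + 1) (q + 2) 1]
      apply sum_congr rfl
      intro j hj
      rw [mem_Ico] at hj
      exact h2 i (j + 1) (by omega) (by omega)
    rw [t1, t2]
    generalize ∑ j ∈ Ico 0 i, b (i - 1) j = x1
    generalize ∑ j ∈ Ico (i + 1) (q + 2), b i j = x2
    abel
  rw [sum_congr rfl e1, sum_add_distrib, sum_add_distrib]
  have e2 : ∑ i ∈ range (q + 2), ∑ j ∈ range i, b (i - 1) j
      = ∑ i ∈ range (q + 1), ∑ j ∈ range (i + 1), b i j := by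
    rw [sum_range_succ']
    simp
  have e3 : ∑ i ∈ range (q + 2), ∑ j ∈ Ico (i + 1) (q + 2), b i j
      = ∑ i ∈ range (q + 1), ∑ j ∈ Ico (i + 1) (q + 2), b i j := by
    rw [sum_range_succ]
    simp
  have e4 : ∑ i ∈ range (q + 1), ∑ j ∈ range (i + 1), b i j
      + ∑ i ∈ range (q + 1), ∑ j ∈ Ico (i + 1) (q + 2), b i j
      = ∑ i ∈ range (q + 1), ∑ j ∈ range (q + 2), b i j := by
    rw [← sum_add_distrib]
    apply sum_congr rfl
    intro i hi
    rw [mem_range] at hi
    rw [range_eq_Ico, sum_Ico_consecutive _ (by omega) (by omega)]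
    rw [range_eq_Ico]
  have e5 : ∑ i ∈ range (q + 2), (a i i + a i (i + 1)) = a 0 0 + a (q + 1) (q + 2) := by
    rw [sum_add_distrib, sum_range_succ', sum_range_succ (fun i => a i (i + 1))]
    have : ∑ i ∈ range (q + 1), a (i + 1) (i + 1) = ∑ i ∈ range (q + 1), a i (i + 1) := by
      apply sum_congr rfl
      intro i hi
      rw [mem_range] at hi
      exact h3 i (by omega)
    rw [this]
    have hh := hB (∑ i ∈ range (q + 1), a i (i + 1))
    rw [show ∀ x y z : B, x + y + (x + z) = (x + x) + (y + z) by intro x y z; abel, hh, zero_add]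
  rw [e2, e3, e4, e5]
  have hh := hB (∑ i ∈ range (q + 1), ∑ j ∈ range (q + 2), b i j)
  rw [show ∀ x y : B, x + y + x = (x + x) + y by intro x y; abel, hh, zero_add]

end sums

section faces

variable {M Y : Type*} [Monoid M]

/-- merge slots i and i+1 -/
def mrg (i : ℕ) (γ : ℕ → M) : ℕ → M :=
  fun a => if a < i then γ a else if a = i then γ i * γ (i + 1) else γ (a + 1)

/-- faces -/
def fc (ac : M → Y → Y) (q j : ℕ) (z : (ℕ → M) × Y) : (ℕ → M) × Y :=
  if j = 0 then (fun a => z.1 (a + 1), z.2)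
  else if j ≤ q then (mrg (j - 1) z.1, z.2) else (z.1, ac (z.1 q) z.2)

/-- agreement on the first q slots -/
def Agr (q : ℕ) (z z' : (ℕ → M) × Y) : Prop := (∀ a < q, z.1 a = z'.1 a) ∧ z.2 = z'.2

theorem mrg_lt {i a : ℕ} (h : a < i) (γ : ℕ → M) : mrg i γ a = γ a := by
  simp [mrg, h]

theorem mrg_eq (i : ℕ) (γ : ℕ → M) : mrg i γ i = γ i * γ (i + 1) := by
  simp [mrg]

theorem mrg_gt {i a : ℕ} (h : i < a) (γ : ℕ → M) : mrg i γ a = γ (a + 1) := by
  rw [mrg, if_neg (by omega), if_neg (by omega)]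

theorem fc_zero (ac : M → Y → Y) (q : ℕ) (z : (ℕ → M) × Y) :
    fc ac q 0 z = (fun a => z.1 (a + 1), z.2) := by simp [fc]

theorem fc_mid (ac : M → Y → Y) {q j : ℕ} (h : j < q) (z : (ℕ → M) × Y) :
    fc ac q (j + 1) z = (mrg j z.1, z.2) := by
  rw [fc, if_neg (by omega), if_pos (by omega)]; rfl

theorem fc_last (ac : M → Y → Y) {q j : ℕ} (h : q < j) (z : (ℕ → M) × Y) :
    fc ac q j z = (z.1, ac (z.1 q) z.2) := by
  rw [fc, if_neg (by omega), if_neg (by omega)]

theorem mrg_mrg {i j : ℕ} (h : i ≤ j) (γ : ℕ → M) :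
    mrg j (mrg i γ) = mrg i (mrg (j + 1) γ) := by
  funext a
  rcases lt_trichotomy a i with h1 | h1 | h1
  · rw [mrg_lt (by omega), mrg_lt h1, mrg_lt h1, mrg_lt (by omega)]
  · subst h1
    rcases Nat.eq_or_lt_of_le h with h2 | h2
    · subst h2
      rw [mrg_eq, mrg_eq, mrg_eq, mrg_gt (by omega), mrg_lt (by omega), mrg_eq, mul_assoc]
    · rw [mrg_lt h2, mrg_eq, mrg_eq, mrg_lt (by omega), mrg_lt (by omega)]
  · rw [mrg_gt h1 (mrg (j + 1) γ)]
    rcases lt_trichotomy a j with h2 | h2 | h2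
    · rw [mrg_lt h2, mrg_gt h1, mrg_lt (by omega)]
    · subst h2
      rw [mrg_eq, mrg_eq, mrg_gt h1, mrg_gt (by omega)]
    · rw [mrg_gt h2, mrg_gt (by omega), mrg_gt (by omega)]

theorem fc_fc {ac : M → Y → Y} (hac : ∀ a b y, ac (a * b) y = ac a (ac b y)) (q i j : ℕ)
    (hij : i ≤ j) (hj : j ≤ q + 1) (z : (ℕ → M) × Y) :
    Agr q (fc ac q j (fc ac (q + 1) i z)) (fc ac q i (fc ac (q + 1) (j + 1) z)) := by
  rcases Nat.eq_zero_or_pos i with rfl | hi
  · rw [fc_zero, fc_zero]
    rcases Nat.eq_zero_or_pos j with rfl | hj0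
    · rw [fc_zero, fc_mid _ (by omega)]
      refine ⟨fun a _ => ?_, rfl⟩
      simp only
      rw [mrg_gt (by omega)]
    · obtain ⟨k, rfl⟩ : ∃ k, j = k + 1 := ⟨j - 1, by omega⟩
      rcases Nat.lt_or_ge k q with hk | hk
      · rw [fc_mid _ hk, fc_mid _ (by omega)]
        refine ⟨fun a _ => ?_, rfl⟩
        simp only
        rcases lt_trichotomy a k with h1 | h1 | h1
        · rw [mrg_lt h1, mrg_lt (by omega)]
        · subst h1; rw [mrg_eq, mrg_eq]
        · rw [mrg_gt h1, mrg_gt (by omega)]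
      · have : k = q := by omega
        subst this
        rw [fc_last _ (by omega), fc_last _ (by omega)]
        exact ⟨fun a _ => rfl, rfl⟩
  · obtain ⟨i, rfl⟩ : ∃ k, i = k + 1 := ⟨i - 1, by omega⟩
    obtain ⟨j, rfl⟩ : ∃ k, j = k + 1 := ⟨j - 1, by omega⟩
    rcases Nat.lt_or_ge j q with hk | hk
    · rw [fc_mid _ hk, fc_mid _ (by omega), fc_mid _ (by omega), fc_mid _ (by omega)]
      refine ⟨fun a _ => ?_, rfl⟩
      simp only
      rw [mrg_mrg (by omega)]
    · have : j = q := by omega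
      subst this
      rw [fc_last _ (by omega), fc_mid _ (by omega), fc_last ac (show j + 1 < j + 1 + 1 by omega)]
      rcases Nat.lt_or_ge i j with hi | hi
      · rw [fc_mid _ hi]
        refine ⟨fun a _ => rfl, ?_⟩
        simp only
        rw [mrg_gt hi]
      · have : i = j := by omega
        subst this
        rw [fc_last _ (by omega)]
        refine ⟨fun a ha => ?_, ?_⟩
        · simp only
          rw [mrg_lt ha]
        · simp only
          rw [mrg_eq, hac]

/-- iterated action -/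
def run (ac : M → Y → Y) (γ : ℕ → M) : ℕ → ℕ → Y → Y
  | _, 0, y => y
  | i, k + 1, y => ac (γ i) (run ac γ (i + 1) k y)

theorem run_succ' (ac : M → Y → Y) (γ : ℕ → M) (k : ℕ) : ∀ (i : ℕ) (y : Y),
    run ac γ i (k + 1) y = run ac γ i k (ac (γ (i + k)) y) := by
  induction k with
  | zero => intro i y; simp [run]
  | succ k ih =>
    intro i y
    rw [run, ih (i + 1) y, show i + 1 + k = i + (k + 1) by omega]
    rfl

theorem run_congr (ac : M → Y → Y) (γ γ' : ℕ → M) (k : ℕ) : ∀ (i i' : ℕ) (y : Y)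
    (_ : ∀ a < k, γ (i + a) = γ' (i' + a)), run ac γ i k y = run ac γ' i' k y := by
  induction k with
  | zero => intro i i' y _; rfl
  | succ k ih =>
    intro i i' y h
    rw [run, run]
    have h0 := h 0 (by omega)
    simp only [add_zero] at h0
    rw [h0, ih (i + 1) (i' + 1) y]
    intro a ha
    have := h (a + 1) (by omega)
    rwa [show i + 1 + a = i + (a + 1) by omega, show i' + 1 + a = i' + (a + 1) by omega]

theorem run_mrg {ac : M → Y → Y} (hac : ∀ a b y, ac (a * b) y = ac a (ac b y)) (γ : ℕ → M)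
    (m k : ℕ) : ∀ (i : ℕ) (y : Y) (_ : i ≤ m) (_ : m < i + k),
    run ac (mrg m γ) i k y = run ac γ i (k + 1) y := by
  induction k with
  | zero => intro i y h1 h2; omega
  | succ k ih =>
    intro i y h1 h2
    rcases Nat.eq_or_lt_of_le h1 with h3 | h3
    · subst h3
      rw [run, run, run, mrg_eq, hac]
      rw [run_congr ac (mrg i γ) γ k (i + 1) (i + 1 + 1) y]
      intro a ha
      rw [mrg_gt (by omega)]
      congr 1
      omega
    · rw [run, ih (i + 1) y h3 (by omega), mrg_lt h3]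
      rfl

variable (ac : M → Y → Y) (ln : M → M) (bs : Y → Y) (tr : Y → M)

/-- prism maps -/
def prm (q i : ℕ) (z : (ℕ → M) × Y) : (ℕ → M) × Y :=
  (fun a => if a < i then z.1 a else if a = i then tr (run ac z.1 i (q - i) z.2)
    else ln (z.1 (a - 1)), bs z.2)

variable {ac ln bs tr}

theorem prm_lt {q i a : ℕ} (h : a < i) (z : (ℕ → M) × Y) :
    (prm ac ln bs tr q i z).1 a = z.1 a := by simp [prm, h]

theorem prm_eq (q i : ℕ) (z : (ℕ → M) × Y) :
    (prm ac ln bs tr q i z).1 i = tr (run ac z.1 i (q - i) z.2) := by simp [prm]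

theorem prm_gt {q i a : ℕ} (h : i < a) (z : (ℕ → M) × Y) :
    (prm ac ln bs tr q i z).1 a = ln (z.1 (a - 1)) := by
  simp only [prm]
  rw [if_neg (by omega), if_neg (by omega)]

theorem prm_snd (q i : ℕ) (z : (ℕ → M) × Y) : (prm ac ln bs tr q i z).2 = bs z.2 := rfl

theorem prm_a (q i j : ℕ) (hji : j < i)
    (hi : i ≤ q + 1) (z : (ℕ → M) × Y) :
    Agr (q + 1) (fc ac (q + 1) j (prm ac ln bs tr (q + 1) i z))
      (prm ac ln bs tr q (i - 1) (fc ac q j z)) := by
  obtain ⟨i, rfl⟩ : ∃ k, i = k + 1 := ⟨i - 1, by omega⟩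
  rw [show i + 1 - 1 = i from rfl]
  rcases Nat.eq_zero_or_pos j with rfl | hj
  · rw [fc_zero, fc_zero]
    refine ⟨fun a _ => ?_, rfl⟩
    simp only
    rcases lt_trichotomy a i with h1 | h1 | h1
    · rw [prm_lt h1, prm_lt (by omega)]
    · subst h1
      rw [prm_eq, prm_eq, show q + 1 - (a + 1) = q - a by omega]
      simp only
      rw [run_congr ac z.1 (fun a => z.1 (a + 1)) (q - a) (a + 1) a z.2]
      intro b _
      rw [show a + 1 + b = a + b + 1 by omega]
    · rw [prm_gt h1, prm_gt (by omega)]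
      simp only
      rw [show a + 1 - 1 = a - 1 + 1 by omega]
  · obtain ⟨j, rfl⟩ : ∃ k, j = k + 1 := ⟨j - 1, by omega⟩
    rw [fc_mid _ (by omega), fc_mid _ (by omega)]
    refine ⟨fun a _ => ?_, rfl⟩
    simp only
    rcases lt_trichotomy a j with h1 | h1 | h1
    · rw [mrg_lt h1, prm_lt (by omega), prm_lt (by omega)]
      simp only
      rw [mrg_lt h1]
    · subst h1
      rw [mrg_eq, prm_lt (by omega), prm_lt (by omega), prm_lt (by omega)]
      simp only
      rw [mrg_eq]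
    · rw [mrg_gt h1]
      rcases lt_trichotomy a i with h2 | h2 | h2
      · rw [prm_lt (by omega), prm_lt h2]
        simp only
        rw [mrg_gt h1]
      · subst h2
        rw [prm_eq, prm_eq, show q + 1 - (a + 1) = q - a by omega]
        simp only
        rw [run_congr ac z.1 (mrg j z.1) (q - a) (a + 1) a z.2]
        intro b _
        rw [mrg_gt (show j < a + b by omega), show a + 1 + b = a + b + 1 by omega]
      · rw [prm_gt (by omega), prm_gt h2]
        simp only
        rw [mrg_gt (show j < a - 1 by omega), show a + 1 - 1 = a - 1 + 1 by omega]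

theorem prm_b (q i j : ℕ) (hij : i + 2 ≤ j) (hj : j ≤ q + 2)
    (z : (ℕ → M) × Y)
    (hac : ∀ a b y, ac (a * b) y = ac a (ac b y))
    (hln : ∀ a b, ln (a * b) = ln a * ln b)
    (hbs : ∀ g y, bs (ac g y) = ac (ln g) (bs y)) :
    Agr (q + 1) (fc ac (q + 1) j (prm ac ln bs tr (q + 1) i z))
      (prm ac ln bs tr q i (fc ac q (j - 1) z)) := by
  obtain ⟨j, rfl⟩ : ∃ k, j = k + 2 := ⟨j - 2, by omega⟩
  rw [show j + 2 - 1 = j + 1 from rfl]
  rcases Nat.lt_or_ge j q with h | h
  · rw [fc_mid _ h, show j + 2 = (j + 1) + 1 from rfl, fc_mid _ (by omega)]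
    refine ⟨fun a _ => ?_, rfl⟩
    simp only
    rcases lt_trichotomy a i with h1 | h1 | h1
    · rw [mrg_lt (by omega), prm_lt h1, prm_lt h1]
      simp only
      rw [mrg_lt (by omega)]
    · subst h1
      rw [mrg_lt (by omega), prm_eq, prm_eq]
      simp only
      rw [run_mrg hac z.1 j (q - a) a z.2 (by omega) (by omega),
        show q + 1 - a = q - a + 1 by omega]
    · rcases lt_trichotomy a (j + 1) with h2 | h2 | h2
      · rw [mrg_lt h2, prm_gt h1, prm_gt h1]
        simp only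
        rw [mrg_lt (by omega)]
      · subst h2
        rw [mrg_eq, prm_gt (by omega), prm_gt (by omega), prm_gt (by omega)]
        simp only [Nat.add_sub_cancel]
        rw [mrg_eq, hln]
      · rw [mrg_gt h2, prm_gt (by omega), prm_gt (by omega)]
        simp only
        rw [mrg_gt (show j < a - 1 by omega), show a + 1 - 1 = a - 1 + 1 by omega]
  · have : j = q := by omega
    subst this
    rw [fc_last _ (by omega), fc_last _ (by omega)]
    refine ⟨fun a _ => ?_, ?_⟩
    · simp only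
      rcases lt_trichotomy a i with h1 | h1 | h1
      · rw [prm_lt h1, prm_lt h1]
      · subst h1
        rw [prm_eq, prm_eq]
        simp only
        rw [show j + 1 - a = j - a + 1 by omega, run_succ', show a + (j - a) = j by omega]
      · rw [prm_gt h1, prm_gt h1]
    · simp only
      rw [prm_gt (by omega), prm_snd, prm_snd, Nat.add_sub_cancel]
      simp only
      rw [hbs]

theorem prm_c (q i : ℕ) (hi : i ≤ q) (z : (ℕ → M) × Y)
    (htl : ∀ g y, tr (ac g y) * ln g = g * tr y) :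
    Agr (q + 1) (fc ac (q + 1) (i + 1) (prm ac ln bs tr (q + 1) (i + 1) z))
      (fc ac (q + 1) (i + 1) (prm ac ln bs tr (q + 1) i z)) := by
  rw [fc_mid _ (by omega), fc_mid _ (by omega)]
  refine ⟨fun a _ => ?_, rfl⟩
  simp only
  rcases lt_trichotomy a i with h1 | h1 | h1
  · rw [mrg_lt h1, mrg_lt h1, prm_lt h1, prm_lt (by omega)]
  · subst h1
    rw [mrg_eq, mrg_eq, prm_lt (by omega), prm_eq, prm_eq, prm_gt (by omega),
      Nat.add_sub_cancel, show q + 1 - (a + 1) = q - a by omega,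
      show q + 1 - a = q - a + 1 by omega]
    rw [run, htl]
  · rw [mrg_gt h1, mrg_gt h1, prm_gt (by omega), prm_gt (by omega)]

theorem prm_d (q : ℕ) (z : (ℕ → M) × Y) :
    fc ac (q + 1) 0 (prm ac ln bs tr (q + 1) 0 z) = (fun a => ln (z.1 a), bs z.2) := by
  rw [fc_zero]
  refine Prod.ext ?_ rfl
  funext a
  simp only
  rw [prm_gt (by omega)]
  rfl

theorem prm_e (q : ℕ) (z : (ℕ → M) × Y) (htb : ∀ y, ac (tr y) (bs y) = y) :
    Agr (q + 1) (fc ac (q + 1) (q + 2) (prm ac ln bs tr (q + 1) (q + 1) z)) z := by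
  rw [fc_last ac (show q + 1 < q + 2 by omega)]
  refine ⟨fun a ha => prm_lt (bs := bs) (ac := ac) (ln := ln) (tr := tr) ha z, ?_⟩
  simp only
  rw [prm_eq, prm_snd, Nat.sub_self, run, htb]

end faces

section cochains

variable {M Y B : Type*} [Monoid M] [AddCommGroup B]

/-- differential on functions -/
def dF (ac : M → Y → Y) (q : ℕ) (φ : (ℕ → M) × Y → B) (z : (ℕ → M) × Y) : B :=
  ∑ j ∈ range (q + 2), φ (fc ac q j z)

/-- homotopy on functions -/
def hF (ac : M → Y → Y) (ln : M → M) (bs : Y → Y) (tr : Y → M) (q : ℕ)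
    (φ : (ℕ → M) × Y → B) (z : (ℕ → M) × Y) : B :=
  ∑ i ∈ range (q + 1), φ (prm ac ln bs tr q i z)

/-- dependence on the first q slots only -/
def Dep (q : ℕ) (φ : (ℕ → M) × Y → B) : Prop := ∀ z z', Agr q z z' → φ z = φ z'

theorem dF_dF (hB : ∀ b : B, b + b = 0) {ac : M → Y → Y}
    (hac : ∀ a b y, ac (a * b) y = ac a (ac b y)) (q : ℕ) (φ : (ℕ → M) × Y → B)
    (hφ : Dep q φ) (z : (ℕ → M) × Y) : dF ac (q + 1) (dF ac q φ) z = 0 := by
  simp only [dF]
  exact sum_pair hB (q + 1) (fun i j => φ (fc ac q j (fc ac (q + 1) i z)))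
    (fun i j hij hj => hφ _ _ (fc_fc hac q i j hij hj z))

variable {ac : M → Y → Y} {ln : M → M} {bs : Y → Y} {tr : Y → M}

theorem prism (hB : ∀ b : B, b + b = 0)
    (hac : ∀ a b y, ac (a * b) y = ac a (ac b y))
    (hln : ∀ a b, ln (a * b) = ln a * ln b)
    (hbs : ∀ g y, bs (ac g y) = ac (ln g) (bs y))
    (htl : ∀ g y, tr (ac g y) * ln g = g * tr y)
    (htb : ∀ y, ac (tr y) (bs y) = y)
    (q : ℕ) (φ : (ℕ → M) × Y → B) (hφ : Dep (q + 1) φ) (z : (ℕ → M) × Y) :
    hF ac ln bs tr (q + 1) (dF ac (q + 1) φ) z + dF ac q (hF ac ln bs tr q φ) z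
      = φ (fun a => ln (z.1 a), bs z.2) + φ z := by
  simp only [hF, dF]
  rw [sum_comm (s := range (q + 2)) (t := range (q + 1))]
  rw [prism_sum hB q (fun i j => φ (fc ac (q + 1) j (prm ac ln bs tr (q + 1) i z)))
    (fun i j => φ (prm ac ln bs tr q i (fc ac q j z)))]
  · rw [prm_d, hφ _ _ (prm_e q z htb)]
  · intro i j hji hi
    exact hφ _ _ (prm_a q i j hji hi z)
  · intro i j hij hj
    exact hφ _ _ (prm_b q i j hij hj z hac hln hbs)
  · intro i hi
    exact hφ _ _ (prm_c q i hi z htl)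

theorem prism_zero (htb : ∀ y, ac (tr y) (bs y) = y)
    (φ : (ℕ → M) × Y → B) (hφ : Dep 0 φ) (z : (ℕ → M) × Y) :
    hF ac ln bs tr 0 (dF ac 0 φ) z = φ (fun a => ln (z.1 a), bs z.2) + φ z := by
  simp only [hF, dF, zero_add, sum_range_succ, sum_range_zero]
  congr 1
  apply hφ
  refine ⟨fun a ha => by omega, ?_⟩
  rw [fc_last ac (show 0 < 1 by omega)]
  simp only
  rw [prm_eq, prm_snd, Nat.sub_self, run, htb]

end cochains

end Pool.Agent.W624.Stz
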