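import Pool.Agent.W624.StzF

set_option autoImplicit false
set_option linter.unusedSectionVars false

namespace Pool.Agent.W624.Stz

open Finset MvPolynomial

section inj

variable {K : Type} [Fintype K]

/-- eventual injectivity of Frobenius in homogeneous form, general coefficients -/
theorem inj_stepG {s r n : ℕ} {w : ℤ}
    (hQ : ∀ k : ℕ, k ≤ s → QT r (s - k) n (1 + k) (w + 1 + k))
    {t : ℤ} {ν : K → ℕ} (hν : ∑ c, ν c = n) (ht : (2 : ℤ) ^ r ∣ 2 * t - w) {z y : RR K}
    (hz : TT kun (s + 1) t ν 0 z) (hy : TT ktw s (2 * t) ν 0 y)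
    (hdy : dd ktw s y = PHI _ z) : ∃ z', TT kun s t ν 0 z' ∧ dd kun s z' = z := by
  obtain ⟨g, h, hg, hDg, hdg, _, _⟩ := liftT hy (by rw [hdy, DX_PHI])
    (fun k hk => hQ k hk K ν hν (2 * t + 1 + k) (by
      rw [show 2 * t + 1 + (k : ℤ) - (w + 1 + k) = 2 * t - w by ring]
      exact ht))
  rcases PHI_root hg hDg with h0 | ⟨t', ht', z', hz', hzg⟩
  · refine ⟨0, TT.zero, ?_⟩
    rw [map_zero]
    symm
    apply PHI_inj
    rw [← hdy, ← hdg, h0, map_zero]
  · have : t' = t := by linarith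
    subst this
    refine ⟨z', hz', ?_⟩
    have h1 : PHI _ (dd kun s z' + z) = 0 := by
      rw [map_add, PHI_dd, hzg, hdg, hdy, p2_add_self]
    exact p2_eq_of_add (PHI_inj h1)

end inj

section h0

/-- inclusion of weights -/
def jI : ℤ × ((Empty → ℕ) × ℕ) →+ ℤ × ((Option Empty → ℕ) × ℕ) where
  toFun m := (m.1, (0, m.2.2))
  map_zero' := rfl
  map_add' a b := by
    refine Prod.ext rfl (Prod.ext ?_ rfl)
    simp

/-- projection of weights -/
def jR : ℤ × ((Option Empty → ℕ) × ℕ) →+ ℤ × ((Empty → ℕ) × ℕ) where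
  toFun m := (m.1, (fun c => m.2.1 (some c), m.2.2))
  map_zero' := rfl
  map_add' _ _ := rfl

theorem IW_jI {f : RR Empty} {m : ℤ × ((Empty → ℕ) × ℕ)} (hf : IW (wF kun) f m) :
    IW (wF kun) (IN Empty f) (jI m) := by
  refine IW.aeval' jI (IN Empty) (w := wF kun) (w' := wF kun) ?_ hf
  intro v
  cases v with
  | x a n => rw [IN_x]; exact isWeightedHomogeneous_X _ _ _
  | s a n => rw [IN_s]; exact isWeightedHomogeneous_X _ _ _
  | y c n => exact c.elim

theorem IW_jR {f : RR (Option Empty)} {m : ℤ × ((Option Empty → ℕ) × ℕ)}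
    (hf : IW (wF kun) f m) : IW (wF kun) (RE Empty f) (jR m) := by
  refine IW.aeval' jR (RE Empty) (w := wF kun) (w' := wF kun) ?_ hf
  intro v
  cases v with
  | x a n => rw [RE_x]; exact isWeightedHomogeneous_X _ _ _
  | s a n => rw [RE_s]; exact isWeightedHomogeneous_X _ _ _
  | y o n =>
    rw [RE_y]
    cases o with
    | none => exact IW.zero' _ _
    | some c => exact c.elim

theorem TT_jI {q : ℕ} {t : ℤ} {ν : Empty → ℕ} {f : RR Empty} (hf : TT kun q t ν 0 f) :
    TT kun q t (0 : Option Empty → ℕ) 0 (IN Empty f) :=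
  ⟨by rw [← IN_cut, hf.cu], IW_jI hf.iw⟩

theorem TT_jR {q : ℕ} {t : ℤ} {ν : Empty → ℕ} {ν' : Option Empty → ℕ} {f : RR (Option Empty)}
    (hf : TT kun q t ν' 0 f) : TT kun q t ν 0 (RE Empty f) := by
  refine ⟨by rw [← RE_cut, hf.cu], ?_⟩
  have h := IW_jR hf.iw
  have h2 : jR (t, (ν', 0)) = (t, (ν, 0)) := by
    refine Prod.ext rfl (Prod.ext ?_ rfl)
    funext c
    exact c.elim
  rwa [h2] at h

theorem Rel_O : Rel (sg none) (kun : Option Empty → Kd) ktw := by
  intro c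
  cases c with
  | none => exact Or.inl ⟨sg_self _, rfl, rfl⟩
  | some c => exact c.elim

theorem PI_y0 : PI (sg none) (X (.y none 0) : RR (Option Empty)) = 0 := by
  rw [PI_y]
  simp only [hS]
  rw [if_pos (sg_self _)]
  rfl

theorem ptU_val {p : ℕ} (z0 : RR Empty) :
    ev (ptU Empty p) (PHI _ (X (.y none 0) * IN Empty z0)) = X (.x p 0) * z0 ^ 2 := by
  rw [map_mul, map_mul, PHI_y, ev_X]
  congr 1
  have := sq_of_hom ((ev (ptU Empty p)).comp ((PHI (Option Empty)).comp (IN Empty))) (by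
    intro v
    rw [AlgHom.comp_apply, AlgHom.comp_apply]
    cases v with
    | x a n => rw [IN_x, PHI_x, map_pow, ev_X]; rfl
    | s a n => rw [IN_s, PHI_s, map_pow, ev_X]; rfl
    | y c n => exact c.elim) z0
  exact this

/-- multiplication by `h₀` is injective on classes of highly divisible degree -/
theorem h0_inj {p r : ℕ} (hQ1 : ∀ k : ℕ, k ≤ p → QT r (p - k) 1 (1 + k) (2 + 1 + k))
    (hQ2 : QT r p 1 0 1) {t0 : ℤ} {ν : Empty → ℕ} (ht : (2 : ℤ) ^ r ∣ t0)
    {z0 q : RR Empty} (hz : TT kun (p + 1) t0 ν 0 z0)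
    (hq : TT kun (p + 1) (2 * t0 + 1) ν 0 q)
    (hdq : dd kun (p + 1) q = X (.x (p + 1) 0) * z0 ^ 2) :
    ∃ z', TT kun p t0 ν 0 z' ∧ dd kun p z' = z0 := by
  set z : RR (Option Empty) := X (.y none 0) * IN Empty z0 with hzdef
  have hTz : TT kun (p + 1) (t0 + 1) (ee none) 0 z := by
    apply TT.mulY (κ := kun) (c := none) rfl (le_of_eq (ee_self _).symm)
    rw [show t0 + 1 - 1 = t0 by ring, show (ee none - ee none : Option Empty → ℕ) = 0 by
      funext c; simp]
    exact TT_jI hz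
  have hν1 : (ee none : Option Empty → ℕ) none = 1 := ee_self _
  have hsum : ∑ c, (ee none : Option Empty → ℕ) c = 1 := sum_ee none
  have hq1 : TT (ktw : Empty → Kd) (p + 1) (2 * (t0 + 1) - 1)
      (fun c => (ee none : Option Empty → ℕ) (some c)) 0 q := by
    rw [show 2 * (t0 + 1) - 1 = 2 * t0 + 1 by ring, kk]
    have : (fun c => (ee none : Option Empty → ℕ) (some c)) = ν := by
      funext c; exact c.elim
    rw [this]
    exact hq
  obtain ⟨h', hh', hdh'⟩ := C1core (K := Empty) (p := p + 1) (t := 2 * (t0 + 1)) (t' := t0 + 1)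
    (q' := 0) hν1 rfl hTz rfl hq1 (by rw [kk, hdq, hzdef, ptU_val])
  obtain ⟨z', hz', hdz'⟩ := inj_stepG (K := Option Empty) (w := 2) hQ1 hsum (t := t0 + 1) (by
    rw [show 2 * (t0 + 1) - 2 = 2 * t0 by ring]
    exact ht.mul_left 2) hTz hh' hdh'
  have hPz : dd ktw p (PI (sg none) z') = 0 := by
    rw [← PI_dd Rel_O, hdz', hzdef, map_mul, PI_y0, zero_mul]
  obtain ⟨h, hh, hdh⟩ := hQ2 (Option Empty) (ee none) hsum (t0 + 1) (by
    rw [show t0 + 1 - 1 = t0 by ring]; exact ht) _ (hz'.PI Rel_O) hPz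
  have hSI := hh.SI Rel_O
  have hw : TT kun p (t0 + 1) (ee none) 0 (z' - dm kun p (SI (sg none) h)) :=
    hz'.sub (hSI.dm naf_un)
  have hPw : PI (sg none) (z' - dm kun p (SI (sg none) h)) = 0 := by
    rw [map_sub, PI_dm Rel_O, PI_SI, hdh, sub_self]
  have hdw : dd kun p (z' - dm kun p (SI (sg none) h)) = z := by
    rw [map_sub, dd_dm kun hSI.cu, sub_zero, hdz']
  rcases Y_div (κ := kun) (c := none) rfl hw hPw with h0 | ⟨_, q2, hq2, hTq2⟩
  · rw [h0, map_zero] at hdw
    have h1 : IN Empty z0 = 0 := by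
      rcases mul_eq_zero.mp hdw.symm with h3 | h3
      · exact absurd h3 (X_ne_zero _)
      · exact h3
    have h2 := congrArg (RE Empty) h1
    rw [RE_IN, map_zero] at h2
    exact ⟨0, TT.zero, by rw [map_zero, h2]⟩
  · have h1 : dd kun p q2 = IN Empty z0 := by
      have h2 := hdw
      rw [hq2, dd_Y (κ := kun) (c := none) rfl, hzdef] at h2
      exact mul_left_cancel₀ (X_ne_zero _) h2
    refine ⟨RE Empty q2, ?_, ?_⟩
    · rw [show t0 + 1 - 1 = t0 by ring] at hTq2
      exact TT_jR hTq2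
    · rw [← RE_dd (κ1 := kun) (κ2 := kun) (fun _ => rfl) (fun h => Kd.noConfusion h), h1,
        RE_IN]

theorem exists_r0 (p : ℕ) : ∃ r, (∀ k : ℕ, k ≤ p → QT r (p - k) 1 (1 + k) (2 + 1 + k)) ∧
    QT r p 1 0 1 := by
  obtain ⟨r1, h1⟩ := fin_max (fun k r => QT r (p - k) 1 (1 + k) (2 + 1 + k))
    (fun i r r' h hq => hq.mono h) p (by
      intro k hk
      exact stepQ (p - k) (fun p' _ => (main_ind p').2) (1 + k) (by omega) 1 (2 + 1 + k) (by
        push_cast; linarith))
  obtain ⟨r2, h2⟩ := (main_ind p).2 1 1 (by norm_num)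
  exact ⟨max r1 r2, fun k hk => (h1 k hk).mono (le_max_left _ _), h2.mono (le_max_right _ _)⟩

end h0

section final0

/-- right multiplication by `h₀` in the cobar complex: `[x | ξ₁]` -/
noncomputable def mh (s : ℕ) (x : QQ s) : QQ (s + 1) :=
  rename (fun p : Fin s × ℕ => (p.1.castSucc, p.2)) x * X (Fin.last s, 0)

theorem io_mh (s : ℕ) (x : QQ s) : io (s + 1) (mh s x) = X (.x s 0) * io s x := by
  rw [mh, map_mul, io_X, mul_comm]
  congr 1
  have : (io (s + 1)).comp (rename (fun p : Fin s × ℕ => (p.1.castSucc, p.2))) = io s := by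
    apply algHom_ext
    intro p
    rw [AlgHom.comp_apply, rename_X, io_X, io_X]
    rfl
  exact DFunLike.congr_fun this x

theorem cm_mulX (p : ℕ) (f : RR Empty) (m : ℤ × ((Empty → ℕ) × ℕ)) :
    cm (wF kun) (m + (1, 0)) (X (.x p 0) * f) = X (.x p 0) * cm (wF kun) m f := by
  have h2 := cm_comm (w := wF (kun : Empty → Kd)) (w' := wF kun) (fun m => m + (1, 0))
    (add_left_injective _) (LinearMap.mulLeft (ZMod 2) (X (.x p 0) : RR Empty))
    (fun f m hf => by
      rw [LinearMap.mulLeft_apply, add_comm m]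
      exact (isWeightedHomogeneous_X (ZMod 2) (wF (kun : Empty → Kd)) (Vr.x p 0)).mul hf) f m
  simpa only [LinearMap.mulLeft_apply] using h2

theorem final0 (s : ℕ) : ∃ J : ℕ, ∀ x : QQ (s + 1), ∀ j : ℕ, J ≤ j →
    (∃ q : QQ (s + 1), ∑ i : Fin (s + 3), cf (s + 1) i q = mh (s + 1) (x ^ (2 ^ (j + 1)))) →
    ∃ y : QQ s, ∑ i : Fin (s + 2), cf s i y = x ^ (2 ^ j) := by
  classical
  obtain ⟨r, hr1, hr2⟩ := exists_r0 s
  refine ⟨r, fun x j hj => ?_⟩
  rintro ⟨q, hq⟩
  set Xx := io (s + 1) x with hXx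
  set Y := io (s + 1) q with hY
  have hdY : dd kun (s + 1) Y = X (.x (s + 1) 0) * Xx ^ (2 ^ (j + 1)) := by
    rw [hY, ← io_d, hq, io_mh, map_pow]
  have key : ∀ m : ℤ × ((Empty → ℕ) × ℕ), ∃ z : QQ s,
      dd kun s (io s z) = (cm (wF kun) m Xx) ^ (2 ^ j) := by
    intro m
    by_cases hm : m.2.2 = 0
    · have hxm : TT kun (s + 1) m.1 m.2.1 0 (cm (wF kun) m Xx) := by
        refine ⟨by rw [← cm_cut, io_cut], ?_⟩
        have h5 : ((m.1, (m.2.1, 0)) : ℤ × ((Empty → ℕ) × ℕ)) = m :=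
          Prod.ext rfl (Prod.ext rfl hm.symm)
        rw [h5]
        exact cm_IW (wF kun) m Xx
      have hzj : TT kun (s + 1) (2 ^ j * m.1) m.2.1 0 ((cm (wF kun) m Xx) ^ (2 ^ j)) := by
        refine ⟨by rw [map_pow, hxm.cu], ?_⟩
        have h1 := hxm.iw.pow (2 ^ j)
        have h2 : 2 ^ j • (m.1, (m.2.1, 0)) = (2 ^ j * m.1, (m.2.1, 0)) := by
          refine Prod.ext ?_ (Prod.ext ?_ ?_)
          · simp
          · exact Subsingleton.elim _ _
          · simp
        rwa [h2] at h1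
      have hw : dk (j + 1) m + (1, 0) = (2 * (2 ^ j * m.1) + 1, (m.2.1, 0)) := by
        refine Prod.ext ?_ (Prod.ext ?_ ?_)
        · simp only [dk, Prod.fst_add]; ring
        · exact Subsingleton.elim _ _
        · simp [dk, hm]
      obtain ⟨z, hz, hdz⟩ := h0_inj hr1 hr2 (Dvd.dvd.mul_right (pow_dvd_pow 2 hj) m.1) hzj
        (q := cm (wF kun) (dk (j + 1) m + (1, 0)) Y) ⟨by rw [← cm_cut, io_cut], by
          rw [← hw]; exact cm_IW _ _ _⟩ (by
          rw [← cm_dd naf_un, hdY, cm_mulX, cm_pow, ← pow_mul, ← pow_succ])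
      exact ⟨ro s z, by rw [io_ro hz, hdz]⟩
    · refine ⟨0, ?_⟩
      have h0 : cm (wF kun) m Xx = 0 := by
        have h1 := io_js (s + 1) x
        ext e
        rw [coeff_weightedHomogeneousComponent, coeff_zero]
        split_ifs with he
        · by_contra hne
          have h2 := h1 hne
          apply hm
          let pr : ℤ × ((Empty → ℕ) × ℕ) →+ ℕ :=
            (AddMonoidHom.snd (Empty → ℕ) ℕ).comp (AddMonoidHom.snd ℤ _)
          have h3 : js Empty = fun v => pr (wF kun v) := by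
            funext v
            cases v <;> rfl
          rw [h3, wmap, he] at h2
          exact h2
        · rfl
      rw [h0, map_zero, map_zero, zero_pow (by positivity)]
  choose Z hZ using key
  obtain ⟨S, hS⟩ := cm_sum (wF kun) Xx
  refine ⟨∑ m ∈ S, Z m, ?_⟩
  have h1 : io (s + 1) (∑ i : Fin (s + 2), cf s i (∑ m ∈ S, Z m)) = io (s + 1) (x ^ (2 ^ j)) := by
    rw [io_d, map_sum, map_sum, map_pow, ← hXx]
    conv_rhs => rw [hS]
    rw [sum_pow0]
    exact sum_congr rfl fun m _ => hZ m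
  have h2 := congrArg (ro (s + 1)) h1
  rwa [ro_io, ro_io] at h2

end final0

end Pool.Agent.W624.Stz
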