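import Pool.Agent.W624.StzC2

set_option autoImplicit false
set_option linter.unusedSectionVars false

namespace Pool.Agent.W624.Stz

open Finset MvPolynomial

/-- exactness for the untwisted complexes -/
def PU (r p n : ℕ) (w : ℤ) : Prop := ∀ (K : Type) [Fintype K] (ν : K → ℕ), ∑ c, ν c = n →
  ∀ t : ℤ, (2 : ℤ) ^ r ∣ t - w → Ex (kun : K → Kd) p t ν 0

/-- exactness for the twisted complexes -/
def QT (r p n j : ℕ) (w : ℤ) : Prop := ∀ (K : Type) [Fintype K] (ν : K → ℕ), ∑ c, ν c = n →
  ∀ t : ℤ, (2 : ℤ) ^ r ∣ t - w → Ex (ktw : K → Kd) p t ν j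

theorem PU.mono {r r' p n : ℕ} {w : ℤ} (h : r ≤ r') (hp : PU r p n w) : PU r' p n w :=
  fun K _ ν hν t ht => hp K ν hν t (dvd_trans (pow_dvd_pow 2 h) ht)

theorem QT.mono {r r' p n j : ℕ} {w : ℤ} (h : r ≤ r') (hp : QT r p n j w) : QT r' p n j w :=
  fun K _ ν hν t ht => hp K ν hν t (dvd_trans (pow_dvd_pow 2 h) ht)

theorem fin_max (Q : ℕ → ℕ → Prop) (mono : ∀ i r r', r ≤ r' → Q i r → Q i r') (J : ℕ)
    (h : ∀ i, i ≤ J → ∃ r, Q i r) : ∃ r, ∀ i, i ≤ J → Q i r := by
  induction J with
  | zero =>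
    obtain ⟨r, hr⟩ := h 0 le_rfl
    refine ⟨r, fun i hi => ?_⟩
    rw [Nat.le_zero.mp hi]; exact hr
  | succ J ih =>
    obtain ⟨r1, h1⟩ := ih fun i hi => h i (by omega)
    obtain ⟨r2, h2⟩ := h (J + 1) le_rfl
    refine ⟨max r1 r2, fun i hi => ?_⟩
    rcases Nat.lt_or_ge i (J + 1) with hlt | hge
    · exact mono i r1 _ (le_max_left _ _) (h1 i (by omega))
    · have : i = J + 1 := by omega
      subst this
      exact mono _ r2 _ (le_max_right _ _) h2

theorem sum_nx {K : Type} [Fintype K] (ν : K → ℕ) (i : ℕ) :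
    ∑ o, nx ν i o = ∑ c, ν c + i := by
  rw [Fintype.sum_option, add_comm]
  rfl

theorem stepQ : ∀ p, (∀ p' < p, ∀ (n : ℕ) (w : ℤ), w < 2 * (n : ℤ) → ∃ r, QT r p' n 0 w) →
    ∀ j : ℕ, 1 ≤ j → ∀ (n : ℕ) (w : ℤ), w < 2 * ((n : ℤ) + j) → ∃ r, QT r p n j w := by
  intro p
  induction p with
  | zero =>
    intro _ j hj n w _
    exact ⟨0, fun K _ ν _ t _ => LemT0 t ν j hj⟩
  | succ p ih =>
    intro H j hj n w hw
    have hp := H p (Nat.lt_succ_self p)
    have ihp := ih fun p' hp' => H p' (by omega)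
    obtain ⟨r, hr⟩ := fin_max (fun i r => 1 ≤ i → QT r p (n + i) (j - i) w)
      (fun i r r' h hq hi => (hq hi).mono h) j (by
        intro i hi
        rcases Nat.eq_zero_or_pos i with h0 | h0
        · exact ⟨0, fun h => absurd h (by omega)⟩
        rcases Nat.lt_or_ge i j with hlt | hge
        · obtain ⟨r, hr⟩ := ihp (j - i) (by omega) (n + i) w (by
            push_cast [Nat.cast_sub hi]; linarith)
          exact ⟨r, fun _ => hr⟩
        · have : i = j := by omega
          subst this
          obtain ⟨r, hr⟩ := hp (n + i) w (by push_cast; linarith)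
          refine ⟨r, fun _ => ?_⟩
          rw [Nat.sub_self]
          exact hr)
    refine ⟨r, fun K _ ν hν t ht => LemT p t ν j hj fun i hi1 hi2 => ?_⟩
    exact hr i hi2 hi1 (Option K) (nx ν i) (by rw [sum_nx, hν]) t ht

theorem stepB {r p n : ℕ} {w : ℤ} (hQ : ∀ k : ℕ, k ≤ p → QT r (p - k) n (1 + k) (w + 1 + k))
    (hA : ∀ w', w = 2 * w' → PU (r - 1) p n w') (hr : 1 ≤ r) : QT r p n 0 w := by
  intro K _ ν hν t ht f hf hdf
  obtain ⟨g, h, hg, hDg, hdg, hh, hfe⟩ := liftT hf (by rw [hdf, map_zero])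
    (fun k hk => hQ k hk K ν hν (t + 1 + k) (by
      rw [show t + 1 + (k : ℤ) - (w + 1 + k) = t - w by ring]; exact ht))
  have claim : ∃ h', TT ktw (p - 1) t ν 0 h' ∧ dm ktw p h' = g := by
    rcases PHI_root hg hDg with h0 | ⟨t', ht', z, hz, hzg⟩
    · exact ⟨0, TT.zero, by rw [map_zero, h0]⟩
    · have h2 : (2 : ℤ) ∣ t - w := dvd_trans (dvd_pow_self 2 (by omega)) ht
      obtain ⟨w', hw'⟩ : ∃ w', w = 2 * w' := by
        obtain ⟨c, hc⟩ := h2
        exact ⟨t' - c, by linarith⟩
      have hd : (2 : ℤ) ^ (r - 1) ∣ t' - w' := by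
        obtain ⟨c, hc⟩ := ht
        obtain ⟨r', rfl⟩ : ∃ r', r = r' + 1 := ⟨r - 1, by omega⟩
        rw [Nat.add_sub_cancel]
        refine ⟨c, ?_⟩
        rw [ht', hw', pow_succ] at hc
        linarith
      have hdz : dd kun p z = 0 := by
        apply PHI_inj
        rw [PHI_dd, hzg, hdg, hdf]
      obtain ⟨z', hz', hdz'⟩ := hA w' hw' K ν hν t' hd z hz hdz
      refine ⟨PHI K z', ⟨by rw [← PHI_cut, hz'.cu], ?_⟩, by rw [← PHI_dm, hdz', hzg]⟩
      have h5 := IW_PHI hz'.iw
      have h6 : dbl (K → ℕ) (t', (ν, 0)) = (t, (ν, 0)) := by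
        rw [ht']; rfl
      rwa [h6] at h5
  obtain ⟨h', hh', hdh'⟩ := claim
  exact ⟨h' + h, hh'.add hh, by rw [map_add, hdh', ← hfe]⟩

theorem stepA {r p n : ℕ} {w : ℤ} (h : ∀ d : ℕ, d ≤ n → QT r p (n - d) 0 (w - d)) :
    PU r p n w := by
  intro K _ ν hν t ht f hf hdf
  have hR := Rel_SU (naf_un (K := K))
  refine BB p _ kun naf_un t ν le_rfl ?_ f hf hdf ?_
  · intro d hd1 hd2 ν' hν'
    exact h d (by omega) K ν' (by omega) (t - d) (by
      rw [show t - (d : ℤ) - (w - d) = t - w by ring]; exact ht)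
  · have h0 := h 0 (Nat.zero_le _) K ν (by omega) t (by simpa using ht)
    exact h0 (PI (SU kun) f) (hf.PI hR) (by rw [← PI_dd hR, hdf, map_zero])

theorem stepA0 {r p n : ℕ}
    (hQ : ∀ k : ℕ, k ≤ p → QT r (p - k) n (1 + k) (1 + k))
    (hpc : ∀ d : ℕ, 1 ≤ d → d ≤ n → QT r p (n - d) 0 (-d))
    (hlow : ∀ k, 1 ≤ k → k ≤ p → PU r (p - k) n 0)
    (hhalf : ∀ n', 2 * n' = n → QT r p n' 0 0) : PU r p n 0 := by
  classical
  intro K _ ν hν t ht
  apply C2 p t ν
  · intro ν' hν' k hk hsum
    have hn' : ∑ c, ν' c = n := by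
      rw [Fintype.sum_sum_type, ← sum_add_distrib, ← hν]
      exact sum_congr rfl fun c _ => hν' c
    cases k with
    | zero =>
      obtain ⟨c, hc⟩ : ∃ c, ν' (Sum.inr c) = 1 := by
        by_contra hne
        push Not at hne
        have h1 : ∑ c, ν' (Sum.inr c) ≠ 0 := by rw [hsum]; omega
        obtain ⟨c, _, hc⟩ := exists_ne_zero_of_sum_ne_zero h1
        have h2 : ν' (Sum.inr c) ≤ ∑ c, ν' (Sum.inr c) :=
          single_le_sum (f := fun c => ν' (Sum.inr c)) (fun _ _ => Nat.zero_le _) (mem_univ c)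
        have := hne c
        omega
      let e : Option {x : K ⊕ K // x ≠ Sum.inr c} ≃ K ⊕ K := Equiv.optionSubtypeNe (Sum.inr c)
      have hes : ∑ o, ν' (e o) = n := by rw [← hn']; exact Equiv.sum_comp e ν'
      have hC := C1 p t (fun o => ν' (e o)) (by
        have : e none = Sum.inr c := Equiv.optionSubtypeNe_none _
        rw [this, hc]) (fun k hk => hQ k hk _ _ hes (t + 1 + k) (by
          rw [show t + 1 + (k : ℤ) - (1 + k) = t - 0 by ring]; exact ht)) (by
        intro d hd1 hd2 ν2 hν2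
        rw [hes] at hd2 hν2
        exact hpc d hd1 hd2 _ ν2 (by omega) (t - d) (by
          rw [show t - (d : ℤ) - -d = t - 0 by ring]; exact ht))
      exact Ex_equiv (k := .un) e hC
    | succ k => exact hlow (k + 1) (by omega) hk _ ν' hn' t ht
  · intro ν'' h2
    refine hhalf (∑ c, ν'' c) ?_ K ν'' rfl t ht
    rw [mul_sum, ← hν]
    exact sum_congr rfl fun c _ => h2 c

theorem main_ind : ∀ p : ℕ, (∀ (n : ℕ) (w : ℤ), w < (n : ℤ) → ∃ r, PU r p n w) ∧
    (∀ (n : ℕ) (w : ℤ), w < 2 * (n : ℤ) → ∃ r, QT r p n 0 w) := by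
  intro p
  induction p using Nat.strong_induction_on with
  | _ p ih =>
    have hQ : ∀ j : ℕ, 1 ≤ j → ∀ q, q ≤ p → ∀ (n : ℕ) (w : ℤ), w < 2 * ((n : ℤ) + j) →
        ∃ r, QT r q n j w := fun j hj q hq n w hw =>
      stepQ q (fun p' hp' => (ih p' (by omega)).2) j hj n w hw
    have hB : ∀ (n : ℕ) (w : ℤ), w < 2 * (n : ℤ) → (∀ w', w = 2 * w' → ∃ r, PU r p n w') →
        ∃ r, QT r p n 0 w := by
      intro n w hw hA
      obtain ⟨r1, h1⟩ := fin_max (fun k r => QT r (p - k) n (1 + k) (w + 1 + k))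
        (fun i r r' h hq => hq.mono h) p (by
          intro k hk
          exact hQ (1 + k) (by omega) (p - k) (by omega) n (w + 1 + k) (by push_cast; linarith))
      by_cases hw2 : ∃ w', w = 2 * w'
      · obtain ⟨w', hw'⟩ := hw2
        obtain ⟨r2, h2⟩ := hA w' hw'
        refine ⟨max r1 (r2 + 1), stepB (fun k hk => (h1 k hk).mono (le_max_left _ _))
          (fun w'' hw'' => ?_) (le_trans (by omega) (le_max_right _ _))⟩
        have : w'' = w' := by omega
        subst this
        exact h2.mono (by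
          have := le_max_right r1 (r2 + 1)
          omega)
      · exact ⟨max r1 1, stepB (fun k hk => (h1 k hk).mono (le_max_left _ _))
          (fun w' hw' => absurd ⟨w', hw'⟩ hw2) (le_max_right _ _)⟩
    have hA : ∀ (n : ℕ) (w : ℤ), w < (n : ℤ) → ∃ r, PU r p n w := by
      intro n
      induction n using Nat.strong_induction_on with
      | _ n ihn =>
        have hB' : ∀ n', n' < n → ∀ w : ℤ, w < 2 * (n' : ℤ) → ∃ r, QT r p n' 0 w :=
          fun n' hn' w hw => hB n' w hw fun w' hw' => ihn n' hn' w' (by linarith)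
        have key : ∀ (m : ℕ) (w : ℤ), w.natAbs ≤ m → w < (n : ℤ) → ∃ r, PU r p n w := by
          intro m
          induction m with
          | zero =>
            intro w hm hw
            have hw0 : w = 0 := by omega
            subst hw0
            obtain ⟨r1, h1⟩ := fin_max (fun k r => QT r (p - k) n (1 + k) (1 + k))
              (fun i r r' h hq => hq.mono h) p (by
                intro k hk
                exact hQ (1 + k) (by omega) (p - k) (by omega) n (1 + k) (by push_cast; linarith))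
            obtain ⟨r2, h2⟩ := fin_max (fun d r => 1 ≤ d → QT r p (n - d) 0 (-d))
              (fun i r r' h hq hi => (hq hi).mono h) n (by
                intro d hd
                rcases Nat.eq_zero_or_pos d with h0 | h0
                · exact ⟨0, fun h => absurd h (by omega)⟩
                · obtain ⟨r, hr⟩ := hB' (n - d) (by omega) (-d) (by omega)
                  exact ⟨r, fun _ => hr⟩)
            obtain ⟨r3, h3⟩ := fin_max (fun k r => 1 ≤ k → PU r (p - k) n 0)
              (fun i r r' h hq hi => (hq hi).mono h) p (by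
                intro k hk
                rcases Nat.eq_zero_or_pos k with h0 | h0
                · exact ⟨0, fun h => absurd h (by omega)⟩
                · obtain ⟨r, hr⟩ := (ih (p - k) (by omega)).1 n 0 hw
                  exact ⟨r, fun _ => hr⟩)
            obtain ⟨r4, h4⟩ : ∃ r, ∀ n', 2 * n' = n → QT r p n' 0 0 := by
              by_cases hn : ∃ n', 2 * n' = n
              · obtain ⟨n', hn'⟩ := hn
                obtain ⟨r, hr⟩ := hB' n' (by omega) 0 (by omega)
                refine ⟨r, fun n'' hn'' => ?_⟩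
                have : n'' = n' := by omega
                subst this
                exact hr
              · exact ⟨0, fun n' hn' => absurd ⟨n', hn'⟩ hn⟩
            refine ⟨max (max r1 r2) (max r3 r4), stepA0 (fun k hk => (h1 k hk).mono ?_)
              (fun d hd1 hd2 => (h2 d hd2 hd1).mono ?_)
              (fun k hk1 hk2 => (h3 k hk2 hk1).mono ?_) (fun n' hn' => (h4 n' hn').mono ?_)⟩
            · exact le_trans (le_max_left _ _) (le_max_left _ _)
            · exact le_trans (le_max_right _ _) (le_max_left _ _)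
            · exact le_trans (le_max_left _ _) (le_max_right _ _)
            · exact le_trans (le_max_right _ _) (le_max_right _ _)
          | succ m ihm =>
            intro w hm hw
            rcases Nat.lt_or_ge m w.natAbs with hlt | hge
            · obtain ⟨r, hr⟩ := fin_max (fun d r => QT r p (n - d) 0 (w - d))
                (fun i r r' h hq => hq.mono h) n (by
                  intro d hd
                  rcases Nat.eq_zero_or_pos d with h0 | h0
                  · subst h0
                    rw [Nat.sub_zero, Nat.cast_zero, sub_zero]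
                    refine hB n w (by omega) fun w' hw' => ihm w' (by omega) (by omega)
                  · exact hB' (n - d) (by omega) (w - d) (by omega))
              exact ⟨r, stepA hr⟩
            · exact ihm w hge hw
        intro w hw
        exact key w.natAbs w le_rfl hw
    exact ⟨hA, fun n w hw => hB n w hw fun w' hw' => hA n w' (by linarith)⟩

/-- eventual injectivity in homogeneous form -/
theorem inj_step {s r : ℕ} (hQ : ∀ k : ℕ, k ≤ s → QT r (s - k) 0 (1 + k) (1 + k))
    {t : ℤ} {ν : Empty → ℕ} (ht : (2 : ℤ) ^ r ∣ t) {z y : RR Empty}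
    (hz : TT kun (s + 1) t ν 0 z) (hy : TT ktw s (2 * t) ν 0 y)
    (hdy : dd ktw s y = PHI _ z) : ∃ z', TT kun s t ν 0 z' ∧ dd kun s z' = z := by
  obtain ⟨g, h, hg, hDg, hdg, _, _⟩ := liftT hy (by rw [hdy, DX_PHI])
    (fun k hk => hQ k hk Empty ν (by simp) (2 * t + 1 + k) (by
      rw [show 2 * t + 1 + (k : ℤ) - (1 + k) = 2 * t by ring]
      exact ht.mul_left 2))
  rcases PHI_root hg hDg with h0 | ⟨t', ht', z', hz', hzg⟩
  · refine ⟨0, TT.zero, ?_⟩
    rw [map_zero]
    symm
    apply PHI_inj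
    rw [← hdy, ← hdg, h0, map_zero]
  · have : t' = t := by linarith
    subst this
    refine ⟨z', hz', ?_⟩
    have h1 : PHI _ (dd kun s z' + z) = 0 := by
      rw [map_add, PHI_dd, hzg, hdg, hdy, p2_add_self]
    exact p2_eq_of_add (PHI_inj h1)

theorem exists_r (s : ℕ) : ∃ r, ∀ k : ℕ, k ≤ s → QT r (s - k) 0 (1 + k) (1 + k) := by
  apply fin_max (fun k r => QT r (s - k) 0 (1 + k) (1 + k)) (fun i r r' h hq => hq.mono h)
  intro k hk
  exact stepQ (s - k) (fun p' _ => (main_ind p').2) (1 + k) (by omega) 0 (1 + k) (by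
    push_cast; linarith)

end Pool.Agent.W624.Stz
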