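import Pool.Agent.W624.StzSer
import Pool.Agent.W624.StzFun
import Pool.Agent.W624.StzDR

set_option autoImplicit false
set_option linter.unusedSectionVars false

namespace Pool.Agent.W624.Stz

open Finset MvPolynomial

section generic

variable {M M' Y Y' : Type*} [Monoid M] [Monoid M']

/-- slotwise map of points -/
def mp (m : M → M') (h : Y → Y') (z : (ℕ → M) × Y) : (ℕ → M') × Y' :=
  (fun a => m (z.1 a), h z.2)

theorem mp_mrg (m : M → M') (hm : ∀ a b, m (a * b) = m a * m b) (i : ℕ) (γ : ℕ → M) :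
    (fun a => m (mrg i γ a)) = mrg i (fun a => m (γ a)) := by
  funext a
  simp only [mrg]
  split_ifs
  · rfl
  · exact hm _ _
  · rfl

theorem mp_fc {ac : M → Y → Y} {ac' : M' → Y' → Y'} (m : M → M') (h : Y → Y')
    (hm : ∀ a b, m (a * b) = m a * m b) (hh : ∀ g y, h (ac g y) = ac' (m g) (h y))
    (q j : ℕ) (z : (ℕ → M) × Y) : mp m h (fc ac q j z) = fc ac' q j (mp m h z) := by
  simp only [fc]
  split_ifs
  · rfl
  · simp only [mp]
    rw [mp_mrg m hm]
  · simp only [mp]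
    rw [hh]

theorem mp_run {ac : M → Y → Y} {ac' : M' → Y' → Y'} (m : M → M') (h : Y → Y')
    (hh : ∀ g y, h (ac g y) = ac' (m g) (h y)) (γ : ℕ → M) (k : ℕ) : ∀ (i : ℕ) (y : Y),
    h (run ac γ i k y) = run ac' (fun a => m (γ a)) i k (h y) := by
  induction k with
  | zero => intro i y; rfl
  | succ k ih => intro i y; rw [run, run, hh, ih]

theorem mp_prm {ac : M → Y → Y} {ac' : M' → Y' → Y'} {ln : M → M} {ln' : M' → M'}
    {bs : Y → Y} {bs' : Y' → Y'} {tr : Y → M} {tr' : Y' → M'} (m : M → M') (h : Y → Y')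
    (hh : ∀ g y, h (ac g y) = ac' (m g) (h y))
    (hln : ∀ g, m (ln g) = ln' (m g)) (hbs : ∀ y, h (bs y) = bs' (h y))
    (htr : ∀ y, m (tr y) = tr' (h y))
    (q i : ℕ) (z : (ℕ → M) × Y) :
    mp m h (prm ac ln bs tr q i z) = prm ac' ln' bs' tr' q i (mp m h z) := by
  simp only [prm, mp, hbs]
  refine Prod.ext ?_ rfl
  funext a
  simp only
  split_ifs
  · rfl
  · rw [htr, mp_run m h hh]
  · rw [hln]

theorem fc_pres {ac : M → Y → Y} (PM : M → Prop) (PY : Y → Prop)
    (hmul : ∀ a b, PM a → PM b → PM (a * b)) (hact : ∀ g y, PM g → PY y → PY (ac g y))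
    (q j : ℕ) (z : (ℕ → M) × Y) (h1 : ∀ a, PM (z.1 a)) (h2 : PY z.2) :
    (∀ a, PM ((fc ac q j z).1 a)) ∧ PY (fc ac q j z).2 := by
  simp only [fc]
  split_ifs
  · exact ⟨fun a => h1 _, h2⟩
  · refine ⟨fun a => ?_, h2⟩
    simp only [mrg]
    split_ifs
    · exact h1 _
    · exact hmul _ _ (h1 _) (h1 _)
    · exact h1 _
  · exact ⟨h1, hact _ _ (h1 _) h2⟩

theorem run_pres {ac : M → Y → Y} (PM : M → Prop) (PY : Y → Prop)
    (hact : ∀ g y, PM g → PY y → PY (ac g y)) (γ : ℕ → M) (h1 : ∀ a, PM (γ a)) (k : ℕ) :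
    ∀ (i : ℕ) (y : Y), PY y → PY (run ac γ i k y) := by
  induction k with
  | zero => intro i y h; exact h
  | succ k ih => intro i y h; exact hact _ _ (h1 _) (ih _ _ h)

theorem prm_pres {ac : M → Y → Y} {ln : M → M} {bs : Y → Y} {tr : Y → M} (PM : M → Prop)
    (PY : Y → Prop) (hact : ∀ g y, PM g → PY y → PY (ac g y))
    (hln : ∀ g, PM g → PM (ln g)) (hbs : ∀ y, PY y → PY (bs y)) (htr : ∀ y, PY y → PM (tr y))
    (q i : ℕ) (z : (ℕ → M) × Y) (h1 : ∀ a, PM (z.1 a)) (h2 : PY z.2) :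
    (∀ a, PM ((prm ac ln bs tr q i z).1 a)) ∧ PY (prm ac ln bs tr q i z).2 := by
  simp only [prm]
  refine ⟨fun a => ?_, hbs _ h2⟩
  split_ifs
  · exact h1 _
  · exact htr _ (run_pres PM PY hact _ h1 _ _ _ h2)
  · exact hln _ (h1 _)

theorem Agr.symm' {q : ℕ} {z z' : (ℕ → M) × Y} (h : Agr q z z') : Agr q z' z :=
  ⟨fun a ha => (h.1 a ha).symm, h.2.symm⟩

theorem agr_fc {ac : M → Y → Y} {q j : ℕ} {z z' : (ℕ → M) × Y}
    (h : Agr (q + 1) z z') : Agr q (fc ac q j z) (fc ac q j z') := by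
  obtain ⟨h1, h2⟩ := h
  simp only [fc]
  split_ifs with hj1 hj2
  · exact ⟨fun a ha => h1 _ (by omega), h2⟩
  · refine ⟨fun a ha => ?_, h2⟩
    simp only [mrg]
    split_ifs
    · exact h1 _ (by omega)
    · rw [h1 _ (by omega), h1 _ (by omega)]
    · exact h1 _ (by omega)
  · refine ⟨fun a ha => h1 _ (by omega), ?_⟩
    simp only
    rw [h1 _ (by omega), h2]

theorem agr_prm {ac : M → Y → Y} {ln : M → M} {bs : Y → Y} {tr : Y → M} {q i : ℕ}
    (hi : i ≤ q) {z z' : (ℕ → M) × Y}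
    (h : Agr q z z') : Agr (q + 1) (prm ac ln bs tr q i z) (prm ac ln bs tr q i z') := by
  obtain ⟨h1, h2⟩ := h
  simp only [prm]
  refine ⟨fun a ha => ?_, by simp only; rw [h2]⟩
  simp only
  split_ifs with ha1 ha2
  · exact h1 _ (by omega)
  · rw [h2, run_congr ac z.1 z'.1 (q - i) i i z'.2]
    intro b hb
    exact h1 _ (by omega)
  · rw [h1 _ (by omega)]

variable {B : Type*} [AddCommGroup B]

theorem dep_dF {ac : M → Y → Y} {q : ℕ} {φ : (ℕ → M) × Y → B} (h : Dep q φ) :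
    Dep (q + 1) (dF ac q φ) := by
  intro z z' hz
  simp only [dF]
  exact sum_congr rfl fun j _ => h _ _ (agr_fc hz)

theorem dep_hF {ac : M → Y → Y} {ln : M → M} {bs : Y → Y} {tr : Y → M} {q : ℕ}
    {φ : (ℕ → M) × Y → B} (h : Dep (q + 1) φ) : Dep q (hF ac ln bs tr q φ) := by
  intro z z' hz
  simp only [hF]
  exact sum_congr rfl fun i hi => h _ _ (agr_prm (by rw [mem_range] at hi; omega) hz)

end generic

/-- variables -/
inductive Vr (K : Type) : Type
  | x (a n : ℕ) : Vr K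
  | s (a n : ℕ) : Vr K
  | y (c : K) (n : ℕ) : Vr K

/-- the polynomial ring -/
abbrev RR (K : Type) := P2 (Vr K)

/-- points -/
abbrev Pt (K : Type) (A : Type*) [CommRing A] := (ℕ → Tg A) × (K → ℕ → A)

section points

variable {A B : Type*} [CommRing A] [Algebra (ZMod 2) A] [CommRing B] [Algebra (ZMod 2) B]
variable {K L : Type}

/-- coordinates of a point -/
def co (z : Pt K A) : Vr K → A
  | .x a n => (z.1 a).g (n + 1)
  | .s a n => (z.1 a).s n
  | .y c n => z.2 c n

/-- evaluation at a point -/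
noncomputable def ev (z : Pt K A) : RR K →ₐ[ZMod 2] A := aeval (co z)

theorem ev_X (z : Pt K A) (v : Vr K) : ev z (X v) = co z v := aeval_X _ _

/-- universal group series -/
noncomputable def ug (K : Type) (a : ℕ) : ℕ → RR K
  | 0 => 1
  | n + 1 => X (.x a n)

/-- universal point -/
noncomputable def uni (K : Type) : Pt K (RR K) :=
  (fun a => ⟨ug K a, fun n => X (.s a n), rfl⟩, fun c n => X (.y c n))

theorem co_uni (v : Vr K) : co (uni K) v = X v := by
  cases v <;> rfl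

theorem ev_uni (f : RR K) : ev (uni K) f = f := by
  have : co (uni K) = X := by funext v; exact co_uni v
  rw [ev, this]
  exact DFunLike.congr_fun aeval_X_left f

theorem map_op (θ : A →ₐ[ZMod 2] B) (a b : ℕ → A) (n : ℕ) :
    θ (op a b n) = op (fun n => θ (a n)) (fun n => θ (b n)) n := by
  simp only [op, map_sum, map_mul, map_pow]

theorem map_fr (θ : A →ₐ[ZMod 2] B) (a : ℕ → A) :
    (fun n => θ (fr a n)) = fr (fun n => θ (a n)) := by
  funext n
  simp only [fr, map_pow]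

/-- map of group points -/
def mT (θ : A →ₐ[ZMod 2] B) (γ : Tg A) : Tg B :=
  ⟨fun n => θ (γ.g n), fun n => θ (γ.s n), by rw [γ.h, map_one]⟩

/-- map of coefficient points -/
def mY (θ : A →ₐ[ZMod 2] B) (y : K → ℕ → A) : K → ℕ → B := fun c n => θ (y c n)

theorem mT_mul (θ : A →ₐ[ZMod 2] B) (a b : Tg A) : mT θ (a * b) = mT θ a * mT θ b := by
  apply Tg.ext
  · funext n
    simp only [mT, mul_g, map_op]
  · funext n
    simp only [mT, mul_s, Pi.add_apply, map_add, map_op, map_fr]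

theorem mT_one (θ : A →ₐ[ZMod 2] B) : mT θ 1 = 1 := by
  apply Tg.ext
  · funext n
    simp only [mT, one_g, e1]
    split_ifs
    · rw [map_one]
    · rw [map_zero]
  · funext n
    simp only [mT, one_s, Pi.zero_apply, map_zero]

theorem mY_act (θ : A →ₐ[ZMod 2] B) (κ : K → Kd) (γ : Tg A) (y : K → ℕ → A) :
    mY θ (act κ γ y) = act κ (mT θ γ) (mY θ y) := by
  funext c n
  simp only [mY, act]
  cases κ c
  · simp only [act1, map_op, mT]; rfl
  · simp only [act1, map_op, mT, map_fr]; rfl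
  · simp only [act1, map_op, mT, Pi.add_apply, map_add, map_fr]; rfl

theorem mT_lin (θ : A →ₐ[ZMod 2] B) (γ : Tg A) : mT θ (lin γ) = lin (mT θ γ) := by
  apply Tg.ext
  · rfl
  · funext n
    simp only [mT, lin, Pi.zero_apply, map_zero]

theorem mY_bs (θ : A →ₐ[ZMod 2] B) (y : Option K → ℕ → A) : mY θ (bs y) = bs (mY θ y) := by
  funext o n
  cases o with
  | none => simp only [mY, bs, Pi.zero_apply, map_zero]
  | some c => rfl

theorem mT_tr (θ : A →ₐ[ZMod 2] B) (y : Option K → ℕ → A) : mT θ (tr y) = tr (mY θ y) := by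
  apply Tg.ext
  · funext n
    simp only [mT, tr, e1]
    split_ifs
    · rw [map_one]
    · rw [map_zero]
  · rfl

/-- map of points -/
def mP (θ : A →ₐ[ZMod 2] B) (z : Pt K A) : Pt K B := mp (mT θ) (mY θ) z

theorem ev_map (θ : A →ₐ[ZMod 2] B) (z : Pt K A) (f : RR K) : θ (ev z f) = ev (mP θ z) f := by
  have : θ.comp (ev z) = ev (mP θ z) := by
    apply algHom_ext
    intro v
    rw [AlgHom.comp_apply, ev_X, ev_X]
    cases v <;> rfl
  exact DFunLike.congr_fun this f

theorem mP_uni (z : Pt K A) : mP (ev z) (uni K) = z := by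
  refine Prod.ext ?_ ?_
  · funext a
    apply Tg.ext
    · funext n
      cases n with
      | zero =>
        have := (z.1 a).h
        simp only [mP, mp, mT, uni, ug, map_one, this]
      | succ n => simp only [mP, mp, mT, uni, ug, ev_X]; rfl
    · funext n
      simp only [mP, mp, mT, uni, ev_X]; rfl
  · funext c n
    simp only [mP, mp, mY, uni, ev_X]; rfl

theorem mP_fc (θ : A →ₐ[ZMod 2] B) (κ : K → Kd) (q j : ℕ) (z : Pt K A) :
    mP θ (fc (act κ) q j z) = fc (act κ) q j (mP θ z) :=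
  mp_fc (mT θ) (mY θ) (mT_mul θ) (mY_act θ κ) q j z

theorem mP_prm (θ : A →ₐ[ZMod 2] B) (q i : ℕ) (z : Pt (Option K) A) :
    mP θ (prm (act kE) lin bs tr q i z) = prm (act kE) lin bs tr q i (mP θ z) :=
  mp_prm (mT θ) (mY θ) (mY_act θ kE) (mT_lin θ) (mY_bs θ) (mT_tr θ) q i z

/-- differential -/
noncomputable def dd (κ : K → Kd) (q : ℕ) : RR K →ₗ[ZMod 2] RR K :=
  ∑ j ∈ range (q + 2), (ev (fc (act κ) q j (uni K))).toLinearMap

theorem dd_apply (κ : K → Kd) (q : ℕ) (f : RR K) :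
    dd κ q f = ∑ j ∈ range (q + 2), ev (fc (act κ) q j (uni K)) f := by
  simp [dd]

theorem ev_dd (κ : K → Kd) (q : ℕ) (z : Pt K A) (f : RR K) :
    ev z (dd κ q f) = dF (act κ) q (fun z => ev z f) z := by
  rw [dd_apply, map_sum, dF]
  refine sum_congr rfl fun j _ => ?_
  rw [ev_map, mP_fc, mP_uni]

/-- homotopy -/
noncomputable def hh (K : Type) (q : ℕ) : RR (Option K) →ₗ[ZMod 2] RR (Option K) :=
  ∑ i ∈ range (q + 1), (ev (prm (act kE) lin bs tr q i (uni (Option K)))).toLinearMap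

theorem hh_apply (q : ℕ) (f : RR (Option K)) :
    hh K q f = ∑ i ∈ range (q + 1), ev (prm (act kE) lin bs tr q i (uni (Option K))) f := by
  simp [hh]

theorem ev_hh (q : ℕ) (z : Pt (Option K) A) (f : RR (Option K)) :
    ev z (hh K q f) = hF (act kE) lin bs tr q (fun z => ev z f) z := by
  rw [hh_apply, map_sum, hF]
  refine sum_congr rfl fun j _ => ?_
  rw [ev_map, mP_prm, mP_uni]

/-- truncation of points -/
def cpt (q : ℕ) (z : Pt K A) : Pt K A := (fun a => if a < q then z.1 a else 1, z.2)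

/-- truncation of polynomials -/
noncomputable def cut (K : Type) (q : ℕ) : RR K →ₐ[ZMod 2] RR K := ev (cpt q (uni K))

theorem mP_cpt (θ : A →ₐ[ZMod 2] B) (q : ℕ) (z : Pt K A) :
    mP θ (cpt q z) = cpt q (mP θ z) := by
  refine Prod.ext ?_ rfl
  funext a
  simp only [mP, mp, cpt]
  split_ifs
  · rfl
  · exact mT_one θ

theorem ev_cut (q : ℕ) (z : Pt K A) (f : RR K) : ev z (cut K q f) = ev (cpt q z) f := by
  rw [cut, ev_map, mP_cpt, mP_uni]

theorem cpt_agr {q : ℕ} {z z' : Pt K A} (h : Agr q z z') : cpt q z = cpt q z' := by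
  refine Prod.ext ?_ h.2
  funext a
  simp only [cpt]
  split_ifs with ha
  · exact h.1 a ha
  · rfl

theorem dep_of_cut {q : ℕ} {f : RR K} (h : cut K q f = f) :
    Dep q (fun z : Pt K A => ev z f) := by
  intro z z' hz
  simp only
  rw [← h, ev_cut, ev_cut, cpt_agr hz]

theorem agr_cpt (q : ℕ) (z : Pt K A) : Agr q (cpt q z) z := by
  refine ⟨fun a ha => ?_, rfl⟩
  simp only [cpt, if_pos ha]

theorem cut_of_dep {q : ℕ} {f : RR K} (h : Dep q (fun z : Pt K (RR K) => ev z f)) :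
    cut K q f = f := by
  have := h _ _ (agr_cpt q (uni K))
  simp only [ev_uni] at this
  exact this

theorem cut_le {q q' : ℕ} (hq : q ≤ q') {f : RR K} (h : cut K q f = f) : cut K q' f = f := by
  apply cut_of_dep
  intro z z' hz
  exact dep_of_cut h z z' ⟨fun a ha => hz.1 a (by omega), hz.2⟩

theorem cut_dd (κ : K → Kd) {q : ℕ} {f : RR K} (h : cut K q f = f) :
    cut K (q + 1) (dd κ q f) = dd κ q f := by
  apply cut_of_dep
  intro z z' hz
  simp only [ev_dd]
  exact dep_dF (dep_of_cut h) z z' hz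

theorem dd_dd (κ : K → Kd) {q : ℕ} {f : RR K} (h : cut K q f = f) :
    dd κ (q + 1) (dd κ q f) = 0 := by
  rw [← ev_uni (dd κ (q + 1) (dd κ q f)), ev_dd]
  have : (fun z : Pt K (RR K) => ev z (dd κ q f))
      = dF (act κ) q (fun z => ev z f) := by
    funext z
    exact ev_dd κ q z f
  rw [this]
  exact dF_dF p2_add_self (act_mul κ) q _ (dep_of_cut h) _

/-- previous differential -/
noncomputable def dm (κ : K → Kd) : ℕ → (RR K →ₗ[ZMod 2] RR K)
  | 0 => 0
  | q + 1 => dd κ q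

/-- previous homotopy -/
noncomputable def hm (K : Type) : ℕ → (RR (Option K) →ₗ[ZMod 2] RR (Option K))
  | 0 => 0
  | q + 1 => hh K q

/-- linear part on polynomials -/
noncomputable def LL (K : Type) : RR (Option K) →ₐ[ZMod 2] RR (Option K) :=
  ev (fun a => lin ((uni (Option K)).1 a), bs (uni (Option K)).2)

theorem prism_poly (q : ℕ) (f : RR (Option K)) (h : cut _ q f = f) :
    hh K q (dd kE q f) + dm kE q (hm K q f) = LL K f + f := by
  have e1 : hh K q (dd kE q f) = hF (act kE) lin bs tr q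
      (dF (act kE) q (fun z : Pt (Option K) (RR (Option K)) => ev z f)) (uni (Option K)) := by
    rw [← ev_uni (hh K q (dd kE q f)), ev_hh]
    have : (fun z : Pt (Option K) (RR (Option K)) => ev z (dd kE q f))
      = dF (act kE) q (fun z => ev z f) := by
      funext z
      exact ev_dd kE q z f
    rw [this]
  rw [e1]
  cases q with
  | zero =>
    rw [prism_zero (ln := lin) tr_act _ (dep_of_cut h)]
    simp only [dm, LinearMap.zero_apply, add_zero, LL, ev_uni]
  | succ q =>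
    have e2 : dm kE (q + 1) (hm K (q + 1) f) = dF (act kE) q (hF (act kE) lin bs tr q
      (fun z : Pt (Option K) (RR (Option K)) => ev z f)) (uni (Option K)) := by
      simp only [dm, hm]
      rw [← ev_uni (dd kE q (hh K q f)), ev_dd]
      have : (fun z : Pt (Option K) (RR (Option K)) => ev z (hh K q f))
        = hF (act kE) lin bs tr q (fun z => ev z f) := by
        funext z
        exact ev_hh q z f
      rw [this]
    rw [e2, prism p2_add_self (act_mul kE) lin_mul bs_act tr_lin tr_act q _ (dep_of_cut h)]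
    simp only [LL, ev_uni]

theorem cut_hm {q : ℕ} {f : RR (Option K)} (h : cut _ q f = f) :
    cut _ (q - 1) (hm K q f) = hm K q f := by
  cases q with
  | zero => simp only [hm, LinearMap.zero_apply, map_zero]
  | succ q =>
    simp only [hm, Nat.add_sub_cancel]
    apply cut_of_dep
    intro z z' hz
    simp only [ev_hh]
    exact dep_hF (dep_of_cut h) z z' hz

theorem cut_dm (κ : K → Kd) {q : ℕ} {f : RR K} (h : cut K (q - 1) f = f) :
    cut K q (dm κ q f) = dm κ q f := by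
  cases q with
  | zero => simp only [dm, LinearMap.zero_apply, map_zero]
  | succ q => exact cut_dd κ h

theorem dd_dm (κ : K → Kd) {q : ℕ} {f : RR K} (h : cut K (q - 1) f = f) :
    dd κ q (dm κ q f) = 0 := by
  cases q with
  | zero => simp only [dm, LinearMap.zero_apply, map_zero]
  | succ q => exact dd_dd κ h

theorem hom_ev (θ : RR K →ₐ[ZMod 2] RR L) (m : Tg (RR L) → Tg (RR L))
    (h : (L → ℕ → RR L) → (K → ℕ → RR L))
    (hθ : ∀ (z : Pt L (RR L)) v, ev z (θ (X v)) = co (mp m h z : Pt K (RR L)) v)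
    (z : Pt L (RR L)) (f : RR K) : ev z (θ f) = ev (mp m h z : Pt K (RR L)) f := by
  have : (ev z).comp θ = ev (mp m h z : Pt K (RR L)) := by
    apply algHom_ext
    intro v
    rw [AlgHom.comp_apply, hθ, ev_X]
  exact DFunLike.congr_fun this f

theorem hom_dd (θ : RR K →ₐ[ZMod 2] RR L) (κ1 : K → Kd) (κ2 : L → Kd)
    (m : Tg (RR L) → Tg (RR L)) (h : (L → ℕ → RR L) → (K → ℕ → RR L))
    (hm : ∀ a b, m (a * b) = m a * m b) (hh : ∀ g y, h (act κ2 g y) = act κ1 (m g) (h y))
    (hθ : ∀ (z : Pt L (RR L)) v, ev z (θ (X v)) = co (mp m h z : Pt K (RR L)) v)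
    (q : ℕ) (f : RR K) : θ (dd κ1 q f) = dd κ2 q (θ f) := by
  rw [← ev_uni (θ (dd κ1 q f)), hom_ev θ m h hθ, ev_dd, dF, dd_apply]
  refine sum_congr rfl fun j _ => ?_
  rw [hom_ev θ m h hθ, mp_fc m h hm hh]

theorem hom_dm (θ : RR K →ₐ[ZMod 2] RR L) (κ1 : K → Kd) (κ2 : L → Kd)
    (m : Tg (RR L) → Tg (RR L)) (h : (L → ℕ → RR L) → (K → ℕ → RR L))
    (hm : ∀ a b, m (a * b) = m a * m b) (hh : ∀ g y, h (act κ2 g y) = act κ1 (m g) (h y))
    (hθ : ∀ (z : Pt L (RR L)) v, ev z (θ (X v)) = co (mp m h z : Pt K (RR L)) v)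
    (q : ℕ) (f : RR K) : θ (dm κ1 q f) = dm κ2 q (θ f) := by
  cases q with
  | zero => simp only [dm, LinearMap.zero_apply, map_zero]
  | succ q => exact hom_dd θ κ1 κ2 m h hm hh hθ q f

theorem hom_cut (θ : RR K →ₐ[ZMod 2] RR L)
    (m : Tg (RR L) → Tg (RR L)) (h : (L → ℕ → RR L) → (K → ℕ → RR L))
    (hm1 : m 1 = 1)
    (hθ : ∀ (z : Pt L (RR L)) v, ev z (θ (X v)) = co (mp m h z : Pt K (RR L)) v)
    (q : ℕ) (f : RR K) : θ (cut K q f) = cut L q (θ f) := by
  rw [← ev_uni (θ (cut K q f)), hom_ev θ m h hθ, ev_cut, cut, hom_ev θ m h hθ]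
  congr 1
  congr 1
  refine Prod.ext ?_ rfl
  funext a
  simp only [cpt, mp]
  split_ifs
  · rfl
  · exact hm1.symm

end points

end Pool.Agent.W624.Stz
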