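import Pool.Agent.W624.StzC1

set_option autoImplicit false
set_option linter.unusedSectionVars false

namespace Pool.Agent.W624.Stz

open Finset MvPolynomial

section coarse

variable {L : Type} {M' : Type*} [AddCommMonoid M']

theorem cm_cut {κ : L → Kd} (q : ℕ) (f : RR L) (m : ℤ × ((L → ℕ) × ℕ)) :
    cm (wF κ) m (cut L q f) = cut L q (cm (wF κ) m f) := by
  have := cm_comm (w := wF κ) (w' := wF κ) (fun m => m) (fun _ _ h => h)
    (cut L q).toLinearMap (fun _ _ hf => IW_cut hf) f m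
  simpa only [AlgHom.toLinearMap_apply] using this

theorem cm_dd {κ : L → Kd} (hκ : Naf κ) (q : ℕ) (f : RR L) (m : ℤ × ((L → ℕ) × ℕ)) :
    cm (wF κ) m (dd κ q f) = dd κ q (cm (wF κ) m f) :=
  cm_comm (w := wF κ) (w' := wF κ) (fun m => m) (fun _ _ h => h)
    (dd κ q) (fun _ _ hf => IW_dd (fun c h => absurd h (hκ c)) hf) f m

theorem cm_coarse {κ : L → Kd} (pr : ℤ × ((L → ℕ) × ℕ) →+ M') {f : RR L} {m' : M'}
    (hf : IW (fun v => pr (wF κ v)) f m') {m : ℤ × ((L → ℕ) × ℕ)} (hm : pr m ≠ m') :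
    cm (wF κ) m f = 0 := by
  classical
  ext e
  rw [coeff_weightedHomogeneousComponent, coeff_zero]
  split_ifs with he
  · by_contra hne
    have h1 := hf hne
    rw [wmap, he] at h1
    exact hm h1
  · rfl

theorem coarse_ex {κ : L → Kd} (hκ : Naf κ) (q : ℕ) (pr : ℤ × ((L → ℕ) × ℕ) →+ M') (m' : M')
    (hex : ∀ t ν j, pr (t, (ν, j)) = m' → Ex κ q t ν j) (f : RR L) (hc : cut L q f = f)
    (hw : IW (fun v => pr (wF κ v)) f m') (hd : dd κ q f = 0) :
    ∃ h, cut L (q - 1) h = h ∧ IW (fun v => pr (wF κ v)) h m' ∧ dm κ q h = f := by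
  classical
  have key : ∀ m, ∃ h, cut L (q - 1) h = h ∧ IW (fun v => pr (wF κ v)) h m' ∧
      dm κ q h = cm (wF κ) m f := by
    intro m
    by_cases hm : pr m = m'
    · obtain ⟨h, h1, h2⟩ := hex m.1 m.2.1 m.2.2 hm (cm (wF κ) m f)
        ⟨by rw [← cm_cut, hc], cm_IW _ _ _⟩ (by rw [← cm_dd hκ, hd, map_zero])
      refine ⟨h, h1.cu, ?_, h2⟩
      have := h1.iw.coarse pr
      rwa [show (m.1, (m.2.1, m.2.2)) = m from rfl, hm] at this
    · refine ⟨0, map_zero _, IW.zero' _ _, ?_⟩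
      rw [map_zero, cm_coarse pr hw hm]
  choose H hH using key
  obtain ⟨s, hs⟩ := cm_sum (wF κ) f
  refine ⟨∑ m ∈ s, H m, ?_, ?_, ?_⟩
  · rw [map_sum]
    exact sum_congr rfl fun m _ => (hH m).1
  · exact IsWeightedHomogeneous.sum _ _ _ fun m _ => (hH m).2.1
  · rw [map_sum]
    conv_rhs => rw [hs]
    exact sum_congr rfl fun m _ => (hH m).2.2

end coarse

section rename

variable {K L : Type}

/-- renaming of coordinates -/
noncomputable def RN (e : K → L) : RR K →ₐ[ZMod 2] RR L :=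
  aeval (fun v => match v with
    | .x a n => X (.x a n)
    | .s a n => X (.s a n)
    | .y c n => X (.y (e c) n))

theorem RN_x (e : K → L) (a n : ℕ) : RN e (X (.x a n)) = X (.x a n) := aeval_X _ _
theorem RN_s (e : K → L) (a n : ℕ) : RN e (X (.s a n)) = X (.s a n) := aeval_X _ _
theorem RN_y (e : K → L) (c : K) (n : ℕ) : RN e (X (.y c n)) = X (.y (e c) n) := aeval_X _ _

theorem RN_co (e : K → L) (z : Pt L (RR L)) (v : Vr K) :
    ev z (RN e (X v)) = co (mp id (fun y c => y (e c)) z : Pt K (RR L)) v := by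
  cases v with
  | x a n => rw [RN_x, ev_X]; rfl
  | s a n => rw [RN_s, ev_X]; rfl
  | y c n => rw [RN_y, ev_X]; rfl

theorem RN_dd (e : K → L) {κ1 : K → Kd} {κ2 : L → Kd} (h : ∀ c, κ2 (e c) = κ1 c) (q : ℕ)
    (f : RR K) : RN e (dd κ1 q f) = dd κ2 q (RN e f) :=
  hom_dd (RN e) κ1 κ2 id (fun y c => y (e c)) (fun _ _ => rfl) (by
    intro g y
    funext c
    simp only [act, h, id]) (RN_co e) q f

theorem RN_dm (e : K → L) {κ1 : K → Kd} {κ2 : L → Kd} (h : ∀ c, κ2 (e c) = κ1 c) (q : ℕ)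
    (f : RR K) : RN e (dm κ1 q f) = dm κ2 q (RN e f) :=
  hom_dm (RN e) κ1 κ2 id (fun y c => y (e c)) (fun _ _ => rfl) (by
    intro g y
    funext c
    simp only [act, h, id]) (RN_co e) q f

theorem RN_cut (e : K → L) (q : ℕ) (f : RR K) : RN e (cut K q f) = cut L q (RN e f) :=
  hom_cut (RN e) id (fun y c => y (e c)) rfl (RN_co e) q f

theorem RN_RN (e : K → L) (e' : L → K) (h : ∀ c, e' (e c) = c) (f : RR K) :
    RN e' (RN e f) = f := by
  have : (RN e').comp (RN e) = AlgHom.id (ZMod 2) (RR K) := by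
    apply algHom_ext
    intro v
    rw [AlgHom.comp_apply, AlgHom.id_apply]
    cases v with
    | x a n => rw [RN_x, RN_x]
    | s a n => rw [RN_s, RN_s]
    | y c n => rw [RN_y, RN_y, h]
  exact DFunLike.congr_fun this f

/-- weights under an equivalence -/
def pQ (e : K ≃ L) : ℤ × ((K → ℕ) × ℕ) →+ ℤ × ((L → ℕ) × ℕ) where
  toFun m := (m.1, (fun c => m.2.1 (e.symm c), m.2.2))
  map_zero' := rfl
  map_add' _ _ := rfl

theorem ee_equiv (e : K ≃ L) (c : K) : (fun c' => ee c (e.symm c')) = ee (e c) := by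
  funext c'
  by_cases h : c' = e c
  · subst h; rw [Equiv.symm_apply_apply, ee_self, ee_self]
  · rw [ee_ne h, ee_ne]
    intro h2
    apply h
    rw [← h2, Equiv.apply_symm_apply]

theorem TT.RN (e : K ≃ L) {κ : L → Kd} {q : ℕ} {t : ℤ} {ν : K → ℕ} {j : ℕ} {f : RR K}
    (hf : TT (fun c => κ (e c)) q t ν j f) :
    TT κ q t (fun c => ν (e.symm c)) j (RN e f) := by
  refine ⟨by rw [← RN_cut, hf.cu], ?_⟩
  refine IW.aeval' (pQ e) (Stz.RN e) (w := wF (fun c => κ (e c))) (w' := wF κ) ?_ hf.iw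
  intro v
  cases v with
  | x a n => rw [RN_x]; exact isWeightedHomogeneous_X _ _ _
  | s a n => rw [RN_s]; exact isWeightedHomogeneous_X _ _ _
  | y c n =>
    rw [RN_y]
    have := isWeightedHomogeneous_X (ZMod 2) (wF κ) (Vr.y (e c) n)
    have h2 : wF κ (Vr.y (e c) n) = pQ e (wF (fun c => κ (e c)) (Vr.y c n)) := by
      refine Prod.ext rfl (Prod.ext ?_ rfl)
      exact (ee_equiv e c).symm
    rwa [h2] at this

theorem Ex_equiv (e : K ≃ L) {k : Kd} {q : ℕ} {t : ℤ} {ν : L → ℕ} {j : ℕ}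
    (h : Ex (fun _ : K => k) q t (fun c => ν (e c)) j) : Ex (fun _ : L => k) q t ν j := by
  intro f hf hdf
  have h1 : TT (fun _ : K => k) q t (fun c => ν (e c)) j (RN e.symm f) := by
    have := TT.RN e.symm (κ := fun _ : K => k) (f := f) (ν := ν) (q := q) (t := t) (j := j)
      ⟨hf.cu, hf.iw⟩
    exact this
  obtain ⟨h2, hh1, hh2⟩ := h _ h1 (by
    rw [← RN_dd (κ1 := fun _ : L => k) (κ2 := fun _ : K => k) e.symm (fun _ => rfl), hdf,
      map_zero])
  have h3 := TT.RN e (κ := fun _ : L => k) (f := h2) (ν := fun c => ν (e c)) (q := q - 1)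
    (t := t) (j := j) ⟨hh1.cu, hh1.iw⟩
  have h4 : (fun c => ν (e (e.symm c))) = ν := by
    funext c; rw [Equiv.apply_symm_apply]
  simp only [h4] at h3
  refine ⟨RN e h2, h3, ?_⟩
  rw [← RN_dm (κ1 := fun _ : K => k) (κ2 := fun _ : L => k) e (fun _ => rfl), hh2]
  exact RN_RN e.symm e (fun c => e.apply_symm_apply c) f

end rename

end Pool.Agent.W624.Stz
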