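import Mathlib

set_option autoImplicit false
set_option linter.unusedSectionVars false

namespace Pool.Agent.W624.Stz

open Finset

section basic

variable {A : Type*} [CommRing A] [Algebra (ZMod 2) A]

theorem two_zero : (2 : A) = 0 := by
  have h := congrArg (algebraMap (ZMod 2) A) (show (2 : ZMod 2) = 0 from rfl)
  rwa [map_ofNat, map_zero] at h

theorem add_self0 (a : A) : a + a = 0 := by rw [← two_mul, two_zero, zero_mul]

theorem neg_eq0 (a : A) : -a = a := by
  rw [neg_eq_iff_add_eq_zero]; exact add_self0 a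

theorem eq_of_add_zero {a b : A} (h : a + b = 0) : a = b := by
  rw [← neg_eq0 b]; exact eq_neg_of_add_eq_zero_left h

theorem add_sq0 (a b : A) : (a + b) ^ 2 = a ^ 2 + b ^ 2 := by
  have : (a + b) ^ 2 = a ^ 2 + b ^ 2 + 2 * (a * b) := by ring
  rw [this, two_zero, zero_mul, add_zero]

theorem add_pow0 (a b : A) (i : ℕ) : (a + b) ^ (2 ^ i) = a ^ (2 ^ i) + b ^ (2 ^ i) := by
  induction i with
  | zero => simp
  | succ i ih => rw [pow_succ, pow_mul, ih, add_sq0, ← pow_mul, ← pow_mul]

theorem sum_pow0 {ι : Type*} (s : Finset ι) (f : ι → A) (i : ℕ) :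
    (∑ x ∈ s, f x) ^ (2 ^ i) = ∑ x ∈ s, f x ^ (2 ^ i) := by
  classical
  induction s using Finset.induction_on with
  | empty => simp
  | insert a s ha ih => rw [sum_insert ha, sum_insert ha, add_pow0, ih]

theorem sum_sq0 {ι : Type*} (s : Finset ι) (f : ι → A) :
    (∑ x ∈ s, f x) ^ 2 = ∑ x ∈ s, f x ^ 2 := by
  have := sum_pow0 s f 1
  simpa using this

/-- composition product of additive series -/
def op (a b : ℕ → A) : ℕ → A :=
  fun n => ∑ p ∈ antidiagonal n, a p.1 ^ (2 ^ p.2) * b p.2

/-- coordinatewise square -/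
def fr (a : ℕ → A) : ℕ → A := fun n => a n ^ 2

/-- unit -/
def e1 : ℕ → A := fun n => if n = 0 then 1 else 0

/-- shift -/
def tl (a : ℕ → A) : ℕ → A := fun n => a (n + 1)

theorem op_zero_coord (a b : ℕ → A) : op a b 0 = a 0 * b 0 := by
  simp [op]

theorem op_add (a b c : ℕ → A) : op a (b + c) = op a b + op a c := by
  funext n
  simp [op, mul_add, sum_add_distrib]

theorem op_zero (a : ℕ → A) : op a 0 = 0 := by
  funext n
  simp [op]

theorem op_mul_left (a b : ℕ → A) (c : A) : op a (fun n => c * b n) = fun n => c * op a b n := by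
  funext n
  simp only [op, mul_sum]
  exact sum_congr rfl fun p _ => by ring

theorem e1_op (b : ℕ → A) : op e1 b = b := by
  funext n
  have : ∀ p ∈ antidiagonal n, (e1 p.1 : A) ^ (2 ^ p.2) * b p.2
      = if p = (0, n) then b n else 0 := by
    intro p hp
    rw [HasAntidiagonal.mem_antidiagonal] at hp
    by_cases h : p.1 = 0
    · have hp' : p = (0, n) := by
        ext
        · exact h
        · simp; omega
      rw [if_pos hp', hp']
      simp [e1]
    · have hp' : p ≠ (0, n) := by
        intro hh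
        rw [hh] at h
        exact h rfl
      rw [if_neg hp']
      simp [e1, h]
  rw [op, sum_congr rfl this, sum_ite_eq']
  simp

theorem op_e1 (a : ℕ → A) : op a e1 = a := by
  funext n
  have : ∀ p ∈ antidiagonal n, (a p.1 : A) ^ (2 ^ p.2) * e1 p.2
      = if p = (n, 0) then a n else 0 := by
    intro p hp
    rw [HasAntidiagonal.mem_antidiagonal] at hp
    by_cases h : p.2 = 0
    · have hp' : p = (n, 0) := by
        ext
        · simp; omega
        · exact h
      rw [if_pos hp', hp']
      simp [e1]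
    · have hp' : p ≠ (n, 0) := by
        intro hh
        rw [hh] at h
        exact h rfl
      rw [if_neg hp']
      simp [e1, h]
  rw [op, sum_congr rfl this, sum_ite_eq']
  simp

theorem op_assoc (a b c : ℕ → A) : op (op a b) c = op a (op b c) := by
  funext n
  simp only [op, sum_pow0, sum_mul, mul_sum]
  rw [sum_sigma', sum_sigma']
  refine sum_bij' (fun x _ => ⟨(x.2.1, x.2.2 + x.1.2), (x.2.2, x.1.2)⟩)
    (fun x _ => ⟨(x.1.1 + x.2.1, x.2.2), (x.1.1, x.2.1)⟩) ?_ ?_ ?_ ?_ ?_
  · rintro ⟨⟨i, j⟩, ⟨k, l⟩⟩ h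
    simp only [mem_sigma, HasAntidiagonal.mem_antidiagonal] at h ⊢
    obtain ⟨h1, h2⟩ := h
    constructor
    · omega
    · trivial
  · rintro ⟨⟨i, j⟩, ⟨k, l⟩⟩ h
    simp only [mem_sigma, HasAntidiagonal.mem_antidiagonal] at h ⊢
    obtain ⟨h1, h2⟩ := h
    constructor
    · omega
    · trivial
  · rintro ⟨⟨i, j⟩, ⟨k, l⟩⟩ h
    simp only [mem_sigma, HasAntidiagonal.mem_antidiagonal] at h ⊢
    obtain ⟨h1, rfl⟩ := h
    simp
  · rintro ⟨⟨i, j⟩, ⟨k, l⟩⟩ h
    simp only [mem_sigma, HasAntidiagonal.mem_antidiagonal] at h ⊢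
    obtain ⟨h1, rfl⟩ := h
    simp
  · rintro ⟨⟨i, j⟩, ⟨k, l⟩⟩ h
    simp only
    rw [mul_pow, ← pow_mul, ← pow_add, mul_assoc]

theorem fr_op (a b : ℕ → A) : fr (op a b) = op (fr a) (fr b) := by
  funext n
  simp only [fr, op, sum_sq0]
  refine sum_congr rfl fun p _ => ?_
  rw [mul_pow, ← pow_mul, ← pow_mul, mul_comm (2 ^ p.2) 2]

theorem fr_e1 : fr (e1 : ℕ → A) = e1 := by
  funext n
  by_cases h : n = 0 <;> simp [fr, e1, h]

theorem fr_add (a b : ℕ → A) : fr (a + b) = fr a + fr b := by
  funext n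
  simp [fr, add_sq0]

theorem tl_op (g y : ℕ → A) :
    tl (op g y) = op (fr g) (tl y) + fun n => y 0 * g (n + 1) := by
  funext n
  simp only [tl, op, fr, Pi.add_apply]
  rw [Nat.sum_antidiagonal_succ']
  rw [add_comm]
  congr 1
  · refine sum_congr rfl fun p _ => ?_
    rw [← pow_mul, ← pow_succ']
  · simp [mul_comm]

end basic

/-- Points of the tangent group. -/
@[ext] structure Tg (A : Type*) [CommRing A] where
  g : ℕ → A
  s : ℕ → A
  h : g 0 = 1

/-- kinds of coefficient coordinates -/
inductive Kd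
  | un
  | tw
  | af

section pts

variable {A : Type*} [CommRing A] [Algebra (ZMod 2) A] {K : Type*}

instance : Mul (Tg A) where
  mul a b := ⟨op a.g b.g, op (fr a.g) b.s + a.s, by rw [op_zero_coord, a.h, b.h, one_mul]⟩

instance : One (Tg A) where
  one := ⟨e1, 0, by simp [e1]⟩

theorem mul_g (a b : Tg A) : (a * b).g = op a.g b.g := rfl
theorem mul_s (a b : Tg A) : (a * b).s = op (fr a.g) b.s + a.s := rfl
theorem one_g : (1 : Tg A).g = e1 := rfl
theorem one_s : (1 : Tg A).s = 0 := rfl

instance : Monoid (Tg A) where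
  mul_assoc a b c := by
    apply Tg.ext
    · simp only [mul_g, op_assoc]
    · simp only [mul_g, mul_s, op_add, fr_op, op_assoc, add_assoc]
  one_mul a := by
    apply Tg.ext
    · simp only [mul_g, one_g, e1_op]
    · simp only [mul_s, one_g, one_s, fr_e1, e1_op, add_zero]
  mul_one a := by
    apply Tg.ext
    · simp only [mul_g, one_g, op_e1]
    · simp only [mul_s, one_s, op_zero, zero_add]

/-- action on one coordinate -/
def act1 (k : Kd) (γ : Tg A) (y : ℕ → A) : ℕ → A :=
  match k with
  | .un => op γ.g y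
  | .tw => op (fr γ.g) y
  | .af => op (fr γ.g) y + γ.s

theorem act1_mul (k : Kd) (a b : Tg A) (y : ℕ → A) :
    act1 k (a * b) y = act1 k a (act1 k b y) := by
  cases k
  · simp only [act1, mul_g, op_assoc]
  · simp only [act1, mul_g, fr_op, op_assoc]
  · simp only [act1, mul_g, mul_s, fr_op, op_assoc, op_add, add_assoc]

/-- the action -/
def act (κ : K → Kd) (γ : Tg A) (z : K → ℕ → A) : K → ℕ → A :=
  fun c => act1 (κ c) γ (z c)

theorem act_mul (κ : K → Kd) (a b : Tg A) (z : K → ℕ → A) :
    act κ (a * b) z = act κ a (act κ b z) := by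
  funext c
  exact act1_mul (κ c) a b (z c)

/-- linear part of a group element -/
def lin (γ : Tg A) : Tg A := ⟨γ.g, 0, γ.h⟩

/-- base point -/
def bs (z : Option K → ℕ → A) : Option K → ℕ → A :=
  fun o => match o with
  | none => 0
  | some c => z (some c)

/-- translation part -/
def tr (z : Option K → ℕ → A) : Tg A := ⟨e1, z none, by simp [e1]⟩

/-- kind function with an affine extra coordinate -/
def kE : Option K → Kd :=
  fun o => match o with
  | none => .af
  | some _ => .tw

theorem lin_mul (a b : Tg A) : lin (a * b) = lin a * lin b := by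
  apply Tg.ext
  · rfl
  · simp [lin, mul_s, op_zero]

theorem tr_act (z : Option K → ℕ → A) : act kE (tr z) (bs z) = z := by
  funext o
  cases o with
  | none => simp only [act, act1, kE, tr, bs, fr_e1, e1_op, zero_add]
  | some c => simp only [act, act1, kE, tr, bs, fr_e1, e1_op]

theorem tr_lin (γ : Tg A) (z : Option K → ℕ → A) :
    tr (act kE γ z) * lin γ = γ * tr z := by
  apply Tg.ext
  · simp only [tr, lin, mul_g, e1_op, op_e1]
  · simp only [tr, lin, mul_s, act, act1, kE, fr_e1, e1_op, zero_add]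

theorem bs_act (γ : Tg A) (z : Option K → ℕ → A) :
    bs (act kE γ z) = act kE (lin γ) (bs z) := by
  funext o
  cases o with
  | none => simp only [bs, act, act1, kE, lin, op_zero, add_zero]
  | some c => rfl

end pts

end Pool.Agent.W624.Stz
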