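import Pool.Agent.W624.StzWG

set_option autoImplicit false
set_option linter.unusedSectionVars false

namespace Pool.Agent.W624.Stz

open Finset MvPolynomial

section defs

variable {K : Type}

/-- indicator -/
noncomputable def ee (c : K) : K → ℕ := by
  classical exact fun c' => if c' = c then 1 else 0

theorem ee_self (c : K) : ee c c = 1 := by simp [ee]
theorem ee_ne {c c' : K} (h : c' ≠ c) : ee c c' = 0 := by simp [ee, h]

/-- fine weights -/
noncomputable def wF (κ : K → Kd) : Vr K → ℤ × ((K → ℕ) × ℕ) :=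
  wG κ (fun c => (ee c, 0)) (0, 1)

/-- members of the complexes -/
structure TT (κ : K → Kd) (q : ℕ) (t : ℤ) (ν : K → ℕ) (j : ℕ) (f : RR K) : Prop where
  cu : cut K q f = f
  iw : IW (wF κ) f (t, (ν, j))

/-- exactness -/
def Ex (κ : K → Kd) (q : ℕ) (t : ℤ) (ν : K → ℕ) (j : ℕ) : Prop :=
  ∀ f, TT κ q t ν j f → dd κ q f = 0 → ∃ h, TT κ (q - 1) t ν j h ∧ dm κ q h = f

/-- all untwisted -/
def kun : K → Kd := fun _ => .un
/-- all twisted -/
def ktw : K → Kd := fun _ => .tw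

/-- no affine coordinate -/
def Naf (κ : K → Kd) : Prop := ∀ c, κ c ≠ .af

theorem naf_un : Naf (kun : K → Kd) := fun _ h => Kd.noConfusion h
theorem naf_tw : Naf (ktw : K → Kd) := fun _ h => Kd.noConfusion h

variable {κ : K → Kd} {q : ℕ} {t : ℤ} {ν : K → ℕ} {j : ℕ} {f g : RR K}

theorem TT.add (hf : TT κ q t ν j f) (hg : TT κ q t ν j g) : TT κ q t ν j (f + g) :=
  ⟨by rw [map_add, hf.cu, hg.cu], hf.iw.add hg.iw⟩

theorem TT.zero : TT κ q t ν j 0 := ⟨map_zero _, IW.zero' _ _⟩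

theorem TT.sub (hf : TT κ q t ν j f) (hg : TT κ q t ν j g) : TT κ q t ν j (f - g) :=
  ⟨by rw [map_sub, hf.cu, hg.cu], hf.iw.sub hg.iw⟩

theorem TT.dd (hκ : Naf κ) (hf : TT κ q t ν j f) : TT κ (q + 1) t ν j (dd κ q f) :=
  ⟨cut_dd κ hf.cu, IW_dd (fun c h => absurd h (hκ c)) hf.iw⟩

theorem TT.dm (hκ : Naf κ) (hf : TT κ (q - 1) t ν j f) : TT κ q t ν j (dm κ q f) :=
  ⟨cut_dm κ hf.cu, IW_dm (fun c h => absurd h (hκ c)) hf.iw⟩

theorem TT.DX (hf : TT κ q t ν j f) : TT κ q (t + 1) ν (j + 1) (DX K f) := by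
  refine ⟨by rw [← DX_cut, hf.cu], ?_⟩
  have := IW_DX hf.iw
  rw [show ((t, (ν, j)) : ℤ × ((K → ℕ) × ℕ)) + (1, ((0 : K → ℕ), 1)) = (t + 1, (ν, j + 1))
    by simp] at this
  exact this

theorem DX_exact (hf : TT ktw q (t + 1) ν (j + 1) f) (hD : DX K f = 0) :
    ∃ h, TT ktw q t ν j h ∧ DX K h = f := by
  let pr : ℤ × ((K → ℕ) × ℕ) →+ ℕ := (AddMonoidHom.snd (K → ℕ) ℕ).comp (AddMonoidHom.snd ℤ _)
  have h1 := IW.coarse pr hf.iw
  obtain ⟨h0, hh0⟩ := dr_exact (I := ℕ × ℕ) (a := fun i => (Vr.x i.1 i.2 : Vr K))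
    (b := fun i => (Vr.s i.1 i.2 : Vr K)) (fun i j h => by cases h)
    (fun i j h => by
      simp only [Vr.s.injEq] at h
      exact Prod.ext h.1 h.2) (DX K) (fun i => DX_x _ _) (by
      intro v hv
      cases v with
      | x a n => exact absurd rfl (hv (a, n))
      | s a n => exact DX_s a n
      | y c n => exact DX_y c n) (fun v => pr (wF ktw v)) (by
      intro v hv
      cases v with
      | x a n => exact absurd rfl hv
      | s a n => exact ⟨(a, n), rfl⟩
      | y c n => exact absurd rfl hv) j f hD h1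
  refine ⟨cm (wF ktw) (t, (ν, j)) (cut K q h0), ⟨?_, cm_IW _ _ _⟩, ?_⟩
  · have := cm_comm (w := wF (ktw : K → Kd)) (w' := wF ktw) (fun m => m) (fun a b h => h)
      (cut K q).toLinearMap (fun f m hf => IW_cut hf) (cut K q h0) (t, (ν, j))
    simp only [AlgHom.toLinearMap_apply] at this
    rw [← this, cut_cut]
  · have := cm_comm (w := wF (ktw : K → Kd)) (w' := wF ktw) (fun m => m + (1, ((0 : K → ℕ), 1)))
      (add_left_injective _)
      (DX K).toLinearMap (fun f m hf => IW_DX hf) (cut K q h0) (t, (ν, j))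
    change cm (wF ktw) _ (DX K (cut K q h0)) = DX K (cm (wF ktw) _ (cut K q h0)) at this
    rw [← this, DX_cut, hh0, hf.cu]
    apply cm_same
    have h2 := hf.iw
    simpa using h2

theorem liftT {y : RR K} (hy : TT ktw q t ν 0 y) (hD : DX K (dd ktw q y) = 0)
    (hex : ∀ k : ℕ, k ≤ q → Ex (ktw : K → Kd) (q - k) (t + 1 + k) ν (1 + k)) :
    ∃ g h, TT ktw q t ν 0 g ∧ DX K g = 0 ∧ dd ktw q g = dd ktw q y ∧
      TT ktw (q - 1) t ν 0 h ∧ y = g + dm ktw q h := by
  have := lift_lemma (R := RR K) (fun q j f => TT ktw q (t + j) ν j f)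
    (fun q => (dd ktw q).toAddMonoidHom) (fun q => (dm ktw q).toAddMonoidHom)
    (DX K).toLinearMap.toAddMonoidHom rfl (fun q => rfl) (fun q j f g hf hg => hf.sub hg)
    (fun q j f hf => hf.dd naf_tw) (fun q j f hf => by
      have := hf.DX
      have h2 : t + (j : ℤ) + 1 = t + ((j + 1 : ℕ) : ℤ) := by push_cast; ring
      rw [h2] at this
      exact this) (fun f => DX_DX f) (fun q f => DX_dd q f)
    (fun q j f hf => dd_dd ktw hf.cu) (fun q j f hf hD => by
      have h2 : t + ((j + 1 : ℕ) : ℤ) = t + (j : ℤ) + 1 := by push_cast; ring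
      rw [h2] at hf
      exact DX_exact hf hD) q 0 y (by simpa using hy) hD (by
      intro k hk f hf hdf
      have h3 := hex k hk
      have h2 : t + ((0 + 1 + k : ℕ) : ℤ) = t + 1 + k := by push_cast; ring
      rw [h2, zero_add] at hf
      obtain ⟨h, hh1, hh2⟩ := h3 f hf hdf
      refine ⟨h, ?_, hh2⟩
      change TT ktw (q - k - 1) (t + ((0 + 1 + k : ℕ) : ℤ)) ν (0 + 1 + k) h
      rw [h2, zero_add]
      exact hh1)
  obtain ⟨g, h, h1, h2, h3, h4, h5⟩ := this
  refine ⟨g, h, ?_, h2, h3, ?_, h5⟩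
  · simpa using h1
  · simpa using h4

end defs

section phi

variable {K : Type}

/-- s-kill -/
noncomputable def sk (K : Type) : RR K →ₐ[ZMod 2] RR K :=
  aeval (fun v => match v with
    | .x a n => X (.x a n)
    | .s _ _ => 0
    | .y c n => X (.y c n))

theorem sk_x (a n : ℕ) : sk K (X (.x a n)) = X (.x a n) := aeval_X _ _
theorem sk_s (a n : ℕ) : sk K (X (.s a n)) = 0 := aeval_X _ _
theorem sk_y (c : K) (n : ℕ) : sk K (X (.y c n)) = X (.y c n) := aeval_X _ _

/-- s-degree -/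
def js (K : Type) : Vr K → ℕ
  | .x _ _ => 0
  | .s _ _ => 1
  | .y _ _ => 0

theorem TT.jsw {κ : K → Kd} {q : ℕ} {t : ℤ} {ν : K → ℕ} {j : ℕ} {f : RR K}
    (hf : TT κ q t ν j f) : IW (js K) f j := by
  let pr : ℤ × ((K → ℕ) × ℕ) →+ ℕ := (AddMonoidHom.snd (K → ℕ) ℕ).comp (AddMonoidHom.snd ℤ _)
  have h1 := IW.coarse pr hf.iw
  have h2 : (fun v => pr (wF κ v)) = js K := by
    funext v
    cases v <;> rfl
  rwa [h2] at h1

/-- two homs agreeing on x (small slots) and y agree on s-free elements -/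
theorem hom_congr {L : Type} {κ : K → Kd} {q : ℕ} {t : ℤ} {ν : K → ℕ} {f : RR K}
    (hf : TT κ q t ν 0 f) (θ1 θ2 : RR K →ₐ[ZMod 2] RR L)
    (hx : ∀ a n, a < q → θ1 (X (.x a n)) = θ2 (X (.x a n)))
    (hy : ∀ c n, θ1 (X (.y c n)) = θ2 (X (.y c n))) : θ1 f = θ2 f := by
  rw [← hf.cu]
  have := hom_eq_of_IW (θ1.comp (cut K q)) (θ2.comp (cut K q)) (js K) hf.jsw (by
    intro v hv
    rw [AlgHom.comp_apply, AlgHom.comp_apply]
    have hc : ∀ v : Vr K, cut K q (X v) = co (cpt q (uni K)) v := fun v => ev_X _ v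
    rw [hc]
    cases v with
    | x a n =>
      simp only [co, cpt]
      split_ifs with h
      · exact hx a n h
      · simp only [one_g, e1]
        rw [if_neg (by omega), map_zero, map_zero]
    | s a n => exact absurd hv (by simp [js])
    | y c n => exact hy c n)
  exact this

theorem sk_TT {κ : K → Kd} {q : ℕ} {t : ℤ} {ν : K → ℕ} {f : RR K}
    (hf : TT κ q t ν 0 f) : sk K f = f :=
  hom_congr hf (sk K) (AlgHom.id _ _) (fun _ _ _ => sk_x _ _) (fun _ _ => sk_y _ _)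

/-- Frobenius on the group -/
noncomputable def PHI (K : Type) : RR K →ₐ[ZMod 2] RR K :=
  aeval (fun v => match v with
    | .x a n => X (.x a n) ^ 2
    | .s a n => X (.s a n) ^ 2
    | .y c n => X (.y c n))

theorem PHI_x (a n : ℕ) : PHI K (X (.x a n)) = X (.x a n) ^ 2 := aeval_X _ _
theorem PHI_s (a n : ℕ) : PHI K (X (.s a n)) = X (.s a n) ^ 2 := aeval_X _ _
theorem PHI_y (c : K) (n : ℕ) : PHI K (X (.y c n)) = X (.y c n) := aeval_X _ _

/-- complementary squaring -/
noncomputable def PHJ (K : Type) : RR K →ₐ[ZMod 2] RR K :=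
  aeval (fun v => match v with
    | .x a n => X (.x a n)
    | .s a n => X (.s a n)
    | .y c n => X (.y c n) ^ 2)

theorem PHJ_x (a n : ℕ) : PHJ K (X (.x a n)) = X (.x a n) := aeval_X _ _
theorem PHJ_s (a n : ℕ) : PHJ K (X (.s a n)) = X (.s a n) := aeval_X _ _
theorem PHJ_y (c : K) (n : ℕ) : PHJ K (X (.y c n)) = X (.y c n) ^ 2 := aeval_X _ _

theorem p2_add_sq {σ : Type*} (f g : P2 σ) : (f + g) ^ 2 = f ^ 2 + g ^ 2 := by
  have : (f + g) ^ 2 = f ^ 2 + g ^ 2 + (f * g + f * g) := by ring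
  rw [this, p2_add_self, add_zero]

theorem sq_of_hom {σ : Type*} (θ : P2 σ →ₐ[ZMod 2] P2 σ) (h : ∀ v, θ (X v) = X v ^ 2)
    (f : P2 σ) : θ f = f ^ 2 := by
  induction f using MvPolynomial.induction_on with
  | C a =>
    rw [algHom_C, algebraMap_eq, ← map_pow]
    congr 1
    revert a
    decide
  | add p q hp hq => rw [map_add, hp, hq, p2_add_sq]
  | mul_X p v hp => rw [map_mul, hp, h, mul_pow]

theorem PHJ_PHI (f : RR K) : PHJ K (PHI K f) = f ^ 2 := by
  have := sq_of_hom ((PHJ K).comp (PHI K)) (by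
    intro v
    rw [AlgHom.comp_apply]
    cases v with
    | x a n => rw [PHI_x, map_pow, PHJ_x]
    | s a n => rw [PHI_s, map_pow, PHJ_s]
    | y c n => rw [PHI_y, PHJ_y]) f
  exact this

theorem PHI_inj {f : RR K} (h : PHI K f = 0) : f = 0 := by
  have h1 := PHJ_PHI f
  rw [h, map_zero] at h1
  exact pow_eq_zero_iff (two_ne_zero) |>.mp h1.symm

/-- Frobenius on group points -/
def mFr {A : Type*} [CommRing A] (γ : Tg A) : Tg A := ⟨fr γ.g, fr γ.s, by simp [fr, γ.h]⟩

theorem mFr_mul {A : Type*} [CommRing A] [Algebra (ZMod 2) A] (a b : Tg A) :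
    mFr (a * b) = mFr a * mFr b := by
  apply Tg.ext
  · simp only [mFr, mul_g, fr_op]
  · simp only [mFr, mul_s, fr_add, fr_op]

theorem mFr_one {A : Type*} [CommRing A] [Algebra (ZMod 2) A] : mFr (1 : Tg A) = 1 := by
  apply Tg.ext
  · simp only [mFr, one_g, fr_e1]
  · funext n
    simp [mFr, one_s, fr]

theorem PHI_co (z : Pt K (RR K)) (v : Vr K) :
    ev z (PHI K (X v)) = co (mp mFr id z : Pt K (RR K)) v := by
  cases v with
  | x a n => rw [PHI_x, map_pow, ev_X]; rfl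
  | s a n => rw [PHI_s, map_pow, ev_X]; rfl
  | y c n => rw [PHI_y, ev_X]; rfl

theorem PHI_dd (q : ℕ) (f : RR K) : PHI K (dd kun q f) = dd ktw q (PHI K f) :=
  hom_dd (PHI K) kun ktw mFr id mFr_mul (fun _ _ => rfl) PHI_co q f

theorem PHI_dm (q : ℕ) (f : RR K) : PHI K (dm kun q f) = dm ktw q (PHI K f) :=
  hom_dm (PHI K) kun ktw mFr id mFr_mul (fun _ _ => rfl) PHI_co q f

theorem PHI_cut (q : ℕ) (f : RR K) : PHI K (cut K q f) = cut K q (PHI K f) :=
  hom_cut (PHI K) mFr id mFr_one PHI_co q f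

theorem DX_PHI (f : RR K) : DX K (PHI K f) = 0 := by
  have h := der_hom (PHI K) (0 : Derivation (ZMod 2) (RR K) (RR K)) (DX K) (by
    intro v
    rw [Derivation.zero_apply, map_zero]
    cases v with
    | x a n => rw [PHI_x, der_sq]
    | s a n => rw [PHI_s, der_sq]
    | y c n => rw [PHI_y, DX_y]) f
  rw [h, Derivation.zero_apply, map_zero]

/-- weight doubling -/
def dbl (N1 : Type) [AddCommMonoid N1] : ℤ × (N1 × ℕ) →+ ℤ × (N1 × ℕ) where
  toFun m := (2 * m.1, (m.2.1, 2 * m.2.2))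
  map_zero' := by simp
  map_add' a b := by
    refine Prod.ext ?_ (Prod.ext rfl ?_)
    · simp [mul_add]
    · simp [mul_add]

theorem dbl_inj (N1 : Type) [AddCommMonoid N1] : Function.Injective (dbl N1) := by
  intro a b h
  have h' := h
  simp only [dbl, AddMonoidHom.coe_mk, ZeroHom.coe_mk, Prod.mk.injEq] at h'
  refine Prod.ext ?_ (Prod.ext h'.2.1 ?_)
  · have := h'.1; omega
  · have := h'.2.2; omega

theorem IW_PHI {f : RR K} {m : ℤ × ((K → ℕ) × ℕ)} (hf : IW (wF kun) f m) :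
    IW (wF ktw) (PHI K f) (dbl _ m) := by
  refine IW.aeval' (dbl (K → ℕ)) (PHI K) (w := wF kun) (w' := wF ktw) ?_ hf
  intro v
  cases v with
  | x a n =>
    rw [PHI_x]
    have := (isWeightedHomogeneous_X (ZMod 2) (wF (ktw : K → Kd)) (Vr.x a n : Vr K)).pow 2
    have h2 : 2 • wF (ktw : K → Kd) (Vr.x a n) = dbl (K → ℕ) (wF kun (Vr.x a n)) := by
      refine Prod.ext ?_ (Prod.ext ?_ ?_) <;> simp [wF, wG, dbl]
    rwa [h2] at this
  | s a n =>
    rw [PHI_s]
    have := (isWeightedHomogeneous_X (ZMod 2) (wF (ktw : K → Kd)) (Vr.s a n : Vr K)).pow 2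
    have h2 : 2 • wF (ktw : K → Kd) (Vr.s a n) = dbl (K → ℕ) (wF kun (Vr.s a n)) := by
      refine Prod.ext ?_ (Prod.ext ?_ ?_) <;> simp [wF, wG, dbl]
    rwa [h2] at this
  | y c n =>
    rw [PHI_y]
    have := (isWeightedHomogeneous_X (ZMod 2) (wF (ktw : K → Kd)) (Vr.y c n : Vr K))
    have h2 : wF (ktw : K → Kd) (Vr.y c n) = dbl (K → ℕ) (wF kun (Vr.y c n)) := by
      refine Prod.ext ?_ (Prod.ext ?_ ?_)
      · simp [wF, wG, dbl, tk, ktw, kun, pow_succ']
      · simp [wF, wG, dbl]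
      · simp [wF, wG, dbl]
    rwa [h2] at this

theorem PHI_root {q : ℕ} {t : ℤ} {ν : K → ℕ} {f : RR K} (hf : TT ktw q t ν 0 f)
    (hD : DX K f = 0) :
    f = 0 ∨ ∃ t', t = 2 * t' ∧ ∃ z, TT kun q t' ν 0 z ∧ PHI K z = f := by
  classical
  have h1 : ∀ a n, pderiv (Vr.x a n : Vr K) f = 0 := by
    intro a n
    exact dr_zero (I := ℕ × ℕ) (a := fun i => (Vr.x i.1 i.2 : Vr K))
      (b := fun i => (Vr.s i.1 i.2 : Vr K)) (fun i j h => by cases h)
      (fun i j h => by
        simp only [Vr.s.injEq] at h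
        exact Prod.ext h.1 h.2) (DX K) (fun i => DX_x _ _) (by
        intro v hv
        cases v with
        | x a n => exact absurd rfl (hv (a, n))
        | s a n => exact DX_s a n
        | y c n => exact DX_y c n) (js K) (fun i => one_ne_zero) f hD hf.jsw (a, n)
  obtain ⟨z0, hz0⟩ := sq_root (fun v : Vr K => ∃ a n, v = Vr.x a n) f (by
    rintro v ⟨a, n, rfl⟩
    exact h1 a n)
  have h2 : PHI K (cut K q (sk K z0)) = f := by
    rw [PHI_cut]
    have h3 : PHI K (sk K z0) = f := by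
      have h4 := congrArg (sk K) hz0
      rw [sk_TT hf] at h4
      rw [← h4]
      have h5 : (PHI K).comp (sk K) = (sk K).comp
          (aeval (fun v => if ∃ a n, v = Vr.x a n then (X v : RR K) ^ 2 else X v)) := by
        apply algHom_ext
        intro v
        rw [AlgHom.comp_apply, AlgHom.comp_apply, aeval_X]
        cases v with
        | x a n =>
          rw [if_pos ⟨a, n, rfl⟩, sk_x, PHI_x, map_pow, sk_x]
        | s a n =>
          rw [if_neg (by rintro ⟨a, n, h⟩; cases h), sk_s, map_zero]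
        | y c n =>
          rw [if_neg (by rintro ⟨a, n, h⟩; cases h), sk_y, PHI_y]
      exact DFunLike.congr_fun h5 z0
    rw [h3, hf.cu]
  set z1 := cut K q (sk K z0) with hz1
  have hcz1 : cut K q z1 = z1 := cut_cut _ _
  rcases Int.even_or_odd' t with ⟨t', ht | ht⟩
  · right
    refine ⟨t', ht, cm (wF kun) (t', (ν, 0)) z1, ⟨?_, cm_IW _ _ _⟩, ?_⟩
    · have := cm_comm (w := wF (kun : K → Kd)) (w' := wF kun) (fun m => m) (fun a b h => h)
        (cut K q).toLinearMap (fun f m hf => IW_cut hf) z1 (t', (ν, 0))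
      simp only [AlgHom.toLinearMap_apply] at this
      rw [← this, hcz1]
    · have := cm_comm (w := wF (kun : K → Kd)) (w' := wF ktw) (dbl (K → ℕ)) (dbl_inj _)
        (PHI K).toLinearMap (fun f m hf => IW_PHI hf) z1 (t', (ν, 0))
      simp only [AlgHom.toLinearMap_apply] at this
      rw [← this, h2]
      apply cm_same
      have h3 := hf.iw
      rw [ht] at h3
      exact h3
  · left
    have := cm_notin (w := wF (kun : K → Kd)) (w' := wF ktw) (dbl (K → ℕ)) (t, (ν, 0)) (by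
      intro m hm
      have h3 := congrArg Prod.fst hm
      simp only [dbl, AddMonoidHom.coe_mk, ZeroHom.coe_mk] at h3
      omega)
      (PHI K).toLinearMap (fun f m hf => IW_PHI hf) z1
    simp only [AlgHom.toLinearMap_apply] at this
    rw [h2, cm_same hf.iw] at this
    exact this

end phi

end Pool.Agent.W624.Stz
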