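import Pool.Agent.W624.StzPoly

set_option autoImplicit false
set_option linter.unusedSectionVars false

namespace Pool.Agent.W624.Stz

open Finset MvPolynomial

section general

variable {σ τ : Type*}

theorem hom_eq_of_IW (θ1 θ2 : P2 σ →ₐ[ZMod 2] P2 τ) (js : σ → ℕ) {f : P2 σ}
    (hf : IW js f 0) (h : ∀ v, js v = 0 → θ1 (X v) = θ2 (X v)) : θ1 f = θ2 f := by
  have := hom_congr_vars (f₁ := (θ1 : P2 σ →+* P2 τ)) (f₂ := (θ2 : P2 σ →+* P2 τ))
      (p₁ := f) (p₂ := f) (by ext a; simp) (fun v hv _ => ?_) rfl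
  · exact this
  · apply h
    obtain ⟨e, he, hev⟩ := mem_vars_iff_mem_support _ |>.mp hv
    have h1 := hf (mem_support_iff.mp he)
    rw [Finsupp.weight_apply, Finsupp.sum, sum_eq_zero_iff] at h1
    have h2 := h1 _ hev
    rw [smul_eq_mul, mul_eq_zero] at h2
    rcases h2 with h2 | h2
    · exact absurd h2 (Finsupp.mem_support_iff.mp hev)
    · exact h2

variable {N : Type*} [AddCommMonoid N]

theorem IW_op {w : σ → ℤ × N} {a b : ℕ → P2 σ} (e δ : ℤ) (ν : N)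
    (ha : ∀ p, IW w (a p) (e * (2 ^ p - 1), 0)) (hb : ∀ i, IW w (b i) (e * 2 ^ i + δ, ν))
    (n : ℕ) : IW w (op a b n) (e * 2 ^ n + δ, ν) := by
  apply IsWeightedHomogeneous.sum
  intro p hp
  rw [HasAntidiagonal.mem_antidiagonal] at hp
  have h := ((ha p.1).pow (2 ^ p.2)).mul (hb p.2)
  have h1 : 2 ^ p.2 • (e * (2 ^ p.1 - 1), (0 : N)) + (e * 2 ^ p.2 + δ, ν)
      = (e * 2 ^ n + δ, ν) := by
    refine Prod.ext ?_ ?_
    · simp only [Prod.smul_mk, Prod.mk_add_mk, nsmul_eq_mul, Nat.cast_pow, Nat.cast_ofNat]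
      rw [← hp, pow_add]
      ring
    · simp
  rwa [h1] at h

theorem IW_fr {w : σ → ℤ × N} {a : ℕ → P2 σ} (e : ℤ)
    (ha : ∀ p, IW w (a p) (e * (2 ^ p - 1), 0)) (p : ℕ) :
    IW w (fr a p) ((2 * e) * (2 ^ p - 1), 0) := by
  have h := (ha p).pow 2
  have h1 : 2 • (e * (2 ^ p - 1), (0 : N)) = ((2 * e) * (2 ^ p - 1), 0) := by
    refine Prod.ext ?_ ?_
    · simp only [Prod.smul_mk, nsmul_eq_mul, Nat.cast_ofNat]; ring
    · simp
  rwa [h1] at h

theorem der_sq (D : Derivation (ZMod 2) (P2 σ) (P2 σ)) (f : P2 σ) : D (f ^ 2) = 0 := by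
  rw [sq, Derivation.leibniz]
  exact p2_add_self _

theorem der_sq_pow (D : Derivation (ZMod 2) (P2 σ) (P2 σ)) (f : P2 σ) (k : ℕ) :
    D ((f ^ 2) ^ k) = 0 := by
  rw [Derivation.leibniz_pow, der_sq, smul_zero, smul_zero]

theorem der_op_fr (D : Derivation (ZMod 2) (P2 σ) (P2 σ)) (a b : ℕ → P2 σ) (n : ℕ) :
    D (op (fr a) b n) = op (fr a) (fun n => D (b n)) n := by
  simp only [op, map_sum, fr]
  refine sum_congr rfl fun p _ => ?_
  rw [Derivation.leibniz, der_sq_pow, smul_zero, add_zero, smul_eq_mul]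

theorem der_op_succ (D : Derivation (ZMod 2) (P2 σ) (P2 σ)) (a b : ℕ → P2 σ) (hb : b 0 = 1)
    (n : ℕ) : D (op a b (n + 1)) = op (fr a) (fun n => D (b (n + 1))) n + D (a (n + 1)) := by
  have h := congrFun (tl_op a b) n
  simp only [tl, Pi.add_apply, hb, one_mul] at h
  rw [h, map_add, der_op_fr]
  rfl

end general

section weights

variable {K : Type} {N : Type*} [AddCommMonoid N] {σ : Type*}

/-- t-degree of the n-th coordinate of each kind -/
def tk : Kd → ℕ → ℤ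
  | .un, n => 2 ^ n
  | .tw, n => 2 ^ (n + 1)
  | .af, n => 2 ^ (n + 1)

/-- weight functions -/
def wG (κ : K → Kd) (ω : K → N) (ss : N) : Vr K → ℤ × N
  | .x _ n => (2 ^ (n + 1) - 1, 0)
  | .s _ n => (2 ^ (n + 1), ss)
  | .y c n => (tk (κ c) n, ω c)

/-- homogeneous group points -/
def PMw (w : σ → ℤ × N) (ss : N) (γ : Tg (P2 σ)) : Prop :=
  (∀ n, IW w (γ.g n) (2 ^ n - 1, 0)) ∧ (∀ n, IW w (γ.s n) (2 ^ (n + 1), ss))

/-- homogeneous coefficient points -/
def PYw (w : σ → ℤ × N) (κ : K → Kd) (ω : K → N) (y : K → ℕ → P2 σ) : Prop :=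
  ∀ c n, IW w (y c n) (tk (κ c) n, ω c)

theorem PMw_mul (w : σ → ℤ × N) (ss : N) (a b : Tg (P2 σ)) (ha : PMw w ss a)
    (hb : PMw w ss b) : PMw w ss (a * b) := by
  have h0 : ∀ p, IW w (a.g p) (1 * (2 ^ p - 1), 0) := fun p => by
    rw [one_mul]; exact ha.1 p
  refine ⟨fun n => ?_, fun n => ?_⟩
  · have := IW_op (1 : ℤ) (-1) 0 h0 (b := b.g) (fun i => by
      have := hb.1 i
      rwa [show (1 : ℤ) * 2 ^ i + -1 = 2 ^ i - 1 by ring]) n
    rw [show (1 : ℤ) * 2 ^ n + -1 = 2 ^ n - 1 by ring] at this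
    exact this
  · rw [mul_s, Pi.add_apply]
    apply IsWeightedHomogeneous.add _ (ha.2 n)
    have := IW_op (2 * 1 : ℤ) 0 ss (IW_fr 1 h0) (b := b.s) (fun i => by
      have := hb.2 i
      rwa [show (2 * 1 : ℤ) * 2 ^ i + 0 = 2 ^ (i + 1) by ring]) n
    rw [show (2 * 1 : ℤ) * 2 ^ n + 0 = 2 ^ (n + 1) by ring] at this
    exact this

theorem PYw_act (w : σ → ℤ × N) (ss : N) (κ : K → Kd) (ω : K → N)
    (haf : ∀ c, κ c = .af → ω c = ss) (γ : Tg (P2 σ)) (y : K → ℕ → P2 σ)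
    (hγ : PMw w ss γ) (hy : PYw w κ ω y) : PYw w κ ω (act κ γ y) := by
  have h0 : ∀ p, IW w (γ.g p) (1 * (2 ^ p - 1), 0) := fun p => by
    rw [one_mul]; exact hγ.1 p
  intro c n
  have hyc := hy c
  have hafc := haf c
  simp only [act]
  generalize κ c = k at hyc hafc
  cases k
  · have := IW_op (1 : ℤ) 0 (ω c) h0 (b := y c) (fun i => by
      have := hyc i
      simp only [tk] at this
      rwa [show (1 : ℤ) * 2 ^ i + 0 = 2 ^ i by ring]) n
    rw [show (1 : ℤ) * 2 ^ n + 0 = 2 ^ n by ring] at this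
    exact this
  · have := IW_op (2 * 1 : ℤ) 0 (ω c) (IW_fr 1 h0) (b := y c) (fun i => by
      have := hyc i
      simp only [tk] at this
      rwa [show (2 * 1 : ℤ) * 2 ^ i + 0 = 2 ^ (i + 1) by ring]) n
    rw [show (2 * 1 : ℤ) * 2 ^ n + 0 = 2 ^ (n + 1) by ring] at this
    exact this
  · have := IW_op (2 * 1 : ℤ) 0 (ω c) (IW_fr 1 h0) (b := y c) (fun i => by
      have := hyc i
      simp only [tk] at this
      rwa [show (2 * 1 : ℤ) * 2 ^ i + 0 = 2 ^ (i + 1) by ring]) n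
    rw [show (2 * 1 : ℤ) * 2 ^ n + 0 = 2 ^ (n + 1) by ring] at this
    simp only [act1, Pi.add_apply]
    refine IsWeightedHomogeneous.add this ?_
    have h2 := hγ.2 n
    rw [hafc rfl]
    exact h2

theorem PMw_e1 (w : σ → ℤ × N) (n : ℕ) : IW w (e1 n : P2 σ) (2 ^ n - 1, 0) := by
  simp only [e1]
  split_ifs with h
  · subst h
    rw [show ((2 : ℤ) ^ 0 - 1, (0 : N)) = 0 by simp]
    exact IW.one' w
  · exact IW.zero' _ _

theorem PMw_one (w : σ → ℤ × N) (ss : N) : PMw w ss (1 : Tg (P2 σ)) :=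
  ⟨fun n => PMw_e1 w n, fun _ => IW.zero' _ _⟩

theorem PMw_lin (w : σ → ℤ × N) (ss : N) (γ : Tg (P2 σ)) (h : PMw w ss γ) :
    PMw w ss (lin γ) := ⟨h.1, fun _ => IW.zero' _ _⟩

theorem uni_PM (κ : K → Kd) (ω : K → N) (ss : N) (a : ℕ) :
    PMw (wG κ ω ss) ss ((uni K).1 a) := by
  refine ⟨fun n => ?_, fun n => isWeightedHomogeneous_X _ _ _⟩
  cases n with
  | zero =>
    rw [show ((2 : ℤ) ^ 0 - 1, (0 : N)) = 0 by simp]
    exact IW.one' (wG κ ω ss)
  | succ n => exact isWeightedHomogeneous_X _ _ _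

theorem uni_PY (κ : K → Kd) (ω : K → N) (ss : N) :
    PYw (wG κ ω ss) κ ω (uni K).2 := fun _ _ => isWeightedHomogeneous_X _ _ _

theorem IW_ev {w : σ → ℤ × N} {ss : N} {κ : K → Kd} {ω : K → N} {z : Pt K (P2 σ)}
    (h1 : ∀ a, PMw w ss (z.1 a)) (h2 : PYw w κ ω z.2) {f : RR K} {m : ℤ × N}
    (hf : IW (wG κ ω ss) f m) : IW w (ev z f) m := by
  refine IW.aeval' (AddMonoidHom.id (ℤ × N)) (ev z) (w := wG κ ω ss) (w' := w) ?_ hf
  intro v
  rw [ev_X]
  cases v with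
  | x a n => exact (h1 a).1 (n + 1)
  | s a n => exact (h1 a).2 n
  | y c n => exact h2 c n

theorem IW_dd {κ : K → Kd} {ω : K → N} {ss : N} (haf : ∀ c, κ c = .af → ω c = ss)
    {q : ℕ} {f : RR K} {m : ℤ × N} (hf : IW (wG κ ω ss) f m) :
    IW (wG κ ω ss) (dd κ q f) m := by
  rw [dd_apply]
  apply IsWeightedHomogeneous.sum
  intro j _
  have := fc_pres (ac := act κ) (PMw (wG κ ω ss) ss) (PYw (wG κ ω ss) κ ω)
    (PMw_mul _ _) (PYw_act _ _ _ _ haf) q j (uni K) (uni_PM κ ω ss) (uni_PY κ ω ss)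
  exact IW_ev this.1 this.2 hf

theorem IW_dm {κ : K → Kd} {ω : K → N} {ss : N} (haf : ∀ c, κ c = .af → ω c = ss)
    {q : ℕ} {f : RR K} {m : ℤ × N} (hf : IW (wG κ ω ss) f m) :
    IW (wG κ ω ss) (dm κ q f) m := by
  cases q with
  | zero => exact IW.zero' _ _
  | succ q => exact IW_dd haf hf

theorem IW_hh {ω : Option K → N} {ss : N} (hn : ω none = ss)
    {q : ℕ} {f : RR (Option K)} {m : ℤ × N} (hf : IW (wG kE ω ss) f m) :
    IW (wG kE ω ss) (hh K q f) m := by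
  have haf : ∀ c, (kE : Option K → Kd) c = .af → ω c = ss := by
    intro c hc
    cases c with
    | none => exact hn
    | some c => exact absurd hc (by simp [kE])
  rw [hh_apply]
  apply IsWeightedHomogeneous.sum
  intro j _
  have := prm_pres (ac := act kE) (ln := lin) (bs := bs) (tr := tr)
    (PMw (wG kE ω ss) ss) (PYw (wG kE ω ss) kE ω)
    (PYw_act _ _ _ _ haf) (PMw_lin _ _) (by
      intro y hy c n
      cases c with
      | none => exact IW.zero' _ _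
      | some c => exact hy (some c) n) (by
      intro y hy
      refine ⟨fun n => PMw_e1 _ n, fun n => ?_⟩
      have := hy none n
      rw [hn] at this
      exact this) q j (uni (Option K)) (uni_PM kE ω ss) (uni_PY kE ω ss)
  exact IW_ev this.1 this.2 hf

theorem IW_hm {ω : Option K → N} {ss : N} (hn : ω none = ss)
    {q : ℕ} {f : RR (Option K)} {m : ℤ × N} (hf : IW (wG kE ω ss) f m) :
    IW (wG kE ω ss) (hm K q f) m := by
  cases q with
  | zero => exact IW.zero' _ _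
  | succ q => exact IW_hh hn hf

theorem IW_cut {κ : K → Kd} {ω : K → N} {ss : N} {q : ℕ} {f : RR K} {m : ℤ × N}
    (hf : IW (wG κ ω ss) f m) : IW (wG κ ω ss) (cut K q f) m := by
  change IW (wG κ ω ss) (ev (cpt q (uni K)) f) m
  have h2 : PYw (wG κ ω ss) κ ω (cpt q (uni K)).2 := uni_PY κ ω ss
  refine IW_ev (z := cpt q (uni K)) ?_ h2 hf
  intro a
  simp only [cpt]
  split_ifs
  · exact uni_PM κ ω ss a
  · exact PMw_one _ _

theorem cut_cut (q : ℕ) (f : RR K) : cut K q (cut K q f) = cut K q f := by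
  change ev (cpt q (uni K)) (cut K q f) = ev (cpt q (uni K)) f
  rw [ev_cut]
  congr 2
  refine Prod.ext ?_ rfl
  funext a
  simp only [cpt]
  split_ifs <;> rfl

/-- the derivation x ↦ s -/
noncomputable def DX (K : Type) : Derivation (ZMod 2) (RR K) (RR K) :=
  mkDerivation (ZMod 2) (fun v => match v with
    | .x a n => X (.s a n)
    | .s _ _ => 0
    | .y _ _ => 0)

theorem DX_x (a n : ℕ) : DX K (X (.x a n)) = X (.s a n) := mkDerivation_X _ _ _
theorem DX_s (a n : ℕ) : DX K (X (.s a n)) = 0 := mkDerivation_X _ _ _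
theorem DX_y (c : K) (n : ℕ) : DX K (X (.y c n)) = 0 := mkDerivation_X _ _ _

theorem DX_DX (f : RR K) : DX K (DX K f) = 0 := by
  apply der_der
  intro v
  cases v with
  | x a n => rw [DX_x, DX_s]
  | s a n => rw [DX_s, map_zero]
  | y c n => rw [DX_y, map_zero]

/-- tangent group points -/
def TM (D : Derivation (ZMod 2) (P2 σ) (P2 σ)) (γ : Tg (P2 σ)) : Prop :=
  (∀ n, D (γ.g (n + 1)) = γ.s n) ∧ (∀ n, D (γ.s n) = 0)

/-- tangent coefficient points -/
def TY (D : Derivation (ZMod 2) (P2 σ) (P2 σ)) (y : K → ℕ → P2 σ) : Prop :=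
  ∀ c n, D (y c n) = 0

theorem op_zero_fun {A : Type*} [CommRing A] (a : ℕ → A) (n : ℕ) :
    op a (fun _ => 0) n = 0 := by
  simp [op]

theorem TM_mul (D : Derivation (ZMod 2) (P2 σ) (P2 σ)) (a b : Tg (P2 σ)) (ha : TM D a)
    (hb : TM D b) : TM D (a * b) := by
  refine ⟨fun n => ?_, fun n => ?_⟩
  · rw [mul_g, mul_s, der_op_succ D a.g b.g b.h, ha.1, Pi.add_apply]
    congr 2
    funext n
    exact hb.1 n
  · rw [mul_s, Pi.add_apply, map_add, der_op_fr, ha.2, add_zero]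
    have : (fun n => D (b.s n)) = fun _ => 0 := by funext n; exact hb.2 n
    rw [this, op_zero_fun]

theorem TY_act (D : Derivation (ZMod 2) (P2 σ) (P2 σ)) (γ : Tg (P2 σ)) (y : K → ℕ → P2 σ)
    (hy : TY D y) : TY D (act (fun _ => .tw) γ y) := by
  intro c n
  simp only [act, act1]
  rw [der_op_fr]
  have : (fun n => D (y c n)) = fun _ => 0 := by funext n; exact hy c n
  rw [this, op_zero_fun]

theorem DX_ev {L : Type} {z : Pt K (RR L)} (D : Derivation (ZMod 2) (RR L) (RR L))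
    (h1 : ∀ a, TM D (z.1 a)) (h2 : TY D z.2)
    (f : RR K) : D (ev z f) = ev z (DX K f) := by
  apply der_hom
  intro v
  cases v with
  | x a n => rw [DX_x, ev_X, ev_X]; exact (h1 a).1 n
  | s a n => rw [DX_s, ev_X, map_zero]; exact (h1 a).2 n
  | y c n => rw [DX_y, ev_X, map_zero]; exact h2 c n

theorem uni_TM (a : ℕ) : TM (DX K) ((uni K).1 a) := ⟨fun n => DX_x a n, fun n => DX_s a n⟩
theorem uni_TY : TY (DX K) (uni K).2 := fun c n => DX_y c n

theorem DX_dd (q : ℕ) (f : RR K) :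
    DX K (dd (fun _ => .tw) q f) = dd (fun _ => .tw) q (DX K f) := by
  rw [dd_apply, dd_apply, map_sum]
  refine sum_congr rfl fun j _ => ?_
  have := fc_pres (ac := act (K := K) (A := RR K) (fun _ => .tw)) (TM (DX K)) (TY (DX K))
    (TM_mul (DX K)) (fun g y _ hy => TY_act (DX K) g y hy) q j (uni K) uni_TM uni_TY
  exact DX_ev _ this.1 this.2 f

theorem DX_cut (q : ℕ) (f : RR K) : DX K (cut K q f) = cut K q (DX K f) := by
  change DX K (ev (cpt q (uni K)) f) = ev (cpt q (uni K)) (DX K f)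
  have h2 : TY (DX K) (cpt q (uni K)).2 := uni_TY
  refine DX_ev (z := cpt q (uni K)) _ (fun a => ?_) h2 f
  simp only [cpt]
  split_ifs
  · exact uni_TM a
  · refine ⟨fun n => ?_, fun n => ?_⟩
    · simp only [one_g, e1, one_s, Pi.zero_apply]
      rw [if_neg (by omega), map_zero]
    · simp only [one_s, Pi.zero_apply, map_zero]

theorem IW_DX {κ : K → Kd} {ω : K → N} {ss : N} {f : RR K} {m : ℤ × N}
    (hf : IW (wG κ ω ss) f m) : IW (wG κ ω ss) (DX K f) (m + (1, ss)) := by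
  apply IW.der' (1, ss) (DX K) _ hf
  intro v
  cases v with
  | x a n =>
    rw [DX_x]
    have := isWeightedHomogeneous_X (ZMod 2) (wG κ ω ss) (Vr.s a n : Vr K)
    have h2 : wG κ ω ss (Vr.s a n) = wG κ ω ss (Vr.x a n) + (1, ss) := by
      simp only [wG]
      refine Prod.ext ?_ ?_
      · simp
      · simp
    rwa [h2] at this
  | s a n => rw [DX_s]; exact IW.zero' _ _
  | y c n => rw [DX_y]; exact IW.zero' _ _

end weights

section liftlem

variable {R : Type*} [AddCommGroup R]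

/-- abstract exactness -/
def ExA (S : ℕ → ℕ → R → Prop) (d dm : ℕ → R →+ R) (q j : ℕ) : Prop :=
  ∀ f, S q j f → d q f = 0 → ∃ h, S (q - 1) j h ∧ dm q h = f

theorem lift_lemma (S : ℕ → ℕ → R → Prop) (d dm : ℕ → R →+ R) (D : R →+ R)
    (hdm0 : dm 0 = 0) (hdm1 : ∀ q, dm (q + 1) = d q)
    (hsub : ∀ q j f g, S q j f → S q j g → S q j (f - g))
    (hd : ∀ q j f, S q j f → S (q + 1) j (d q f))
    (hD : ∀ q j f, S q j f → S q (j + 1) (D f))
    (hDD : ∀ f, D (D f) = 0)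
    (hcomm : ∀ q f, D (d q f) = d q (D f))
    (hdd : ∀ q j f, S q j f → d (q + 1) (d q f) = 0)
    (hDR : ∀ q j f, S q (j + 1) f → D f = 0 → ∃ h, S q j h ∧ D h = f) :
    ∀ (q j : ℕ) (y : R), S q j y → D (d q y) = 0 →
      (∀ k, k ≤ q → ExA S d dm (q - k) (j + 1 + k)) →
      ∃ g h, S q j g ∧ D g = 0 ∧ d q g = d q y ∧ S (q - 1) j h ∧ y = g + dm q h := by
  intro q
  induction q with
  | zero =>
    intro j y hy hDy hex
    obtain ⟨h, _, hh⟩ := hex 0 le_rfl (D y) (hD _ _ _ hy) (by rw [← hcomm]; exact hDy)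
    rw [Nat.sub_zero, hdm0, AddMonoidHom.zero_apply] at hh
    have h0 : S 0 j 0 := by have := hsub 0 j y y hy hy; rwa [sub_self] at this
    exact ⟨y, 0, hy, hh.symm, rfl, h0, by rw [map_zero, add_zero]⟩
  | succ q ih =>
    intro j y hy hDy hex
    obtain ⟨h1, hh1, hh1'⟩ := hex 0 (by omega) (D y) (hD _ _ _ hy) (by
      rw [Nat.sub_zero, ← hcomm]; exact hDy)
    rw [Nat.sub_zero, hdm1] at hh1'
    rw [Nat.sub_zero, Nat.add_sub_cancel, add_zero] at hh1
    obtain ⟨g1, h2, hg1, hDg1, hdg1, _, _⟩ := ih (j + 1) h1 hh1 (by rw [hh1', hDD])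
      (fun k hk => by
        have := hex (k + 1) (by omega)
        rwa [show q + 1 - (k + 1) = q - k by omega,
          show j + 1 + (k + 1) = j + 1 + 1 + k by omega] at this)
    obtain ⟨h3, hh3, hh3'⟩ := hDR _ _ _ hg1 hDg1
    refine ⟨y - d q h3, h3, hsub _ _ _ _ hy (hd _ _ _ hh3), ?_, ?_, hh3, ?_⟩
    · rw [map_sub, hcomm, hh3', hdg1, hh1', sub_self]
    · rw [map_sub, hdd _ _ _ hh3, sub_zero]
    · rw [hdm1]; abel

end liftlem

end Pool.Agent.W624.Stz
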