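import Mathlib

set_option autoImplicit false
set_option linter.unusedSectionVars false

namespace Pool.Agent.W624.Stz

open Finset MvPolynomial

section wt

variable {σ τ M N : Type*} [AddCommMonoid M] [AddCommMonoid N]

theorem wmap (h : M →+ N) (w : σ → M) (e : σ →₀ ℕ) :
    Finsupp.weight (fun v => h (w v)) e = h (Finsupp.weight w e) := by
  simp only [Finsupp.weight_apply, Finsupp.sum, map_sum, map_nsmul]

/-- abbreviation -/
abbrev IW (w : σ → M) (f : MvPolynomial σ (ZMod 2)) (m : M) : Prop :=
  IsWeightedHomogeneous w f m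

theorem IW.coarse {w : σ → M} {f : MvPolynomial σ (ZMod 2)} {m : M} (h : M →+ N)
    (hf : IW w f m) : IW (fun v => h (w v)) f (h m) := by
  intro d hd
  rw [wmap, hf hd]

theorem IW.zero' (w : σ → M) (m : M) : IW w (0 : MvPolynomial σ (ZMod 2)) m :=
  isWeightedHomogeneous_zero _ w m

theorem IW.one' (w : σ → M) : IW w (1 : MvPolynomial σ (ZMod 2)) 0 :=
  isWeightedHomogeneous_one _ w

theorem IW.aeval' {w : σ → M} {w' : τ → N} (h : M →+ N)
    (θ : MvPolynomial σ (ZMod 2) →ₐ[ZMod 2] MvPolynomial τ (ZMod 2))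
    (hθ : ∀ v, IW w' (θ (X v)) (h (w v)))
    {f : MvPolynomial σ (ZMod 2)} {m : M} (hf : IW w f m) : IW w' (θ f) (h m) := by
  rw [f.as_sum, map_sum]
  apply IsWeightedHomogeneous.sum
  intro e he
  rw [mem_support_iff] at he
  have hm := hf he
  rw [monomial_eq, map_mul, algHom_C, Finsupp.prod, map_prod]
  have h1 : IW w' (algebraMap (ZMod 2) (MvPolynomial τ (ZMod 2)) (coeff e f)) 0 :=
    isWeightedHomogeneous_C w' _
  have h2 : IW w' (∏ v ∈ e.support, θ (X v ^ e v)) (∑ v ∈ e.support, e v • h (w v)) := by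
    apply IsWeightedHomogeneous.prod
    intro v _
    rw [map_pow]
    exact (hθ v).pow (e v)
  have h3 := IsWeightedHomogeneous.mul h1 h2
  rw [zero_add] at h3
  have h4 : ∑ v ∈ e.support, e v • h (w v) = h m := by
    rw [← hm, Finsupp.weight_apply, Finsupp.sum, map_sum]
    simp only [map_nsmul]
  rw [h4] at h3
  exact h3

theorem IW.der' {w : σ → M} (δ : M)
    (D : Derivation (ZMod 2) (MvPolynomial σ (ZMod 2)) (MvPolynomial σ (ZMod 2)))
    (hD : ∀ v, IW w (D (X v)) (w v + δ))
    {f : MvPolynomial σ (ZMod 2)} {m : M} (hf : IW w f m) : IW w (D f) (m + δ) := by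
  classical
  have key : ∀ e : σ →₀ ℕ, IW w (D (monomial e 1)) (Finsupp.weight w e + δ) := by
    intro e
    induction e using Finsupp.induction_linear with
    | zero =>
      have : (monomial (0 : σ →₀ ℕ) (1 : ZMod 2)) = 1 := rfl
      rw [this, Derivation.map_one_eq_zero]
      exact IW.zero' _ _
    | add e e' h h' =>
      have : (monomial (e + e') (1 : ZMod 2)) = monomial e 1 * monomial e' 1 := by
        rw [monomial_mul, one_mul]
      rw [this, Derivation.leibniz, smul_eq_mul, smul_eq_mul, map_add]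
      apply IsWeightedHomogeneous.add
      · have h1 := IsWeightedHomogeneous.mul
          (isWeightedHomogeneous_monomial w e (1 : ZMod 2) rfl) h'
        rwa [← add_assoc] at h1
      · have h1 := IsWeightedHomogeneous.mul
          (isWeightedHomogeneous_monomial w e' (1 : ZMod 2) rfl) h
        rwa [← add_assoc, add_comm (Finsupp.weight w e')] at h1
    | single v n =>
      rw [← X_pow_eq_monomial, Derivation.leibniz_pow]
      rcases Nat.eq_zero_or_pos n with rfl | hn
      · rw [zero_smul]; exact IW.zero' _ _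
      · obtain ⟨k, rfl⟩ : ∃ k, n = k + 1 := ⟨n - 1, by omega⟩
        rw [Nat.add_sub_cancel, smul_eq_mul, nsmul_eq_mul]
        have h1 : IW w (((k + 1 : ℕ) : MvPolynomial σ (ZMod 2))) 0 := by
          have := isWeightedHomogeneous_C (R := ZMod 2) w ((k + 1 : ℕ) : ZMod 2)
          rwa [map_natCast] at this
        have h2 := IsWeightedHomogeneous.mul h1
          (IsWeightedHomogeneous.mul ((isWeightedHomogeneous_X (ZMod 2) w v).pow k) (hD v))
        have h3 : 0 + (k • w v + (w v + δ)) = Finsupp.weight w (Finsupp.single v (k + 1)) + δ := by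
          rw [zero_add, ← add_assoc, Finsupp.weight_apply, Finsupp.sum_single_index (by simp),
            succ_nsmul]
        rwa [h3] at h2
  rw [f.as_sum, map_sum]
  apply IsWeightedHomogeneous.sum
  intro e he
  rw [mem_support_iff] at he
  have hm := hf he
  have h0 : monomial e (coeff e f) = coeff e f • (monomial e 1 : MvPolynomial σ (ZMod 2)) := by
    rw [smul_monomial, smul_eq_mul, mul_one]
  rw [h0, D.map_smul]
  have h1 := key e
  rw [hm] at h1
  exact (weightedHomogeneousSubmodule (ZMod 2) w (m + δ)).smul_mem _ h1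

/-- component -/
noncomputable abbrev cm (w : σ → M) (m : M) :
    MvPolynomial σ (ZMod 2) →ₗ[ZMod 2] MvPolynomial σ (ZMod 2) :=
  weightedHomogeneousComponent w m

theorem cm_IW (w : σ → M) (m : M) (f : MvPolynomial σ (ZMod 2)) : IW w (cm w m f) m :=
  weightedHomogeneousComponent_isWeightedHomogeneous m f

theorem cm_same {w : σ → M} {m : M} {f : MvPolynomial σ (ZMod 2)} (h : IW w f m) :
    cm w m f = f := IsWeightedHomogeneous.weightedHomogeneousComponent_same h

theorem cm_ne {w : σ → M} {m : M} {f : MvPolynomial σ (ZMod 2)} (h : IW w f m) {n : M}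
    (hn : n ≠ m) : cm w n f = 0 := IsWeightedHomogeneous.weightedHomogeneousComponent_ne n h hn

theorem cm_other {w : σ → M} {w' : σ → N} {m : M} {n : N} {f : MvPolynomial σ (ZMod 2)}
    (h : IW w f m) : IW w (cm w' n f) m := by
  classical
  intro d hd
  apply h
  rw [coeff_weightedHomogeneousComponent] at hd
  split_ifs at hd with h1
  · exact hd
  · exact absurd rfl hd

theorem cm_comm {w : σ → M} {w' : τ → N} (h : M → N) (hinj : Function.Injective h)
    (L : MvPolynomial σ (ZMod 2) →ₗ[ZMod 2] MvPolynomial τ (ZMod 2))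
    (hL : ∀ f m, IW w f m → IW w' (L f) (h m)) (f : MvPolynomial σ (ZMod 2)) (m : M) :
    cm w' (h m) (L f) = L (cm w m f) := by
  induction f using MvPolynomial.induction_on' with
  | monomial u a =>
    have h1 : IW w (monomial u a) (Finsupp.weight w u) :=
      isWeightedHomogeneous_monomial w u a rfl
    by_cases hm : Finsupp.weight w u = m
    · rw [hm] at h1
      rw [cm_same h1, cm_same (hL _ _ h1)]
    · rw [cm_ne h1 (Ne.symm hm), cm_ne (hL _ _ h1), map_zero]
      intro h2
      exact hm (hinj h2).symm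
  | add p q hp hq => rw [map_add, map_add, hp, hq, map_add, map_add]

theorem cm_notin {w : σ → M} {w' : τ → N} (h : M → N) (n : N) (hn : ∀ m, h m ≠ n)
    (L : MvPolynomial σ (ZMod 2) →ₗ[ZMod 2] MvPolynomial τ (ZMod 2))
    (hL : ∀ f m, IW w f m → IW w' (L f) (h m)) (f : MvPolynomial σ (ZMod 2)) :
    cm w' n (L f) = 0 := by
  induction f using MvPolynomial.induction_on' with
  | monomial u a =>
    have h1 : IW w (monomial u a) (Finsupp.weight w u) :=
      isWeightedHomogeneous_monomial w u a rfl
    exact cm_ne (hL _ _ h1) (hn _).symm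
  | add p q hp hq => rw [map_add, map_add, hp, hq, add_zero]

theorem cm_sum (w : σ → M) (f : MvPolynomial σ (ZMod 2)) :
    ∃ s : Finset M, f = ∑ m ∈ s, cm w m f := by
  classical
  refine ⟨f.support.image (Finsupp.weight w), ?_⟩
  ext d
  rw [coeff_sum]
  simp only [coeff_weightedHomogeneousComponent]
  rw [Finset.sum_ite_eq]
  split_ifs with h
  · rfl
  · by_contra h1
    exact h (mem_image_of_mem _ (mem_support_iff.mpr h1))

theorem IW.uniq {w : σ → M} {f : MvPolynomial σ (ZMod 2)} {m n : M} (h1 : IW w f m)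
    (h2 : IW w f n) (hmn : m ≠ n) : f = 0 := by
  by_contra h
  exact hmn (IsWeightedHomogeneous.inj_right h h1 h2)

theorem IW.div {w : σ → M} (v : σ) {f : MvPolynomial σ (ZMod 2)} {m : M}
    (h : IW w (X v * f) m) : ∀ e, coeff e f ≠ 0 → w v + Finsupp.weight w e = m := by
  intro e he
  have h1 : coeff (e + Finsupp.single v 1) (X v * f) ≠ 0 := by
    rw [mul_comm, coeff_mul_X]
    exact he
  have h2 := h h1
  rw [map_add, Finsupp.weight_apply w (Finsupp.single v 1),
    Finsupp.sum_single_index (by simp), one_smul, add_comm] at h2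
  exact h2

end wt

end Pool.Agent.W624.Stz
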